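import Pool.Agent.H549R2.PM6
import Pool.Agent.H527R2.SharpP

/-!
# The number of satisfying assignments of a formula from 0-1 permanents
-/

namespace Pool.Agent.H549R2.PM

open Finset Pool.Agent.H549R2.Convex Pool.Agent.NPC.Cnt

/-- removing duplicates -/
def dd (w : List ℕ) : List ℕ := w.foldr (fun x s => bif decide (x ∈ s) then s else x :: s) []

theorem mem_dd (w : List ℕ) (x : ℕ) : x ∈ dd w ↔ x ∈ w := by
  induction w with
  | nil => simp [dd]
  | cons a w ih =>
    have h : dd (a :: w) = bif decide (a ∈ dd w) then dd w else a :: dd w := rfl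
    rw [h]
    by_cases ha : a ∈ dd w
    · rw [decide_eq_true ha, cond_true, List.mem_cons, ih]
      constructor
      · exact Or.inr
      · rintro (rfl | h)
        · exact ih.1 ha
        · exact h
    · rw [decide_eq_false ha, cond_false, List.mem_cons, List.mem_cons, ih]

theorem dd_nodup (w : List ℕ) : (dd w).Nodup := by
  induction w with
  | nil => simp [dd]
  | cons a w ih =>
    have h : dd (a :: w) = bif decide (a ∈ dd w) then dd w else a :: dd w := rfl
    rw [h]
    by_cases ha : a ∈ dd w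
    · rw [decide_eq_true ha, cond_true]
      exact ih
    · rw [decide_eq_false ha, cond_false]
      exact List.nodup_cons.2 ⟨ha, ih⟩

/-- the list of the variables of a formula -/
def vsL (φ : CNF ℕ) : List ℕ := dd (φ.flatten.map Prod.snd)

theorem mem_vsL (φ : CNF ℕ) (x : ℕ) : x ∈ vsL φ ↔ x ∈ vars φ := by
  rw [vsL, mem_dd, vars, List.mem_toFinset]

/-- the incidence of variables, clauses and values -/
def stF (φ : CNF ℕ) (v j : ℕ) (b : Bool) : Bool :=
  bif decide (j = φ.length) then decide (v = (vsL φ).length) && b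
  else decide (v < (vsL φ).length) && decide ((b, (vsL φ).getD v 0) ∈ φ.getD j [])

theorem count_eq (φ : CNF ℕ) :
    (univ.filter (fun β : Fin ((vsL φ).length + 1) → Bool =>
      ∀ j : Fin (φ.length + 1), ∃ v : Fin ((vsL φ).length + 1), stF φ v.val j.val (β v) = true)).card =
      satCount φ := by
  classical
  set n := (vsL φ).length with hn
  have hst1 : ∀ (v : ℕ) (b : Bool), stF φ v φ.length b = true ↔ v = n ∧ b = true := by
    intro v b
    rw [stF, decide_eq_true rfl, cond_true, Bool.and_eq_true, decide_eq_true_eq]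
  have hst2 : ∀ (v j : ℕ) (b : Bool) (hj : j < φ.length), stF φ v j b = true ↔
      ∃ h : v < n, (b, (vsL φ)[v]) ∈ φ[j] := by
    intro v j b hj
    rw [stF, decide_eq_false (by omega), cond_false, Bool.and_eq_true, decide_eq_true_eq,
      decide_eq_true_eq, List.getD_eq_getElem φ _ hj]
    constructor
    · rintro ⟨h1, h2⟩
      rw [List.getD_eq_getElem _ _ h1] at h2
      exact ⟨h1, h2⟩
    · rintro ⟨h1, h2⟩
      refine ⟨h1, ?_⟩
      rw [List.getD_eq_getElem _ _ h1]
      exact h2
  have hnd : ∀ (i j : ℕ) (hi : i < n) (hj : j < n), (vsL φ)[i] = (vsL φ)[j] → i = j :=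
    fun i j hi hj h => (List.Nodup.getElem_inj_iff (dd_nodup _)).1 h
  rw [satCount]
  refine Finset.card_bij
    (fun β _ => (vars φ).filter (fun x => ∃ v : Fin (n + 1), ∃ h : v.val < n,
      (vsL φ)[v.val] = x ∧ β v = true)) ?_ ?_ ?_
  · intro β hβ
    rw [mem_filter] at hβ
    rw [mem_filter, mem_powerset]
    refine ⟨Finset.filter_subset _ _, ?_⟩
    intro c hc
    obtain ⟨j, hj, rfl⟩ := List.mem_iff_getElem.1 hc
    obtain ⟨v, hv⟩ := hβ.2 ⟨j, by omega⟩
    rw [hst2 _ _ _ hj] at hv
    obtain ⟨h1, h2⟩ := hv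
    refine ⟨_, h2, ?_⟩
    simp only
    rw [Bool.eq_iff_iff, decide_eq_true_eq, mem_filter]
    constructor
    · intro h
      exact ⟨(mem_vsL φ _).1 (List.getElem_mem _), v, h1, rfl, h⟩
    · rintro ⟨_, v', h3, h4, h5⟩
      have h6 : v' = v := Fin.ext (hnd _ _ h3 h1 h4)
      rw [← h6]
      exact h5
  · intro β hβ β' hβ' h
    rw [mem_filter] at hβ hβ'
    have hlast : ∀ β : Fin (n + 1) → Bool, (∀ j : Fin (φ.length + 1), ∃ v : Fin (n + 1),
        stF φ v.val j.val (β v) = true) → ∀ v : Fin (n + 1), v.val = n → β v = true := by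
      intro β hβ v hv
      obtain ⟨v', hv'⟩ := hβ ⟨φ.length, by omega⟩
      rw [hst1] at hv'
      have : v' = v := Fin.ext (hv'.1.trans hv.symm)
      rw [← this]
      exact hv'.2
    have hmem : ∀ (β : Fin (n + 1) → Bool) (v : Fin (n + 1)) (hv : v.val < n),
        (vsL φ)[v.val] ∈ (vars φ).filter (fun x => ∃ v : Fin (n + 1), ∃ h : v.val < n,
          (vsL φ)[v.val] = x ∧ β v = true) ↔ β v = true := by
      intro β v hv
      rw [mem_filter]
      constructor
      · rintro ⟨_, v', h3, h4, h5⟩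
        have h6 : v' = v := Fin.ext (hnd _ _ h3 hv h4)
        rw [← h6]
        exact h5
      · intro h
        exact ⟨(mem_vsL φ _).1 (List.getElem_mem _), v, hv, rfl, h⟩
    funext v
    by_cases hv : v.val < n
    · rw [Bool.eq_iff_iff, ← hmem β v hv, ← hmem β' v hv]
      exact iff_of_eq (congrArg (fun T : Finset ℕ => (vsL φ)[v.val] ∈ T) h)
    · have hvn : v.val = n := by have := v.2; omega
      rw [hlast β hβ.2 v hvn, hlast β' hβ'.2 v hvn]
  · intro S hS
    rw [mem_filter, mem_powerset] at hS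
    refine ⟨fun v => if h : v.val < n then decide ((vsL φ)[v.val] ∈ S) else true, ?_, ?_⟩
    · rw [mem_filter]
      refine ⟨mem_univ _, fun j => ?_⟩
      by_cases hj : j.val < φ.length
      · obtain ⟨l, hl, hl2⟩ := hS.2 _ (List.getElem_mem hj)
        have hlv : l.2 ∈ vars φ := mem_vars.2 ⟨_, List.getElem_mem hj, l.1, hl⟩
        obtain ⟨v, hv, hv2⟩ := List.mem_iff_getElem.1 ((mem_vsL φ _).2 hlv)
        refine ⟨⟨v, by omega⟩, ?_⟩
        rw [hst2 _ _ _ hj]
        refine ⟨hv, ?_⟩
        simp only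
        rw [dif_pos hv, hv2, ← hl2]
        exact hl
      · have hj2 : j.val = φ.length := by have := j.2; omega
        refine ⟨⟨n, by omega⟩, ?_⟩
        rw [hj2, hst1]
        exact ⟨rfl, by simp⟩
    · ext x
      rw [mem_filter]
      constructor
      · rintro ⟨_, v, h1, h2, h3⟩
        simp only at h3
        rw [dif_pos h1, h2, decide_eq_true_eq] at h3
        exact h3
      · intro hx
        have hxv := hS.1 hx
        obtain ⟨v, hv, hv2⟩ := List.mem_iff_getElem.1 ((mem_vsL φ _).2 hxv)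
        refine ⟨hxv, ⟨v, by omega⟩, hv, hv2, ?_⟩
        simp only
        rw [dif_pos hv, hv2, decide_eq_true_eq]
        exact hx

/-- number of nodes for a formula -/
def qF (φ : CNF ℕ) : ℕ := nq (vsL φ).length φ.length

/-- number of columns of ones for a formula -/
def kF (φ : CNF ℕ) : ℕ := nK (vsL φ).length φ.length

/-- the matrices of a formula -/
def MF (φ : CNF ℕ) (t : ℕ) : List (List Bool) := MT (vsL φ).length φ.length (stF φ) t

/-- the size of the matrices -/
def rF (φ : CNF ℕ) : ℕ := 3 * qF φ + kF φ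

theorem MF_length (φ : CNF ℕ) (t : ℕ) (ht : t ≤ qF φ) : (MF φ t).length = rF φ :=
  MT_length _ _ _ t ht

theorem MF_square (φ : CNF ℕ) (t : ℕ) (ht : t ≤ qF φ) :
    ∀ r ∈ MF φ t, r.length = (MF φ t).length := MT_square _ _ _ t ht

theorem sat_eq (φ : CNF ℕ) :
    ∑ t ∈ range (qF φ + 1), (-1 : ℤ) ^ t * ((qF φ).choose t) *
      ((F (MF φ t) / (kF φ).factorial : ℕ) : ℤ) =
      ((2 ^ qF φ * (qF φ).factorial : ℕ) : ℤ) * (satCount φ : ℤ) := by
  have h := sat_from_perm (vsL φ).length φ.length (stF φ)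
  rw [count_eq] at h
  exact h

end Pool.Agent.H549R2.PM
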