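import Mathlib

/-!
# Counting bijections as coefficients, and the analytic continuation to multiplicity `-1`
-/

namespace Pool.Agent.H549R2.Convex

open Finset MvPolynomial

section Lifts

variable {C : Type*} [Fintype C] [DecidableEq C]

/-- number of permutations `e` with `τ ∘ e = p` -/
theorem card_lifts (p τ : C → ℕ) :
    (univ.filter (fun e : Equiv.Perm C => ∀ c, τ (e c) = p c)).card =
      if (∑ c, Finsupp.single (p c) 1 : ℕ →₀ ℕ) = ∑ c, Finsupp.single (τ c) 1 then
        ∏ k ∈ univ.image τ, (Fintype.card {c // τ c = k}).factorial else 0 := by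
  have hcount : ∀ (q : C → ℕ) (k : ℕ), (∑ c, Finsupp.single (q c) 1 : ℕ →₀ ℕ) k =
      Fintype.card {c // q c = k} := by
    intro q k
    rw [Finsupp.finsetSum_apply, Fintype.card_subtype, Finset.card_filter]
    exact Finset.sum_congr rfl fun c _ => by rw [Finsupp.single_apply]
  split_ifs with h
  · -- existence of a lift
    have hfib : ∀ k, Fintype.card {c // p c = k} = Fintype.card {c // τ c = k} := by
      intro k
      rw [← hcount, ← hcount, h]
    let e0 : C ≃ C := Equiv.ofFiberEquiv (f := p) (g := τ)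
      (fun k => Fintype.equivOfCardEq (hfib k))
    have he0 : ∀ c, τ (e0 c) = p c := fun c => Equiv.ofFiberEquiv_map _ c
    rw [← DomMulAct.stabilizer_card' τ, Fintype.card_subtype]
    refine Finset.card_bij (fun e _ => e0.symm.trans e) ?_ ?_ ?_
    · intro e he
      rw [mem_filter] at he ⊢
      refine ⟨mem_univ _, ?_⟩
      funext c
      simp only [Function.comp, Equiv.trans_apply]
      rw [he.2, ← he0, Equiv.apply_symm_apply]
    · intro e _ e' _ hee
      ext c
      have := congrArg (fun g : Equiv.Perm C => g (e0 c)) hee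
      simpa using this
    · intro g hg
      rw [mem_filter] at hg
      refine ⟨e0.trans g, ?_, ?_⟩
      · rw [mem_filter]
        refine ⟨mem_univ _, fun c => ?_⟩
        have := congrFun hg.2 (e0 c)
        simp only [Function.comp] at this
        rw [Equiv.trans_apply, this, he0]
      · ext c
        simp
  · rw [Finset.card_eq_zero, Finset.filter_eq_empty_iff]
    intro e _ he
    apply h
    calc (∑ c, Finsupp.single (p c) 1 : ℕ →₀ ℕ) = ∑ c, Finsupp.single (τ (e c)) 1 :=
          Finset.sum_congr rfl fun c _ => by rw [he]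
      _ = ∑ c, Finsupp.single (τ c) 1 := Equiv.sum_comp e (fun c => Finsupp.single (τ c) 1)

/-- the permanent-type count as a coefficient -/
theorem card_perm_eq_coeff (t : C → Finset ℕ) (τ : C → ℕ) :
    ((univ.filter (fun e : Equiv.Perm C => ∀ c, τ (e c) ∈ t c)).card : ℤ) =
      (∏ k ∈ univ.image τ, ((Fintype.card {c // τ c = k}).factorial : ℤ)) *
        coeff (∑ c, Finsupp.single (τ c) 1) (∏ c, ∑ k ∈ t c, (X k : MvPolynomial ℕ ℤ)) := by
  have h1 : (univ.filter (fun e : Equiv.Perm C => ∀ c, τ (e c) ∈ t c)).card =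
      ∑ p ∈ Fintype.piFinset t, (univ.filter (fun e : Equiv.Perm C => ∀ c, τ (e c) = p c)).card := by
    rw [← Finset.card_biUnion]
    · congr 1
      ext e
      simp only [mem_filter, mem_univ, true_and, mem_biUnion, Fintype.mem_piFinset]
      constructor
      · intro h
        exact ⟨fun c => τ (e c), h, fun _ => rfl⟩
      · rintro ⟨p, hp, hpe⟩ c
        rw [hpe]; exact hp c
    · intro p _ q _ hpq
      rw [Function.onFun, Finset.disjoint_left]
      intro e he he'
      simp only [mem_filter, mem_univ, true_and] at he he'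
      exact hpq (funext fun c => by rw [← he, ← he'])
  rw [h1, Finset.prod_univ_sum, coeff_sum, Finset.mul_sum]
  push_cast
  refine Finset.sum_congr rfl fun p _ => ?_
  rw [card_lifts]
  have h2 : (∏ c, (X (p c) : MvPolynomial ℕ ℤ)) = monomial (∑ c, Finsupp.single (p c) 1) 1 := by
    rw [MvPolynomial.monomial_sum_one]
    rfl
  rw [h2, coeff_monomial]
  split_ifs with h
  · push_cast
    rw [mul_one]
  · simp

end Lifts

section Expansion

/-- the multiplicity vector with `d v` columns of key `2 v` and `M` columns of key `2 v + 1` -/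
noncomputable def mvec (V : ℕ) (d : ℕ → ℕ) (M : ℕ) : ℕ →₀ ℕ :=
  ∑ v : Fin V, (Finsupp.single (2 * v.val) (d v.val) + Finsupp.single (2 * v.val + 1) M)

/-- the multiplicity vector of the keys chosen by the rows in `G` -/
noncomputable def avec (V : ℕ) (d : ℕ → ℕ) (k : Fin V → ℕ) : ℕ →₀ ℕ :=
  ∑ v : Fin V, (Finsupp.single (2 * v.val) (d v.val - k v) + Finsupp.single (2 * v.val + 1) (k v))

/-- the multiplicity vector of the keys chosen by the crossing rows -/
noncomputable def svec (V : ℕ) (M : ℕ) (k : Fin V → ℕ) : ℕ →₀ ℕ :=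
  ∑ v : Fin V, (Finsupp.single (2 * v.val) (k v) + Finsupp.single (2 * v.val + 1) (M - k v))

theorem vec_even {V : ℕ} (f g : Fin V → ℕ) (v : Fin V) :
    (∑ v : Fin V, (Finsupp.single (2 * v.val) (f v) + Finsupp.single (2 * v.val + 1) (g v)) :
      ℕ →₀ ℕ) (2 * v.val) = f v := by
  rw [Finsupp.finsetSum_apply, Finset.sum_eq_single v]
  · simp only [Finsupp.add_apply, Finsupp.single_apply]
    rw [if_true, if_neg (by omega), add_zero]
  · intro w _ hw
    simp only [Finsupp.add_apply, Finsupp.single_apply]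
    rw [if_neg (fun h => hw (Fin.ext (by omega))), if_neg (by omega), add_zero]
  · simp

theorem vec_odd {V : ℕ} (f g : Fin V → ℕ) (v : Fin V) :
    (∑ v : Fin V, (Finsupp.single (2 * v.val) (f v) + Finsupp.single (2 * v.val + 1) (g v)) :
      ℕ →₀ ℕ) (2 * v.val + 1) = g v := by
  rw [Finsupp.finsetSum_apply, Finset.sum_eq_single v]
  · simp only [Finsupp.add_apply, Finsupp.single_apply]
    rw [if_neg (by omega), if_true, zero_add]
  · intro w _ hw
    simp only [Finsupp.add_apply, Finsupp.single_apply]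
    rw [if_neg (by omega), if_neg (fun h => hw (Fin.ext (by omega))), add_zero]
  · simp

theorem svec_le_iff {V : ℕ} (d : ℕ → ℕ) (M : ℕ) (k : Fin V → ℕ) :
    svec V M k ≤ mvec V d M ↔ ∀ v, k v ≤ d v.val := by
  constructor
  · intro h v
    have := h (2 * v.val)
    rwa [svec, mvec, vec_even, vec_even (fun v => d v.val) (fun _ => M)] at this
  · intro h
    refine Finset.sum_le_sum fun v _ => add_le_add ?_ ?_
    · exact Finsupp.single_mono (h v)
    · exact Finsupp.single_mono (Nat.sub_le _ _)

theorem mvec_sub_svec {V : ℕ} (d : ℕ → ℕ) (M : ℕ) (k : Fin V → ℕ) (hk : ∀ v, k v ≤ M)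
    (hk' : ∀ v, k v ≤ d v.val) :
    mvec V d M - svec V M k = avec V d k := by
  rw [tsub_eq_iff_eq_add_of_le ((svec_le_iff d M k).2 hk')]
  rw [mvec, avec, svec, ← Finset.sum_add_distrib]
  refine Finset.sum_congr rfl fun v _ => ?_
  have h1 : d v.val = (d v.val - k v) + k v := (Nat.sub_add_cancel (hk' v)).symm
  have h2 : M = k v + (M - k v) := by have := hk v; omega
  conv_lhs => rw [h1, h2]
  rw [Finsupp.single_add, Finsupp.single_add]
  abel

theorem prod_pow_expand {V : ℕ} (M : ℕ) :
    ∏ v : Fin V, ((X (2 * v.val) + X (2 * v.val + 1)) ^ M : MvPolynomial ℕ ℤ) =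
      ∑ k ∈ Fintype.piFinset (fun _ : Fin V => range (M + 1)),
        monomial (svec V M k) (∏ v, (M.choose (k v) : ℤ)) := by
  have h : ∀ v : Fin V, ((X (2 * v.val) + X (2 * v.val + 1)) ^ M : MvPolynomial ℕ ℤ) =
      ∑ j ∈ range (M + 1), monomial (Finsupp.single (2 * v.val) j +
        Finsupp.single (2 * v.val + 1) (M - j)) (M.choose j : ℤ) := by
    intro v
    rw [add_pow]
    refine Finset.sum_congr rfl fun j _ => ?_
    rw [X_pow_eq_monomial, X_pow_eq_monomial, monomial_mul, one_mul]
    have : ((M.choose j : ℕ) : MvPolynomial ℕ ℤ) = C (M.choose j : ℤ) := by simp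
    rw [this, mul_comm, C_mul_monomial, mul_one]
  simp_rw [h]
  rw [Finset.prod_univ_sum]
  refine Finset.sum_congr rfl fun k _ => ?_
  rw [svec]
  have : ∀ (s : Finset (Fin V)), ∏ v ∈ s, (monomial (Finsupp.single (2 * v.val) (k v) +
        Finsupp.single (2 * v.val + 1) (M - k v)) (M.choose (k v) : ℤ) : MvPolynomial ℕ ℤ) =
      monomial (∑ v ∈ s, (Finsupp.single (2 * v.val) (k v) +
        Finsupp.single (2 * v.val + 1) (M - k v))) (∏ v ∈ s, (M.choose (k v) : ℤ)) := by
    intro s
    induction s using Finset.induction_on with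
    | empty => simp
    | insert a s ha ih =>
      rw [Finset.prod_insert ha, Finset.sum_insert ha, Finset.prod_insert ha, ih, monomial_mul]
  exact this univ

/-- expansion of the coefficient in the multiplicity `M` -/
theorem coeff_expand (V : ℕ) (d : ℕ → ℕ) (M : ℕ) (G : MvPolynomial ℕ ℤ) :
    coeff (mvec V d M) (G * ∏ v : Fin V, ((X (2 * v.val) + X (2 * v.val + 1)) ^ M)) =
      ∑ k ∈ Fintype.piFinset (fun v : Fin V => range (d v.val + 1)),
        (∏ v, (M.choose (k v) : ℤ)) * coeff (avec V d k) G := by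
  rw [prod_pow_expand, Finset.mul_sum, coeff_sum]
  simp_rw [coeff_mul_monomial']
  have hL : ∑ k ∈ Fintype.piFinset (fun _ : Fin V => range (M + 1)),
      (if svec V M k ≤ mvec V d M then coeff (mvec V d M - svec V M k) G *
        (∏ v, (M.choose (k v) : ℤ)) else 0) =
      ∑ k ∈ (Fintype.piFinset (fun _ : Fin V => range (M + 1))).filter (fun k => ∀ v, k v ≤ d v.val),
        (∏ v, (M.choose (k v) : ℤ)) * coeff (avec V d k) G := by
    rw [Finset.sum_filter]
    refine Finset.sum_congr rfl fun k hk => ?_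
    have hk' : ∀ v, k v ≤ M := by
      intro v
      have := Fintype.mem_piFinset.1 hk v
      rw [mem_range] at this
      omega
    by_cases h : ∀ v, k v ≤ d v.val
    · rw [if_pos ((svec_le_iff d M k).2 h), if_pos h, mvec_sub_svec d M k hk' h, mul_comm]
    · rw [if_neg (fun h' => h ((svec_le_iff d M k).1 h')), if_neg h]
  rw [hL]
  refine Finset.sum_subset ?_ ?_
  · intro k hk
    rw [mem_filter] at hk
    rw [Fintype.mem_piFinset]
    intro v
    rw [mem_range]
    have := hk.2 v
    omega
  · intro k hk hk2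
    have h1 : ∃ v, M < k v := by
      by_contra hcon
      push Not at hcon
      apply hk2
      rw [mem_filter, Fintype.mem_piFinset]
      refine ⟨fun v => ?_, fun v => ?_⟩
      · rw [mem_range]
        have := hcon v
        omega
      · have := Fintype.mem_piFinset.1 hk v
        rw [mem_range] at this
        omega
    obtain ⟨v, hv⟩ := h1
    rw [Finset.prod_eq_zero (mem_univ v), zero_mul]
    rw [Nat.choose_eq_zero_of_lt hv]
    rfl

end Expansion

section FiniteDifference

/-- the polynomial `choose x k` -/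
noncomputable def chooseP (k : ℕ) : Polynomial ℚ :=
  Polynomial.C ((k.factorial : ℚ)⁻¹) * descPochhammer ℚ k

theorem chooseP_nat (k M : ℕ) : (chooseP k).eval (M : ℚ) = M.choose k := by
  rw [chooseP, Polynomial.eval_mul, Polynomial.eval_C, descPochhammer_eval_eq_descFactorial,
    Nat.descFactorial_eq_factorial_mul_choose]
  push_cast
  rw [← mul_assoc, inv_mul_cancel₀ (by exact_mod_cast k.factorial_ne_zero), one_mul]

theorem chooseP_neg_one (k : ℕ) : (chooseP k).eval (-1 : ℚ) = (-1) ^ k := by
  rw [chooseP, Polynomial.eval_mul, Polynomial.eval_C]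
  have : (descPochhammer ℚ k).eval (-1 : ℚ) = (-1) ^ k * k.factorial := by
    induction k with
    | zero => simp
    | succ k ih =>
      rw [descPochhammer_succ_eval, ih, Nat.factorial_succ, pow_succ]
      push_cast
      ring
  rw [this, mul_comm, mul_assoc, mul_inv_cancel₀ (by exact_mod_cast k.factorial_ne_zero), mul_one]

theorem chooseP_natDegree (k : ℕ) : (chooseP k).natDegree ≤ k := by
  refine (Polynomial.natDegree_C_mul_le _ _).trans ?_
  rw [descPochhammer_natDegree]

/-- the value at `-1` of a product of binomial coefficients, from the values at `0, 1, …, E` -/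
theorem extrapolate {ι : Type*} (s : Finset ι) (k : ι → ℕ) (E : ℕ) (h : ∑ v ∈ s, k v ≤ E) :
    ∑ M ∈ range (E + 1), (-1 : ℤ) ^ M * ((E + 1).choose (M + 1)) * ∏ v ∈ s, (M.choose (k v) : ℤ) =
      (-1) ^ (∑ v ∈ s, k v) := by
  set P : Polynomial ℚ := ∏ v ∈ s, chooseP (k v) with hP
  have hdeg : P.natDegree < E + 1 := by
    refine lt_of_le_of_lt ?_ (Nat.lt_succ_of_le h)
    rw [hP]
    exact (Polynomial.natDegree_prod_le _ _).trans (Finset.sum_le_sum fun v _ =>
      chooseP_natDegree _)
  have h0 := congrFun (Polynomial.fwdDiff_iter_eq_zero_of_degree_lt hdeg) (-1 : ℚ)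
  rw [fwdDiff_iter_eq_sum_shift, Finset.sum_range_succ'] at h0
  simp only [Pi.zero_apply] at h0
  have hz : ∀ M : ℕ, P.eval ((-1 : ℚ) + (M + 1) • (1 : ℚ)) = ∏ v ∈ s, (M.choose (k v) : ℚ) := by
    intro M
    have : (-1 : ℚ) + (M + 1) • (1 : ℚ) = (M : ℚ) := by
      rw [nsmul_eq_mul]; push_cast; ring
    rw [this, hP, Polynomial.eval_prod]
    exact Finset.prod_congr rfl fun v _ => chooseP_nat _ _
  have hz0 : P.eval ((-1 : ℚ) + 0 • (1 : ℚ)) = (-1) ^ (∑ v ∈ s, k v) := by
    rw [zero_smul, add_zero, hP, Polynomial.eval_prod, ← Finset.prod_pow_eq_pow_sum]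
    exact Finset.prod_congr rfl fun v _ => chooseP_neg_one _
  simp_rw [hz] at h0
  rw [hz0] at h0
  have h1 : ((∑ M ∈ range (E + 1), (-1 : ℤ) ^ M * ((E + 1).choose (M + 1)) *
      ∏ v ∈ s, (M.choose (k v) : ℤ) : ℤ) : ℚ) = ((-1) ^ (∑ v ∈ s, k v) : ℤ) := by
    have h2 : ∑ M ∈ range (E + 1), ((-1 : ℤ) ^ (E + 1 - (M + 1)) * ((E + 1).choose (M + 1) : ℤ)) •
        (∏ v ∈ s, (M.choose (k v) : ℚ)) = (-1) ^ E * ∑ M ∈ range (E + 1), (-1 : ℚ) ^ M *
          ((E + 1).choose (M + 1)) * ∏ v ∈ s, (M.choose (k v) : ℚ) := by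
      rw [Finset.mul_sum]
      refine Finset.sum_congr rfl fun M hM => ?_
      rw [mem_range] at hM
      have e1 : E + 1 - (M + 1) = E - M := by omega
      have e2 : (-1 : ℚ) ^ (E - M) = (-1) ^ E * (-1) ^ M := by
        have : (-1 : ℚ) ^ E = (-1) ^ (E - M) * (-1) ^ M := by
          rw [← pow_add]; congr 1; omega
        rw [this, mul_assoc, ← pow_add, ← two_mul, pow_mul]
        simp
      rw [e1, zsmul_eq_mul]
      push_cast
      rw [e2]
      ring
    rw [h2] at h0
    have h3 : ((-1 : ℤ) ^ (E + 1 - 0) * ((E + 1).choose 0 : ℤ)) • (-1 : ℚ) ^ (∑ v ∈ s, k v) =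
        - ((-1) ^ E * (-1) ^ (∑ v ∈ s, k v)) := by
      rw [zsmul_eq_mul]
      push_cast
      simp only [Nat.choose_zero_right, Nat.cast_one, mul_one]
      ring
    rw [h3, add_neg_eq_zero] at h0
    have h4 : ((-1 : ℚ) ^ E) ≠ 0 := pow_ne_zero _ (by norm_num)
    have h5 := mul_left_cancel₀ h4 h0
    push_cast
    exact h5
  exact_mod_cast h1

end FiniteDifference

end Pool.Agent.H549R2.Convex
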