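import Pool.Agent.H549R2.Convex1

/-!
# Multiplicity `-1` cancels pairs of columns; perfect matchings as a coefficient
-/

namespace Pool.Agent.H549R2.Convex

open Finset MvPolynomial

section Phi

/-- sign of a key -/
def sg (κ : ℕ) : ℤ := if κ % 2 = 0 then 1 else -1

/-- the substitution `X (2 v) ↦ X v`, `X (2 v + 1) ↦ - X v` -/
noncomputable def phi : MvPolynomial ℕ ℤ →ₐ[ℤ] MvPolynomial ℕ ℤ :=
  aeval (fun κ => C (sg κ) * X (κ / 2))

/-- the sign of a monomial -/
def sgm (a : ℕ →₀ ℕ) : ℤ := a.prod fun κ m => sg κ ^ m

theorem sgm_add (a b : ℕ →₀ ℕ) : sgm (a + b) = sgm a * sgm b :=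
  Finsupp.prod_add_index' (fun _ => pow_zero _) (fun _ _ _ => pow_add _ _ _)

theorem sgm_single (κ m : ℕ) : sgm (Finsupp.single κ m) = sg κ ^ m :=
  Finsupp.prod_single_index (pow_zero _)

theorem sgm_sum {ι : Type*} (s : Finset ι) (f : ι → ℕ →₀ ℕ) :
    sgm (∑ i ∈ s, f i) = ∏ i ∈ s, sgm (f i) := by
  classical
  induction s using Finset.induction_on with
  | empty => simp [sgm]
  | insert a s ha ih => rw [Finset.sum_insert ha, Finset.prod_insert ha, sgm_add, ih]

theorem phi_monomial (a : ℕ →₀ ℕ) (c : ℤ) :
    phi (monomial a c) = monomial (a.mapDomain (fun κ => κ / 2)) (c * sgm a) := by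
  rw [phi, aeval_monomial]
  have h : ∀ a : ℕ →₀ ℕ, (a.prod fun i k => (C (sg i) * X (i / 2) : MvPolynomial ℕ ℤ) ^ k) =
      monomial (a.mapDomain (fun κ => κ / 2)) (sgm a) := by
    intro a
    induction a using Finsupp.induction_linear with
    | zero => simp [sgm]
    | add f g hf hg =>
      rw [Finsupp.prod_add_index' (fun _ => pow_zero _) (fun _ _ _ => pow_add _ _ _), hf, hg,
        monomial_mul, Finsupp.mapDomain_add, sgm_add]
    | single κ m =>
      rw [Finsupp.prod_single_index (by exact pow_zero _), Finsupp.mapDomain_single, sgm_single,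
        mul_pow, X_pow_eq_monomial, ← C_pow, C_mul_monomial, mul_one]
  rw [h]
  have : (algebraMap ℤ (MvPolynomial ℕ ℤ)) c = C c := rfl
  rw [this, C_mul_monomial]

theorem mapDomain_half (a : ℕ →₀ ℕ) (v : ℕ) :
    (a.mapDomain (fun κ => κ / 2)) v = a (2 * v) + a (2 * v + 1) := by
  induction a using Finsupp.induction_linear with
  | zero => simp
  | add f g hf hg =>
    rw [Finsupp.mapDomain_add, Finsupp.add_apply, hf, hg, Finsupp.add_apply, Finsupp.add_apply]
    ring
  | single κ m =>
    rw [Finsupp.mapDomain_single, Finsupp.single_apply, Finsupp.single_apply, Finsupp.single_apply]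
    by_cases h1 : κ = 2 * v
    · subst h1
      rw [if_pos (by omega), if_pos rfl, if_neg (by omega), add_zero]
    · by_cases h2 : κ = 2 * v + 1
      · subst h2
        rw [if_pos (by omega), if_neg (by omega), if_pos rfl, zero_add]
      · rw [if_neg (by omega), if_neg h1, if_neg h2, add_zero]

/-- the multiplicity vector of the potentials -/
noncomputable def dvec (V : ℕ) (d : ℕ → ℕ) : ℕ →₀ ℕ := ∑ v : Fin V, Finsupp.single v.val (d v.val)

theorem dvec_apply (V : ℕ) (d : ℕ → ℕ) (v : ℕ) : dvec V d v = if v < V then d v else 0 := by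
  rw [dvec, Finsupp.finsetSum_apply]
  by_cases h : v < V
  · rw [if_pos h, Finset.sum_eq_single (⟨v, h⟩ : Fin V)]
    · simp
    · intro w _ hw
      rw [Finsupp.single_apply, if_neg (fun h' => hw (Fin.ext h'))]
    · simp
  · rw [if_neg h]
    refine Finset.sum_eq_zero fun w _ => ?_
    rw [Finsupp.single_apply, if_neg (fun h' : w.val = v => h (h' ▸ w.2))]

theorem avec_big {V : ℕ} (d : ℕ → ℕ) (k : Fin V → ℕ) (κ : ℕ) (h : V ≤ κ / 2) :
    avec V d k κ = 0 := by
  rw [avec, Finsupp.finsetSum_apply]
  refine Finset.sum_eq_zero fun w _ => ?_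
  have := w.2
  rw [Finsupp.add_apply, Finsupp.single_apply, Finsupp.single_apply, if_neg (by omega),
    if_neg (by omega), add_zero]

theorem sgm_avec {V : ℕ} (d : ℕ → ℕ) (k : Fin V → ℕ) : sgm (avec V d k) = (-1) ^ (∑ v, k v) := by
  rw [avec, sgm_sum, ← Finset.prod_pow_eq_pow_sum]
  refine Finset.prod_congr rfl fun v _ => ?_
  have h1 : sg (2 * v.val) = 1 := by rw [sg, if_pos (by omega)]
  have h2 : sg (2 * v.val + 1) = -1 := by rw [sg, if_neg (by omega)]
  rw [sgm_add, sgm_single, sgm_single, h1, h2, one_pow, one_mul]

/-- coefficients of the substituted polynomial -/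
theorem coeff_phi (V : ℕ) (d : ℕ → ℕ) (G : MvPolynomial ℕ ℤ) :
    coeff (dvec V d) (phi G) = ∑ k ∈ Fintype.piFinset (fun v : Fin V => range (d v.val + 1)),
      (-1) ^ (∑ v, k v) * coeff (avec V d k) G := by
  induction G using MvPolynomial.induction_on' with
  | add p q hp hq =>
    rw [map_add, coeff_add, hp, hq, ← Finset.sum_add_distrib]
    exact Finset.sum_congr rfl fun k _ => by rw [coeff_add]; ring
  | monomial a c =>
    rw [phi_monomial, coeff_monomial]
    simp_rw [coeff_monomial]
    by_cases h : a.mapDomain (fun κ => κ / 2) = dvec V d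
    · rw [if_pos h]
      have hv : ∀ v, a (2 * v) + a (2 * v + 1) = if v < V then d v else 0 := by
        intro v
        rw [← mapDomain_half, h, dvec_apply]
      set k0 : Fin V → ℕ := fun v => a (2 * v.val + 1) with hk0
      have ha : a = avec V d k0 := by
        ext κ
        by_cases hκ : κ / 2 < V
        · have h1 := hv (κ / 2)
          rw [if_pos hκ] at h1
          rcases Nat.even_or_odd' κ with ⟨c, hc | hc⟩
          · have hcc : κ / 2 = c := by omega
            rw [hcc] at hκ h1
            have := vec_even (V := V) (fun v => d v.val - k0 v) k0 ⟨c, hκ⟩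
            simp only at this
            rw [hc, avec, this, hk0]
            simp only
            omega
          · have hcc : κ / 2 = c := by omega
            rw [hcc] at hκ h1
            have := vec_odd (V := V) (fun v => d v.val - k0 v) k0 ⟨c, hκ⟩
            simp only at this
            rw [hc, avec, this, hk0]
        · have h1 := hv (κ / 2)
          rw [if_neg hκ] at h1
          rw [avec_big d k0 κ (by omega)]
          have : κ = 2 * (κ / 2) ∨ κ = 2 * (κ / 2) + 1 := by omega
          rcases this with h2 | h2
          · rw [h2]; omega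
          · rw [h2]; omega
      rw [Finset.sum_eq_single k0]
      · rw [if_pos ha, ha, sgm_avec]
        ring
      · intro k _ hk
        rw [if_neg, mul_zero]
        intro h2
        apply hk
        funext v
        have := DFunLike.congr_fun h2 (2 * v.val + 1)
        rw [avec, vec_odd] at this
        rw [hk0]
        exact this.symm
      · intro hk
        exfalso
        apply hk
        rw [Fintype.mem_piFinset]
        intro v
        rw [mem_range, hk0]
        have := hv v.val
        rw [if_pos v.2] at this
        simp only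
        omega
    · rw [if_neg h]
      symm
      refine Finset.sum_eq_zero fun k hk => ?_
      rw [if_neg, mul_zero]
      intro h2
      apply h
      ext v
      rw [mapDomain_half, dvec_apply, h2]
      by_cases hvV : v < V
      · rw [if_pos hvV]
        have e1 := vec_even (V := V) (fun v => d v.val - k v) k ⟨v, hvV⟩
        have e2 := vec_odd (V := V) (fun v => d v.val - k v) k ⟨v, hvV⟩
        simp only at e1 e2
        rw [avec, e1, e2]
        have := Fintype.mem_piFinset.1 hk ⟨v, hvV⟩
        rw [mem_range] at this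
        simp only at this
        omega
      · rw [if_neg hvV, avec_big d k _ (by omega), avec_big d k _ (by omega)]

/-- the linear form of an interval of keys -/
noncomputable def rowP (r : ℕ × ℕ) : MvPolynomial ℕ ℤ := ∑ κ ∈ Icc r.1 r.2, X κ

theorem phi_rowP (a b : ℕ) (h : a ≤ b) : phi (rowP (2 * a + 1, 2 * b)) = X b - X a := by
  induction b, h using Nat.le_induction with
  | base => simp [rowP]
  | succ b hb ih =>
    have h1 : Icc (2 * a + 1) (2 * (b + 1)) = insert (2 * b + 2) (insert (2 * b + 1)
        (Icc (2 * a + 1) (2 * b))) := by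
      ext κ
      simp only [mem_Icc, mem_insert]
      omega
    rw [rowP, h1, Finset.sum_insert, Finset.sum_insert, map_add, map_add]
    · have h2 : phi (∑ κ ∈ Icc (2 * a + 1) (2 * b), X κ) = X b - X a := ih
      rw [h2]
      have e1 : phi (X (2 * b + 2)) = X (b + 1) := by
        rw [phi, aeval_X]
        have : sg (2 * b + 2) = 1 := by rw [sg, if_pos (by omega)]
        rw [this, show (2 * b + 2) / 2 = b + 1 by omega]
        simp
      have e2 : phi (X (2 * b + 1)) = - X b := by
        rw [phi, aeval_X]
        have : sg (2 * b + 1) = -1 := by rw [sg, if_neg (by omega)]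
        rw [this, show (2 * b + 1) / 2 = b by omega]
        simp
      rw [e1, e2]
      ring
    · simp
    · simp only [mem_insert, mem_Icc]
      omega

end Phi

section Matchings

variable {n : ℕ}

/-- the required degrees: `1` for the rows of the given matrix, degree minus one for its columns -/
def dS (n : ℕ) (S : Finset (Fin n × Fin n)) (v : ℕ) : ℕ :=
  if v < n then 1 else (S.filter (fun e => n + e.2.val = v)).card - 1

theorem prod_monomial {ι : Type*} (s : Finset ι) (f : ι → ℕ →₀ ℕ) (a : ι → ℤ) :
    ∏ i ∈ s, (monomial (f i) (a i) : MvPolynomial ℕ ℤ) = monomial (∑ i ∈ s, f i) (∏ i ∈ s, a i) := by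
  classical
  induction s using Finset.induction_on with
  | empty => simp
  | insert b s hb ih =>
    rw [Finset.prod_insert hb, Finset.sum_insert hb, Finset.prod_insert hb, ih, monomial_mul]

theorem coeff_matchings (S : Finset (Fin n × Fin n))
    (hdeg : ∀ j : Fin n, 1 ≤ (S.filter (fun e => e.2 = j)).card) :
    coeff (dvec (2 * n) (dS n S)) (∏ e ∈ S, (X (n + e.2.val) - X e.1.val : MvPolynomial ℕ ℤ)) =
      (-1) ^ n * ((univ.filter (fun σ : Equiv.Perm (Fin n) => ∀ j, (σ j, j) ∈ S)).card : ℤ) := by
  classical
  have h1 : (∏ e ∈ S, (X (n + e.2.val) - X e.1.val : MvPolynomial ℕ ℤ)) =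
      ∑ T ∈ S.powerset, monomial (∑ e ∈ T, Finsupp.single e.1.val 1 +
        ∑ e ∈ S \ T, Finsupp.single (n + e.2.val) 1) ((-1) ^ T.card) := by
    simp_rw [sub_eq_neg_add]
    rw [Finset.prod_add]
    refine Finset.sum_congr rfl fun T _ => ?_
    have e1 : ∏ e ∈ T, (-X e.1.val : MvPolynomial ℕ ℤ) =
        monomial (∑ e ∈ T, Finsupp.single e.1.val 1) ((-1) ^ T.card) := by
      have : ∀ e : Fin n × Fin n, (-X e.1.val : MvPolynomial ℕ ℤ) =
          monomial (Finsupp.single e.1.val 1) (-1) := by
        intro e
        rw [X, ← map_neg]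
      simp_rw [this]
      rw [prod_monomial, Finset.prod_const]
    have e2 : ∏ e ∈ S \ T, (X (n + e.2.val) : MvPolynomial ℕ ℤ) =
        monomial (∑ e ∈ S \ T, Finsupp.single (n + e.2.val) 1) 1 := by
      rw [MvPolynomial.monomial_sum_one]
      rfl
    rw [e1, e2, monomial_mul, mul_one]
  rw [h1, coeff_sum]
  simp_rw [coeff_monomial]
  rw [← Finset.sum_filter]
  -- the condition on `T`
  have hcond : ∀ T ∈ S.powerset, (∑ e ∈ T, Finsupp.single e.1.val 1 +
        ∑ e ∈ S \ T, Finsupp.single (n + e.2.val) 1 = dvec (2 * n) (dS n S)) ↔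
      ((∀ i : Fin n, (T.filter (fun e => e.1 = i)).card = 1) ∧
        (∀ j : Fin n, (T.filter (fun e => e.2 = j)).card = 1)) := by
    intro T hT
    rw [mem_powerset] at hT
    have ev : ∀ v, (∑ e ∈ T, Finsupp.single e.1.val 1 +
        ∑ e ∈ S \ T, Finsupp.single (n + e.2.val) 1 : ℕ →₀ ℕ) v =
        (T.filter (fun e => e.1.val = v)).card + ((S \ T).filter (fun e => n + e.2.val = v)).card := by
      intro v
      rw [Finsupp.add_apply, Finsupp.finsetSum_apply, Finsupp.finsetSum_apply, Finset.card_filter,
        Finset.card_filter]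
      simp only [Finsupp.single_apply]
    have hsplit : ∀ j : Fin n, (T.filter (fun e => e.2 = j)).card +
        ((S \ T).filter (fun e => e.2 = j)).card = (S.filter (fun e => e.2 = j)).card := by
      intro j
      rw [← Finset.card_union_of_disjoint]
      · congr 1
        rw [← Finset.filter_union, Finset.union_sdiff_of_subset hT]
      · exact Finset.disjoint_filter_filter Finset.disjoint_sdiff
    have f1 : ∀ i : Fin n, (T.filter (fun e => e.1.val = i.val)) = T.filter (fun e => e.1 = i) := by
      intro i
      exact Finset.filter_congr fun e _ => by rw [Fin.ext_iff]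
    have f2 : ∀ (U : Finset (Fin n × Fin n)) (j : Fin n),
        (U.filter (fun e => n + e.2.val = n + j.val)) = U.filter (fun e => e.2 = j) := by
      intro U j
      exact Finset.filter_congr fun e _ => by rw [Fin.ext_iff]; omega
    have f3 : ∀ (U : Finset (Fin n × Fin n)) (i : Fin n),
        (U.filter (fun e => n + e.2.val = i.val)) = ∅ := by
      intro U i
      rw [Finset.filter_eq_empty_iff]
      intro e _ he
      have := i.2
      omega
    have f4 : ∀ (j : Fin n), (T.filter (fun e => e.1.val = n + j.val)) = ∅ := by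
      intro j
      rw [Finset.filter_eq_empty_iff]
      intro e _ he
      have := e.1.2
      omega
    constructor
    · intro h
      refine ⟨fun i => ?_, fun j => ?_⟩
      · have := DFunLike.congr_fun h i.val
        rw [ev, f1, f3, Finset.card_empty, add_zero, dvec_apply, if_pos (by have := i.2; omega), dS,
          if_pos i.2] at this
        exact this
      · have := DFunLike.congr_fun h (n + j.val)
        rw [ev, f4, f2, Finset.card_empty, zero_add, dvec_apply, if_pos (by have := j.2; omega), dS,
          if_neg (by omega), f2] at this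
        have h2 := hsplit j
        have h3 := hdeg j
        omega
    · rintro ⟨hi, hj⟩
      ext v
      rw [ev, dvec_apply]
      by_cases hv : v < n
      · have e1 := f1 ⟨v, hv⟩
        have e2 := f3 (S \ T) ⟨v, hv⟩
        simp only at e1 e2
        rw [e1, e2, hi, Finset.card_empty, if_pos (by omega), dS, if_pos hv]
      · by_cases hv2 : v < 2 * n
        · obtain ⟨j, rfl⟩ : ∃ j : Fin n, v = n + j.val := ⟨⟨v - n, by omega⟩, by simp; omega⟩
          rw [f4, f2, Finset.card_empty, zero_add, if_pos hv2, dS, if_neg hv, f2]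
          have h2 := hsplit j
          have h3 := hdeg j
          have h4 := hj j
          omega
        · rw [if_neg hv2]
          have e1 : T.filter (fun e => e.1.val = v) = ∅ := by
            rw [Finset.filter_eq_empty_iff]
            intro e _ he
            have := e.1.2
            omega
          have e2 : (S \ T).filter (fun e => n + e.2.val = v) = ∅ := by
            rw [Finset.filter_eq_empty_iff]
            intro e _ he
            have := e.2.2
            omega
          rw [e1, e2]
          rfl
  have hfil : S.powerset.filter (fun T => ∑ e ∈ T, Finsupp.single e.1.val 1 +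
        ∑ e ∈ S \ T, Finsupp.single (n + e.2.val) 1 = dvec (2 * n) (dS n S)) =
      (univ.filter (fun σ : Equiv.Perm (Fin n) => ∀ j, (σ j, j) ∈ S)).image
        (fun σ => univ.image (fun j => (σ j, j))) := by
    ext T
    simp only [mem_filter, mem_image, mem_univ, true_and]
    constructor
    · rintro ⟨hT, hc⟩
      rw [hcond T hT] at hc
      obtain ⟨hi, hj⟩ := hc
      have hj' : ∀ j, ∃ e, T.filter (fun e => e.2 = j) = {e} := fun j =>
        Finset.card_eq_one.1 (hj j)
      choose ee hee using hj'
      have hmem : ∀ j, ee j ∈ T ∧ (ee j).2 = j := by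
        intro j
        have : ee j ∈ T.filter (fun e => e.2 = j) := by rw [hee]; exact mem_singleton_self _
        exact mem_filter.1 this
      have hinj : Function.Injective (fun j => (ee j).1) := by
        intro a b hab
        simp only at hab
        obtain ⟨x, hx⟩ := Finset.card_eq_one.1 (hi (ee a).1)
        have h1 : ee a ∈ T.filter (fun e => e.1 = (ee a).1) := mem_filter.2 ⟨(hmem a).1, rfl⟩
        have h2 : ee b ∈ T.filter (fun e => e.1 = (ee a).1) := mem_filter.2 ⟨(hmem b).1, hab.symm⟩
        rw [hx, mem_singleton] at h1 h2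
        rw [← (hmem a).2, ← (hmem b).2, h1, h2]
      let σ : Equiv.Perm (Fin n) := Equiv.ofBijective (fun j => (ee j).1)
        (Finite.injective_iff_bijective.1 hinj)
      have hσ : ∀ j, (σ j, j) = ee j := fun j => Prod.ext rfl (hmem j).2.symm
      refine ⟨σ, fun j => ?_, ?_⟩
      · rw [hσ]
        exact (mem_powerset.1 hT) (hmem j).1
      · ext e
        rw [mem_image]
        constructor
        · rintro ⟨j, _, rfl⟩
          rw [hσ]
          exact (hmem j).1
        · intro he
          refine ⟨e.2, mem_univ _, ?_⟩
          rw [hσ]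
          have : e ∈ T.filter (fun e' => e'.2 = e.2) := mem_filter.2 ⟨he, rfl⟩
          rw [hee, mem_singleton] at this
          exact this.symm
    · rintro ⟨σ, hσ, rfl⟩
      have hsub : univ.image (fun j => (σ j, j)) ∈ S.powerset := by
        rw [mem_powerset]
        intro e he
        rw [mem_image] at he
        obtain ⟨j, _, rfl⟩ := he
        exact hσ j
      refine ⟨hsub, ?_⟩
      rw [hcond _ hsub]
      constructor
      · intro i
        rw [Finset.card_eq_one]
        refine ⟨(i, σ.symm i), ?_⟩
        ext e
        simp only [mem_filter, mem_image, mem_univ, true_and, mem_singleton]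
        constructor
        · rintro ⟨⟨j, rfl⟩, h⟩
          simp only at h
          rw [← h]
          simp
        · rintro rfl
          exact ⟨⟨σ.symm i, by simp⟩, rfl⟩
      · intro j
        rw [Finset.card_eq_one]
        refine ⟨(σ j, j), ?_⟩
        ext e
        simp only [mem_filter, mem_image, mem_univ, true_and, mem_singleton]
        constructor
        · rintro ⟨⟨j', rfl⟩, h⟩
          simp only at h
          rw [h]
        · rintro rfl
          exact ⟨⟨j, rfl⟩, rfl⟩
  rw [hfil, Finset.sum_image]
  · have : ∀ σ ∈ univ.filter (fun σ : Equiv.Perm (Fin n) => ∀ j, (σ j, j) ∈ S),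
        ((-1 : ℤ)) ^ (univ.image (fun j => (σ j, j))).card = (-1) ^ n := by
      intro σ _
      rw [Finset.card_image_of_injective _ (fun a b hab => (Prod.ext_iff.1 hab).2)]
      simp
    rw [Finset.sum_congr rfl this, Finset.sum_const, nsmul_eq_mul, mul_comm]
  · intro σ _ σ' _ h
    ext j
    have h' : univ.image (fun j => (σ j, j)) = univ.image (fun j => (σ' j, j)) := h
    have : (σ j, j) ∈ univ.image (fun j => (σ' j, j)) := by
      rw [← h']
      exact mem_image_of_mem _ (mem_univ j)
    rw [mem_image] at this
    obtain ⟨j', _, hj'⟩ := this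
    rw [Prod.ext_iff] at hj'
    simp only at hj'
    rw [hj'.2] at hj'
    rw [hj'.1]

theorem sum_dS (S : Finset (Fin n × Fin n))
    (hdeg : ∀ j : Fin n, 1 ≤ (S.filter (fun e => e.2 = j)).card) :
    ∑ v : Fin (2 * n), dS n S v.val = S.card := by
  classical
  have h1 : ∑ v : Fin (2 * n), dS n S v.val = ∑ v ∈ range (2 * n), dS n S v :=
    (Finset.sum_range (fun v => dS n S v)).symm
  rw [h1, two_mul, Finset.sum_range_add]
  have h2 : ∑ v ∈ range n, dS n S v = n := by
    have : ∀ v ∈ range n, dS n S v = 1 := by
      intro v hv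
      rw [mem_range] at hv
      rw [dS, if_pos hv]
    rw [Finset.sum_congr rfl this, Finset.sum_const, card_range, smul_eq_mul, mul_one]
  have h3 : ∑ x ∈ range n, dS n S (n + x) + n = S.card := by
    have e1 : ∑ x ∈ range n, dS n S (n + x) + n = ∑ x ∈ range n, (dS n S (n + x) + 1) := by
      rw [Finset.sum_add_distrib]; simp
    rw [e1, Finset.sum_range]
    rw [Finset.card_eq_sum_card_fiberwise (f := fun e => e.2) (t := univ) (by simp)]
    refine Finset.sum_congr rfl fun j _ => ?_
    rw [dS, if_neg (by omega)]
    have f2 : (S.filter (fun e => n + e.2.val = n + j.val)) = S.filter (fun e => e.2 = j) :=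
      Finset.filter_congr fun e _ => by rw [Fin.ext_iff]; omega
    rw [f2]
    have := hdeg j
    omega
  rw [h2]
  omega

/-- **The identity.**  The number of perfect matchings of `S` from the coefficients attached to the
interval matrices with multiplicities `M = 0, 1, …, |S|`. -/
theorem matchings_eq (S : Finset (Fin n × Fin n))
    (hdeg : ∀ j : Fin n, 1 ≤ (S.filter (fun e => e.2 = j)).card) :
    ∑ M ∈ range (S.card + 1), (-1 : ℤ) ^ M * ((S.card + 1).choose (M + 1)) *
      coeff (mvec (2 * n) (dS n S) M) ((∏ e ∈ S, rowP (2 * e.1.val + 1, 2 * (n + e.2.val))) *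
        ∏ v : Fin (2 * n), ((X (2 * v.val) + X (2 * v.val + 1)) ^ M)) =
    (-1) ^ n * ((univ.filter (fun σ : Equiv.Perm (Fin n) => ∀ j, (σ j, j) ∈ S)).card : ℤ) := by
  rw [← coeff_matchings S hdeg]
  have h1 : phi (∏ e ∈ S, rowP (2 * e.1.val + 1, 2 * (n + e.2.val))) =
      ∏ e ∈ S, (X (n + e.2.val) - X e.1.val : MvPolynomial ℕ ℤ) := by
    rw [map_prod]
    exact Finset.prod_congr rfl fun e _ => phi_rowP _ _ (by have := e.1.2; omega)
  rw [← h1, coeff_phi]
  simp_rw [coeff_expand, Finset.mul_sum]
  rw [Finset.sum_comm]
  refine Finset.sum_congr rfl fun k hk => ?_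
  simp_rw [← mul_assoc]
  rw [← Finset.sum_mul, extrapolate univ k S.card]
  rw [← sum_dS S hdeg]
  refine Finset.sum_le_sum fun v _ => ?_
  have := Fintype.mem_piFinset.1 hk v
  rw [mem_range] at this
  omega

end Matchings

end Pool.Agent.H549R2.Convex
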