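import Pool.Agent.H549R2.Convex2

/-!
# Lists of rows: the interval matrices and their permanents
-/

namespace Pool.Agent.H549R2.Convex

open Finset MvPolynomial

/-- The function `F` of the problem: the permanent of the square 0-1 matrix with the given list of
rows, and `0` if the list of rows does not form a square matrix. -/
def F (A : List (List Bool)) : ℕ :=
  if ∀ r ∈ A, r.length = A.length then
    Matrix.permanent (Matrix.of fun i j : Fin A.length =>
      if (A.getD i.val []).getD j.val false = true then 1 else 0)
  else 0

/-- The positions of the entries `true` of the list form an interval. -/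
def Consec (r : List Bool) : Prop :=
  ∀ i j k : ℕ, i ≤ j → j ≤ k → r[i]? = some true → r[k]? = some true → r[j]? = some true

/-- entries of a list of rows -/
def ent (A : List (List Bool)) (i j : ℕ) : Bool := (A.getD i []).getD j false

/-- column sums -/
def degL (A : List (List Bool)) (j : ℕ) : ℕ :=
  ((List.range A.length).filter (fun i => ent A i j)).length

/-- multiplicities of the even keys -/
def dL (A : List (List Bool)) (v : ℕ) : ℕ :=
  if v < A.length then 1 else degL A (v - A.length) - 1

/-- intervals of keys attached to the ones of the matrix -/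
def edgesL (A : List (List Bool)) : List (ℕ × ℕ) :=
  (List.range A.length).flatMap (fun i => ((List.range A.length).filter (fun j => ent A i j)).map
    (fun j => (2 * i + 1, 2 * (A.length + j))))

/-- the rows of the interval matrix, as intervals of keys -/
def rowsL (A : List (List Bool)) (M : ℕ) : List (ℕ × ℕ) :=
  edgesL A ++ (List.range (2 * A.length)).flatMap
    (fun v => (List.range M).map (fun _ => (2 * v, 2 * v + 1)))

/-- the keys of the columns of the interval matrix -/
def colsL (A : List (List Bool)) (M : ℕ) : List ℕ :=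
  (List.range (2 * A.length)).flatMap
    (fun v => (List.range (dL A v)).map (fun _ => 2 * v) ++ (List.range M).map (fun _ => 2 * v + 1))

/-- the matrix with given intervals of keys as rows and given keys of the columns -/
def mat (RS : List (ℕ × ℕ)) (CL : List ℕ) : List (List Bool) :=
  RS.map (fun r => CL.map (fun κ => decide (r.1 ≤ κ) && decide (κ ≤ r.2)))

/-- the interval matrices -/
def HM (A : List (List Bool)) (M : ℕ) : List (List Bool) := mat (rowsL A M) (colsL A M)

section Lists

theorem prod_getD {α M : Type*} [CommMonoid M] (l : List α) (N : ℕ) (h : l.length = N) (g : α → M)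
    (d : α) : ∏ c : Fin N, g (l.getD c.val d) = (l.map g).prod := by
  subst h
  rw [← Fin.prod_univ_fun_getElem]
  exact Finset.prod_congr rfl fun c _ => by rw [List.getD_eq_getElem l d c.2]

theorem sum_getD {α M : Type*} [AddCommMonoid M] (l : List α) (N : ℕ) (h : l.length = N)
    (g : α → M) (d : α) : ∑ c : Fin N, g (l.getD c.val d) = (l.map g).sum := by
  subst h
  rw [← Fin.sum_univ_fun_getElem]
  exact Finset.sum_congr rfl fun c _ => by rw [List.getD_eq_getElem l d c.2]

theorem card_getD (l : List ℕ) (N : ℕ) (h : l.length = N) (k : ℕ) :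
    Fintype.card {c : Fin N // l.getD c.val 0 = k} = l.count k := by
  rw [Fintype.card_subtype, Finset.card_filter, sum_getD l N h (fun x => if x = k then 1 else 0)]
  induction l generalizing N with
  | nil => simp
  | cons a l ih =>
    rw [List.map_cons, List.sum_cons, ih _ rfl, List.count_cons]
    simp only [beq_iff_eq]
    ring

theorem image_getD (l : List ℕ) (N : ℕ) (h : l.length = N) :
    (univ : Finset (Fin N)).image (fun c => l.getD c.val 0) = l.toFinset := by
  subst h
  ext k
  simp only [mem_image, mem_univ, true_and, List.mem_toFinset]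
  constructor
  · rintro ⟨c, rfl⟩
    rw [List.getD_eq_getElem l 0 c.2]
    exact List.getElem_mem _
  · intro hk
    obtain ⟨i, hi, rfl⟩ := List.mem_iff_getElem.1 hk
    exact ⟨⟨i, hi⟩, by rw [List.getD_eq_getElem l 0 hi]⟩

theorem ent_mat (RS : List (ℕ × ℕ)) (CL : List ℕ) (i j : ℕ) (hi : i < RS.length)
    (hj : j < CL.length) :
    ent (mat RS CL) i j = true ↔
      CL.getD j 0 ∈ Icc (RS.getD i (0, 0)).1 (RS.getD i (0, 0)).2 := by
  have h1 : (mat RS CL).getD i [] = CL.map (fun κ => decide ((RS.getD i (0, 0)).1 ≤ κ) &&
      decide (κ ≤ (RS.getD i (0, 0)).2)) := by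
    rw [mat, List.getD_eq_getElem _ _ (by simpa using hi), List.getElem_map,
      List.getD_eq_getElem _ _ hi]
  rw [ent, h1, List.getD_eq_getElem _ _ (by simpa using hj), List.getElem_map,
    List.getD_eq_getElem CL _ hj, mem_Icc]
  simp

theorem F_eq_card (A : List (List Bool)) (h : ∀ r ∈ A, r.length = A.length) :
    F A = (univ.filter (fun σ : Equiv.Perm (Fin A.length) => ∀ j, ent A (σ j).val j.val = true)).card := by
  rw [F, if_pos h, Matrix.permanent, Finset.card_filter]
  refine Finset.sum_congr rfl fun σ _ => ?_
  simp only [Matrix.of_apply]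
  rw [Finset.prod_boole]
  simp [ent]

theorem F_eq_card' (A : List (List Bool)) (h : ∀ r ∈ A, r.length = A.length) (N : ℕ)
    (hN : A.length = N) :
    F A = (univ.filter (fun σ : Equiv.Perm (Fin N) => ∀ i, ent A i.val (σ i).val = true)).card := by
  subst hN
  rw [F, if_pos h, ← Matrix.permanent_transpose, Matrix.permanent, Finset.card_filter]
  refine Finset.sum_congr rfl fun σ _ => ?_
  simp only [Matrix.transpose_apply, Matrix.of_apply]
  rw [Finset.prod_boole]
  simp [ent]

/-- the permanent of an interval matrix as a coefficient -/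
theorem F_mat (RS : List (ℕ × ℕ)) (CL : List ℕ) (h : RS.length = CL.length) :
    (F (mat RS CL) : ℤ) = (∏ κ ∈ CL.toFinset, ((CL.count κ).factorial : ℤ)) *
      coeff ((CL.map (fun κ => Finsupp.single κ 1)).sum) ((RS.map rowP).prod) := by
  have hlen : (mat RS CL).length = RS.length := by simp [mat]
  have hsq : ∀ r ∈ mat RS CL, r.length = (mat RS CL).length := by
    intro r hr
    rw [mat, List.mem_map] at hr
    obtain ⟨x, _, rfl⟩ := hr
    rw [hlen, List.length_map, h]
  rw [F_eq_card' _ hsq _ hlen]
  have h1 := card_perm_eq_coeff (C := Fin RS.length)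
    (fun i => Icc (RS.getD i.val (0, 0)).1 (RS.getD i.val (0, 0)).2) (fun j => CL.getD j.val 0)
  have h2 : (univ.filter (fun σ : Equiv.Perm (Fin RS.length) =>
      ∀ i, ent (mat RS CL) i.val (σ i).val = true)) = univ.filter (fun e : Equiv.Perm (Fin RS.length) =>
      ∀ c, CL.getD (e c).val 0 ∈ Icc (RS.getD c.val (0, 0)).1 (RS.getD c.val (0, 0)).2) := by
    refine Finset.filter_congr fun σ _ => ?_
    refine forall_congr' fun i => ?_
    rw [ent_mat RS CL i.val (σ i).val i.2 (by rw [← h]; exact (σ i).2)]
  rw [h2]
  have h3 : (∏ k ∈ univ.image (fun j : Fin RS.length => CL.getD j.val 0),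
      ((Fintype.card {c : Fin RS.length // CL.getD c.val 0 = k}).factorial : ℤ)) =
      ∏ κ ∈ CL.toFinset, ((CL.count κ).factorial : ℤ) := by
    rw [image_getD CL _ h.symm]
    exact Finset.prod_congr rfl fun k _ => by rw [card_getD CL _ h.symm]
  have h4 : (∑ c : Fin RS.length, (Finsupp.single (CL.getD c.val 0) 1 : ℕ →₀ ℕ)) =
      (CL.map (fun κ => Finsupp.single κ 1)).sum :=
    sum_getD CL _ h.symm (fun κ => (Finsupp.single κ 1 : ℕ →₀ ℕ)) 0
  have h5 : ∏ c : Fin RS.length, ∑ k ∈ Icc (RS.getD c.val (0, 0)).1 (RS.getD c.val (0, 0)).2,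
      (X k : MvPolynomial ℕ ℤ) = (RS.map rowP).prod := by
    rw [← prod_getD RS _ rfl rowP (0, 0)]
    rfl
  rw [h3, h4, h5] at h1
  rw [← h1]
  congr!

/-- rows cut out by intervals of keys in a sorted list of keys are consecutive -/
theorem consec_of_sorted (CL : List ℕ) (hs : CL.Pairwise (· ≤ ·)) (a b : ℕ) :
    Consec (CL.map (fun κ => decide (a ≤ κ) && decide (κ ≤ b))) := by
  intro i j k hij hjk hi hk
  rw [List.getElem?_map] at hi hk ⊢
  rw [Option.map_eq_some_iff] at hi hk
  obtain ⟨x, hx, hx2⟩ := hi
  obtain ⟨z, hz, hz2⟩ := hk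
  rw [List.getElem?_eq_some_iff] at hx hz
  obtain ⟨hi', hx⟩ := hx
  obtain ⟨hk', hz⟩ := hz
  have hj' : j < CL.length := by omega
  have h1 : CL[i] ≤ CL[j] := by
    rcases hij.eq_or_lt with h | h
    · subst h; exact le_rfl
    · exact List.pairwise_iff_getElem.1 hs i j hi' hj' h
  have h2 : CL[j] ≤ CL[k] := by
    rcases hjk.eq_or_lt with h | h
    · subst h; exact le_rfl
    · exact List.pairwise_iff_getElem.1 hs j k hj' hk' h
  rw [List.getElem?_eq_getElem hj', Option.map_some, Option.some_inj]
  simp only [Bool.and_eq_true, decide_eq_true_eq] at hx2 hz2 ⊢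
  omega

theorem colsL_sorted (A : List (List Bool)) (M : ℕ) : (colsL A M).Pairwise (· ≤ ·) := by
  rw [colsL]
  generalize 2 * A.length = V
  have key : ∀ V : ℕ, (((List.range V).flatMap (fun v => (List.range (dL A v)).map (fun _ => 2 * v) ++
      (List.range M).map (fun _ => 2 * v + 1))).Pairwise (· ≤ ·)) ∧
      ∀ x ∈ ((List.range V).flatMap (fun v => (List.range (dL A v)).map (fun _ => 2 * v) ++
      (List.range M).map (fun _ => 2 * v + 1))), x < 2 * V := by
    intro V
    induction V with
    | zero => simp
    | succ V ih =>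
      rw [List.range_succ, List.flatMap_append]
      constructor
      · rw [List.pairwise_append]
        refine ⟨ih.1, ?_, ?_⟩
        · rw [List.flatMap_singleton, List.pairwise_append]
          refine ⟨?_, ?_, ?_⟩
          · rw [List.pairwise_map]
            exact List.Pairwise.imp (fun _ => le_rfl) (List.pairwise_of_forall (l := List.range (dL A V))
              (R := fun _ _ => True) (fun _ _ => trivial))
          · rw [List.pairwise_map]
            exact List.Pairwise.imp (fun _ => le_rfl) (List.pairwise_of_forall (l := List.range M)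
              (R := fun _ _ => True) (fun _ _ => trivial))
          · intro x hx y hy
            rw [List.mem_map] at hx hy
            obtain ⟨_, _, rfl⟩ := hx
            obtain ⟨_, _, rfl⟩ := hy
            omega
        · intro x hx y hy
          have h1 := ih.2 x hx
          rw [List.flatMap_singleton, List.mem_append, List.mem_map, List.mem_map] at hy
          rcases hy with ⟨_, _, rfl⟩ | ⟨_, _, rfl⟩ <;> omega
      · intro x hx
        rw [List.mem_append] at hx
        rcases hx with hx | hx
        · have := ih.2 x hx
          omega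
        · rw [List.flatMap_singleton, List.mem_append, List.mem_map, List.mem_map] at hx
          rcases hx with ⟨_, _, rfl⟩ | ⟨_, _, rfl⟩ <;> omega
  exact (key V).1

theorem HM_consec (A : List (List Bool)) (M : ℕ) : ∀ r ∈ HM A M, Consec r := by
  intro r hr
  rw [HM, mat, List.mem_map] at hr
  obtain ⟨x, _, rfl⟩ := hr
  exact consec_of_sorted _ (colsL_sorted A M) _ _

end Lists

end Pool.Agent.H549R2.Convex
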