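import Pool.Agent.H549R2.Convex3

/-!
# The permanent from the permanents of interval matrices
-/

namespace Pool.Agent.H549R2.Convex

open Finset MvPolynomial

section Helpers

theorem prod_flatMap_range {α M : Type*} [CommMonoid M] (f : ℕ → List α) (g : α → M) (n : ℕ) :
    (((List.range n).flatMap f).map g).prod = ∏ i ∈ range n, ((f i).map g).prod := by
  induction n with
  | zero => simp
  | succ n ih =>
    rw [List.range_succ, List.flatMap_append, List.map_append, List.prod_append, ih,
      Finset.prod_range_succ, List.flatMap_singleton]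

theorem sum_flatMap_range {α M : Type*} [AddCommMonoid M] (f : ℕ → List α) (g : α → M) (n : ℕ) :
    (((List.range n).flatMap f).map g).sum = ∑ i ∈ range n, ((f i).map g).sum := by
  induction n with
  | zero => simp
  | succ n ih =>
    rw [List.range_succ, List.flatMap_append, List.map_append, List.sum_append, ih,
      Finset.sum_range_succ, List.flatMap_singleton]

theorem length_flatMap_range {α : Type*} (f : ℕ → List α) (n : ℕ) :
    ((List.range n).flatMap f).length = ∑ i ∈ range n, (f i).length := by
  induction n with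
  | zero => simp
  | succ n ih =>
    rw [List.range_succ, List.flatMap_append, List.length_append, ih,
      Finset.sum_range_succ, List.flatMap_singleton]

theorem prod_filter_range {M : Type*} [CommMonoid M] (p : ℕ → Bool) (g : ℕ → M) (n : ℕ) :
    (((List.range n).filter p).map g).prod = ∏ i ∈ range n, if p i = true then g i else 1 := by
  induction n with
  | zero => simp
  | succ n ih =>
    rw [List.range_succ, List.filter_append, List.map_append, List.prod_append, ih,
      Finset.prod_range_succ]
    congr 1
    by_cases h : p n = true <;> simp [h]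

theorem length_filter_range (p : ℕ → Bool) (n : ℕ) :
    ((List.range n).filter p).length = (univ.filter (fun i : Fin n => p i.val = true)).card := by
  have h1 : ((List.range n).filter p).length = ∑ i ∈ range n, if p i = true then 1 else 0 := by
    induction n with
    | zero => simp
    | succ n ih =>
      rw [List.range_succ, List.filter_append, List.length_append, ih, Finset.sum_range_succ]
      congr 1
      by_cases h : p n = true <;> simp [h]
  rw [h1, Finset.card_filter, Finset.sum_range]

theorem prod_const_range {M : Type*} [CommMonoid M] (n : ℕ) (g : ℕ → M) (x : M)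
    (h : ∀ i, g i = x) : ((List.range n).map g).prod = x ^ n := by
  have : g = fun _ => x := funext h
  rw [this, List.map_const', List.prod_replicate, List.length_range]

theorem sum_const_range {M : Type*} [AddCommMonoid M] (n : ℕ) (g : ℕ → M) (x : M)
    (h : ∀ i, g i = x) : ((List.range n).map g).sum = n • x := by
  have : g = fun _ => x := funext h
  rw [this, List.map_const', List.sum_replicate, List.length_range]

end Helpers

variable (A : List (List Bool))

/-- the set of positions of the ones -/
def SA : Finset (Fin A.length × Fin A.length) :=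
  univ.filter (fun e => ent A e.1.val e.2.val = true)

theorem degL_eq (j : Fin A.length) : degL A j.val = ((SA A).filter (fun e => e.2 = j)).card := by
  rw [degL, length_filter_range]
  refine Finset.card_bij (fun i _ => (i, j)) ?_ ?_ ?_
  · intro i hi
    rw [mem_filter] at hi
    rw [mem_filter, SA, mem_filter]
    exact ⟨⟨mem_univ _, hi.2⟩, rfl⟩
  · intro i _ i' _ h
    exact (Prod.ext_iff.1 h).1
  · rintro ⟨a, b⟩ hb
    rw [mem_filter, SA, mem_filter] at hb
    obtain ⟨⟨_, h1⟩, h2⟩ := hb
    simp only at h1 h2
    subst h2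
    exact ⟨a, by rw [mem_filter]; exact ⟨mem_univ _, h1⟩, rfl⟩

theorem dL_eq (v : ℕ) (hv : v < 2 * A.length) : dL A v = dS A.length (SA A) v := by
  rw [dL, dS]
  by_cases h : v < A.length
  · rw [if_pos h, if_pos h]
  · rw [if_neg h, if_neg h]
    have h1 := degL_eq A ⟨v - A.length, by omega⟩
    simp only at h1
    rw [h1]
    congr 2
    refine Finset.filter_congr fun e _ => ?_
    rw [Fin.ext_iff]
    simp only
    omega

theorem rows_prod (M : ℕ) : ((rowsL A M).map rowP).prod =
    (∏ e ∈ SA A, rowP (2 * e.1.val + 1, 2 * (A.length + e.2.val))) *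
      ∏ v : Fin (2 * A.length), ((X (2 * v.val) + X (2 * v.val + 1)) ^ M) := by
  rw [rowsL, List.map_append, List.prod_append]
  congr 1
  · rw [edgesL, prod_flatMap_range, SA, Finset.prod_filter, Fintype.prod_prod_type,
      Finset.prod_range]
    refine Finset.prod_congr rfl fun i _ => ?_
    rw [List.map_map, prod_filter_range, Finset.prod_range]
    rfl
  · rw [prod_flatMap_range, Finset.prod_range]
    refine Finset.prod_congr rfl fun v _ => ?_
    rw [List.map_map, prod_const_range _ _ (X (2 * v.val) + X (2 * v.val + 1))]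
    intro _
    have h1 : Icc (2 * v.val) (2 * v.val + 1) = {2 * v.val, 2 * v.val + 1} := by
      ext κ
      simp only [mem_Icc, mem_insert, mem_singleton]
      omega
    simp only [Function.comp, rowP]
    rw [h1, Finset.sum_pair (by omega)]

theorem cols_sum (M : ℕ) : ((colsL A M).map (fun κ => (Finsupp.single κ 1 : ℕ →₀ ℕ))).sum =
    mvec (2 * A.length) (dS A.length (SA A)) M := by
  rw [colsL, sum_flatMap_range, mvec, Finset.sum_range]
  refine Finset.sum_congr rfl fun v _ => ?_
  rw [List.map_append, List.sum_append, List.map_map, List.map_map, ← dL_eq A v.val v.2,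
    sum_const_range _ ((fun κ => (Finsupp.single κ 1 : ℕ →₀ ℕ)) ∘ fun _ => 2 * v.val)
      (Finsupp.single (2 * v.val) 1) (fun _ => rfl),
    sum_const_range _ ((fun κ => (Finsupp.single κ 1 : ℕ →₀ ℕ)) ∘ fun _ => 2 * v.val + 1)
      (Finsupp.single (2 * v.val + 1) 1) (fun _ => rfl)]
  simp

theorem count_eq_sum (l : List ℕ) (κ : ℕ) :
    l.count κ = ((l.map (fun κ => (Finsupp.single κ 1 : ℕ →₀ ℕ))).sum) κ := by
  induction l with
  | nil => simp
  | cons a l ih =>
    rw [List.count_cons, List.map_cons, List.sum_cons, Finsupp.add_apply, ← ih,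
      Finsupp.single_apply, add_comm]
    simp only [beq_iff_eq]

/-- the product of the factorials of the multiplicities -/
def DA (A : List (List Bool)) (M : ℕ) : ℕ :=
  ((List.range (2 * A.length)).map (fun v => (dL A v).factorial * M.factorial)).prod

theorem prod_range_list (g : ℕ → ℕ) (n : ℕ) :
    ((List.range n).map g).prod = ∏ i ∈ range n, g i := by
  induction n with
  | zero => simp
  | succ n ih =>
    rw [List.range_succ, List.map_append, List.prod_append, ih, Finset.prod_range_succ]
    simp

theorem DA_pos (M : ℕ) : 0 < DA A M := by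
  rw [DA, prod_range_list]
  exact Finset.prod_pos fun v _ => Nat.mul_pos (Nat.factorial_pos _) (Nat.factorial_pos _)

theorem prod_pairs (f : ℕ → ℤ) (V : ℕ) :
    ∏ κ ∈ range (2 * V), f κ = ∏ v ∈ range V, (f (2 * v) * f (2 * v + 1)) := by
  induction V with
  | zero => simp
  | succ V ih =>
    rw [show 2 * (V + 1) = 2 * V + 1 + 1 by ring, Finset.prod_range_succ, Finset.prod_range_succ,
      ih, Finset.prod_range_succ]
    ring

theorem factorials (M : ℕ) :
    ∏ κ ∈ (colsL A M).toFinset, (((colsL A M).count κ).factorial : ℤ) = DA A M := by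
  have h0 : ∀ κ, κ ∉ (colsL A M) → (((colsL A M).count κ).factorial : ℤ) = 1 := by
    intro κ hκ
    rw [List.count_eq_zero_of_not_mem hκ]
    simp
  have h1 : ∀ κ, κ ∈ colsL A M → κ < 2 * (2 * A.length) := by
    intro κ hκ
    rw [colsL, List.mem_flatMap] at hκ
    obtain ⟨v, hv, hκ⟩ := hκ
    rw [List.mem_range] at hv
    rw [List.mem_append, List.mem_map, List.mem_map] at hκ
    rcases hκ with ⟨_, _, rfl⟩ | ⟨_, _, rfl⟩ <;> omega
  have h2 : ∏ κ ∈ (colsL A M).toFinset, (((colsL A M).count κ).factorial : ℤ) =
      ∏ κ ∈ range (2 * (2 * A.length)), (((colsL A M).count κ).factorial : ℤ) := by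
    refine Finset.prod_subset ?_ ?_
    · intro κ hκ
      rw [List.mem_toFinset] at hκ
      rw [mem_range]
      exact h1 κ hκ
    · intro κ _ hκ
      rw [List.mem_toFinset] at hκ
      exact h0 κ hκ
  rw [h2, prod_pairs, DA, prod_range_list]
  push_cast
  refine Finset.prod_congr rfl fun v hv => ?_
  rw [mem_range] at hv
  rw [count_eq_sum, count_eq_sum, cols_sum]
  have e1 := vec_even (V := 2 * A.length) (fun v => dS A.length (SA A) v.val) (fun _ => M) ⟨v, hv⟩
  have e2 := vec_odd (V := 2 * A.length) (fun v => dS A.length (SA A) v.val) (fun _ => M) ⟨v, hv⟩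
  simp only at e1 e2
  rw [mvec, e1, e2, dL_eq A v hv]

theorem edges_length : (edgesL A).length = (SA A).card := by
  rw [edgesL, length_flatMap_range, SA, Finset.card_filter, Fintype.sum_prod_type,
    Finset.sum_range]
  refine Finset.sum_congr rfl fun i _ => ?_
  rw [List.length_map, length_filter_range, Finset.card_filter]

theorem lengths_eq (M : ℕ) (hdeg : ∀ j < A.length, 1 ≤ degL A j) :
    (rowsL A M).length = (colsL A M).length := by
  rw [rowsL, colsL, List.length_append, length_flatMap_range, length_flatMap_range, edges_length]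
  simp only [List.length_map, List.length_range, List.length_append]
  rw [Finset.sum_add_distrib]
  congr 1
  rw [← sum_dS (SA A) (fun j => by rw [← degL_eq]; exact hdeg _ j.2), Finset.sum_range]
  exact Finset.sum_congr rfl fun v _ => (dL_eq A v.val v.2).symm

theorem F_HM (M : ℕ) (hdeg : ∀ j < A.length, 1 ≤ degL A j) :
    (F (HM A M) : ℤ) = DA A M * coeff (mvec (2 * A.length) (dS A.length (SA A)) M)
      ((∏ e ∈ SA A, rowP (2 * e.1.val + 1, 2 * (A.length + e.2.val))) *
        ∏ v : Fin (2 * A.length), ((X (2 * v.val) + X (2 * v.val + 1)) ^ M)) := by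
  rw [HM, F_mat _ _ (lengths_eq A M hdeg), factorials, cols_sum, rows_prod]

theorem div_eq (M : ℕ) (hdeg : ∀ j < A.length, 1 ≤ degL A j) :
    ((F (HM A M) / DA A M : ℕ) : ℤ) = coeff (mvec (2 * A.length) (dS A.length (SA A)) M)
      ((∏ e ∈ SA A, rowP (2 * e.1.val + 1, 2 * (A.length + e.2.val))) *
        ∏ v : Fin (2 * A.length), ((X (2 * v.val) + X (2 * v.val + 1)) ^ M)) := by
  have h := DA_pos A M
  rw [Int.natCast_div, F_HM A M hdeg, Int.mul_ediv_cancel_left _ (by exact_mod_cast h.ne')]

/-- **The reduction identity.** -/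
theorem reduction (hsq : ∀ r ∈ A, r.length = A.length) (hdeg : ∀ j < A.length, 1 ≤ degL A j) :
    ∑ M ∈ range ((edgesL A).length + 1), (-1 : ℤ) ^ M * (((edgesL A).length + 1).choose (M + 1)) *
      ((F (HM A M) / DA A M : ℕ) : ℤ) = (-1) ^ A.length * (F A : ℤ) := by
  have h := matchings_eq (SA A) (fun j => by rw [← degL_eq]; exact hdeg _ j.2)
  rw [edges_length, F_eq_card A hsq]
  simp_rw [div_eq A _ hdeg]
  rw [h]
  congr 3
  refine Finset.filter_congr fun σ _ => ?_
  simp [SA]

theorem F_zero (hsq : ∀ r ∈ A, r.length = A.length) (j : ℕ) (hj : j < A.length)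
    (hdeg : degL A j = 0) : F A = 0 := by
  rw [F_eq_card A hsq, Finset.card_eq_zero, Finset.filter_eq_empty_iff]
  intro σ _ h
  have h1 := h ⟨j, hj⟩
  have h2 := degL_eq A ⟨j, hj⟩
  simp only at h2
  rw [hdeg] at h2
  have h3 : (σ ⟨j, hj⟩, (⟨j, hj⟩ : Fin A.length)) ∈ (SA A).filter (fun e => e.2 = ⟨j, hj⟩) := by
    rw [mem_filter, SA, mem_filter]
    exact ⟨⟨mem_univ _, h1⟩, rfl⟩
  rw [Finset.card_eq_zero.1 h2.symm] at h3
  simp at h3

end Pool.Agent.H549R2.Convex
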