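import Pool.Agent.H549R2.Convex4
import Pool.Agent.H527R2.SharpP
import Pool.Agent.H642R2.TMSim

/-!
# The reduction runs in polynomial time
-/

namespace Pool.Agent.NPC.H549Convex

open Pool.Agent.H549R2.Convex Pool.Agent.NPC.Cnt

section General

variable {α β : Type} [TEnc α] [TEnc β]

theorem size_mul_le (x y : ℕ) : (x * y).size ≤ x.size + y.size := by
  rw [Nat.size_le, pow_add]
  exact Nat.mul_lt_mul'' (Nat.lt_size_self x) (Nat.lt_size_self y)

theorem poly_prod {l : α → List ℕ} (hl : Poly l) : Poly (fun a => (l a).prod) := by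
  obtain ⟨r, hr⟩ := hl.sz_le
  refine (Poly.foldr (s := fun _ => 1) (F := fun _ x s => x * s) hl (Poly.const 1)
    (Poly.mul (Poly.fst (Poly.snd Poly.id)) (Poly.snd (Poly.snd Poly.id)))
    (Polynomial.C 4 * r + Polynomial.C 9) ?_).congr fun a => ?_
  · intro a k hk
    have key : ∀ l : List ℕ, (l.foldr (fun x s => x * s) 1).size ≤ sz l + 1 := by
      intro l
      induction l with
      | nil => simp
      | cons x l ih =>
        rw [List.foldr_cons]
        have h1 := size_mul_le x (l.foldr (fun x s => x * s) 1)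
        have h5 := size_le_sz x
        simp
        omega
    have h1 := sz_nat_le (((l a).drop k).foldr (fun x s => x * s) 1)
    have h2 := key ((l a).drop k)
    have h3 := Poly.sz_drop_le (l a) k
    have h4 := hr a
    simp only [Polynomial.eval_add, Polynomial.eval_mul, Polynomial.eval_C]
    omega
  · rfl

theorem upoly_fact {n : α → ℕ} (hn : UPoly n) : Poly (fun a => (n a).factorial) := by
  have h1 : Poly (fun a => (List.range (n a)).map (fun i => i + 1)) :=
    Poly.map (F := fun _ i => i + 1) hn.range (Poly.succ (Poly.snd Poly.id))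
  refine (poly_prod h1).congr fun a => ?_
  generalize n a = m
  induction m with
  | zero => simp
  | succ m ih =>
    rw [List.range_succ, List.map_append, List.prod_append, ih, Nat.factorial_succ]
    simp [mul_comm]

theorem upoly_choose {m n : α → ℕ} (hm : UPoly m) (hn : UPoly n) (h : ∀ a, n a ≤ m a) :
    Poly (fun a => (m a).choose (n a)) := by
  have hsub : UPoly (fun a => m a - n a) :=
    UPoly.of_le (Poly.sub hm.toPoly hn.toPoly) hm (fun a => Nat.sub_le _ _)
  refine (Poly.div (upoly_fact hm) (Poly.mul (upoly_fact hn) (upoly_fact hsub))).congr fun a => ?_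
  rw [Nat.choose_eq_factorial_div_factorial (h a)]

end General

section Specific

/-- shorthand for the type of lists of rows -/
abbrev LL := List (List Bool)

theorem ent_poly : Poly (fun p : LL × ℕ × ℕ => ent p.1 p.2.1 p.2.2) :=
  Poly.getD (Poly.getD (Poly.fst Poly.id) (Poly.fst (Poly.snd Poly.id)) (Poly.const []))
    (Poly.snd (Poly.snd Poly.id)) (Poly.const false)

theorem deg_list_poly : Poly (fun p : LL × ℕ =>
    (List.range p.1.length).filter (fun i => ent p.1 i p.2)) :=
  Poly.filter (p := fun (p : LL × ℕ) i => ent p.1 i p.2) (Poly.range_length (Poly.fst Poly.id))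
    (ent_poly.comp (Poly.pair (Poly.fst (Poly.fst Poly.id)) (Poly.pair (Poly.snd Poly.id)
      (Poly.snd (Poly.fst Poly.id)))))

theorem degL_poly : Poly (fun p : LL × ℕ => degL p.1 p.2) := Poly.length deg_list_poly

theorem degL_le (A : LL) (j : ℕ) : degL A j ≤ A.length := by
  rw [degL]
  have := List.length_filter_le (fun i => ent A i j) (List.range A.length)
  simpa using this

theorem dL_poly : Poly (fun p : LL × ℕ => dL p.1 p.2) := by
  have h1 : Poly (fun p : LL × ℕ => (p.1, p.2 - p.1.length)) := Poly.pair (Poly.fst Poly.id)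
      (Poly.sub (Poly.snd Poly.id) (Poly.length (Poly.fst Poly.id)))
  have h2 := Poly.comp degL_poly h1
  have h3 := Poly.sub h2 (Poly.const 1)
  have h4 : Poly (fun p : LL × ℕ => decide (p.2 < p.1.length)) :=
    Poly.decide_lt (Poly.snd Poly.id) (Poly.length (Poly.fst Poly.id))
  have h5 := Poly.ite (p := fun p : LL × ℕ => p.2 < p.1.length) h4 (Poly.const 1) h3
  exact h5

theorem dL_upoly : UPoly (fun p : LL × ℕ => dL p.1 p.2) := by
  refine UPoly.of_le dL_poly (UPoly.add (UPoly.length (Poly.fst Poly.id)) (UPoly.const 1))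
    fun p => ?_
  rw [dL]
  split_ifs with h
  · simp
  · have := degL_le p.1 (p.2 - p.1.length)
    omega

theorem edges_poly : Poly edgesL := by
  have h2 : Poly (fun p : LL × ℕ => (List.range p.1.length).filter (fun j => ent p.1 p.2 j)) :=
    Poly.filter (p := fun (p : LL × ℕ) j => ent p.1 p.2 j) (Poly.range_length (Poly.fst Poly.id))
      (ent_poly.comp (Poly.pair (Poly.fst (Poly.fst Poly.id)) (Poly.pair
        (Poly.snd (Poly.fst Poly.id)) (Poly.snd Poly.id))))
  have h3 : Poly (fun p : LL × ℕ => ((List.range p.1.length).filter (fun j => ent p.1 p.2 j)).map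
      (fun j => (2 * p.2 + 1, 2 * (p.1.length + j)))) :=
    Poly.map (F := fun (p : LL × ℕ) j => (2 * p.2 + 1, 2 * (p.1.length + j))) h2
      (Poly.pair (Poly.succ (Poly.mul (Poly.const 2) (Poly.snd (Poly.fst Poly.id))))
        (Poly.mul (Poly.const 2) (Poly.add (Poly.length (Poly.fst (Poly.fst Poly.id)))
          (Poly.snd Poly.id))))
  exact Poly.flatMap (F := fun (A : LL) i => ((List.range A.length).filter
    (fun j => ent A i j)).map (fun j => (2 * i + 1, 2 * (A.length + j))))
    (Poly.range_length Poly.id) h3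

/-- number of ones -/
def nE (A : LL) : ℕ := (edgesL A).length

theorem nE_upoly : UPoly nE := UPoly.length edges_poly

/-- the multiplicity, bounded by the number of ones -/
def mM (p : LL × ℕ) : ℕ := min p.2 (nE p.1)

theorem mM_upoly : UPoly mM :=
  UPoly.of_le (Poly.min (Poly.snd Poly.id) (nE_upoly.toPoly.comp (Poly.fst Poly.id)))
    (nE_upoly.comp (Poly.fst Poly.id)) (fun _ => Nat.min_le_right _ _)

theorem two_len_range : Poly (fun A : LL => List.range (2 * A.length)) :=
  (UPoly.mul (UPoly.const 2) (UPoly.length Poly.id)).range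

theorem rows_poly : Poly (fun p : LL × ℕ => rowsL p.1 (mM p)) := by
  refine Poly.append (edges_poly.comp (Poly.fst Poly.id)) ?_
  refine Poly.flatMap (F := fun (p : LL × ℕ) v => (List.range (mM p)).map
    (fun _ => (2 * v, 2 * v + 1))) (two_len_range.comp (Poly.fst Poly.id)) ?_
  refine Poly.map (F := fun (q : (LL × ℕ) × ℕ) _ => (2 * q.2, 2 * q.2 + 1))
    ((mM_upoly.comp (Poly.fst Poly.id)).range) ?_
  have h : Poly (fun p : ((LL × ℕ) × ℕ) × ℕ => 2 * p.1.2) :=
    Poly.mul (Poly.const 2) (Poly.snd (Poly.fst Poly.id))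
  exact Poly.pair h (Poly.succ h)

theorem cols_poly : Poly (fun p : LL × ℕ => colsL p.1 (mM p)) := by
  refine Poly.flatMap (F := fun (p : LL × ℕ) v => (List.range (dL p.1 v)).map (fun _ => 2 * v) ++
    (List.range (mM p)).map (fun _ => 2 * v + 1)) (two_len_range.comp (Poly.fst Poly.id)) ?_
  have h : Poly (fun p : ((LL × ℕ) × ℕ) × ℕ => 2 * p.1.2) :=
    Poly.mul (Poly.const 2) (Poly.snd (Poly.fst Poly.id))
  refine Poly.append ?_ ?_
  · refine Poly.map (F := fun (q : (LL × ℕ) × ℕ) _ => 2 * q.2) ?_ h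
    have h1 : UPoly (fun q : (LL × ℕ) × ℕ => dL q.1.1 q.2) :=
      dL_upoly.comp (f := fun q : (LL × ℕ) × ℕ => (q.1.1, q.2))
        (Poly.pair (Poly.fst (Poly.fst Poly.id)) (Poly.snd Poly.id))
    exact h1.range
  · exact Poly.map (F := fun (q : (LL × ℕ) × ℕ) _ => 2 * q.2 + 1)
      ((mM_upoly.comp (Poly.fst Poly.id)).range) (Poly.succ h)

theorem mat_poly : Poly (fun p : List (ℕ × ℕ) × List ℕ => mat p.1 p.2) := by
  refine Poly.map (F := fun (p : List (ℕ × ℕ) × List ℕ) r => p.2.map
    (fun κ => decide (r.1 ≤ κ) && decide (κ ≤ r.2))) (Poly.fst Poly.id) ?_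
  refine Poly.map (F := fun (q : (List (ℕ × ℕ) × List ℕ) × (ℕ × ℕ)) κ =>
    decide (q.2.1 ≤ κ) && decide (κ ≤ q.2.2)) (Poly.snd (Poly.fst Poly.id)) ?_
  exact Poly.and (Poly.decide_le (Poly.fst (Poly.snd (Poly.fst Poly.id))) (Poly.snd Poly.id))
    (Poly.decide_le (Poly.snd Poly.id) (Poly.snd (Poly.snd (Poly.fst Poly.id))))

theorem HM_poly : Poly (fun p : LL × ℕ => HM p.1 (mM p)) :=
  mat_poly.comp (Poly.pair rows_poly cols_poly)

theorem DA_poly : Poly (fun p : LL × ℕ => DA p.1 (mM p)) := by
  refine poly_prod ?_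
  refine Poly.map (F := fun (p : LL × ℕ) v => (dL p.1 v).factorial * (mM p).factorial)
    (two_len_range.comp (Poly.fst Poly.id)) ?_
  refine Poly.mul (upoly_fact ?_) (upoly_fact (mM_upoly.comp (Poly.fst Poly.id)))
  exact dL_upoly.comp (f := fun q : (LL × ℕ) × ℕ => (q.1.1, q.2))
        (Poly.pair (Poly.fst (Poly.fst Poly.id)) (Poly.snd Poly.id))

/-- the queries -/
def qs (A : LL) : List LL := (List.range (nE A + 1)).map (fun M => HM A (mM (A, M)))

theorem qs_poly : Poly qs :=
  Poly.map (F := fun (A : LL) M => HM A (mM (A, M)))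
    (UPoly.add nE_upoly (UPoly.const 1)).range HM_poly

theorem qs_consec (A : LL) : ∀ B ∈ qs A, ∀ r ∈ B, Consec r := by
  intro B hB
  rw [qs, List.mem_map] at hB
  obtain ⟨M, _, rfl⟩ := hB
  exact HM_consec A _

/-- one term of the reduction identity -/
def term (A : LL) (ans : List ℕ) (M : ℕ) : ℕ :=
  (nE A + 1).choose (mM (A, M) + 1) * (ans.getD M 0 / DA A (mM (A, M)))

/-- the terms with a given parity of `M` -/
def part (A : LL) (ans : List ℕ) (b : ℕ) : ℕ :=
  (((List.range (nE A + 1)).filter (fun M => decide (M % 2 = b))).map (term A ans)).sum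

theorem mM_le (p : LL × ℕ) : mM p ≤ nE p.1 := Nat.min_le_right _ _

theorem term_poly : Poly (fun q : (LL × List ℕ) × ℕ => term q.1.1 q.1.2 q.2) := by
  have hA : Poly (fun q : (LL × List ℕ) × ℕ => (q.1.1, q.2)) :=
    Poly.pair (Poly.fst (Poly.fst Poly.id)) (Poly.snd Poly.id)
  have hE : UPoly (fun q : (LL × List ℕ) × ℕ => nE q.1.1 + 1) :=
    UPoly.add (nE_upoly.comp (Poly.fst (Poly.fst Poly.id))) (UPoly.const 1)
  have hM : UPoly (fun q : (LL × List ℕ) × ℕ => mM (q.1.1, q.2) + 1) :=
    UPoly.add (mM_upoly.comp hA) (UPoly.const 1)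
  have h1 : Poly (fun q : (LL × List ℕ) × ℕ => (nE q.1.1 + 1).choose (mM (q.1.1, q.2) + 1)) :=
    upoly_choose hE hM (fun q => Nat.succ_le_succ (mM_le (q.1.1, q.2)))
  have h2 : Poly (fun q : (LL × List ℕ) × ℕ => q.1.2.getD q.2 0) :=
    Poly.getD (Poly.snd (Poly.fst Poly.id)) (Poly.snd Poly.id) (Poly.const 0)
  have h3 : Poly (fun q : (LL × List ℕ) × ℕ => DA q.1.1 (mM (q.1.1, q.2))) := by
    have h := Poly.comp DA_poly hA
    exact h
  exact Poly.mul h1 (Poly.div h2 h3)

theorem part_poly (b : ℕ) : Poly (fun p : LL × List ℕ => part p.1 p.2 b) := by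
  have h1 : Poly (fun p : LL × List ℕ => List.range (nE p.1 + 1)) :=
    (UPoly.add (nE_upoly.comp (Poly.fst Poly.id)) (UPoly.const 1)).range
  have h2 : Poly (fun p : LL × List ℕ => (List.range (nE p.1 + 1)).filter
      (fun M => decide (M % 2 = b))) :=
    Poly.filter (p := fun (p : LL × List ℕ) M => decide (M % 2 = b)) h1
      (Poly.decide_eq (Poly.mod (Poly.snd Poly.id) (Poly.const 2)) (Poly.const b))
  have h3 : Poly (fun p : LL × List ℕ => ((List.range (nE p.1 + 1)).filter
      (fun M => decide (M % 2 = b))).map (fun M => term p.1 p.2 M)) :=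
    Poly.map (F := fun (p : LL × List ℕ) M => term p.1 p.2 M) h2 term_poly
  exact Poly.sum h3

/-- test for square matrices -/
def sqB (A : LL) : Bool := A.all fun r => decide (r.length = A.length)

/-- test for nonzero columns -/
def degB (A : LL) : Bool := (List.range A.length).all fun j => decide (0 < degL A j)

theorem sqB_poly : Poly sqB := by
  have h : Poly (fun q : LL × List Bool => decide (q.2.length = q.1.length)) :=
    Poly.decide_eq (Poly.length (Poly.snd Poly.id)) (Poly.length (Poly.fst Poly.id))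
  exact Poly.all (p := fun (A : LL) r => decide (r.length = A.length)) Poly.id h

theorem degB_poly : Poly degB := by
  have h : Poly (fun q : LL × ℕ => decide (0 < degL q.1 q.2)) :=
    Poly.decide_lt (Poly.const 0) degL_poly
  exact Poly.all (p := fun (A : LL) j => decide (0 < degL A j)) (Poly.range_length Poly.id) h

/-- the final computation from the answers -/
def post (p : LL × List ℕ) : ℕ :=
  bif sqB p.1 then
    (bif degB p.1 then
      (bif decide (p.1.length % 2 = 0) then part p.1 p.2 0 - part p.1 p.2 1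
      else part p.1 p.2 1 - part p.1 p.2 0)
    else 0)
  else 0

theorem post_poly : Poly post := by
  have h0 : Poly (fun p : LL × List ℕ => sqB p.1) := sqB_poly.comp (Poly.fst Poly.id)
  have h1 : Poly (fun p : LL × List ℕ => degB p.1) := degB_poly.comp (Poly.fst Poly.id)
  have h2 : Poly (fun p : LL × List ℕ => decide (p.1.length % 2 = 0)) :=
    Poly.decide_eq (Poly.mod (Poly.length (Poly.fst Poly.id)) (Poly.const 2)) (Poly.const 0)
  have h3 := part_poly 0
  have h4 := part_poly 1
  exact Poly.cond h0 (Poly.cond h1 (Poly.cond h2 (Poly.sub h3 h4) (Poly.sub h4 h3))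
    (Poly.const 0)) (Poly.const 0)

end Specific

end Pool.Agent.NPC.H549Convex
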