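import Pool.Agent.H549R2.Convex5

/-!
# The 0-1 permanent reduces to the permanent of matrices with consecutive ones in the rows
-/

namespace Pool.Agent.NPC.H549Convex

open Pool.Agent.H549R2.Convex Pool.Agent.NPC.Cnt Finset

theorem sum_filter_range_list (f : ℕ → ℕ) (p : ℕ → Bool) (n : ℕ) :
    (((List.range n).filter p).map f).sum = ∑ i ∈ range n, if p i = true then f i else 0 := by
  induction n with
  | zero => simp
  | succ n ih =>
    rw [List.range_succ, List.filter_append, List.map_append, List.sum_append, ih,
      Finset.sum_range_succ]
    congr 1
    by_cases h : p n = true <;> simp [h]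

theorem part_eq (A : LL) (g : LL → ℕ) (hg : ∀ B, (∀ r ∈ B, Consec r) → g B = F B) (b : ℕ) :
    part A ((qs A).map g) b = ∑ M ∈ range (nE A + 1), if M % 2 = b then
      (nE A + 1).choose (M + 1) * (F (HM A M) / DA A M) else 0 := by
  rw [part, sum_filter_range_list]
  refine Finset.sum_congr rfl fun M hM => ?_
  rw [mem_range] at hM
  have h1 : mM (A, M) = M := by
    unfold mM
    exact Nat.min_eq_left (by simp only; omega)
  have h2 : ((qs A).map g).getD M 0 = F (HM A M) := by
    have hlen : M < ((qs A).map g).length := by simp [qs]; omega
    rw [List.getD_eq_getElem _ _ hlen, List.getElem_map]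
    have h3 : (qs A)[M]'(by simpa using hlen) = HM A M := by
      simp only [qs, List.getElem_map, List.getElem_range, h1]
    rw [h3, hg _ (HM_consec A M)]
  simp only [decide_eq_true_eq, term, h1, h2]

theorem post_correct (A : LL) (g : LL → ℕ) (hg : ∀ B, (∀ r ∈ B, Consec r) → g B = F B) :
    post (A, (qs A).map g) = F A := by
  unfold post
  simp only
  cases hs : sqB A with
  | false =>
    rw [cond_false]
    have : ¬ ∀ r ∈ A, r.length = A.length := by
      intro h
      rw [sqB, Bool.eq_false_iff] at hs
      apply hs
      rw [List.all_eq_true]
      intro r hr
      simp [h r hr]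
    rw [F, if_neg this]
  | true =>
    have hsq : ∀ r ∈ A, r.length = A.length := by
      intro r hr
      rw [sqB, List.all_eq_true] at hs
      simpa using hs r hr
    rw [cond_true]
    cases hd : degB A with
    | false =>
      rw [cond_false]
      rw [degB, List.all_eq_false] at hd
      obtain ⟨j, hj, hj2⟩ := hd
      rw [List.mem_range] at hj
      simp only [decide_eq_true_eq, not_lt, Nat.le_zero] at hj2
      exact (F_zero A hsq j hj hj2).symm
    | true =>
      rw [cond_true]
      have hdeg : ∀ j < A.length, 1 ≤ degL A j := by
        intro j hj
        rw [degB, List.all_eq_true] at hd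
        have := hd j (List.mem_range.2 hj)
        simp only [decide_eq_true_eq] at this
        exact this
      have hred := reduction A hsq hdeg
      have hsplit : ((part A ((qs A).map g) 0 : ℕ) : ℤ) - (part A ((qs A).map g) 1 : ℕ) =
          (-1) ^ A.length * (F A : ℤ) := by
        rw [← hred, part_eq A g hg, part_eq A g hg]
        push_cast
        rw [← Finset.sum_sub_distrib]
        refine Finset.sum_congr rfl fun M _ => ?_
        have hE : nE A = (edgesL A).length := rfl
        rcases Nat.even_or_odd M with h | h
        · rw [if_pos (Nat.even_iff.1 h), if_neg (by have := Nat.even_iff.1 h; omega), h.neg_one_pow,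
            hE]
          ring
        · rw [if_neg (by have := Nat.odd_iff.1 h; omega), if_pos (Nat.odd_iff.1 h), h.neg_one_pow,
            hE]
          ring
      by_cases hn : A.length % 2 = 0
      · rw [show decide (A.length % 2 = 0) = true from decide_eq_true hn, cond_true]
        rw [(Nat.even_iff.2 hn).neg_one_pow, one_mul] at hsplit
        omega
      · rw [show decide (A.length % 2 = 0) = false from decide_eq_false hn, cond_false]
        rw [(Nat.odd_iff.2 (by omega)).neg_one_pow] at hsplit
        omega

theorem F_size (A : LL) : (F A).size ≤ A.length * A.length + 1 := by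
  by_cases h : ∀ r ∈ A, r.length = A.length
  · rw [F_eq_card A h, Nat.size_le]
    have h1 : (univ.filter (fun σ : Equiv.Perm (Fin A.length) =>
        ∀ j, ent A (σ j).val j.val = true)).card ≤ A.length.factorial := by
      refine (Finset.card_filter_le _ _).trans ?_
      rw [Finset.card_univ, Fintype.card_perm, Fintype.card_fin]
    have h2 : A.length.factorial ≤ A.length ^ A.length := Nat.factorial_le_pow _
    have h3 : A.length ^ A.length ≤ (2 ^ A.length) ^ A.length :=
      Nat.pow_le_pow_left (Nat.lt_two_pow_self).le _
    rw [← pow_mul] at h3
    have h4 : 2 ^ (A.length * A.length) < 2 ^ (A.length * A.length + 1) :=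
      Nat.pow_lt_pow_right (by norm_num) (by omega)
    omega
  · rw [F, if_neg h]
    simp

open Classical in
/-- The function `F` restricted to the matrices all of whose rows have consecutive ones; other
inputs have value `0`. -/
noncomputable def FC (A : List (List Bool)) : ℕ := if ∀ r ∈ A, Consec r then F A else 0

theorem FC_size (A : LL) : (FC A).size ≤ A.length * A.length + 1 := by
  rw [FC]
  split_ifs
  · exact F_size A
  · simp

theorem turing : TuringReduces (strFn F) (strFn FC) := by
  have h1 : Poly (fun x : List Bool => match (decode x : Option LL) with
      | none => [] | some A => qs A) := by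
    refine (Poly.optCases (o := fun x : List Bool => (decode x : Option LL))
      (g := fun _ => []) (h := fun _ A => qs A) poly_decode (Poly.const _)
      (qs_poly.comp (Poly.snd Poly.id))).congr fun x => ?_
    cases (decode x : Option LL) <;> rfl
  have h2 : Poly (fun p : List Bool × List ℕ => match (decode p.1 : Option LL) with
      | none => 0 | some A => post (A, p.2)) := by
    have hp : Poly (fun q : (List Bool × List ℕ) × LL => (q.2, q.1.2)) :=
      Poly.pair (Poly.snd Poly.id) (Poly.snd (Poly.fst Poly.id))
    have hp2 := Poly.comp post_poly hp
    refine (Poly.optCases (o := fun p : List Bool × List ℕ => (decode p.1 : Option LL))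
      (g := fun _ => 0) (h := fun p A => post (A, p.2)) (poly_decode.comp (Poly.fst Poly.id))
      (Poly.const _) hp2).congr fun x => ?_
    cases (decode x.1 : Option LL) <;> rfl
  refine turingReduces_of_list _ _ h1 h2 (fun x => ?_) (Polynomial.X * Polynomial.X +
    Polynomial.C 1) (fun A => ?_)
  · simp only
    cases hx : (decode x : Option LL) with
    | none =>
      have hno : ¬ ∃ A : LL, bits A = x := by
        rintro ⟨A, hA⟩
        have := decode_eq_some.2 hA
        rw [hx] at this
        exact absurd this (by simp)
      rw [strFn_of_not _ hno]
    | some A =>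
      have hA : bits A = x := decode_eq_some.1 hx
      rw [← hA, strFn_bits]
      simp only
      rw [post_correct A FC]
      intro B hB
      rw [FC, if_pos hB]
  · refine (FC_size A).trans ?_
    have h := length_lt_sz A
    simp only [Polynomial.eval_add, Polynomial.eval_mul, Polynomial.eval_X, Polynomial.eval_C]
    have := Nat.mul_le_mul h.le h.le
    omega

theorem fp_of_poly {h : List Bool → ℕ} (hh : Poly h) : FP h := by
  have h1 : Poly (fun x : List Bool => (h x).bits) := Poly.natBits hh
  have h2 : PC (fun x : List Bool => x) (bits : List Bool → List Bool)
      (fun x => (h x).bits) :=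
    PC.comp (g := fun x : List Bool => (h x).bits) (f := fun x : List Bool => x) h1 PC.ofBits
  exact PC.toPolyTime (PC.comp (g := fun x : List Bool => x) (f := fun x => (h x).bits) pc_raw h2)

theorem fp_iff : FP (strFn F) ↔ ∃ g : List Bool → List Bool, PolyTime g ∧
    ∀ A : List (List Bool), (∀ r ∈ A, Consec r) → g (bits A) = (F A).bits := by
  constructor
  · intro h
    exact ⟨_, h, fun A _ => by rw [strFn_bits]⟩
  · rintro ⟨g, hg, hgF⟩
    -- the subroutine as a function on structured data
    have hid : PC (bits : LL → List Bool) (id : List Bool → List Bool) (fun A => bits A) :=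
      (PC.id : PC (bits : LL → List Bool) bits (fun A => A))
    have h1 : PC (bits : LL → List Bool) (id : List Bool → List Bool) (fun A => g (bits A)) :=
      PC.comp (Pool.Agent.H642R2.TMSim.polyTime_toPC hg) hid
    have h2 : PC (bits : LL → List Bool) (bits : List Bool → List Bool) (fun A => g (bits A)) :=
      PC.comp (g := fun x : List Bool => x) (f := fun A : LL => g (bits A)) PC.ofBits h1
    have h3 : Poly (fun A : LL => valB (g (bits A))) := Poly.valBits h2
    set G : LL → ℕ := fun A => valB (g (bits A)) with hG
    have hGF : ∀ B, (∀ r ∈ B, Consec r) → G B = F B := by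
      intro B hB
      rw [hG]
      simp only
      rw [hgF B hB, valB_bits]
    have h4 : Poly (fun A : LL => post (A, (qs A).map G)) := by
      have h5 : Poly (fun A : LL => (qs A).map G) :=
        Poly.map (F := fun (_ : LL) B => G B) qs_poly (h3.comp (Poly.snd Poly.id))
      have h6 := Poly.comp post_poly (Poly.pair Poly.id h5)
      exact h6
    have h5 : Poly F := h4.congr fun A => post_correct A G hGF
    have h6 : Poly (fun x : List Bool => match (decode x : Option LL) with
        | none => 0 | some A => F A) := by
      refine (Poly.optCases (o := fun x : List Bool => (decode x : Option LL))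
        (g := fun _ => 0) (h := fun _ A => F A) poly_decode (Poly.const _)
        (h5.comp (Poly.snd Poly.id))).congr fun x => ?_
      cases (decode x : Option LL) <;> rfl
    have h7 : Poly (strFn F) := h6.congr fun x => by
      cases hx : (decode x : Option LL) with
      | none =>
        have hno : ¬ ∃ A : LL, bits A = x := by
          rintro ⟨A, hA⟩
          have := decode_eq_some.2 hA
          rw [hx] at this
          exact absurd this (by simp)
        rw [strFn_of_not _ hno]
      | some A =>
        have hA : bits A = x := decode_eq_some.1 hx
        rw [← hA, strFn_bits]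
    exact fp_of_poly h7

end Pool.Agent.NPC.H549Convex
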