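import Pool.Agent.H549R2.Convex3

/-!
# Linear extensions of interval orders: counting
-/

namespace Pool.Agent.H549R2.LE

open Finset Pool.Agent.H549R2.Convex

/-- The interval order of a list of closed intervals with natural endpoints: the interval `i`
precedes the interval `j` iff it lies entirely to the left of it. -/
def Prec (l : List (ℕ × ℕ)) (i j : Fin l.length) : Prop :=
  (l.get i).2 < (l.get j).1

/-- The number of linear extensions of the interval order: the number of bijections of the set of
intervals onto `{0, ..., n - 1}` that preserve the order. -/
noncomputable def linExt (l : List (ℕ × ℕ)) : ℕ :=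
  Nat.card {σ : Equiv.Perm (Fin l.length) // ∀ i j, Prec l i j → σ i < σ j}

/-- `j` covers `i` in the interval order. -/
def Cov (l : List (ℕ × ℕ)) (i j : Fin l.length) : Prop :=
  Prec l i j ∧ ∀ k, ¬ (Prec l i k ∧ Prec l k j)

/-- The list consists of nonempty intervals and its interval order is `N`-free: two elements with a
common upper cover have the same upper covers. -/
def NFree (l : List (ℕ × ℕ)) : Prop :=
  (∀ p ∈ l, p.1 ≤ p.2) ∧ ∀ a b c d, Cov l a b → Cov l c b → Cov l c d → Cov l a d

section Labels

variable {n : ℕ}

/-- number of bijections sorting a labelling -/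
theorem card_sorting (T : Fin n → ℕ) :
    Nat.card {σ : Equiv.Perm (Fin n) // ∀ i j, T i < T j → σ i < σ j} =
      ∏ k ∈ univ.image T, (Fintype.card {c // T c = k}).factorial := by
  have h1 := card_lifts (fun c => T (Tuple.sort T c)) T
  rw [if_pos (Equiv.sum_comp (Tuple.sort T) (fun c => (Finsupp.single (T c) 1 : ℕ →₀ ℕ)))] at h1
  rw [← h1, ← Fintype.card_subtype, ← Nat.card_eq_fintype_card]
  refine Nat.card_congr (Equiv.subtypeEquiv (Equiv.symmEquiv _ _) fun σ => ?_)
  constructor
  · intro hσ c
    have hm : Monotone (T ∘ σ.symm) := by
      intro x y hxy
      by_contra hlt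
      rw [not_le] at hlt
      have := hσ _ _ hlt
      simp only [Equiv.apply_symm_apply] at this
      exact absurd hxy (not_le.2 this)
    exact congrFun (Tuple.comp_sort_eq_comp_iff_monotone.2 hm) c
  · intro he i j hij
    have hm : Monotone (T ∘ σ.symm) := Tuple.comp_sort_eq_comp_iff_monotone.1 (funext he)
    by_contra hlt
    rw [not_lt] at hlt
    have := hm hlt
    simp only [Function.comp, Equiv.symm_apply_apply] at this
    exact absurd hij (not_lt.2 this)

end Labels

section Blocks

variable (R : List (ℕ × ℕ)) (g : ℕ)

/-- the points: `g` points at each even position, one point at each odd position -/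
def pts (m g : ℕ) : List ℕ :=
  (List.range m).flatMap (fun k => (List.range g).map (fun _ => 2 * k) ++ [2 * k + 1])

/-- the intervals: the rows, stretched, and the points -/
def lst : List (ℕ × ℕ) :=
  R.map (fun r => (2 * r.1, 2 * r.2)) ++ (pts R.length g).map (fun c => (c, c))

theorem pts_succ (m g : ℕ) : pts (m + 1) g = pts m g ++ ((List.range g).map (fun _ => 2 * m) ++
    [2 * m + 1]) := by
  rw [pts, List.range_succ, List.flatMap_append, List.flatMap_singleton, ← pts]

theorem mem_pts (m g c : ℕ) (h : c ∈ pts m g) : c < 2 * m := by
  induction m with
  | zero => simp [pts] at h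
  | succ m ih =>
    rw [pts_succ] at h
    simp only [List.mem_append, List.mem_map, List.mem_range, List.mem_singleton] at h
    rcases h with h | ⟨_, _, h⟩ | h
    · have := ih h
      omega
    · omega
    · omega

theorem count_pts_odd (m g k : ℕ) (hk : k < m) : (pts m g).count (2 * k + 1) = 1 := by
  induction m with
  | zero => omega
  | succ m ih =>
    rw [pts_succ, List.count_append, List.count_append]
    have h0 : ((List.range g).map (fun _ => 2 * m)).count (2 * k + 1) = 0 := by
      rw [List.count_eq_zero]
      intro h
      rw [List.mem_map] at h
      obtain ⟨_, _, h⟩ := h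
      omega
    rw [h0]
    rcases Nat.lt_succ_iff_lt_or_eq.1 hk with h | h
    · rw [ih h, List.count_singleton]
      have : ((2 * m + 1 : ℕ) == 2 * k + 1) = false := by simp; omega
      rw [this]
      simp
    · subst h
      rw [List.count_eq_zero_of_not_mem (fun h => by have := mem_pts _ _ _ h; omega)]
      simp

theorem count_pts_even (m g k : ℕ) (hk : k < m) : (pts m g).count (2 * k) = g := by
  induction m with
  | zero => omega
  | succ m ih =>
    rw [pts_succ, List.count_append, List.count_append, List.count_singleton]
    have h1 : ((2 * m + 1 : ℕ) == 2 * k) = false := by simp; omega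
    rw [h1]
    rcases Nat.lt_succ_iff_lt_or_eq.1 hk with h | h
    · rw [ih h, List.count_eq_zero_of_not_mem]
      · simp
      · intro h
        rw [List.mem_map] at h
        obtain ⟨_, _, h⟩ := h
        omega
    · subst h
      rw [List.count_eq_zero_of_not_mem (fun h => by have := mem_pts _ _ _ h; omega)]
      rw [List.map_const', List.length_range, List.count_replicate_self]
      simp

theorem pts_length (m g : ℕ) : (pts m g).length = m * (g + 1) := by
  induction m with
  | zero => simp [pts]
  | succ m ih =>
    rw [pts_succ, List.length_append, ih]
    simp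
    ring

end Blocks

end Pool.Agent.H549R2.LE
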