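import Pool.Agent.H549R2.LE1

/-!
# Linear extensions of interval orders with many points
-/

namespace Pool.Agent.H549R2.LE

open Finset Pool.Agent.H549R2.Convex

section Abstract

/-- number of elements of `Fin m` below a bound -/
theorem card_lt_fin (m b : ℕ) (hb : b ≤ m) :
    (univ.filter (fun k : Fin m => k.val < b)).card = b := by
  rw [← Finset.card_map ⟨Fin.val, Fin.val_injective⟩]
  have : (univ.filter (fun k : Fin m => k.val < b)).map ⟨Fin.val, Fin.val_injective⟩ =
      range b := by
    ext x
    simp only [mem_map, mem_filter, mem_univ, true_and, Function.Embedding.coeFn_mk, mem_range]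
    constructor
    · rintro ⟨k, hk, rfl⟩
      exact hk
    · intro hx
      exact ⟨⟨x, by omega⟩, hx, rfl⟩
  rw [this, card_range]

theorem card_split (m x : ℕ) (hx : x ≤ 2 * m) :
    (univ.filter (fun k : Fin m => 2 * k.val + 1 < x)).card +
      (univ.filter (fun k : Fin m => 2 * k.val + 1 ≤ x)).card = x := by
  have h1 : (univ.filter (fun k : Fin m => 2 * k.val + 1 < x)) =
      univ.filter (fun k : Fin m => k.val < x / 2) :=
    Finset.filter_congr fun k _ => by omega
  have h2 : (univ.filter (fun k : Fin m => 2 * k.val + 1 ≤ x)) =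
      univ.filter (fun k : Fin m => k.val < (x + 1) / 2) :=
    Finset.filter_congr fun k _ => by omega
  rw [h1, h2, card_lt_fin m _ (by omega), card_lt_fin m _ (by omega)]
  omega

variable {n m : ℕ} (L : Fin n → ℕ × ℕ) (s : Fin m → Fin n)

/-- the label of an element: twice the number of separators before it, and one more for a
separator -/
def tl (σ : Equiv.Perm (Fin n)) (i : Fin n) : ℕ :=
  (univ.filter (fun k : Fin m => σ (s k) < σ i)).card +
    (univ.filter (fun k : Fin m => σ (s k) ≤ σ i)).card

theorem tl_sorts (σ : Equiv.Perm (Fin n)) (i j : Fin n) (h : tl s σ i < tl s σ j) :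
    σ i < σ j := by
  by_contra hlt
  rw [not_lt] at hlt
  have h1 : (univ.filter (fun k : Fin m => σ (s k) < σ j)).card ≤
      (univ.filter (fun k : Fin m => σ (s k) < σ i)).card :=
    Finset.card_le_card fun k hk => by
      rw [mem_filter] at hk ⊢
      exact ⟨hk.1, hk.2.trans_le hlt⟩
  have h2 : (univ.filter (fun k : Fin m => σ (s k) ≤ σ j)).card ≤
      (univ.filter (fun k : Fin m => σ (s k) ≤ σ i)).card :=
    Finset.card_le_card fun k hk => by
      rw [mem_filter] at hk ⊢
      exact ⟨hk.1, hk.2.trans hlt⟩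
  simp only [tl] at h
  omega

theorem tl_bounds (hs : ∀ k, L (s k) = (2 * k.val + 1, 2 * k.val + 1))
    (hodd : ∀ i k, (L i).1 = 2 * k.val + 1 ∨ (L i).2 = 2 * k.val + 1 → i = s k)
    (hup : ∀ i, (L i).1 ≤ 2 * m ∧ (L i).2 ≤ 2 * m)
    (σ : Equiv.Perm (Fin n)) (hσ : ∀ i j, (L i).2 < (L j).1 → σ i < σ j) (i : Fin n) :
    (L i).1 ≤ tl s σ i ∧ tl s σ i ≤ (L i).2 := by
  constructor
  · rw [← card_split m (L i).1 (hup i).1]
    refine Nat.add_le_add (Finset.card_le_card fun k hk => ?_)
      (Finset.card_le_card fun k hk => ?_)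
    · rw [mem_filter] at hk ⊢
      exact ⟨hk.1, hσ _ _ (by rw [hs]; exact hk.2)⟩
    · rw [mem_filter] at hk ⊢
      refine ⟨hk.1, ?_⟩
      rcases lt_or_eq_of_le hk.2 with h | h
      · exact (hσ _ _ (by rw [hs]; exact h)).le
      · rw [hodd i k (Or.inl h.symm)]
  · rw [← card_split m (L i).2 (hup i).2]
    refine Nat.add_le_add (Finset.card_le_card fun k hk => ?_)
      (Finset.card_le_card fun k hk => ?_)
    · rw [mem_filter] at hk ⊢
      refine ⟨hk.1, ?_⟩
      by_contra h
      rw [not_lt] at h
      rcases lt_or_eq_of_le h with h | h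
      · exact absurd hk.2 (not_lt.2 (hσ i (s k) (by rw [hs]; exact h)).le)
      · rw [hodd i k (Or.inr h)] at hk
        exact lt_irrefl _ hk.2
    · rw [mem_filter] at hk ⊢
      refine ⟨hk.1, ?_⟩
      by_contra h
      rw [not_le] at h
      exact absurd hk.2 (not_le.2 (hσ i (s k) (by rw [hs]; exact h)))

theorem tl_even (σ : Equiv.Perm (Fin n)) (i : Fin n) (hi : ∀ k, i ≠ s k) :
    2 * (tl s σ i / 2) = tl s σ i := by
  have : (univ.filter (fun k : Fin m => σ (s k) < σ i)) =
      univ.filter (fun k : Fin m => σ (s k) ≤ σ i) :=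
    Finset.filter_congr fun k _ => ⟨fun h => h.le, fun h => lt_of_le_of_ne h fun h2 =>
      hi k (σ.injective h2).symm⟩
  rw [tl, this]
  omega

theorem tl_of_sorts (lb : Fin n → ℕ) (hl : ∀ i, lb i ≤ 2 * m)
    (hs : ∀ k : Fin m, lb (s k) = 2 * k.val + 1)
    (hu : ∀ i (k : Fin m), lb i = 2 * k.val + 1 → i = s k)
    (σ : Equiv.Perm (Fin n)) (hσ : ∀ i j, lb i < lb j → σ i < σ j) (i : Fin n) :
    tl s σ i = lb i := by
  rw [tl, ← card_split m (lb i) (hl i)]
  congr 2
  · refine Finset.filter_congr fun k _ => ⟨fun h => ?_, fun h => hσ _ _ (by rw [hs]; exact h)⟩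
    by_contra hcon
    rw [not_lt] at hcon
    rcases lt_or_eq_of_le hcon with h2 | h2
    · exact absurd h (not_lt.2 (hσ i (s k) (by rw [hs]; exact h2)).le)
    · rw [hu i k h2] at h
      exact lt_irrefl _ h
  · refine Finset.filter_congr fun k _ => ⟨fun h => ?_, fun h => ?_⟩
    · by_contra hcon
      rw [not_le] at hcon
      exact absurd h (not_le.2 (hσ i (s k) (by rw [hs]; exact hcon)))
    · rcases lt_or_eq_of_le h with h2 | h2
      · exact (hσ _ _ (by rw [hs]; exact h2)).le
      · rw [hu i k h2.symm]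

end Abstract

variable (R : List (ℕ × ℕ)) (g : ℕ)

theorem lst_length : (lst R g).length = R.length + (pts R.length g).length := by
  simp [lst]

theorem lst_getD_row (i : ℕ) (h : i < R.length) :
    (lst R g).getD i (0, 0) = (2 * (R.getD i (0, 0)).1, 2 * (R.getD i (0, 0)).2) := by
  rw [lst, List.getD_append _ _ _ _ (by simpa using h), List.getD_eq_getElem _ _ (by simpa using h),
    List.getElem_map, List.getD_eq_getElem _ _ h]

theorem lst_getD_pt (i : ℕ) (h : ¬ i < R.length) (h2 : i < (lst R g).length) :
    (lst R g).getD i (0, 0) = ((pts R.length g).getD (i - R.length) 0,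
      (pts R.length g).getD (i - R.length) 0) := by
  have hlen := lst_length R g
  rw [lst, List.getD_append_right _ _ _ _ (by simpa using not_lt.1 h)]
  rw [List.length_map, List.getD_eq_getElem _ _ (by rw [List.length_map]; omega),
    List.getElem_map, List.getD_eq_getElem _ _ (by omega)]

theorem get_row (i : Fin (lst R g).length) (h : i.val < R.length) :
    (lst R g).get i = (2 * (R.getD i.val (0, 0)).1, 2 * (R.getD i.val (0, 0)).2) := by
  rw [← lst_getD_row R g i.val h, List.getD_eq_getElem _ _ i.2, List.get_eq_getElem]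

theorem get_pt (i : Fin (lst R g).length) (h : ¬ i.val < R.length) :
    (lst R g).get i = ((pts R.length g).getD (i.val - R.length) 0,
      (pts R.length g).getD (i.val - R.length) 0) := by
  rw [← lst_getD_pt R g i.val h i.2, List.getD_eq_getElem _ _ i.2, List.get_eq_getElem]

theorem pts_getD_lt (j : ℕ) (h : j < (pts R.length g).length) :
    (pts R.length g).getD j 0 < 2 * R.length := by
  rw [List.getD_eq_getElem _ _ h]
  exact mem_pts _ _ _ (List.getElem_mem _)

/-- the labels of the elements: `2 φ` for the rows, the position for the points -/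
def lab (φ : Fin R.length → ℕ) (i : Fin (lst R g).length) : ℕ :=
  if h : i.val < R.length then 2 * φ ⟨i.val, h⟩ else ((lst R g).get i).1

theorem exists_sep (k : ℕ) (hk : k < R.length) : ∃ i : Fin (lst R g).length,
    ¬ i.val < R.length ∧ (lst R g).get i = (2 * k + 1, 2 * k + 1) ∧
      ∀ j : Fin (lst R g).length, ¬ j.val < R.length → ((lst R g).get j).1 = 2 * k + 1 → j = i := by
  have h1 := card_getD (pts R.length g) _ rfl (2 * k + 1)
  rw [count_pts_odd _ _ _ hk, Fintype.card_eq_one_iff] at h1
  obtain ⟨⟨c, hc⟩, hu⟩ := h1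
  have hlen := lst_length R g
  refine ⟨⟨R.length + c.val, by have := c.2; omega⟩, by simp, ?_, ?_⟩
  · rw [get_pt _ _ _ (by simp)]
    simp only [Nat.add_sub_cancel_left, hc]
  · intro j hj hj2
    rw [get_pt _ _ _ hj] at hj2
    have h3 := hu ⟨⟨j.val - R.length, by have := j.2; omega⟩, hj2⟩
    have h4 : j.val - R.length = c.val := congrArg (fun x => (x.1 : Fin _).val) h3
    apply Fin.ext
    simp only
    omega

/-- the separator at the position `2 k + 1` -/
noncomputable def sep (k : Fin R.length) : Fin (lst R g).length := (exists_sep R g k.val k.2).choose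

theorem sep_not (k : Fin R.length) : ¬ (sep R g k).val < R.length :=
  (exists_sep R g k.val k.2).choose_spec.1

theorem get_sep (k : Fin R.length) : (lst R g).get (sep R g k) = (2 * k.val + 1, 2 * k.val + 1) :=
  (exists_sep R g k.val k.2).choose_spec.2.1

theorem eq_sep (k : Fin R.length) (j : Fin (lst R g).length) (hj : ¬ j.val < R.length)
    (h : ((lst R g).get j).1 = 2 * k.val + 1) : j = sep R g k :=
  (exists_sep R g k.val k.2).choose_spec.2.2 j hj h

theorem odd_sep (i : Fin (lst R g).length) (k : Fin R.length)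
    (h : ((lst R g).get i).1 = 2 * k.val + 1 ∨ ((lst R g).get i).2 = 2 * k.val + 1) :
    i = sep R g k := by
  by_cases hi : i.val < R.length
  · rw [get_row _ _ _ hi] at h
    simp only at h
    omega
  · apply eq_sep _ _ _ _ hi
    rw [get_pt _ _ _ hi] at h ⊢
    simpa using h

/-- the length of the list as a sum -/
def eqv : Fin R.length ⊕ Fin (pts R.length g).length ≃ Fin (lst R g).length :=
  finSumFinEquiv.trans (finCongr (lst_length R g).symm)

theorem lab_inl (φ : Fin R.length → ℕ) (i : Fin R.length) :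
    lab R g φ (eqv R g (Sum.inl i)) = 2 * φ i := by
  have h : (eqv R g (Sum.inl i)).val = i.val := by simp [eqv]
  rw [lab, dif_pos (by rw [h]; exact i.2)]
  congr 2

theorem lab_inr (φ : Fin R.length → ℕ) (j : Fin (pts R.length g).length) :
    lab R g φ (eqv R g (Sum.inr j)) = (pts R.length g).getD j.val 0 := by
  have h : (eqv R g (Sum.inr j)).val = R.length + j.val := by simp [eqv]
  rw [lab, dif_neg (by rw [h]; omega), get_pt _ _ _ (by rw [h]; omega), h]
  simp

theorem card_lab (φ : Fin R.length → ℕ) (k : ℕ) :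
    Fintype.card {c // lab R g φ c = k} =
      Fintype.card {i // 2 * φ i = k} + (pts R.length g).count k := by
  rw [← card_getD (pts R.length g) _ rfl k, Fintype.card_subtype, Fintype.card_subtype,
    Fintype.card_subtype, Finset.card_filter, Finset.card_filter, Finset.card_filter,
    ← Equiv.sum_comp (eqv R g), Fintype.sum_sum_type]
  simp only [lab_inl, lab_inr]

variable (hR : ∀ r ∈ R, r.2 < R.length)
include hR

theorem row_lt (i : ℕ) (hi : i < R.length) : (R.getD i (0, 0)).2 < R.length := by
  rw [List.getD_eq_getElem _ _ hi]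
  exact hR _ (List.getElem_mem _)

theorem up (hv : ∀ r ∈ R, r.1 ≤ r.2) (i : Fin (lst R g).length) :
    ((lst R g).get i).1 ≤ 2 * R.length ∧ ((lst R g).get i).2 ≤ 2 * R.length := by
  by_cases h : i.val < R.length
  · rw [get_row _ _ _ h]
    have h1 := row_lt R hR i.val h
    have h2 : (R.getD i.val (0, 0)).1 ≤ (R.getD i.val (0, 0)).2 := by
      rw [List.getD_eq_getElem _ _ h]
      exact hv _ (List.getElem_mem _)
    simp only
    omega
  · rw [get_pt _ _ _ h]
    have hlen := lst_length R g
    have := pts_getD_lt R g (i.val - R.length) (by have := i.2; omega)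
    simp only
    omega

/-- the valid maps -/
def valid (φ : Fin R.length → ℕ) : Prop :=
  ∀ i, (R.getD i.val (0, 0)).1 ≤ φ i ∧ φ i ≤ (R.getD i.val (0, 0)).2

omit hR in
theorem lab_bounds (φ : Fin R.length → ℕ) (hφ : valid R φ) (i : Fin (lst R g).length) :
    ((lst R g).get i).1 ≤ lab R g φ i ∧ lab R g φ i ≤ ((lst R g).get i).2 := by
  rw [lab]
  split_ifs with h
  · rw [get_row _ _ _ h]
    have := hφ ⟨i.val, h⟩
    simp only at this ⊢
    omega
  · rw [get_pt _ _ _ h]
    simp

omit hR in
theorem sorting_is_ext (φ : Fin R.length → ℕ) (hφ : valid R φ)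
    (σ : Equiv.Perm (Fin (lst R g).length))
    (hσ : ∀ i j, lab R g φ i < lab R g φ j → σ i < σ j) :
    ∀ i j, Prec (lst R g) i j → σ i < σ j := by
  intro i j hij
  apply hσ
  have h1 := lab_bounds R g φ hφ i
  have h2 := lab_bounds R g φ hφ j
  rw [Prec] at hij
  omega

omit hR in
theorem lab_sep (φ : Fin R.length → ℕ) (k : Fin R.length) :
    lab R g φ (sep R g k) = 2 * k.val + 1 := by
  rw [lab, dif_neg (sep_not R g k), get_sep]

omit hR in
theorem lab_odd (φ : Fin R.length → ℕ) (i : Fin (lst R g).length) (k : Fin R.length)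
    (h : lab R g φ i = 2 * k.val + 1) : i = sep R g k := by
  rw [lab] at h
  split_ifs at h with hi
  · omega
  · exact eq_sep _ _ _ _ hi h

/-- the map of a linear extension -/
noncomputable def mp (σ : Equiv.Perm (Fin (lst R g).length)) (i : Fin R.length) : ℕ :=
  tl (sep R g) σ (eqv R g (Sum.inl i)) / 2

theorem tl_eq_lab (hv : ∀ r ∈ R, r.1 ≤ r.2) (σ : Equiv.Perm (Fin (lst R g).length))
    (hσ : ∀ i j, Prec (lst R g) i j → σ i < σ j) (i : Fin (lst R g).length) :
    tl (sep R g) σ i = lab R g (mp R g σ) i := by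
  have hb := tl_bounds (fun i => (lst R g).get i) (sep R g) (get_sep R g) (odd_sep R g)
    (up R g hR hv) σ hσ i
  rw [lab]
  split_ifs with h
  · have h1 : eqv R g (Sum.inl ⟨i.val, h⟩) = i := Fin.ext (by simp [eqv])
    rw [mp, h1, tl_even]
    intro k hk
    apply sep_not R g k
    rw [← hk]
    exact h
  · rw [get_pt _ _ _ h] at hb ⊢
    simp only at hb ⊢
    omega

theorem mp_valid (hv : ∀ r ∈ R, r.1 ≤ r.2) (σ : Equiv.Perm (Fin (lst R g).length))
    (hσ : ∀ i j, Prec (lst R g) i j → σ i < σ j) : valid R (mp R g σ) := by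
  intro i
  have hb := tl_bounds (fun i => (lst R g).get i) (sep R g) (get_sep R g) (odd_sep R g)
    (up R g hR hv) σ hσ (eqv R g (Sum.inl i))
  have h : (eqv R g (Sum.inl i)).val = i.val := by simp [eqv]
  rw [get_row _ _ _ (by rw [h]; exact i.2), h] at hb
  simp only at hb
  rw [mp]
  omega

theorem mp_of_sorts (φ : Fin R.length → ℕ) (hφ : valid R φ)
    (σ : Equiv.Perm (Fin (lst R g).length))
    (hσ : ∀ i j, lab R g φ i < lab R g φ j → σ i < σ j) : mp R g σ = φ := by
  funext i
  have hle : ∀ i, lab R g φ i ≤ 2 * R.length := by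
    intro i
    have h1 := (lab_bounds R g φ hφ i).2
    by_cases h : i.val < R.length
    · rw [get_row _ _ _ h] at h1
      have h2 := row_lt R hR i.val h
      simp only at h1
      omega
    · rw [get_pt _ _ _ h] at h1
      have hlen := lst_length R g
      have := pts_getD_lt R g (i.val - R.length) (by have := i.2; omega)
      simp only at h1
      omega
  rw [mp, tl_of_sorts (sep R g) (lab R g φ) hle (lab_sep R g φ) (lab_odd R g φ) σ hσ, lab_inl]
  omega

/-- the finite set of valid maps -/
def maps : Finset (Fin R.length → ℕ) :=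
  Fintype.piFinset fun i => Icc (R.getD i.val (0, 0)).1 (R.getD i.val (0, 0)).2

omit hR in
theorem mem_maps (φ : Fin R.length → ℕ) : φ ∈ maps R ↔ valid R φ := by
  simp [maps, valid, Fintype.mem_piFinset]

open Classical in
theorem linExt_eq_sum (hv : ∀ r ∈ R, r.1 ≤ r.2) :
    linExt (lst R g) = ∑ φ ∈ maps R,
      Nat.card {σ : Equiv.Perm (Fin (lst R g).length) //
        ∀ i j, lab R g φ i < lab R g φ j → σ i < σ j} := by
  rw [linExt, Nat.card_eq_fintype_card, Fintype.card_subtype,
    Finset.card_eq_sum_card_fiberwise (f := mp R g) (t := maps R)]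
  · refine Finset.sum_congr rfl fun φ hφ => ?_
    rw [mem_maps] at hφ
    rw [Nat.card_eq_fintype_card, Fintype.card_subtype]
    congr 1
    ext σ
    simp only [mem_filter, mem_univ, true_and]
    constructor
    · rintro ⟨h1, h2⟩ i j hij
      rw [← h2, ← tl_eq_lab R g hR hv σ h1, ← tl_eq_lab R g hR hv σ h1] at hij
      exact tl_sorts _ _ _ _ hij
    · intro h
      exact ⟨sorting_is_ext R g φ hφ σ h, mp_of_sorts R g hR φ hφ σ h⟩
  · intro σ hσ
    rw [Finset.mem_coe, mem_filter] at hσ
    rw [Finset.mem_coe, mem_maps]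
    exact mp_valid R g hR hv σ hσ.2

/-- the number of rows mapped to a column -/
def rk (φ : Fin R.length → ℕ) (k : ℕ) : ℕ := (univ.filter (fun i => φ i = k)).card

theorem lab_prod (φ : Fin R.length → ℕ) (hφ : valid R φ) :
    ∏ k ∈ univ.image (lab R g φ), (Fintype.card {c // lab R g φ c = k}).factorial =
      ∏ k ∈ range R.length, (g + rk R φ k).factorial := by
  have h1 : ∏ k ∈ univ.image (lab R g φ), (Fintype.card {c // lab R g φ c = k}).factorial =
      ∏ k ∈ range (2 * R.length), (Fintype.card {c // lab R g φ c = k}).factorial := by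
    apply Finset.prod_subset
    · intro k hk
      rw [mem_image] at hk
      obtain ⟨i, _, rfl⟩ := hk
      rw [mem_range]
      have h1 := (lab_bounds R g φ hφ i).2
      by_cases h : i.val < R.length
      · rw [get_row _ _ _ h] at h1
        have h2 := row_lt R hR i.val h
        simp only at h1
        omega
      · rw [get_pt _ _ _ h] at h1
        have hlen := lst_length R g
        have := pts_getD_lt R g (i.val - R.length) (by have := i.2; omega)
        simp only at h1
        omega
    · intro k _ hk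
      rw [Fintype.card_subtype, Finset.filter_eq_empty_iff.2 fun i _ h =>
        hk (mem_image.2 ⟨i, mem_univ _, h⟩)]
      rfl
  have h2 : ∀ V : ℕ, ∀ f : ℕ → ℕ, ∏ k ∈ range (2 * V), f k =
      ∏ k ∈ range V, (f (2 * k) * f (2 * k + 1)) := by
    intro V f
    induction V with
    | zero => simp
    | succ V ih =>
      rw [show 2 * (V + 1) = 2 * V + 1 + 1 by ring, prod_range_succ, prod_range_succ, ih,
        prod_range_succ, mul_assoc]
  rw [h1, h2]
  refine Finset.prod_congr rfl fun k hk => ?_
  rw [mem_range] at hk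
  rw [card_lab, card_lab, count_pts_even _ _ _ hk, count_pts_odd _ _ _ hk]
  have h3 : Fintype.card {i // 2 * φ i = 2 * k} = rk R φ k := by
    rw [Fintype.card_subtype, rk]
    congr 1
    exact Finset.filter_congr fun i _ => by omega
  have h4 : Fintype.card {i // 2 * φ i = 2 * k + 1} = 0 := by
    rw [Fintype.card_subtype, Finset.card_eq_zero]
    exact Finset.filter_eq_empty_iff.2 fun i _ => by omega
  rw [h3, h4]
  simp [add_comm]

theorem linExt_lst (hv : ∀ r ∈ R, r.1 ≤ r.2) :
    linExt (lst R g) = ∑ φ ∈ maps R, ∏ k ∈ range R.length, (g + rk R φ k).factorial := by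
  rw [linExt_eq_sum R g hR hv]
  refine Finset.sum_congr rfl fun φ hφ => ?_
  rw [card_sorting, lab_prod R g hR φ ((mem_maps R φ).1 hφ)]

end Pool.Agent.H549R2.LE
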