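import Pool.Agent.H549R2.LE2

/-!
# The permanent as a value of the normalised number of linear extensions
-/

namespace Pool.Agent.H549R2.LE

open Finset Polynomial Pool.Agent.H549R2.Convex

variable (R : List (ℕ × ℕ))

/-- the normalised number of linear extensions, as a polynomial -/
noncomputable def QP : ℤ[X] :=
  ∑ φ ∈ maps R, ∏ k ∈ range R.length, (ascPochhammer ℤ (rk R φ k)).comp (X + 1)

theorem QP_eval_nat (g : ℕ) : (QP R).eval (g : ℤ) =
    ((∑ φ ∈ maps R, ∏ k ∈ range R.length, (g + 1).ascFactorial (rk R φ k) : ℕ) : ℤ) := by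
  rw [QP, eval_finset_sum]
  push_cast
  refine sum_congr rfl fun φ _ => ?_
  rw [eval_prod]
  refine prod_congr rfl fun k _ => ?_
  rw [eval_comp, eval_add, eval_X, eval_one]
  have := ascPochhammer_nat_eq_natCast_ascFactorial ℤ (g + 1) (rk R φ k)
  push_cast at this
  exact this

theorem sum_rk_le (φ : Fin R.length → ℕ) : ∑ k ∈ range R.length, rk R φ k ≤ R.length := by
  simp only [rk]
  have h1 : ∑ k ∈ range R.length, (univ.filter (fun i => φ i = k)).card =
      (univ.filter (fun i => φ i ∈ range R.length)).card :=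
    Finset.sum_card_fiberwise_eq_card_filter _ _ _
  rw [h1]
  refine (Finset.card_filter_le _ _).trans ?_
  rw [Finset.card_univ, Fintype.card_fin]

theorem QP_natDegree : (QP R).natDegree ≤ R.length := by
  rw [QP]
  refine natDegree_sum_le_of_forall_le _ _ fun φ _ => ?_
  refine (natDegree_prod_le _ _).trans ?_
  refine le_trans (Finset.sum_le_sum (g := fun k => rk R φ k) fun k _ => ?_) (sum_rk_le R φ)
  rw [natDegree_comp, ascPochhammer_natDegree, show (X + 1 : ℤ[X]) = X + C 1 by simp,
    natDegree_X_add_C, mul_one]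

theorem asc_neg_one (r : ℕ) : (ascPochhammer ℤ r).eval (-1 : ℤ) =
    if r = 0 then 1 else if r = 1 then -1 else 0 := by
  rcases r with _ | _ | r
  · simp
  · simp
  · have h := ascPochhammer_eval_neg_coe_nat_of_lt (R := ℤ) (n := r + 2) (k := 1) (by omega)
    rw [Nat.cast_one] at h
    rw [h]
    simp

variable (hR : ∀ r ∈ R, r.2 < R.length)
include hR

theorem sum_rk (φ : Fin R.length → ℕ) (hφ : valid R φ) :
    ∑ k ∈ range R.length, rk R φ k = R.length := by
  simp only [rk]
  have h1 : ∑ k ∈ range R.length, (univ.filter (fun i => φ i = k)).card =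
      (univ.filter (fun i => φ i ∈ range R.length)).card :=
    Finset.sum_card_fiberwise_eq_card_filter _ _ _
  rw [h1, Finset.filter_true_of_mem, Finset.card_univ, Fintype.card_fin]
  intro i _
  rw [mem_range]
  exact lt_of_le_of_lt (hφ i).2 (row_lt R hR i.val i.2)

theorem prod_neg_one (φ : Fin R.length → ℕ) (hφ : valid R φ) :
    ∏ k ∈ range R.length, ((ascPochhammer ℤ (rk R φ k)).comp (X + 1)).eval (-2 : ℤ) =
      if ∀ k ∈ range R.length, rk R φ k = 1 then (-1) ^ R.length else 0 := by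
  have he : ∀ k, ((ascPochhammer ℤ (rk R φ k)).comp (X + 1)).eval (-2 : ℤ) =
      if rk R φ k = 0 then 1 else if rk R φ k = 1 then -1 else 0 := by
    intro k
    rw [eval_comp, eval_add, eval_X, eval_one, show (-2 : ℤ) + 1 = -1 by norm_num, asc_neg_one]
  simp only [he]
  split_ifs with h
  · rw [Finset.prod_congr rfl (g := fun _ => (-1 : ℤ)) fun k hk => by rw [h k hk]; simp]
    simp
  · have h1 : ∃ k ∈ range R.length, 2 ≤ rk R φ k := by
      by_contra hcon
      push Not at hcon
      apply h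
      intro k hk
      have hle : ∀ k ∈ range R.length, rk R φ k ≤ 1 := fun k hk => by have := hcon k hk; omega
      have hs : ∑ k ∈ range R.length, rk R φ k = ∑ k ∈ range R.length, 1 := by
        rw [sum_rk R hR φ hφ]
        simp
      exact (Finset.sum_eq_sum_iff_of_le hle).1 hs k hk
    obtain ⟨k, hk, hk2⟩ := h1
    apply Finset.prod_eq_zero hk
    rw [if_neg (by omega), if_neg (by omega)]

/-- the number of bijective valid maps -/
noncomputable def bij : ℕ :=
  ((maps R).filter (fun φ => ∀ k ∈ range R.length, rk R φ k = 1)).card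

theorem QP_neg_two : (QP R).eval (-2 : ℤ) = (-1) ^ R.length * (bij R : ℤ) := by
  rw [QP, eval_finset_sum, bij, Finset.card_filter]
  push_cast
  rw [Finset.mul_sum]
  refine sum_congr rfl fun φ hφ => ?_
  rw [eval_prod, prod_neg_one R hR φ ((mem_maps R φ).1 hφ)]
  split_ifs <;> simp

theorem bij_eq : bij R = (univ.filter (fun σ : Equiv.Perm (Fin R.length) =>
    ∀ i, (R.getD i.val (0, 0)).1 ≤ (σ i).val ∧ (σ i).val ≤ (R.getD i.val (0, 0)).2)).card := by
  symm
  rw [bij]
  refine Finset.card_bij (fun σ _ i => (σ i).val) ?_ ?_ ?_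
  · intro σ hσ
    rw [mem_filter] at hσ ⊢
    refine ⟨(mem_maps R _).2 hσ.2, fun k hk => ?_⟩
    rw [mem_range] at hk
    rw [rk, Finset.card_eq_one]
    refine ⟨σ.symm ⟨k, hk⟩, ?_⟩
    ext i
    simp only [mem_filter, mem_univ, true_and, mem_singleton]
    rw [Equiv.eq_symm_apply]
    exact ⟨fun h => Fin.ext h, fun h => by rw [h]⟩
  · intro σ _ τ _ h
    ext i
    exact congrFun h i
  · intro φ hφ
    rw [mem_filter, mem_maps] at hφ
    have hlt : ∀ i, φ i < R.length := fun i =>
      lt_of_le_of_lt (hφ.1 i).2 (row_lt R hR i.val i.2)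
    have hinj : Function.Injective (fun i : Fin R.length => (⟨φ i, hlt i⟩ : Fin R.length)) := by
      intro i j hij
      have hij' : φ i = φ j := congrArg Fin.val hij
      have h1 := hφ.2 (φ i) (mem_range.2 (hlt i))
      rw [rk, Finset.card_eq_one] at h1
      obtain ⟨x, hx⟩ := h1
      have hi : i ∈ ({x} : Finset _) := by rw [← hx]; simp
      have hj : j ∈ ({x} : Finset _) := by rw [← hx]; simp [hij']
      rw [mem_singleton] at hi hj
      rw [hi, hj]
    refine ⟨Equiv.ofBijective _ (Finite.injective_iff_bijective.1 hinj), ?_, ?_⟩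
    · rw [mem_filter]
      exact ⟨mem_univ _, fun i => hφ.1 i⟩
    · rfl

/-- one term of the alternating sum -/
noncomputable def tm (m : ℕ) (f : ℕ → ℕ) (t : ℕ) : ℕ :=
  (m + 1 - t) * (m + 2 - t) * (f t / (m + 1 - t).factorial ^ m)

omit hR in
theorem fact_prod (g : ℕ) (φ : Fin R.length → ℕ) :
    ∏ k ∈ range R.length, (g + rk R φ k).factorial =
      g.factorial ^ R.length * ∏ k ∈ range R.length, (g + 1).ascFactorial (rk R φ k) := by
  rw [Finset.prod_congr rfl fun k _ => (Nat.factorial_mul_ascFactorial g (rk R φ k)).symm,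
    Finset.prod_mul_distrib]
  simp

theorem linExt_div (hv : ∀ r ∈ R, r.1 ≤ r.2) (g : ℕ) :
    ((linExt (lst R g) / g.factorial ^ R.length : ℕ) : ℤ) = (QP R).eval (g : ℤ) := by
  rw [QP_eval_nat, linExt_lst R g hR hv, Finset.sum_congr rfl fun φ _ => fact_prod R g φ,
    ← Finset.mul_sum, Nat.mul_div_cancel_left _ (pow_pos (Nat.factorial_pos _) _)]

theorem alternating (hv : ∀ r ∈ R, r.1 ≤ r.2) :
    ∑ t ∈ range (R.length + 3 + 1), (-1 : ℤ) ^ t * ((R.length + 3).choose t) *
      ((tm R.length (fun t => linExt (lst R (R.length + 1 - t))) t : ℕ) : ℤ) =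
        ((2 * bij R : ℕ) : ℤ) := by
  set m := R.length with hm
  set H : ℤ[X] := QP R * (X * (X + 1)) with hH
  have hdeg : H.natDegree < m + 3 := by
    have h1 : (X * (X + 1) : ℤ[X]).natDegree ≤ 2 := by
      refine (natDegree_mul_le).trans ?_
      rw [natDegree_X, show (X + 1 : ℤ[X]) = X + C 1 by simp, natDegree_X_add_C]
    have h2 := QP_natDegree R
    have h3 : H.natDegree ≤ (QP R).natDegree + (X * (X + 1) : ℤ[X]).natDegree := natDegree_mul_le
    omega
  have h0 := congrFun (Polynomial.fwdDiff_iter_eq_zero_of_degree_lt hdeg) (-2 : ℤ)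
  rw [fwdDiff_iter_eq_sum_shift, Pi.zero_apply] at h0
  rw [← Finset.sum_range_reflect] at h0
  rw [show m + 3 + 1 = (m + 3) + 1 from rfl, Finset.sum_range_succ] at h0 ⊢
  have hlast : tm m (fun t => linExt (lst R (m + 1 - t))) (m + 3) = 0 := by
    rw [tm, show m + 1 - (m + 3) = 0 by omega]
    simp
  rw [hlast]
  have hterm : ∀ t ∈ range (m + 3),
      ((-1 : ℤ) ^ (m + 3 - (m + 3 + 1 - 1 - t)) * ((m + 3).choose (m + 3 + 1 - 1 - t) : ℤ)) •
        eval (-2 + (m + 3 + 1 - 1 - t) • (1 : ℤ)) H =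
      (-1 : ℤ) ^ t * ((m + 3).choose t) *
        ((tm m (fun t => linExt (lst R (m + 1 - t))) t : ℕ) : ℤ) := by
    intro t ht
    rw [mem_range] at ht
    have e1 : m + 3 + 1 - 1 - t = m + 3 - t := by omega
    have e2 : m + 3 - (m + 3 - t) = t := by omega
    rw [e1, e2, Nat.choose_symm (by omega : t ≤ m + 3), smul_eq_mul]
    congr 1
    rcases Nat.lt_or_ge t (m + 2) with h | h
    · obtain ⟨g, hg⟩ : ∃ g, m + 1 - t = g := ⟨_, rfl⟩
      have e3 : (-2 : ℤ) + (m + 3 - t) • (1 : ℤ) = (g : ℤ) := by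
        rw [nsmul_eq_mul, show m + 3 - t = g + 2 by omega]
        push_cast
        ring
      have e4 : m + 2 - t = g + 1 := by omega
      rw [e3, hH, eval_mul, eval_mul, eval_X, eval_add, eval_X, eval_one, tm, hg, e4]
      push_cast [← linExt_div R hR hv g]
      rw [← hm]
      ring
    · have e3 : t = m + 2 := by omega
      subst e3
      have e4 : (-2 : ℤ) + (m + 3 - (m + 2)) • (1 : ℤ) = -1 := by
        rw [nsmul_eq_mul, show m + 3 - (m + 2) = 1 by omega]
        norm_num
      rw [e4, hH, tm, show m + 1 - (m + 2) = 0 by omega]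
      simp
  rw [Finset.sum_congr rfl hterm] at h0
  have hl : ((-1 : ℤ) ^ (m + 3 - (m + 3 + 1 - 1 - (m + 3))) *
      ((m + 3).choose (m + 3 + 1 - 1 - (m + 3)) : ℤ)) •
        eval (-2 + (m + 3 + 1 - 1 - (m + 3)) • (1 : ℤ)) H = - (2 * bij R) := by
    rw [show m + 3 + 1 - 1 - (m + 3) = 0 by omega, Nat.choose_zero_right, Nat.sub_zero, zero_smul,
      add_zero, hH, eval_mul, eval_mul, eval_X, eval_add, eval_X, eval_one, QP_neg_two R hR,
      ← hm, smul_eq_mul]
    have e : (-1 : ℤ) ^ (m + 3) * (-1) ^ m = -1 := by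
      rw [← pow_add, show m + 3 + m = 2 * (m + 1) + 1 by ring, pow_succ, pow_mul]
      norm_num
    push_cast
    linear_combination (2 * (bij R : ℤ)) * e
  rw [hl] at h0
  push_cast
  push_cast at h0
  linarith

end Pool.Agent.H549R2.LE
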