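import Pool.Agent.H549R2.LE3

/-!
# The interval orders of the reduction are N-free
-/

namespace Pool.Agent.H549R2.LE

open Finset Pool.Agent.H549R2.Convex

variable (R : List (ℕ × ℕ)) (g : ℕ)

theorem exists_pt (hg : 0 < g) (c : ℕ) (hc : c < 2 * R.length) :
    ∃ i : Fin (lst R g).length, (lst R g).get i = (c, c) := by
  have h1 : 0 < (pts R.length g).count c := by
    rcases Nat.even_or_odd' c with ⟨k, rfl | rfl⟩
    · rw [count_pts_even _ _ _ (by omega)]
      exact hg
    · rw [count_pts_odd _ _ _ (by omega)]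
      exact Nat.one_pos
  rw [List.count_pos_iff, List.mem_iff_getElem] at h1
  obtain ⟨j, hj, hjc⟩ := h1
  have hlen := lst_length R g
  refine ⟨⟨R.length + j, by omega⟩, ?_⟩
  rw [get_pt _ _ _ (by simp)]
  simp only [Nat.add_sub_cancel_left]
  rw [List.getD_eq_getElem _ _ hj, hjc]

theorem lst_valid (hv : ∀ r ∈ R, r.1 ≤ r.2) : ∀ p ∈ lst R g, p.1 ≤ p.2 := by
  intro p hp
  rw [lst, List.mem_append, List.mem_map, List.mem_map] at hp
  rcases hp with ⟨r, hr, rfl⟩ | ⟨c, _, rfl⟩
  · have := hv r hr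
    simp only
    omega
  · exact le_rfl

theorem cov_iff (hR : ∀ r ∈ R, r.2 < R.length) (hv : ∀ r ∈ R, r.1 ≤ r.2) (hg : 0 < g)
    (i j : Fin (lst R g).length) :
    Cov (lst R g) i j ↔ ((lst R g).get j).1 = ((lst R g).get i).2 + 1 := by
  have hval : ∀ k, ((lst R g).get k).1 ≤ ((lst R g).get k).2 := fun k =>
    lst_valid R g hv _ (List.get_mem _ _)
  constructor
  · rintro ⟨h1, h2⟩
    rw [Prec] at h1
    by_contra hne
    have h3 := (up R g hR hv j).1
    obtain ⟨p, hp⟩ := exists_pt R g hg (((lst R g).get i).2 + 1) (by omega)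
    apply h2 p
    rw [Prec, Prec, hp]
    simp only
    omega
  · intro h
    refine ⟨by rw [Prec]; omega, fun k hk => ?_⟩
    rw [Prec, Prec] at hk
    have := hval k
    omega

theorem nfree_lst (hR : ∀ r ∈ R, r.2 < R.length) (hv : ∀ r ∈ R, r.1 ≤ r.2) (hg : 0 < g) :
    NFree (lst R g) := by
  refine ⟨lst_valid R g hv, fun a b c d => ?_⟩
  rw [cov_iff R g hR hv hg, cov_iff R g hR hv hg, cov_iff R g hR hv hg, cov_iff R g hR hv hg]
  intro h1 h2 h3
  omega

end Pool.Agent.H549R2.LE
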