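import Pool.Agent.H549R2.Convex3

/-!
# Perfect matchings of interval graphs
-/

namespace Pool.Agent.H549R2.PM

open Finset Pool.Agent.H549R2.Convex

/-- The interval graph of a list of closed intervals `[a, b]` with natural endpoints: the vertices
are the positions in the list, two of them are adjacent iff their intervals have a common point. -/
def intervalGraph (l : List (ℕ × ℕ)) : SimpleGraph (Fin l.length) where
  Adj i j := i ≠ j ∧ ∃ t : ℕ, (l[i].1 ≤ t ∧ t ≤ l[i].2) ∧ (l[j].1 ≤ t ∧ t ≤ l[j].2)
  symm := ⟨fun _ _ h => ⟨h.1.symm, h.2.imp fun _ ht => ⟨ht.2, ht.1⟩⟩⟩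
  loopless := ⟨fun _ h => h.1 rfl⟩

/-- The number of perfect matchings of the interval graph of a list of intervals. -/
noncomputable def pm (l : List (ℕ × ℕ)) : ℕ :=
  Nat.card {M : (intervalGraph l).Subgraph // M.IsPerfectMatching}

/-- Split graphs: the vertex set is the union of a clique and an independent set. -/
def IsSplit {V : Type*} (G : SimpleGraph V) : Prop :=
  ∃ K : Set V, G.IsClique K ∧ G.IsIndepSet Kᶜ

/-- perfect matchings as fixed-point-free involutions -/
theorem card_pm {V : Type*} (G : SimpleGraph V) :
    Nat.card {M : G.Subgraph // M.IsPerfectMatching} =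
      Nat.card {f : V → V // (∀ i, f (f i) = i) ∧ ∀ i, G.Adj i (f i)} := by
  classical
  symm
  refine Nat.card_congr (Equiv.ofBijective
    (fun f => (⟨{ verts := Set.univ
                  Adj := fun v w => f.1 v = w
                  adj_sub := fun {v w} h => by rw [← h]; exact f.2.2 v
                  edge_vert := fun _ => Set.mem_univ _
                  symm := ⟨fun v w h => by rw [← h, f.2.1]⟩ }, ?_⟩ :
      {M : G.Subgraph // M.IsPerfectMatching})) ⟨?_, ?_⟩)
  · rw [SimpleGraph.Subgraph.isPerfectMatching_iff]
    intro v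
    exact ⟨f.1 v, rfl, fun w (hw : f.1 v = w) => Eq.symm hw⟩
  · intro f g h
    apply Subtype.ext
    funext v
    have h1 := congrArg (fun M : {M : G.Subgraph // M.IsPerfectMatching} => M.1.Adj v (f.1 v)) h
    have h2 : (f.1 v = f.1 v) = (g.1 v = f.1 v) := h1
    exact (cast h2 rfl).symm
  · rintro ⟨M, hM⟩
    have hM' := SimpleGraph.Subgraph.isPerfectMatching_iff.1 hM
    choose f hf hf2 using hM'
    simp only at hf hf2
    refine ⟨⟨f, fun i => (hf2 _ _ (hf i).symm).symm, fun i => (hf i).adj_sub⟩, ?_⟩
    apply Subtype.ext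
    simp only
    ext v w
    · simp only [Set.mem_univ, true_iff]
      exact hM.2 v
    · constructor
      · rintro rfl
        exact hf v
      · intro h
        exact (hf2 v w h).symm

section Bridge

variable (RS : List (ℕ × ℕ)) (CL : List ℕ)

/-- intervals and points -/
def withPts : List (ℕ × ℕ) := RS ++ CL.map (fun p => (p, p))

theorem withPts_length : (withPts RS CL).length = RS.length + CL.length := by
  rw [withPts, List.length_append, List.length_map]

theorem getElem_left (i : ℕ) (h : i < (withPts RS CL).length) (hi : i < RS.length) :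
    (withPts RS CL)[i] = RS[i] := by
  simp only [withPts]
  rw [List.getElem_append_left hi]

theorem getElem_right (i : ℕ) (h : i < (withPts RS CL).length) (hi : RS.length ≤ i)
    (hi2 : i - RS.length < CL.length) :
    (withPts RS CL)[i] = (CL[i - RS.length], CL[i - RS.length]) := by
  simp only [withPts]
  rw [List.getElem_append_right hi, List.getElem_map]

theorem pm_withPts (h : RS.length = CL.length) (hnd : CL.Nodup) :
    pm (withPts RS CL) = F (mat RS CL) := by
  classical
  set N := CL.length with hN
  have hml : (mat RS CL).length = N := by rw [mat, List.length_map, h]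
  have hsq : ∀ r ∈ mat RS CL, r.length = (mat RS CL).length := by
    intro r hr
    rw [mat, List.mem_map] at hr
    obtain ⟨x, _, rfl⟩ := hr
    rw [hml, List.length_map]
  have hL : (withPts RS CL).length = N + N := by rw [withPts_length, h]
  rw [F_eq_card' _ hsq N hml, pm, card_pm, ← Fintype.card_subtype, ← Nat.card_eq_fintype_card]
  symm
  have hent : ∀ (σ : Equiv.Perm (Fin N)) (i : Fin N), ent (mat RS CL) i.val (σ i).val = true ↔
      (RS[i.val]'(by rw [h]; exact i.2)).1 ≤ CL[(σ i).val] ∧
      CL[(σ i).val] ≤ (RS[i.val]'(by rw [h]; exact i.2)).2 := by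
    intro σ i
    rw [ent_mat RS CL _ _ (by rw [h]; exact i.2) (σ i).2, mem_Icc,
      List.getD_eq_getElem _ _ (σ i).2, List.getD_eq_getElem _ _ (by rw [h]; exact i.2)]
  -- the involution of a permutation
  set fn : Equiv.Perm (Fin N) → Fin (withPts RS CL).length → Fin (withPts RS CL).length :=
    fun σ k => if hk : k.val < N then ⟨N + (σ ⟨k.val, hk⟩).val, by omega⟩ else
      ⟨(σ.symm ⟨k.val - N, by omega⟩).val, by omega⟩ with hfn
  have hfn1 : ∀ (σ : Equiv.Perm (Fin N)) (k : Fin (withPts RS CL).length) (hk : k.val < N),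
      fn σ k = ⟨N + (σ ⟨k.val, hk⟩).val, by omega⟩ := fun σ k hk => dif_pos hk
  have hfn2 : ∀ (σ : Equiv.Perm (Fin N)) (k : Fin (withPts RS CL).length) (hk : ¬ k.val < N),
      fn σ k = ⟨(σ.symm ⟨k.val - N, by omega⟩).val, by omega⟩ := fun σ k hk => dif_neg hk
  have hinv : ∀ σ k, fn σ (fn σ k) = k := by
    intro σ k
    by_cases hk : k.val < N
    · rw [hfn1 σ k hk, hfn2 _ _ (by simp only; omega)]
      apply Fin.ext
      simp only
      have : (⟨N + (σ ⟨k.val, hk⟩).val - N, by omega⟩ : Fin N) = σ ⟨k.val, hk⟩ := by
        apply Fin.ext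
        simp only
        omega
      rw [this, Equiv.symm_apply_apply]
    · rw [hfn2 σ k hk, hfn1 _ _ (by simp only; omega)]
      apply Fin.ext
      simp only
      have : (⟨(σ.symm ⟨k.val - N, by omega⟩).val, by omega⟩ : Fin N) =
          σ.symm ⟨k.val - N, by omega⟩ := rfl
      rw [Fin.eta, Equiv.apply_symm_apply]
      simp only
      omega
  have hadj1 : ∀ (σ : Equiv.Perm (Fin N)), (∀ i, ent (mat RS CL) i.val (σ i).val = true) →
      ∀ (k : Fin (withPts RS CL).length), k.val < N →
      (intervalGraph (withPts RS CL)).Adj k (fn σ k) := by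
    intro σ hσ k hk
    have h1 := (hent σ ⟨k.val, hk⟩).1 (hσ ⟨k.val, hk⟩)
    rw [hfn1 σ k hk]
    refine ⟨fun h' => ?_, CL[(σ ⟨k.val, hk⟩).val], ?_, ?_⟩
    · have := Fin.ext_iff.1 h'
      simp only at this
      omega
    · have e := getElem_left RS CL k.val k.2 (by omega)
      simp only [Fin.getElem_fin]
      rw [e]
      exact h1
    · have e := getElem_right RS CL (N + (σ ⟨k.val, hk⟩).val) (by omega) (by omega) (by omega)
      simp only [Fin.getElem_fin]
      rw [e]
      have e2 : N + (σ ⟨k.val, hk⟩).val - RS.length = (σ ⟨k.val, hk⟩).val := by omega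
      simp only [e2, le_refl, and_self]
  have hadj : ∀ (σ : Equiv.Perm (Fin N)), (∀ i, ent (mat RS CL) i.val (σ i).val = true) →
      ∀ (k : Fin (withPts RS CL).length), (intervalGraph (withPts RS CL)).Adj k (fn σ k) := by
    intro σ hσ k
    by_cases hk : k.val < N
    · exact hadj1 σ hσ k hk
    · have h1 : (fn σ k).val < N := by
        rw [hfn2 σ k hk]
        exact (σ.symm ⟨k.val - N, by omega⟩).2
      have h2 := hadj1 σ hσ (fn σ k) h1
      rw [hinv] at h2
      exact h2.symm
  refine Nat.card_congr (Equiv.ofBijective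
    (fun σ : {σ : Equiv.Perm (Fin N) // ∀ i, ent (mat RS CL) i.val (σ i).val = true} =>
      (⟨fn σ.1, hinv σ.1, hadj σ.1 σ.2⟩ : {f : Fin (withPts RS CL).length →
        Fin (withPts RS CL).length // (∀ i, f (f i) = i) ∧
          ∀ i, (intervalGraph (withPts RS CL)).Adj i (f i)})) ⟨?_, ?_⟩)
  · rintro ⟨σ, hσ⟩ ⟨σ', hσ'⟩ h'
    apply Subtype.ext
    simp only
    ext i
    have h1 := congrFun (congrArg Subtype.val h') ⟨i.val, by omega⟩
    simp only at h1
    rw [hfn1 σ _ i.2, hfn1 σ' _ i.2] at h1
    simp only [Fin.mk.injEq, Fin.eta] at h1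
    omega
  · rintro ⟨f, hf1, hf2⟩
    have hfi : Function.Injective f := by
      intro a b hab
      rw [← hf1 a, ← hf1 b, hab]
    -- points are matched to intervals
    have hpt : ∀ k : Fin (withPts RS CL).length, N ≤ k.val → (f k).val < N := by
      intro k hk
      by_contra hcon
      obtain ⟨hne, t, h1, h2⟩ := hf2 k
      have e1 := getElem_right RS CL k.val k.2 (by omega) (by omega)
      have e2 := getElem_right RS CL (f k).val (f k).2 (by omega) (by omega)
      simp only [Fin.getElem_fin] at h1 h2
      rw [e1] at h1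
      rw [e2] at h2
      simp only at h1 h2
      have h3 : CL[k.val - RS.length]'(by omega) = CL[(f k).val - RS.length]'(by omega) := by omega
      have h4 := (List.Nodup.getElem_inj_iff hnd).1 h3
      apply hne
      apply Fin.ext
      omega
    set g : Fin N → Fin N := fun c => ⟨(f ⟨N + c.val, by omega⟩).val, hpt _ (by simp)⟩ with hg
    have hgi : Function.Injective g := by
      intro c c' hc
      have h0 : (g c).val = (g c').val := congrArg Fin.val hc
      have h1 : (f ⟨N + c.val, by omega⟩) = f ⟨N + c'.val, by omega⟩ := Fin.ext h0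
      have h2 := Fin.ext_iff.1 (hfi h1)
      simp only at h2
      exact Fin.ext (by omega)
    have hgb : Function.Bijective g := Finite.injective_iff_bijective.1 hgi
    set e := Equiv.ofBijective g hgb with he
    have hkey : fn e.symm = f := by
      funext k
      by_cases hk : k.val < N
      · rw [hfn1 _ k hk]
        have h1 : g (e.symm ⟨k.val, hk⟩) = ⟨k.val, hk⟩ := Equiv.apply_symm_apply e ⟨k.val, hk⟩
        have h0 : (g (e.symm ⟨k.val, hk⟩)).val = k.val := congrArg Fin.val h1
        have h2 : f ⟨N + (e.symm ⟨k.val, hk⟩).val, by omega⟩ = k := Fin.ext h0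
        have h3 := congrArg f h2
        rw [hf1] at h3
        exact h3
      · rw [hfn2 _ k hk]
        apply Fin.ext
        simp only [Equiv.symm_symm]
        have h1 : e ⟨k.val - N, by omega⟩ = g ⟨k.val - N, by omega⟩ := rfl
        rw [h1]
        simp only [hg]
        congr 2
        apply Fin.ext
        simp only
        omega
    have hent2 : ∀ i, ent (mat RS CL) i.val (e.symm i).val = true := by
      intro i
      rw [hent]
      obtain ⟨_, t, h1, h2⟩ := hf2 ⟨i.val, by omega⟩
      rw [← hkey, hfn1 _ _ i.2] at h2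
      have e1 := getElem_left RS CL i.val (by omega) (by omega)
      have e2 := getElem_right RS CL (N + (e.symm i).val) (by omega) (by omega) (by omega)
      simp only [Fin.getElem_fin] at h1 h2
      rw [e1] at h1
      rw [e2] at h2
      have e3 : N + (e.symm i).val - RS.length = (e.symm i).val := by omega
      simp only [e3] at h2
      have h3 : t = CL[(e.symm i).val] := by omega
      rw [← h3]
      exact h1
    refine ⟨⟨e.symm, hent2⟩, ?_⟩
    apply Subtype.ext
    exact hkey

/-- If all intervals of `RS` have a common point, the interval graph of `RS` and distinct points is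
a split graph. -/
theorem isSplit_withPts (hnd : CL.Nodup) (p : ℕ) (hp : ∀ r ∈ RS, r.1 ≤ p ∧ p ≤ r.2) :
    IsSplit (intervalGraph (withPts RS CL)) := by
  refine ⟨{k | k.val < RS.length}, ?_, ?_⟩
  · intro a ha b hb hab
    rw [Set.mem_ofPred_eq] at ha hb
    refine ⟨hab, p, ?_, ?_⟩
    · have e := getElem_left RS CL a.val a.2 ha
      simp only [Fin.getElem_fin]
      rw [e]
      exact hp _ (List.getElem_mem _)
    · have e := getElem_left RS CL b.val b.2 hb
      simp only [Fin.getElem_fin]
      rw [e]
      exact hp _ (List.getElem_mem _)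
  · intro a ha b hb hab hadj
    rw [Set.mem_compl_iff, Set.mem_ofPred_eq] at ha hb
    have hal := a.2
    have hbl := b.2
    have hlen := withPts_length RS CL
    obtain ⟨_, t, h1, h2⟩ := hadj
    have e1 := getElem_right RS CL a.val a.2 (by omega) (by omega)
    have e2 := getElem_right RS CL b.val b.2 (by omega) (by omega)
    simp only [Fin.getElem_fin] at h1 h2
    rw [e1] at h1
    rw [e2] at h2
    simp only at h1 h2
    have h3 : CL[a.val - RS.length]'(by omega) = CL[b.val - RS.length]'(by omega) := by omega
    have h4 := (List.Nodup.getElem_inj_iff hnd).1 h3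
    exact hab (Fin.ext (by omega))

end Bridge

end Pool.Agent.H549R2.PM
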