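import Pool.Agent.H549R2.PM7
import Pool.Agent.H549R2.PM8
import Pool.Agent.H549R2.Convex6

/-!
# The reduction runs in polynomial time
-/

namespace Pool.Agent.NPC.H549PM

open Pool.Agent.H549R2.Convex Pool.Agent.H549R2.PM Pool.Agent.NPC.Cnt Pool.Agent.NPC.H549Convex

section General

variable {α β : Type} [TEnc α] [TEnc β]

theorem upoly_min {m n : α → ℕ} (hm : Poly m) (hn : UPoly n) : UPoly (fun a => min (m a) (n a)) :=
  UPoly.of_le (Poly.min hm hn.toPoly) hn (fun _ => Nat.min_le_right _ _)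

theorem upoly_pow2 {n : α → ℕ} (hn : UPoly n) : Poly (fun a => 2 ^ n a) := by
  have h1 : Poly (fun a => (List.range (n a)).map (fun _ => 2)) :=
    Poly.map (F := fun _ _ => 2) hn.range (Poly.const 2)
  refine (poly_prod h1).congr fun a => ?_
  rw [List.map_const', List.prod_replicate, List.length_range]

/-- the terms of an alternating sum with a given parity -/
def altp (q : ℕ) (g : ℕ → ℕ) (b : ℕ) : ℕ :=
  (((List.range (q + 1)).filter (fun t => decide (t % 2 = b))).map
    (fun t => q.choose (min t q) * g t)).sum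

/-- alternating sums with binomial coefficients -/
def alt (q : ℕ) (g : ℕ → ℕ) : ℕ := altp q g 0 - altp q g 1

theorem altp_poly {q : α → ℕ} {g : α → ℕ → ℕ} (hq : UPoly q)
    (hg : Poly (fun p : α × ℕ => g p.1 p.2)) (b : ℕ) : Poly (fun a => altp (q a) (g a) b) := by
  have h1 : Poly (fun a => List.range (q a + 1)) := (UPoly.add hq (UPoly.const 1)).range
  have h2 : Poly (fun a => (List.range (q a + 1)).filter (fun t => decide (t % 2 = b))) :=
    Poly.filter (p := fun (_ : α) t => decide (t % 2 = b)) h1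
      (Poly.decide_eq (Poly.mod (Poly.snd Poly.id) (Poly.const 2)) (Poly.const b))
  have hq1 : UPoly (fun p : α × ℕ => q p.1) := hq.comp (Poly.fst Poly.id)
  have h3 : Poly (fun p : α × ℕ => (q p.1).choose (min p.2 (q p.1)) * g p.1 p.2) :=
    Poly.mul (upoly_choose hq1 (upoly_min (Poly.snd Poly.id) hq1)
      (fun p => Nat.min_le_right _ _)) hg
  exact Poly.sum (Poly.map (F := fun (a : α) t => (q a).choose (min t (q a)) * g a t) h2 h3)

theorem alt_poly {q : α → ℕ} {g : α → ℕ → ℕ} (hq : UPoly q)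
    (hg : Poly (fun p : α × ℕ => g p.1 p.2)) : Poly (fun a => alt (q a) (g a)) :=
  Poly.sub (altp_poly hq hg 0) (altp_poly hq hg 1)

theorem alt_eq (q : ℕ) (g : ℕ → ℕ) (k : ℕ)
    (h : ∑ t ∈ Finset.range (q + 1), (-1 : ℤ) ^ t * (q.choose t) * ((g t : ℕ) : ℤ) = (k : ℤ)) :
    alt q g = k := by
  have h1 : ((altp q g 0 : ℕ) : ℤ) - (altp q g 1 : ℕ) = k := by
    rw [← h, altp, altp, sum_filter_range_list, sum_filter_range_list]
    push_cast
    rw [← Finset.sum_sub_distrib]
    refine Finset.sum_congr rfl fun t ht => ?_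
    rw [Finset.mem_range] at ht
    rw [Nat.min_eq_left (by omega : t ≤ q)]
    simp only [decide_eq_true_eq]
    rcases Nat.even_or_odd t with h' | h'
    · rw [if_pos (Nat.even_iff.1 h'), if_neg (by have := Nat.even_iff.1 h'; omega), h'.neg_one_pow]
      ring
    · rw [if_neg (by have := Nat.odd_iff.1 h'; omega), if_pos (Nat.odd_iff.1 h'), h'.neg_one_pow]
      ring
  rw [alt]
  omega

theorem alt_congr (q : ℕ) (g g' : ℕ → ℕ) (h : ∀ t ≤ q, g t = g' t) : alt q g = alt q g' := by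
  have : ∀ b, altp q g b = altp q g' b := by
    intro b
    rw [altp, altp]
    congr 1
    refine List.map_congr_left fun t ht => ?_
    rw [List.mem_filter, List.mem_range] at ht
    rw [h t (by omega)]
  rw [alt, alt, this, this]

end General

section Sat

theorem dd_sz (w : List ℕ) : sz (dd w) ≤ sz w := by
  induction w with
  | nil => exact le_rfl
  | cons a w ih =>
    have h : dd (a :: w) = bif decide (a ∈ dd w) then dd w else a :: dd w := rfl
    rw [h]
    cases decide (a ∈ dd w)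
    · rw [cond_false, sz_list_cons, sz_list_cons]
      omega
    · rw [cond_true, sz_list_cons]
      omega

theorem dd_poly : Poly dd := by
  refine Poly.foldr (α := List ℕ) (l := fun w => w) (s := fun _ => ([] : List ℕ))
    (F := fun _ x s => bif decide (x ∈ s) then s else x :: s) Poly.id (Poly.const [])
    ?_ Polynomial.X ?_
  · have hx : Poly (fun p : List ℕ × ℕ × List ℕ => p.2.1) := Poly.fst (Poly.snd Poly.id)
    have hs : Poly (fun p : List ℕ × ℕ × List ℕ => p.2.2) := Poly.snd (Poly.snd Poly.id)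
    exact Poly.cond (Poly.decide_mem hx hs) hs (Poly.cons hx hs)
  · intro w k _
    have h1 := dd_sz (w.drop k)
    have h2 := Poly.sz_drop_le w k
    have h3 : (w.drop k).foldr (fun x s => bif decide (x ∈ s) then s else x :: s) [] =
      dd (w.drop k) := rfl
    rw [h3, Polynomial.eval_X]
    omega

theorem vsL_poly : Poly vsL := by
  have h1 : Poly (fun φ : CNF ℕ => φ.flatten.map Prod.snd) :=
    Poly.map (F := fun (_ : CNF ℕ) (l : Bool × ℕ) => l.2)
      (Poly.flatten (l := fun φ : CNF ℕ => φ) Poly.id) (Poly.snd (Poly.snd Poly.id))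
  exact dd_poly.comp h1

theorem n_upoly : UPoly (fun φ : CNF ℕ => (vsL φ).length) := UPoly.length vsL_poly

theorem m_upoly : UPoly (fun φ : CNF ℕ => φ.length) :=
  UPoly.length (l := fun φ : CNF ℕ => φ) Poly.id

theorem qF_upoly : UPoly qF :=
  UPoly.mul (UPoly.const 2) (UPoly.mul (UPoly.add n_upoly (UPoly.const 1))
    (UPoly.add m_upoly (UPoly.const 1)))

theorem kF_upoly : UPoly kF :=
  UPoly.mul (UPoly.mul (UPoly.const 3) qF_upoly) (UPoly.mul (UPoly.const 4) qF_upoly)

theorem rF_upoly : UPoly rF := UPoly.add (UPoly.mul (UPoly.const 3) qF_upoly) kF_upoly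

/-- context: a formula with a variable index and a clause index -/
abbrev Ctx := (CNF ℕ × ℕ) × ℕ

theorem st_poly (b : Bool) : Poly (fun p : Ctx => stF p.1.1 p.1.2 p.2 b) := by
  have hφ : Poly (fun p : Ctx => p.1.1) := Poly.fst (Poly.fst Poly.id)
  have hv : Poly (fun p : Ctx => p.1.2) := Poly.snd (Poly.fst Poly.id)
  have hj : Poly (fun p : Ctx => p.2) := Poly.snd Poly.id
  have hvs : Poly (fun p : Ctx => vsL p.1.1) := vsL_poly.comp hφ
  have hn : Poly (fun p : Ctx => (vsL p.1.1).length) := Poly.length hvs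
  have hm : Poly (fun p : Ctx => p.1.1.length) := Poly.length hφ
  have h1 : Poly (fun p : Ctx => decide (p.2 = p.1.1.length)) := Poly.decide_eq hj hm
  have h2 : Poly (fun p : Ctx => decide (p.1.2 = (vsL p.1.1).length) && b) :=
    Poly.and (Poly.decide_eq hv hn) (Poly.const b)
  have h3 : Poly (fun p : Ctx => decide (p.1.2 < (vsL p.1.1).length)) := Poly.decide_lt hv hn
  have h4 : Poly (fun p : Ctx => decide ((b, (vsL p.1.1).getD p.1.2 0) ∈ p.1.1.getD p.2 [])) :=
    (Poly.decide_mem (Poly.pair (Poly.const b) (Poly.getD hvs hv (Poly.const 0)))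
      (Poly.getD hφ hj (Poly.const []))).congr fun _ => decide_eq_decide.2 Iff.rfl
  exact Poly.cond h1 h2 (Poly.and h3 h4)

theorem lb_poly {α : Type} [TEnc α] (k : ℕ) {v j : α → ℕ} (hv : Poly v) (hj : Poly j) :
    Poly (fun a => ((k, v a, j a) : Lb)) := Poly.pair (Poly.const k) (Poly.pair hv hj)

theorem tri_poly : Poly (fun φ : CNF ℕ => tri (vsL φ).length φ.length (stF φ)) := by
  have hφ : Poly (fun p : Ctx => p.1.1) := Poly.fst (Poly.fst Poly.id)
  have hv : Poly (fun p : Ctx => p.1.2) := Poly.snd (Poly.fst Poly.id)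
  have hj : Poly (fun p : Ctx => p.2) := Poly.snd Poly.id
  have hm : Poly (fun p : Ctx => p.1.1.length) := Poly.length hφ
  have hj1 : Poly (fun p : Ctx => (p.2 + 1) % (p.1.1.length + 1)) :=
    Poly.mod (Poly.succ hj) (Poly.succ hm)
  have hx : ∀ b : Bool, Poly (fun p : Ctx => (bif stF p.1.1 p.1.2 p.2 b then (2, p.1.2, p.2)
      else (3, p.1.2, p.2) : Lb)) :=
    fun b => Poly.cond (st_poly b) (lb_poly 2 hv hj) (lb_poly 3 hv hj)
  have e1 : Poly (fun p : Ctx => (((0, p.1.2, p.2), (1, p.1.2, (p.2 + 1) % (p.1.1.length + 1)),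
      bif stF p.1.1 p.1.2 p.2 true then (2, p.1.2, p.2) else (3, p.1.2, p.2)) : Lb × Lb × Lb)) :=
    Poly.pair (lb_poly 0 hv hj) (Poly.pair (lb_poly 1 hv hj1) (hx true))
  have e2 : Poly (fun p : Ctx => (((0, p.1.2, p.2), (1, p.1.2, p.2),
      bif stF p.1.1 p.1.2 p.2 false then (2, p.1.2, p.2) else (3, p.1.2, p.2)) : Lb × Lb × Lb)) :=
    Poly.pair (lb_poly 0 hv hj) (Poly.pair (lb_poly 1 hv hj) (hx false))
  have e3 : Poly (fun p : Ctx => (((4, p.1.2, p.2), (2, p.1.2, p.2), (5, p.1.2 + 1, p.2)) :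
      Lb × Lb × Lb)) :=
    Poly.pair (lb_poly 4 hv hj) (Poly.pair (lb_poly 2 hv hj) (lb_poly 5 (Poly.succ hv) hj))
  have e4 : Poly (fun p : Ctx => (((4, p.1.2, p.2), (3, p.1.2, p.2), (6, 0, p.2)) :
      Lb × Lb × Lb)) :=
    Poly.pair (lb_poly 4 hv hj) (Poly.pair (lb_poly 3 hv hj) (lb_poly 6 (Poly.const 0) hj))
  have e5 : Poly (fun p : Ctx => (((4, p.1.2, p.2), (5, p.1.2, p.2), (2, p.1.2, p.2)) :
      Lb × Lb × Lb)) :=
    Poly.pair (lb_poly 4 hv hj) (Poly.pair (lb_poly 5 hv hj) (lb_poly 2 hv hj))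
  have e6 : Poly (fun p : Ctx => (((4, p.1.2, p.2), (5, p.1.2, p.2), (3, p.1.2, p.2)) :
      Lb × Lb × Lb)) :=
    Poly.pair (lb_poly 4 hv hj) (Poly.pair (lb_poly 5 hv hj) (lb_poly 3 hv hj))
  have hin := Poly.cons e1 (Poly.cons e2 (Poly.cons e3 (Poly.cons e4 (Poly.cons e5
    (Poly.cons e6 (Poly.const (α := Ctx) ([] : List (Lb × Lb × Lb))))))))
  have hmid : Poly (fun p : CNF ℕ × ℕ => (List.range (p.1.length + 1)).flatMap fun j =>
    [(((0, p.2, j), (1, p.2, (j + 1) % (p.1.length + 1)),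
        bif stF p.1 p.2 j true then (2, p.2, j) else (3, p.2, j)) : Lb × Lb × Lb),
     ((0, p.2, j), (1, p.2, j), bif stF p.1 p.2 j false then (2, p.2, j) else (3, p.2, j)),
     ((4, p.2, j), (2, p.2, j), (5, p.2 + 1, j)),
     ((4, p.2, j), (3, p.2, j), (6, 0, j)),
     ((4, p.2, j), (5, p.2, j), (2, p.2, j)),
     ((4, p.2, j), (5, p.2, j), (3, p.2, j))]) :=
    Poly.flatMap (F := fun (p : CNF ℕ × ℕ) j =>
      [(((0, p.2, j), (1, p.2, (j + 1) % (p.1.length + 1)),
        bif stF p.1 p.2 j true then (2, p.2, j) else (3, p.2, j)) : Lb × Lb × Lb),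
      ((0, p.2, j), (1, p.2, j), bif stF p.1 p.2 j false then (2, p.2, j) else (3, p.2, j)),
      ((4, p.2, j), (2, p.2, j), (5, p.2 + 1, j)),
      ((4, p.2, j), (3, p.2, j), (6, 0, j)),
      ((4, p.2, j), (5, p.2, j), (2, p.2, j)),
      ((4, p.2, j), (5, p.2, j), (3, p.2, j))])
      ((UPoly.add (m_upoly.comp (Poly.fst Poly.id)) (UPoly.const 1)).range) hin
  exact Poly.flatMap (F := fun (φ : CNF ℕ) v => (List.range (φ.length + 1)).flatMap fun j =>
    [(((0, v, j), (1, v, (j + 1) % (φ.length + 1)),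
        bif stF φ v j true then (2, v, j) else (3, v, j)) : Lb × Lb × Lb),
     ((0, v, j), (1, v, j), bif stF φ v j false then (2, v, j) else (3, v, j)),
     ((4, v, j), (2, v, j), (5, v + 1, j)),
     ((4, v, j), (3, v, j), (6, 0, j)),
     ((4, v, j), (5, v, j), (2, v, j)),
     ((4, v, j), (5, v, j), (3, v, j))])
    ((UPoly.add n_upoly (UPoly.const 1)).range) hmid

theorem colV_poly : Poly (fun φ : CNF ℕ => colV (vsL φ).length φ.length) := by
  have hv : Poly (fun p : Ctx => p.1.2) := Poly.snd (Poly.fst Poly.id)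
  have hj : Poly (fun p : Ctx => p.2) := Poly.snd Poly.id
  have e6 : Poly (fun p : Ctx => (if p.1.2 = 0 then (6, 0, p.2) else (5, p.1.2, p.2) : Lb)) :=
    Poly.ite (p := fun p : Ctx => p.1.2 = 0) (Poly.decide_eq hv (Poly.const 0))
      (lb_poly 6 (Poly.const 0) hj) (lb_poly 5 hv hj)
  have hin := Poly.cons (lb_poly 0 hv hj) (Poly.cons (lb_poly 4 hv hj) (Poly.cons (lb_poly 1 hv hj)
    (Poly.cons (lb_poly 2 hv hj) (Poly.cons (lb_poly 3 hv hj) (Poly.cons e6
    (Poly.const (α := Ctx) ([] : List Lb)))))))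
  have hmid : Poly (fun p : CNF ℕ × ℕ => (List.range (p.1.length + 1)).flatMap fun j =>
    [((0, p.2, j) : Lb), (4, p.2, j), (1, p.2, j), (2, p.2, j), (3, p.2, j),
      if p.2 = 0 then (6, 0, j) else (5, p.2, j)]) :=
    Poly.flatMap (F := fun (p : CNF ℕ × ℕ) j =>
      [((0, p.2, j) : Lb), (4, p.2, j), (1, p.2, j), (2, p.2, j), (3, p.2, j),
        if p.2 = 0 then (6, 0, j) else (5, p.2, j)])
      ((UPoly.add (m_upoly.comp (Poly.fst Poly.id)) (UPoly.const 1)).range) hin
  exact Poly.flatMap (F := fun (φ : CNF ℕ) v => (List.range (φ.length + 1)).flatMap fun j =>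
    [((0, v, j) : Lb), (4, v, j), (1, v, j), (2, v, j), (3, v, j),
      if v = 0 then (6, 0, j) else (5, v, j)])
    ((UPoly.add n_upoly (UPoly.const 1)).range) hmid

theorem rP_poly : Poly rP := by
  have ha : Poly (fun E : Lb × Lb × Lb => E.1) := Poly.fst Poly.id
  have hb : Poly (fun E : Lb × Lb × Lb => E.2.1) := Poly.fst (Poly.snd Poly.id)
  have hc : Poly (fun E : Lb × Lb × Lb => E.2.2) := Poly.snd (Poly.snd Poly.id)
  have hn : Poly (fun _ : Lb × Lb × Lb => ([] : List Lb)) := Poly.const []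
  have hnn : Poly (fun _ : Lb × Lb × Lb => ([] : List (List Lb))) := Poly.const []
  exact Poly.cons (Poly.cons ha (Poly.cons hb (Poly.cons hc hn))) (Poly.cons (Poly.cons ha hn)
    (Poly.cons (Poly.cons hb hn) (Poly.cons (Poly.cons hc hn) hnn)))

theorem rN_poly : Poly rN := by
  have ha : Poly (fun E : Lb × Lb × Lb => E.1) := Poly.fst Poly.id
  have hb : Poly (fun E : Lb × Lb × Lb => E.2.1) := Poly.fst (Poly.snd Poly.id)
  have hc : Poly (fun E : Lb × Lb × Lb => E.2.2) := Poly.snd (Poly.snd Poly.id)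
  have hn : Poly (fun _ : Lb × Lb × Lb => ([] : List Lb)) := Poly.const []
  have hnn : Poly (fun _ : Lb × Lb × Lb => ([] : List (List Lb))) := Poly.const []
  exact Poly.cons (Poly.cons ha (Poly.cons hb hn)) (Poly.cons (Poly.cons ha (Poly.cons hc hn))
    (Poly.cons (Poly.cons hb (Poly.cons hc hn)) (Poly.cons hn hnn)))

/-- the clipped index -/
def tF (p : CNF ℕ × ℕ) : ℕ := min p.2 (qF p.1)

theorem tF_upoly : UPoly tF := upoly_min (Poly.snd Poly.id) (qF_upoly.comp (Poly.fst Poly.id))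

theorem rowsT_poly : Poly (fun p : CNF ℕ × ℕ =>
    rowsT (tri (vsL p.1).length p.1.length (stF p.1)) (qF p.1) (tF p) (3 * qF p.1)) := by
  have hsub : UPoly (fun p : CNF ℕ × ℕ => qF p.1 - tF p) :=
    UPoly.of_le (Poly.sub (qF_upoly.comp (Poly.fst Poly.id)).toPoly tF_upoly.toPoly)
      (qF_upoly.comp (Poly.fst Poly.id)) (fun _ => Nat.sub_le _ _)
  refine Poly.append ?_ ?_
  · refine Poly.flatMap (F := fun (p : CNF ℕ × ℕ) E => (List.range (tF p)).flatMap (fun _ => rP E) ++
      (List.range (qF p.1 - tF p)).flatMap (fun _ => rN E)) (tri_poly.comp (Poly.fst Poly.id)) ?_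
    refine Poly.append ?_ ?_
    · exact Poly.flatMap (F := fun (x : (CNF ℕ × ℕ) × (Lb × Lb × Lb)) (_ : ℕ) => rP x.2)
        ((tF_upoly.comp (Poly.fst Poly.id)).range)
        (rP_poly.comp (Poly.snd (Poly.fst Poly.id)))
    · exact Poly.flatMap (F := fun (x : (CNF ℕ × ℕ) × (Lb × Lb × Lb)) (_ : ℕ) => rN x.2)
        ((hsub.comp (Poly.fst Poly.id)).range)
        (rN_poly.comp (Poly.snd (Poly.fst Poly.id)))
  · exact Poly.map (F := fun (_ : CNF ℕ × ℕ) (_ : ℕ) => ([] : List Lb))
      ((UPoly.mul (UPoly.const 3) (qF_upoly.comp (Poly.fst Poly.id))).range) (Poly.const [])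

theorem MF_poly : Poly (fun p : CNF ℕ × ℕ => MF p.1 (tF p)) := by
  refine Poly.map (F := fun (p : CNF ℕ × ℕ) (r : List Lb) =>
    (colV (vsL p.1).length p.1.length).map (fun x => decide (x ∈ r)) ++
      (List.range (kF p.1)).map (fun _ => true)) rowsT_poly ?_
  refine Poly.append ?_ ?_
  · have h1 : Poly (fun z : ((CNF ℕ × ℕ) × List Lb) × Lb => decide (z.2 ∈ z.1.2)) :=
      (Poly.decide_mem (Poly.snd Poly.id) (Poly.snd (Poly.fst Poly.id))).congr
        fun _ => decide_eq_decide.2 Iff.rfl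
    have h2 : Poly (fun y : (CNF ℕ × ℕ) × List Lb => colV (vsL y.1.1).length y.1.1.length) :=
      colV_poly.comp (Poly.fst (Poly.fst Poly.id))
    exact Poly.map (F := fun (y : (CNF ℕ × ℕ) × List Lb) x => decide (x ∈ y.2)) h2 h1
  · exact Poly.map (F := fun (_ : (CNF ℕ × ℕ) × List Lb) (_ : ℕ) => true)
      ((kF_upoly.comp (Poly.fst (Poly.fst Poly.id))).range) (Poly.const true)

end Sat

section Iv

theorem edg_poly : Poly edg := by
  have h2 : Poly (fun p : LL × ℕ => (List.range p.1.length).filter (fun j => ent p.1 p.2 j)) :=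
    Poly.filter (p := fun (p : LL × ℕ) j => ent p.1 p.2 j) (Poly.range_length (Poly.fst Poly.id))
      (ent_poly.comp (Poly.pair (Poly.fst (Poly.fst Poly.id)) (Poly.pair
        (Poly.snd (Poly.fst Poly.id)) (Poly.snd Poly.id))))
  have h3 : Poly (fun p : LL × ℕ => ((List.range p.1.length).filter (fun j => ent p.1 p.2 j)).map
      (fun j => (p.2, j))) :=
    Poly.map (F := fun (p : LL × ℕ) j => (p.2, j)) h2
      (Poly.pair (Poly.snd (Poly.fst Poly.id)) (Poly.snd Poly.id))
  exact Poly.flatMap (F := fun (A : LL) i => ((List.range A.length).filter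
    (fun j => ent A i j)).map (fun j => (i, j))) (Poly.range_length Poly.id) h3

theorem len_upoly : UPoly (fun A : LL => A.length) := UPoly.length (l := fun A : LL => A) Poly.id

theorem cen_upoly : UPoly cen :=
  UPoly.add (UPoly.mul (UPoly.mul (UPoly.const 2) (UPoly.length edg_poly)) len_upoly)
    (UPoly.const 1)

theorem pP_poly : Poly pP := by
  have ha : Poly (fun e : ℕ × ℕ => e.1) := Poly.fst Poly.id
  have hb : Poly (fun e : ℕ × ℕ => e.2) := Poly.snd Poly.id
  exact Poly.cons (Poly.pair (Poly.succ ha) (Poly.succ hb)) (Poly.cons (Poly.pair ha hb)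
    (Poly.const (α := ℕ × ℕ) ([] : List (ℕ × ℕ))))

theorem pN_poly : Poly pN := by
  have ha : Poly (fun e : ℕ × ℕ => e.1) := Poly.fst Poly.id
  have hb : Poly (fun e : ℕ × ℕ => e.2) := Poly.snd Poly.id
  exact Poly.cons (Poly.pair ha (Poly.succ hb)) (Poly.cons (Poly.pair (Poly.succ ha) hb)
    (Poly.const (α := ℕ × ℕ) ([] : List (ℕ × ℕ))))

/-- the clipped index -/
def uF (p : LL × ℕ) : ℕ := min p.2 p.1.length

theorem uF_upoly : UPoly uF := upoly_min (Poly.snd Poly.id) (len_upoly.comp (Poly.fst Poly.id))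

theorem abL_poly : Poly (fun p : LL × ℕ => abL p.1 (uF p)) := by
  have hsub : UPoly (fun p : LL × ℕ => p.1.length - uF p) :=
    UPoly.of_le (Poly.sub (len_upoly.comp (Poly.fst Poly.id)).toPoly uF_upoly.toPoly)
      (len_upoly.comp (Poly.fst Poly.id)) (fun _ => Nat.sub_le _ _)
  refine Poly.append ?_ ?_
  · refine Poly.flatMap (F := fun (p : LL × ℕ) e => (List.range (uF p)).flatMap (fun _ => pP e) ++
      (List.range (p.1.length - uF p)).flatMap (fun _ => pN e)) (edg_poly.comp (Poly.fst Poly.id)) ?_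
    refine Poly.append ?_ ?_
    · exact Poly.flatMap (F := fun (x : (LL × ℕ) × (ℕ × ℕ)) (_ : ℕ) => pP x.2)
        ((uF_upoly.comp (Poly.fst Poly.id)).range)
        (pP_poly.comp (Poly.snd (Poly.fst Poly.id)))
    · exact Poly.flatMap (F := fun (x : (LL × ℕ) × (ℕ × ℕ)) (_ : ℕ) => pN x.2)
        ((hsub.comp (Poly.fst Poly.id)).range)
        (pN_poly.comp (Poly.snd (Poly.fst Poly.id)))
  · exact Poly.map (F := fun (_ : LL × ℕ) (_ : ℕ) => ((0 : ℕ), (0 : ℕ)))
      ((UPoly.add (UPoly.mul (UPoly.const 2) (len_upoly.comp (Poly.fst Poly.id)))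
        (UPoly.const 1)).range) (Poly.const (0, 0))

theorem ivL_poly : Poly (fun p : LL × ℕ => ivL p.1 (uF p)) := by
  refine Poly.map (F := fun (p : LL × ℕ) r => iv p.1.length (cen p.1) r) abL_poly ?_
  have hn : Poly (fun x : (LL × ℕ) × (ℕ × ℕ) => x.1.1.length) :=
    Poly.length (Poly.fst (Poly.fst Poly.id))
  have hc : Poly (fun x : (LL × ℕ) × (ℕ × ℕ) => cen x.1.1) :=
    cen_upoly.toPoly.comp (Poly.fst (Poly.fst Poly.id))
  exact Poly.pair (Poly.sub hn (Poly.fst (Poly.snd Poly.id)))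
    (Poly.sub (Poly.add (Poly.add hn hc) (Poly.snd (Poly.snd Poly.id))) (Poly.const 1))

/-- the interval graphs of a matrix -/
def qry (A : LL) (u : ℕ) : List (ℕ × ℕ) :=
  withPts (ivL A (uF (A, u))) (List.range (2 * A.length + cen A))

theorem qry_poly : Poly (fun p : LL × ℕ => qry p.1 p.2) := by
  refine Poly.append ivL_poly ?_
  exact Poly.map (F := fun (_ : LL × ℕ) (p : ℕ) => (p, p))
    ((UPoly.add (UPoly.mul (UPoly.const 2) (len_upoly.comp (Poly.fst Poly.id)))
      (cen_upoly.comp (Poly.fst Poly.id))).range)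
    (Poly.pair (Poly.snd Poly.id) (Poly.snd Poly.id))

end Iv

end Pool.Agent.NPC.H549PM
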