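import Pool.Agent.H549R2.LE4
import Pool.Agent.H549R2.PM9

/-!
# The permanent of matrices with consecutive ones from numbers of linear extensions
-/

namespace Pool.Agent.NPC.H549LE

open Pool.Agent.H549R2.Convex Pool.Agent.H549R2.LE Pool.Agent.NPC.Cnt Finset
open Pool.Agent.NPC.H549Convex (LL poly_prod upoly_fact sqB sqB_poly)
open Pool.Agent.NPC.H549PM (alt alt_poly alt_eq alt_congr upoly_min)

/-! ### Intervals of rows -/

/-- positions of the ones -/
def ones (r : List Bool) : List ℕ := (List.range r.length).filter (fun j => r.getD j false)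

/-- first and last one -/
def iv (r : List Bool) : ℕ × ℕ := ((ones r).getD 0 0, (ones r).getD ((ones r).length - 1) 0)

theorem mem_ones (r : List Bool) (j : ℕ) : j ∈ ones r ↔ j < r.length ∧ r.getD j false = true := by
  rw [ones, List.mem_filter, List.mem_range]

theorem ones_sorted (r : List Bool) : (ones r).Pairwise (· < ·) :=
  (List.pairwise_lt_range (n := r.length)).filter _

theorem getD_true (r : List Bool) (j : ℕ) : r.getD j false = true ↔ r[j]? = some true := by
  rw [List.getD_eq_getElem?_getD]
  cases h : r[j]? with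
  | none => simp
  | some b => simp

theorem getD_lt (r : List Bool) (j : ℕ) (h : r.getD j false = true) : j < r.length := by
  by_contra hc
  rw [List.getD_eq_default _ _ (by omega)] at h
  exact absurd h (by simp)

theorem iv_mem (r : List Bool) (h : 0 < (ones r).length) : (iv r).1 ∈ ones r ∧ (iv r).2 ∈ ones r := by
  rw [iv]
  simp only
  rw [List.getD_eq_getElem _ _ h, List.getD_eq_getElem _ _ (by omega)]
  exact ⟨List.getElem_mem _, List.getElem_mem _⟩

theorem iv_le (r : List Bool) (j : ℕ) (hj : j ∈ ones r) : (iv r).1 ≤ j ∧ j ≤ (iv r).2 := by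
  obtain ⟨i, hi, rfl⟩ := List.mem_iff_getElem.1 hj
  have hs := List.pairwise_iff_getElem.1 (ones_sorted r)
  rw [iv]
  simp only
  rw [List.getD_eq_getElem _ _ (by omega), List.getD_eq_getElem _ _ (by omega)]
  constructor
  · rcases Nat.eq_zero_or_pos i with h | h
    · subst h; exact le_rfl
    · exact (hs 0 i (by omega) hi h).le
  · rcases Nat.lt_or_ge i ((ones r).length - 1) with h | h
    · exact (hs i _ hi (by omega) h).le
    · have : i = (ones r).length - 1 := by omega
      subst this
      exact le_rfl

theorem iv_iff (r : List Bool) (hc : Consec r) (h : 0 < (ones r).length) (j : ℕ) :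
    r.getD j false = true ↔ (iv r).1 ≤ j ∧ j ≤ (iv r).2 := by
  constructor
  · intro hj
    exact iv_le r j ((mem_ones r j).2 ⟨getD_lt r j hj, hj⟩)
  · rintro ⟨h1, h2⟩
    obtain ⟨h3, h4⟩ := iv_mem r h
    rw [mem_ones, getD_true] at h3 h4
    rw [getD_true]
    exact hc _ _ _ h1 h2 h3.2 h4.2

/-- the intervals of the rows -/
def rws (A : LL) : List (ℕ × ℕ) := A.map iv

theorem rws_length (A : LL) : (rws A).length = A.length := by rw [rws, List.length_map]

theorem rws_getD (A : LL) (i : ℕ) (hi : i < A.length) :
    (rws A).getD i (0, 0) = iv (A.getD i []) := by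
  rw [rws, List.getD_eq_getElem _ _ (by simpa using hi), List.getElem_map,
    List.getD_eq_getElem _ _ hi]

theorem rws_lt (A : LL) (hsq : ∀ r ∈ A, r.length = A.length)
    (hne : ∀ r ∈ A, 0 < (ones r).length) : ∀ p ∈ rws A, p.2 < (rws A).length := by
  intro p hp
  rw [rws, List.mem_map] at hp
  obtain ⟨r, hr, rfl⟩ := hp
  rw [rws_length, ← hsq r hr]
  exact ((mem_ones _ _).1 (iv_mem r (hne r hr)).2).1

theorem rws_valid (A : LL) (hne : ∀ r ∈ A, 0 < (ones r).length) : ∀ p ∈ rws A, p.1 ≤ p.2 := by
  intro p hp
  rw [rws, List.mem_map] at hp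
  obtain ⟨r, hr, rfl⟩ := hp
  exact (iv_le r _ (iv_mem r (hne r hr)).1).2

theorem F_eq_bij (A : LL) (hsq : ∀ r ∈ A, r.length = A.length) (hc : ∀ r ∈ A, Consec r)
    (hne : ∀ r ∈ A, 0 < (ones r).length) : F A = bij (rws A) := by
  rw [bij_eq _ (rws_lt A hsq hne), F_eq_card' A hsq _ (rws_length A).symm]
  congr 1
  refine Finset.filter_congr fun σ _ => forall_congr' fun i => ?_
  have hi : i.val < A.length := lt_of_lt_of_eq i.2 (rws_length A)
  have h1 : (rws A).getD i.val (0, 0) = iv (A.getD i.val []) := rws_getD A i.val hi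
  have h2 : A.getD i.val [] ∈ A := by
    rw [List.getD_eq_getElem _ _ hi]
    exact List.getElem_mem _
  rw [h1, ent]
  exact iv_iff _ (hc _ h2) (hne _ h2) _

theorem F_empty_row (A : LL) (hsq : ∀ r ∈ A, r.length = A.length) (r : List Bool) (hr : r ∈ A)
    (h : (ones r).length = 0) : F A = 0 := by
  rw [F_eq_card' A hsq A.length rfl, Finset.card_eq_zero, Finset.filter_eq_empty_iff]
  intro σ _ hσ
  obtain ⟨i, hi, rfl⟩ := List.mem_iff_getElem.1 hr
  have h1 := hσ ⟨i, hi⟩
  rw [ent] at h1
  simp only at h1
  rw [List.getD_eq_getElem _ _ hi] at h1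
  have h2 := (mem_ones A[i] (σ ⟨i, hi⟩).val).2 ⟨getD_lt _ _ h1, h1⟩
  rw [List.length_eq_zero_iff.1 h] at h2
  simp at h2

/-! ### The reduction -/

/-- test for square matrices with nonzero rows -/
def goodB (A : LL) : Bool := sqB A && A.all (fun r => decide (0 < (ones r).length))

theorem goodB_iff (A : LL) : goodB A = true ↔
    (∀ r ∈ A, r.length = A.length) ∧ ∀ r ∈ A, 0 < (ones r).length := by
  rw [goodB, Bool.and_eq_true, sqB, List.all_eq_true, List.all_eq_true]
  simp

/-- multiplicities of the points in the queries -/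
def gq (p : LL × ℕ) : ℕ := max 1 (p.1.length + 1 - p.2)

/-- the queries -/
def qsL (A : LL) : List (List (ℕ × ℕ)) :=
  bif goodB A then (List.range (A.length + 4)).map (fun t => lst (rws A) (gq (A, t))) else []

/-- the final computation -/
noncomputable def postL (p : LL × List ℕ) : ℕ :=
  bif goodB p.1 then
    alt (p.1.length + 3) (fun t => tm p.1.length (fun t => p.2.getD t 0) t) / 2 else 0

theorem qsL_nfree (A : LL) (l : List (ℕ × ℕ)) (h : l ∈ qsL A) : NFree l := by
  rw [qsL] at h
  cases hg : goodB A with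
  | false => rw [hg] at h; simp at h
  | true =>
    rw [hg, cond_true, List.mem_map] at h
    obtain ⟨t, _, rfl⟩ := h
    obtain ⟨h1, h2⟩ := (goodB_iff A).1 hg
    exact nfree_lst _ _ (rws_lt A h1 h2) (rws_valid A h2) (lt_of_lt_of_le Nat.one_pos
      (Nat.le_max_left _ _))

theorem postL_correct (A : LL) (hc : ∀ r ∈ A, Consec r) (f : List (ℕ × ℕ) → ℕ)
    (hf : ∀ l, NFree l → f l = linExt l) : postL (A, (qsL A).map f) = F A := by
  rw [postL]
  simp only
  cases hg : goodB A with
  | false =>
    rw [cond_false]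
    by_cases hsq : ∀ r ∈ A, r.length = A.length
    · have h1 : ¬ ∀ r ∈ A, 0 < (ones r).length := by
        intro h
        have := (goodB_iff A).2 ⟨hsq, h⟩
        rw [hg] at this
        exact absurd this (by simp)
      push Not at h1
      obtain ⟨r, hr, h2⟩ := h1
      exact (F_empty_row A hsq r hr (by omega)).symm
    · rw [F, if_neg hsq]
  | true =>
    rw [cond_true]
    obtain ⟨hsq, hne⟩ := (goodB_iff A).1 hg
    have h1 : alt (A.length + 3) (fun t => tm A.length (fun t => ((qsL A).map f).getD t 0) t) =
        2 * bij (rws A) := by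
      rw [alt_congr _ _ (fun t => tm A.length
        (fun t => linExt (lst (rws A) (A.length + 1 - t))) t)]
      · apply alt_eq
        have h2 := alternating (rws A) (rws_lt A hsq hne) (rws_valid A hne)
        rw [rws_length] at h2
        exact h2
      · intro t ht
        rw [tm, tm]
        rcases Nat.lt_or_ge t (A.length + 1) with h | h
        · have h3 : ((qsL A).map f).getD t 0 = linExt (lst (rws A) (A.length + 1 - t)) := by
            have h4 : qsL A = (List.range (A.length + 4)).map
                (fun t => lst (rws A) (gq (A, t))) := by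
              rw [qsL, hg, cond_true]
            have h5 : gq (A, t) = A.length + 1 - t := by
              rw [gq]
              simp only
              omega
            rw [h4, List.map_map, List.getD_eq_getElem _ _ (by simp; omega), List.getElem_map,
              List.getElem_range, Function.comp, h5]
            exact hf _ (nfree_lst _ _ (rws_lt A hsq hne) (rws_valid A hne) (by omega))
          rw [h3]
        · rw [show A.length + 1 - t = 0 by omega]
          simp
    rw [h1, F_eq_bij A hsq hc hne]
    omega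

/-! ### Polynomial time -/

theorem ones_poly : Poly ones := by
  refine Poly.filter (p := fun (r : List Bool) j => r.getD j false)
    (Poly.range_length Poly.id) ?_
  exact Poly.getD (Poly.fst Poly.id) (Poly.snd Poly.id) (Poly.const false)

theorem iv_poly : Poly iv :=
  Poly.pair (Poly.getD ones_poly (Poly.const 0) (Poly.const 0))
    (Poly.getD ones_poly (Poly.sub (Poly.length ones_poly) (Poly.const 1)) (Poly.const 0))

theorem rws_poly : Poly rws :=
  Poly.map (F := fun (_ : LL) r => iv r) Poly.id (iv_poly.comp (Poly.snd Poly.id))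

theorem goodB_poly : Poly goodB := by
  refine Poly.and sqB_poly ?_
  refine Poly.all (p := fun (_ : LL) r => decide (0 < (ones r).length)) Poly.id ?_
  exact Poly.decide_lt (Poly.const 0) (Poly.length (ones_poly.comp (Poly.snd Poly.id)))

theorem gq_upoly : UPoly gq := by
  refine UPoly.of_le (n := fun p : LL × ℕ => p.1.length + 2)
    (Poly.max (Poly.const 1) (Poly.sub (Poly.succ (Poly.length (Poly.fst Poly.id)))
      (Poly.snd Poly.id))) (UPoly.add (UPoly.length (Poly.fst Poly.id)) (UPoly.const 2))
    fun p => ?_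
  rw [gq]
  omega

theorem pts_poly {α : Type} [TEnc α] {m g : α → ℕ} (hm : UPoly m) (hg : UPoly g) :
    Poly (fun a => pts (m a) (g a)) := by
  refine Poly.flatMap (F := fun (a : α) k => (List.range (g a)).map (fun _ => 2 * k) ++
    [2 * k + 1]) hm.range ?_
  have h : Poly (fun p : α × ℕ => 2 * p.2) := Poly.mul (Poly.const 2) (Poly.snd Poly.id)
  refine Poly.append ?_ (Poly.cons (Poly.succ h) (Poly.const []))
  exact Poly.map (F := fun (p : α × ℕ) _ => 2 * p.2) ((hg.comp (Poly.fst Poly.id)).range)
    (h.comp (Poly.fst Poly.id))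

theorem lst_poly : Poly (fun p : LL × ℕ => lst (rws p.1) (gq p)) := by
  have hR : Poly (fun p : LL × ℕ => rws p.1) := rws_poly.comp (Poly.fst Poly.id)
  refine Poly.append ?_ ?_
  · refine Poly.map (F := fun (_ : LL × ℕ) r => (2 * r.1, 2 * r.2)) hR ?_
    exact Poly.pair (Poly.mul (Poly.const 2) (Poly.fst (Poly.snd Poly.id)))
      (Poly.mul (Poly.const 2) (Poly.snd (Poly.snd Poly.id)))
  · refine Poly.map (F := fun (_ : LL × ℕ) c => (c, c)) (pts_poly (UPoly.length hR) gq_upoly) ?_
    exact Poly.pair (Poly.snd Poly.id) (Poly.snd Poly.id)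

theorem qsL_poly : Poly qsL := by
  refine Poly.cond goodB_poly ?_ (Poly.const [])
  exact Poly.map (F := fun (A : LL) t => lst (rws A) (gq (A, t)))
    (UPoly.add (UPoly.length Poly.id) (UPoly.const 4)).range lst_poly

theorem upoly_fact_pow {α : Type} [TEnc α] {m n : α → ℕ} (hm : UPoly m) (hn : UPoly n) :
    Poly (fun a => (n a).factorial ^ m a) := by
  have h1 : Poly (fun a => (List.range (m a)).map (fun _ => (n a).factorial)) :=
    Poly.map (F := fun (a : α) (_ : ℕ) => (n a).factorial) hm.range
      ((upoly_fact hn).comp (Poly.fst Poly.id))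
  refine (poly_prod h1).congr fun a => ?_
  rw [List.map_const', List.prod_replicate, List.length_range]

theorem tm_poly : Poly (fun z : (LL × List ℕ) × ℕ =>
    tm z.1.1.length (fun t => z.1.2.getD t 0) z.2) := by
  have hm : UPoly (fun z : (LL × List ℕ) × ℕ => z.1.1.length) :=
    UPoly.length (Poly.fst (Poly.fst Poly.id))
  have h1 : UPoly (fun z : (LL × List ℕ) × ℕ => z.1.1.length + 1 - z.2) :=
    UPoly.of_le (Poly.sub (Poly.succ hm.toPoly) (Poly.snd Poly.id))
      (UPoly.add hm (UPoly.const 1)) (fun _ => Nat.sub_le _ _)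
  have h2 : Poly (fun z : (LL × List ℕ) × ℕ => z.1.1.length + 2 - z.2) :=
    Poly.sub (Poly.add hm.toPoly (Poly.const 2)) (Poly.snd Poly.id)
  have h3 : Poly (fun z : (LL × List ℕ) × ℕ => z.1.2.getD z.2 0) :=
    Poly.getD (Poly.snd (Poly.fst Poly.id)) (Poly.snd Poly.id) (Poly.const 0)
  exact Poly.mul (Poly.mul h1.toPoly h2) (Poly.div h3 (upoly_fact_pow hm h1))

theorem postL_poly : Poly postL := by
  refine Poly.cond (goodB_poly.comp (Poly.fst Poly.id)) (Poly.div ?_ (Poly.const 2))
    (Poly.const 0)
  exact alt_poly (g := fun (p : LL × List ℕ) t => tm p.1.length (fun t => p.2.getD t 0) t)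
    (UPoly.add (UPoly.length (Poly.fst Poly.id)) (UPoly.const 3)) tm_poly

end Pool.Agent.NPC.H549LE
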