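import Pool.Agent.H549R2.PM9

/-!
# Nonadaptive polynomial-time reductions between counting problems with promises
-/

namespace Pool.Agent.NPC.H549NRed

open Pool.Agent.H549R2.Convex Pool.Agent.NPC.Cnt
open Pool.Agent.NPC.H549Convex (LL fp_of_poly upoly_fact)
open Pool.Agent.NPC.H549PM (alt alt_poly alt_eq alt_congr upoly_pow2 tF tF_upoly MF_poly
  qF_upoly kF_upoly)
open Pool.Agent.H549R2.PM (MF qF kF sat_eq MF_square)

/-- `h` on the inputs with `D` is computed in polynomial time from the answers to a list of
queries to `f`, all of them with the property `S`. -/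
def NRed {α β : Type} [TEnc α] [TEnc β] (D : α → Prop) (h : α → ℕ) (S : β → Prop)
    (f : β → ℕ) : Prop :=
  ∃ (qs : α → List β) (post : α × List ℕ → ℕ), Poly qs ∧ Poly post ∧
    ∀ a, D a → (∀ b ∈ qs a, S b) ∧ post (a, (qs a).map f) = h a

section Comp

variable {α β γ : Type} [TEnc α] [TEnc β] [TEnc γ] [DecidableEq γ]

/-- the answer to a query in a list of queries with answers -/
def look (Q : List γ) (ans : List ℕ) (q : γ) : ℕ :=
  (((Q.zip ans).filter (fun p => decide (p.1 = q))).map Prod.snd).getD 0 0

omit [TEnc γ] in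
theorem look_eq (Q : List γ) (f : γ → ℕ) (q : γ) (hq : q ∈ Q) : look Q (Q.map f) q = f q := by
  have h1 : Q.zip (Q.map f) = Q.map (fun x => (x, f x)) := by
    clear hq
    induction Q with
    | nil => rfl
    | cons a Q ih => rw [List.map_cons, List.zip_cons_cons, ih, List.map_cons]
  rw [look, h1, List.filter_map, List.map_map]
  have h2 : (Q.filter ((fun p : γ × ℕ => decide (p.1 = q)) ∘ fun x => (x, f x))).map
      (Prod.snd ∘ fun x => (x, f x)) =
      (Q.filter (fun x => decide (x = q))).map (fun _ => f q) := by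
    refine List.map_congr_left fun x hx => ?_
    rw [List.mem_filter] at hx
    have := hx.2
    simp only [Function.comp, decide_eq_true_eq] at this
    simp only [Function.comp, this]
  rw [h2]
  have h3 : 0 < (Q.filter (fun x => decide (x = q))).length := by
    rw [List.length_pos_iff_exists_mem]
    exact ⟨q, List.mem_filter.2 ⟨hq, by simp⟩⟩
  rw [List.getD_eq_getElem _ _ (by rw [List.length_map]; exact h3), List.getElem_map]

theorem look_poly {δ : Type} [TEnc δ] {Q : δ → List γ} {ans : δ → List ℕ} {q : δ → γ}
    (hQ : Poly Q) (hans : Poly ans) (hq : Poly q) : Poly (fun d => look (Q d) (ans d) (q d)) := by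
  have h1 : Poly (fun d => (Q d).zip (ans d)) := Poly.zip hQ hans
  have h2 : Poly (fun d => ((Q d).zip (ans d)).filter (fun p => decide (p.1 = q d))) :=
    Poly.filter (p := fun (d : δ) p => decide (p.1 = q d)) h1
      (Poly.decide_eq (Poly.fst (Poly.snd Poly.id)) (hq.comp (Poly.fst Poly.id)))
  exact Poly.getD (Poly.map (F := fun (_ : δ) p => p.2) h2 (Poly.snd (Poly.snd Poly.id)))
    (Poly.const 0) (Poly.const 0)

theorem NRed.comp {D : α → Prop} {h : α → ℕ} {S : β → Prop} {f : β → ℕ} {S' : γ → Prop}
    {f' : γ → ℕ} (h1 : NRed D h S f) (h2 : NRed S f S' f') : NRed D h S' f' := by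
  obtain ⟨qs1, post1, hq1, hp1, hc1⟩ := h1
  obtain ⟨qs2, post2, hq2, hp2, hc2⟩ := h2
  refine ⟨fun a => (qs1 a).flatMap qs2, fun p => post1 (p.1, (qs1 p.1).map (fun b => post2 (b,
    (qs2 b).map (fun q => look ((qs1 p.1).flatMap qs2) p.2 q)))), ?_, ?_, ?_⟩
  · exact Poly.flatMap (F := fun (_ : α) b => qs2 b) hq1 (hq2.comp (Poly.snd Poly.id))
  · have hall : Poly (fun a => (qs1 a).flatMap qs2) :=
      Poly.flatMap (F := fun (_ : α) b => qs2 b) hq1 (hq2.comp (Poly.snd Poly.id))
    have h3 : Poly (fun z : ((α × List ℕ) × β) × γ =>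
        look ((qs1 z.1.1.1).flatMap qs2) z.1.1.2 z.2) :=
      look_poly (hall.comp (Poly.fst (Poly.fst (Poly.fst Poly.id))))
        (Poly.snd (Poly.fst (Poly.fst Poly.id))) (Poly.snd Poly.id)
    have h4 : Poly (fun z : (α × List ℕ) × β =>
        (qs2 z.2).map (fun q => look ((qs1 z.1.1).flatMap qs2) z.1.2 q)) :=
      Poly.map (F := fun (z : (α × List ℕ) × β) q => look ((qs1 z.1.1).flatMap qs2) z.1.2 q)
        (hq2.comp (Poly.snd Poly.id)) h3
    have h5 : Poly (fun z : (α × List ℕ) × β =>
        post2 (z.2, (qs2 z.2).map (fun q => look ((qs1 z.1.1).flatMap qs2) z.1.2 q))) :=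
      hp2.comp (Poly.pair (Poly.snd Poly.id) h4)
    have h6 : Poly (fun p : α × List ℕ => (qs1 p.1).map (fun b => post2 (b,
        (qs2 b).map (fun q => look ((qs1 p.1).flatMap qs2) p.2 q)))) :=
      Poly.map (F := fun (p : α × List ℕ) b => post2 (b,
        (qs2 b).map (fun q => look ((qs1 p.1).flatMap qs2) p.2 q)))
        (hq1.comp (Poly.fst Poly.id)) h5
    exact hp1.comp (Poly.pair (Poly.fst Poly.id) h6)
  · intro a ha
    obtain ⟨hS, hpost⟩ := hc1 a ha
    constructor
    · intro c hc
      rw [List.mem_flatMap] at hc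
      obtain ⟨b, hb, hc⟩ := hc
      exact (hc2 b (hS b hb)).1 c hc
    · simp only
      rw [← hpost]
      congr 2
      refine List.map_congr_left fun b hb => ?_
      rw [← (hc2 b (hS b hb)).2]
      congr 2
      refine List.map_congr_left fun q hq => ?_
      exact look_eq _ f' q (List.mem_flatMap.2 ⟨b, hb, hq⟩)

end Comp

section Basic

/-- counting satisfying assignments reduces to the 0-1 permanent -/
theorem nred_sat : NRed (fun _ : CNF ℕ => True) (fun φ => satCount φ) (fun _ : LL => True) F := by
  refine ⟨fun φ => (List.range (qF φ + 1)).map (fun t => MF φ (tF (φ, t))),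
    fun p => alt (qF p.1) (fun t => p.2.getD t 0 / (kF p.1).factorial) /
      (2 ^ qF p.1 * (qF p.1).factorial), ?_, ?_, ?_⟩
  · exact Poly.map (F := fun (φ : CNF ℕ) t => MF φ (tF (φ, t)))
      (UPoly.add qF_upoly (UPoly.const 1)).range MF_poly
  · have hq : UPoly (fun p : CNF ℕ × List ℕ => qF p.1) := qF_upoly.comp (Poly.fst Poly.id)
    have h1 : Poly (fun z : (CNF ℕ × List ℕ) × ℕ => z.1.2.getD z.2 0 / (kF z.1.1).factorial) :=
      Poly.div (Poly.getD (Poly.snd (Poly.fst Poly.id)) (Poly.snd Poly.id) (Poly.const 0))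
        (upoly_fact (kF_upoly.comp (Poly.fst (Poly.fst Poly.id))))
    exact Poly.div (alt_poly (g := fun (p : CNF ℕ × List ℕ) t =>
      p.2.getD t 0 / (kF p.1).factorial) hq h1) (Poly.mul (upoly_pow2 hq) (upoly_fact hq))
  · intro φ _
    refine ⟨fun _ _ => trivial, ?_⟩
    simp only
    have h1 : alt (qF φ) (fun t => (((List.range (qF φ + 1)).map (fun t =>
        MF φ (tF (φ, t)))).map F).getD t 0 / (kF φ).factorial) =
        2 ^ qF φ * (qF φ).factorial * satCount φ := by
      rw [alt_congr _ _ (fun t => F (MF φ t) / (kF φ).factorial)]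
      · apply alt_eq
        have h2 := sat_eq φ
        push_cast
        push_cast at h2
        exact h2
      · intro t ht
        have htF : tF (φ, t) = t := Nat.min_eq_left ht
        rw [List.map_map, List.getD_eq_getElem _ _ (by simp; omega), List.getElem_map,
          List.getElem_range, Function.comp, htF]
    rw [h1, Nat.mul_div_cancel_left _ (by positivity)]

/-- the 0-1 permanent reduces to matrices with consecutive ones -/
theorem nred_consec : NRed (fun _ : LL => True) F (fun A : LL => ∀ r ∈ A, Consec r) F :=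
  ⟨Pool.Agent.NPC.H549Convex.qs, Pool.Agent.NPC.H549Convex.post,
    Pool.Agent.NPC.H549Convex.qs_poly, Pool.Agent.NPC.H549Convex.post_poly, fun A _ =>
    ⟨Pool.Agent.NPC.H549Convex.qs_consec A,
      Pool.Agent.NPC.H549Convex.post_correct A F (fun _ _ => rfl)⟩⟩

variable {α β : Type} [TEnc α] [TEnc β]

theorem hard_of_nred {S : β → Prop} {f g : β → ℕ}
    (h : NRed (fun _ : CNF ℕ => True) (fun φ => satCount φ) S f) (hg : ∀ b, S b → g b = f b)
    (r : Polynomial ℕ) (hr : ∀ b, (g b).size ≤ r.eval (sz b)) : SharpPHard (strFn g) := by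
  obtain ⟨qs, post, hqs, hpost, hc⟩ := h
  refine sharpPHard_of_satCount qs post hqs hpost (fun φ => ?_) r hr
  obtain ⟨h1, h2⟩ := hc φ trivial
  refine h2.symm.trans ?_
  congr 2
  exact (List.map_congr_left fun b hb => hg b (h1 b hb)).symm

theorem turing_of_nred [TDec α] {h : α → ℕ} {S : β → Prop} {f g : β → ℕ}
    (hred : NRed (fun _ : α => True) h S f) (hg : ∀ b, S b → g b = f b)
    (r : Polynomial ℕ) (hr : ∀ b, (g b).size ≤ r.eval (sz b)) :
    TuringReduces (strFn h) (strFn g) := by
  obtain ⟨qs, post, hqs, hpost, hc⟩ := hred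
  have h1 : Poly (fun x : List Bool => match (decode x : Option α) with
      | none => [] | some A => qs A) := by
    refine (Poly.optCases (o := fun x : List Bool => (decode x : Option α))
      (g := fun _ => []) (h := fun _ A => qs A) poly_decode (Poly.const _)
      (hqs.comp (Poly.snd Poly.id))).congr fun x => ?_
    cases (decode x : Option α) <;> rfl
  have h2 : Poly (fun p : List Bool × List ℕ => match (decode p.1 : Option α) with
      | none => 0 | some A => post (A, p.2)) := by
    have hp : Poly (fun q : (List Bool × List ℕ) × α => (q.2, q.1.2)) :=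
      Poly.pair (Poly.snd Poly.id) (Poly.snd (Poly.fst Poly.id))
    have hp2 := Poly.comp hpost hp
    refine (Poly.optCases (o := fun p : List Bool × List ℕ => (decode p.1 : Option α))
      (g := fun _ => 0) (h := fun p A => post (A, p.2)) (poly_decode.comp (Poly.fst Poly.id))
      (Poly.const _) hp2).congr fun x => ?_
    cases (decode x.1 : Option α) <;> rfl
  refine turingReduces_of_list _ _ h1 h2 (fun x => ?_) r hr
  simp only
  cases hx : (decode x : Option α) with
  | none =>
    have hno : ¬ ∃ A : α, bits A = x := by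
      rintro ⟨A, hA⟩
      have := decode_eq_some.2 hA
      rw [hx] at this
      exact absurd this (by simp)
    rw [strFn_of_not _ hno]
  | some A =>
    have hA : bits A = x := decode_eq_some.1 hx
    rw [← hA, strFn_bits]
    simp only
    obtain ⟨h3, h4⟩ := hc A trivial
    rw [← h4]
    congr 2
    exact (List.map_congr_left fun b hb => hg b (h3 b hb)).symm

theorem poly_of_nred {h : α → ℕ} {S : β → Prop} {f : β → ℕ}
    (hred : NRed (fun _ : α => True) h S f)
    (hf : ∃ g : List Bool → List Bool, PolyTime g ∧ ∀ b, S b → g (bits b) = (f b).bits) :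
    Poly h := by
  obtain ⟨qs, post, hqs, hpost, hc⟩ := hred
  obtain ⟨g, hg, hgF⟩ := hf
  have hid : PC (bits : β → List Bool) (id : List Bool → List Bool) (fun A => bits A) :=
    (PC.id : PC (bits : β → List Bool) bits (fun A => A))
  have h1 : PC (bits : β → List Bool) (id : List Bool → List Bool) (fun A => g (bits A)) :=
    PC.comp (Pool.Agent.H642R2.TMSim.polyTime_toPC hg) hid
  have h2 : PC (bits : β → List Bool) (bits : List Bool → List Bool) (fun A => g (bits A)) :=
    PC.comp (g := fun x : List Bool => x) (f := fun A : β => g (bits A)) PC.ofBits h1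
  have h3 : Poly (fun A : β => valB (g (bits A))) := Poly.valBits h2
  have h4 : Poly (fun A : α => post (A, (qs A).map (fun b => valB (g (bits b))))) := by
    have h5 : Poly (fun A : α => (qs A).map (fun b => valB (g (bits b)))) :=
      Poly.map (F := fun (_ : α) B => valB (g (bits B))) hqs (h3.comp (Poly.snd Poly.id))
    exact hpost.comp (f := fun A : α => (A, (qs A).map (fun b => valB (g (bits b)))))
      (Poly.pair Poly.id h5)
  refine h4.congr fun A => ?_
  obtain ⟨h5, h6⟩ := hc A trivial
  rw [← h6]
  congr 2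
  exact List.map_congr_left fun b hb => by rw [hgF b (h5 b hb), valB_bits]

theorem fp_strFn [TDec α] {h : α → ℕ} (hh : Poly h) : FP (strFn h) := by
  have h6 : Poly (fun x : List Bool => match (decode x : Option α) with
      | none => 0 | some A => h A) := by
    refine (Poly.optCases (o := fun x : List Bool => (decode x : Option α))
      (g := fun _ => 0) (h := fun _ A => h A) poly_decode (Poly.const _)
      (hh.comp (Poly.snd Poly.id))).congr fun x => ?_
    cases (decode x : Option α) <;> rfl
  have h7 : Poly (strFn h) := h6.congr fun x => by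
    cases hx : (decode x : Option α) with
    | none =>
      have hno : ¬ ∃ A : α, bits A = x := by
        rintro ⟨A, hA⟩
        have := decode_eq_some.2 hA
        rw [hx] at this
        exact absurd this (by simp)
      rw [strFn_of_not _ hno]
    | some A =>
      have hA : bits A = x := decode_eq_some.1 hx
      rw [← hA, strFn_bits]
  exact fp_of_poly h7

/-- all of `#P` is easy if a promise problem to which counting satisfying assignments reduces is -/
theorem sharpP_le_of_nred {S : β → Prop} {f : β → ℕ}
    (hred : NRed (fun _ : CNF ℕ => True) (fun φ => satCount φ) S f)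
    (hf : ∃ g : List Bool → List Bool, PolyTime g ∧ ∀ b, S b → g (bits b) = (f b).bits)
    (k : List Bool → ℕ) (hk : SharpP k) : FP k := by
  have h5 := poly_of_nred hred hf
  obtain ⟨V, p, hV, hf⟩ := hk
  obtain ⟨G', hG', hGf⟩ := parsimonious hV p
  have h6 : Poly G' := PC.comp hG' pc_raw
  have h7 : Poly (fun x : List Bool => satCount (G' x)) := h5.comp (f := G') h6
  have h8 : Poly k := h7.congr fun x => by rw [hf x, ← hGf x]
  exact fp_of_poly h8

end Basic

end Pool.Agent.NPC.H549NRed
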