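import Pool.Agent.H549R2.LE5
import Pool.Agent.H549R2.NRed

/-!
# Counting linear extensions of N-free interval orders is `#P`-complete
-/

namespace Pool.Agent.NPC.H549LE

open Pool.Agent.H549R2.Convex Pool.Agent.H549R2.LE Pool.Agent.NPC.Cnt Pool.Agent.NPC.H549NRed
open Pool.Agent.NPC.H549Convex (LL)

theorem nred_lin : NRed (fun A : LL => ∀ r ∈ A, Consec r) F NFree linExt :=
  ⟨qsL, postL, qsL_poly, postL_poly, fun A hA =>
    ⟨fun l hl => qsL_nfree A l hl, postL_correct A hA linExt (fun _ _ => rfl)⟩⟩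

theorem nred_F : NRed (fun _ : LL => True) F NFree linExt := nred_consec.comp nred_lin

theorem nred_satL : NRed (fun _ : CNF ℕ => True) (fun φ => satCount φ) NFree linExt :=
  nred_sat.comp nred_F

section Membership

/-- test of a pair of entries of a certificate -/
def cert1 (x : ((List (ℕ × ℕ) × List ℕ) × ℕ) × ℕ) : Bool :=
  decide (x.1.1.2.getD x.1.2 0 < x.1.1.1.length) &&
    ((decide (x.1.2 = x.2) || !decide (x.1.1.2.getD x.1.2 0 = x.1.1.2.getD x.2 0)) &&
      (!decide ((x.1.1.1.getD x.1.2 (0, 0)).2 < (x.1.1.1.getD x.2 (0, 0)).1) ||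
        decide (x.1.1.2.getD x.1.2 0 < x.1.1.2.getD x.2 0)))

/-- test of a certificate: the list of the positions of all elements -/
def cert (l : List (ℕ × ℕ)) (c : List ℕ) : Bool :=
  decide (c.length = l.length) && (List.range l.length).all (fun i =>
    (List.range l.length).all (fun j => cert1 (((l, c), i), j)))

theorem cert_poly : Poly (fun x : List (ℕ × ℕ) × List ℕ => cert x.1 x.2) := by
  have h0 : Poly (fun x : List (ℕ × ℕ) × List ℕ => decide (x.2.length = x.1.length)) :=
    Poly.decide_eq (Poly.length (Poly.snd Poly.id)) (Poly.length (Poly.fst Poly.id))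
  have hl : Poly (fun x : ((List (ℕ × ℕ) × List ℕ) × ℕ) × ℕ => x.1.1.1) :=
    Poly.fst (Poly.fst (Poly.fst Poly.id))
  have hc : Poly (fun x : ((List (ℕ × ℕ) × List ℕ) × ℕ) × ℕ => x.1.1.2) :=
    Poly.snd (Poly.fst (Poly.fst Poly.id))
  have hi : Poly (fun x : ((List (ℕ × ℕ) × List ℕ) × ℕ) × ℕ => x.1.2) :=
    Poly.snd (Poly.fst Poly.id)
  have hj : Poly (fun x : ((List (ℕ × ℕ) × List ℕ) × ℕ) × ℕ => x.2) := Poly.snd Poly.id
  have c1 : Poly (fun x : ((List (ℕ × ℕ) × List ℕ) × ℕ) × ℕ => x.1.1.2.getD x.1.2 0) :=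
    Poly.getD hc hi (Poly.const 0)
  have c2 : Poly (fun x : ((List (ℕ × ℕ) × List ℕ) × ℕ) × ℕ => x.1.1.2.getD x.2 0) :=
    Poly.getD hc hj (Poly.const 0)
  have l1 : Poly (fun x : ((List (ℕ × ℕ) × List ℕ) × ℕ) × ℕ => x.1.1.1.getD x.1.2 (0, 0)) :=
    Poly.getD hl hi (Poly.const (0, 0))
  have l2 : Poly (fun x : ((List (ℕ × ℕ) × List ℕ) × ℕ) × ℕ => x.1.1.1.getD x.2 (0, 0)) :=
    Poly.getD hl hj (Poly.const (0, 0))
  have h6 : Poly cert1 := Poly.and (Poly.decide_lt c1 (Poly.length hl))
    (Poly.and (Poly.or (Poly.decide_eq hi hj) (Poly.not (Poly.decide_eq c1 c2)))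
      (Poly.or (Poly.not (Poly.decide_lt (Poly.snd l1) (Poly.fst l2))) (Poly.decide_lt c1 c2)))
  have h7 : Poly (fun x : (List (ℕ × ℕ) × List ℕ) × ℕ =>
      (List.range x.1.1.length).all (fun j => cert1 (x, j))) :=
    Poly.all (p := fun (x : (List (ℕ × ℕ) × List ℕ) × ℕ) j => cert1 (x, j))
      (Poly.range_length (Poly.fst (Poly.fst Poly.id))) h6
  exact Poly.and h0 (Poly.all (p := fun (x : List (ℕ × ℕ) × List ℕ) i =>
    (List.range x.1.length).all (fun j => cert1 ((x, i), j)))
    (Poly.range_length (Poly.fst Poly.id)) h7)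

theorem cert_iff (l : List (ℕ × ℕ)) (w : List ℕ) : cert l w = true ↔
    ∃ h : w.length = l.length, ∃ σ : Equiv.Perm (Fin l.length),
      (∀ i : Fin l.length, (σ i).val = w[i.val]) ∧ ∀ i j, Prec l i j → σ i < σ j := by
  rw [cert, Bool.and_eq_true, decide_eq_true_eq, List.all_eq_true]
  constructor
  · rintro ⟨hlen, h⟩
    refine ⟨hlen, ?_⟩
    have hall : ∀ i j : Fin l.length, w[i.val] < l.length ∧
        (i.val = j.val ∨ w[i.val] ≠ w[j.val]) ∧
        (¬ (l[i.val]).2 < (l[j.val]).1 ∨ w[i.val] < w[j.val]) := by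
      intro i j
      have h1 := h i.val (List.mem_range.2 i.2)
      rw [List.all_eq_true] at h1
      have h2 := h1 j.val (List.mem_range.2 j.2)
      simp only [cert1, Bool.and_eq_true, Bool.or_eq_true, decide_eq_true_eq, Bool.not_eq_true',
        decide_eq_false_iff_not] at h2
      rw [List.getD_eq_getElem w _ (by omega), List.getD_eq_getElem w _ (by omega),
        List.getD_eq_getElem l _ i.2, List.getD_eq_getElem l _ j.2] at h2
      exact h2
    have hinj : Function.Injective
        (fun i : Fin l.length => (⟨w[i.val], (hall i i).1⟩ : Fin l.length)) := by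
      intro i j hij
      have hij' : w[i.val] = w[j.val] := congrArg Fin.val hij
      rcases (hall i j).2.1 with h' | h'
      · exact Fin.ext h'
      · exact absurd hij' h'
    refine ⟨Equiv.ofBijective _ (Finite.injective_iff_bijective.1 hinj), fun i => rfl,
      fun i j hij => ?_⟩
    rcases (hall i j).2.2 with h' | h'
    · exact absurd hij h'
    · exact h'
  · rintro ⟨hlen, f, hf1, hf2⟩
    refine ⟨hlen, fun i hi => ?_⟩
    rw [List.mem_range] at hi
    rw [List.all_eq_true]
    intro j hj
    rw [List.mem_range] at hj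
    simp only [cert1, Bool.and_eq_true, Bool.or_eq_true, decide_eq_true_eq, Bool.not_eq_true',
      decide_eq_false_iff_not]
    have h1 : w.getD i 0 = (f ⟨i, hi⟩).val := by
      rw [List.getD_eq_getElem w _ (by omega)]
      exact (hf1 ⟨i, hi⟩).symm
    have h2 : w.getD j 0 = (f ⟨j, hj⟩).val := by
      rw [List.getD_eq_getElem w _ (by omega)]
      exact (hf1 ⟨j, hj⟩).symm
    rw [h1, h2, List.getD_eq_getElem l _ hi, List.getD_eq_getElem l _ hj]
    refine ⟨(f ⟨i, hi⟩).2, ?_, ?_⟩
    · by_cases hij : i = j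
      · exact Or.inl hij
      · refine Or.inr fun h => hij ?_
        have := f.injective (Fin.ext h)
        exact congrArg Fin.val this
    · by_cases hp : (l[i]).2 < (l[j]).1
      · exact Or.inr (hf2 ⟨i, hi⟩ ⟨j, hj⟩ hp)
      · exact Or.inl hp

theorem card_cert (l : List (ℕ × ℕ)) : Nat.card {w : List ℕ // cert l w = true} = linExt l := by
  rw [linExt]
  symm
  refine Nat.card_congr (Equiv.ofBijective
    (fun f => (⟨List.ofFn (fun i => (f.1 i).val), ?_⟩ : {w : List ℕ // cert l w = true})) ⟨?_, ?_⟩)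
  · rw [cert_iff]
    exact ⟨List.length_ofFn, f.1, fun i => by rw [List.getElem_ofFn], f.2⟩
  · intro f g h
    apply Subtype.ext
    have h1 := congrArg Subtype.val h
    simp only at h1
    have h2 := List.ofFn_injective h1
    ext i
    exact congrFun h2 i
  · rintro ⟨w, hc⟩
    obtain ⟨hlen, f, hf1, hf2⟩ := (cert_iff l w).1 hc
    refine ⟨⟨f, hf2⟩, ?_⟩
    apply Subtype.ext
    simp only
    apply List.ext_getElem
    · rw [List.length_ofFn, hlen]
    · intro i h1 h2
      rw [List.getElem_ofFn]
      exact hf1 ⟨i, by omega⟩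

theorem sharpP_lin : SharpP (strFn linExt) := by
  have h := sharpP_typed cert cert_poly
    (Polynomial.X * (Polynomial.C 4 * Polynomial.X + Polynomial.C 2) + Polynomial.C 1) ?_
  · have e : (fun l : List (ℕ × ℕ) => Nat.card {w : List ℕ // cert l w = true}) = linExt :=
      funext card_cert
    rw [e] at h
    exact h
  · intro l w hc
    obtain ⟨hlen, f, hf1, hf2⟩ := (cert_iff l w).1 hc
    have h1 : ∀ a ∈ w, sz a ≤ 4 * l.length + 1 := by
      intro a ha
      obtain ⟨i, hi, rfl⟩ := List.mem_iff_getElem.1 ha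
      have h2 : w[i] < l.length := by
        rw [← hf1 ⟨i, by omega⟩]
        exact (f _).2
      have h3 := sz_nat_le w[i]
      have h4 : (w[i]).size ≤ w[i] := Nat.size_le.2 Nat.lt_two_pow_self
      omega
    have h2 := sz_le_length_mul w _ h1
    have h3 := length_lt_sz l
    simp only [Polynomial.eval_add, Polynomial.eval_mul, Polynomial.eval_X, Polynomial.eval_C]
    have h4 : w.length * (4 * l.length + 1 + 1) ≤ sz l * (4 * sz l + 2) :=
      Nat.mul_le_mul (by omega) (by omega)
    omega

theorem linExt_size (l : List (ℕ × ℕ)) : (linExt l).size ≤ l.length * l.length + 1 := by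
  have h1 : linExt l ≤ l.length ^ l.length := by
    rw [linExt]
    have h2 : Nat.card {σ : Equiv.Perm (Fin l.length) // ∀ i j, Prec l i j → σ i < σ j} ≤
        Nat.card (Equiv.Perm (Fin l.length)) :=
      Nat.card_le_card_of_injective _ Subtype.val_injective
    rw [Nat.card_eq_fintype_card (α := Equiv.Perm (Fin l.length)), Fintype.card_perm,
      Fintype.card_fin] at h2
    exact h2.trans (Nat.factorial_le_pow _)
  have h3 : l.length ^ l.length ≤ (2 ^ l.length) ^ l.length :=
    Nat.pow_le_pow_left (Nat.lt_two_pow_self).le _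
  rw [← pow_mul] at h3
  have h4 : 2 ^ (l.length * l.length) < 2 ^ (l.length * l.length + 1) :=
    Nat.pow_lt_pow_right (by norm_num) (by omega)
  rw [Nat.size_le]
  omega

end Membership

section Main

open Classical in
/-- The number of linear extensions of an `N`-free interval order; other inputs have value `0`. -/
noncomputable def linExtN (l : List (ℕ × ℕ)) : ℕ := if NFree l then linExt l else 0

theorem size_bound (g : List (ℕ × ℕ) → ℕ) (hg : ∀ l, g l = linExt l ∨ g l = 0)
    (l : List (ℕ × ℕ)) :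
    (g l).size ≤ (Polynomial.X * Polynomial.X + Polynomial.C 1 : Polynomial ℕ).eval (sz l) := by
  have h1 : (g l).size ≤ l.length * l.length + 1 := by
    rcases hg l with h | h
    · rw [h]
      exact linExt_size l
    · rw [h]
      simp
  have h2 := length_lt_sz l
  simp only [Polynomial.eval_add, Polynomial.eval_mul, Polynomial.eval_X, Polynomial.eval_C]
  have := Nat.mul_le_mul h2.le h2.le
  omega

theorem linExtN_or (l : List (ℕ × ℕ)) : linExtN l = linExt l ∨ linExtN l = 0 := by
  by_cases hl : NFree l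
  · exact Or.inl (by rw [linExtN, if_pos hl])
  · exact Or.inr (by rw [linExtN, if_neg hl])

theorem linExtN_eq (l : List (ℕ × ℕ)) (hl : NFree l) : linExtN l = linExt l := by
  rw [linExtN, if_pos hl]

theorem hard_lin : SharpPHard (strFn linExt) :=
  hard_of_nred nred_satL (fun _ _ => rfl) _ (size_bound linExt fun _ => Or.inl rfl)

theorem hard_linN : SharpPHard (strFn linExtN) :=
  hard_of_nred nred_satL linExtN_eq _ (size_bound linExtN linExtN_or)

theorem turing_linN : TuringReduces (strFn F) (strFn linExtN) :=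
  turing_of_nred nred_F linExtN_eq _ (size_bound linExtN linExtN_or)

theorem all_easy (h : ∃ g : List Bool → List Bool, PolyTime g ∧
    ∀ l : List (ℕ × ℕ), NFree l → g (bits l) = (linExt l).bits) (f : List Bool → ℕ)
    (hf : SharpP f) : FP f := sharpP_le_of_nred nred_satL h f hf

theorem F_easy (h : ∃ g : List Bool → List Bool, PolyTime g ∧
    ∀ l : List (ℕ × ℕ), NFree l → g (bits l) = (linExt l).bits) : FP (strFn F) :=
  fp_strFn (poly_of_nred nred_F h)

end Main

end Pool.Agent.NPC.H549LE
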