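import Pool.Agent.H549R2.LE6

/-!
# Counting linear extensions of N-free interval orders: membership in `#P` and the main theorem
-/

namespace Pool.Agent.NPC.H549LE

open Pool.Agent.H549R2.Convex Pool.Agent.H549R2.LE Pool.Agent.NPC.Cnt Pool.Agent.NPC.H549NRed
open Pool.Agent.NPC.H549Convex (LL)

/-- test of the order relation -/
def prB (x : (List (ℕ × ℕ) × ℕ) × ℕ) : Bool :=
  decide ((x.1.1.getD x.1.2 (0, 0)).2 < (x.1.1.getD x.2 (0, 0)).1)

/-- test of the cover relation -/
def cvB (x : (List (ℕ × ℕ) × ℕ) × ℕ) : Bool :=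
  prB x && (List.range x.1.1.length).all (fun k =>
    !(prB ((x.1.1, x.1.2), k) && prB ((x.1.1, k), x.2)))

/-- test of one quadruple -/
def qdB (x : (((List (ℕ × ℕ) × ℕ) × ℕ) × ℕ) × ℕ) : Bool :=
  !(cvB ((x.1.1.1.1, x.1.1.1.2), x.1.1.2) && (cvB ((x.1.1.1.1, x.1.2), x.1.1.2) &&
    cvB ((x.1.1.1.1, x.1.2), x.2))) || cvB ((x.1.1.1.1, x.1.1.1.2), x.2)

/-- test of `N`-freeness -/
def nfB (l : List (ℕ × ℕ)) : Bool :=
  l.all (fun p => decide (p.1 ≤ p.2)) && (List.range l.length).all (fun a =>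
    (List.range l.length).all (fun b => (List.range l.length).all (fun c =>
      (List.range l.length).all (fun d => qdB ((((l, a), b), c), d)))))

theorem prB_iff (l : List (ℕ × ℕ)) (i j : Fin l.length) :
    prB ((l, i.val), j.val) = true ↔ Prec l i j := by
  rw [prB, decide_eq_true_eq, Prec]
  simp only
  rw [List.getD_eq_getElem _ _ i.2, List.getD_eq_getElem _ _ j.2, List.get_eq_getElem,
    List.get_eq_getElem]

theorem cvB_iff (l : List (ℕ × ℕ)) (i j : Fin l.length) :
    cvB ((l, i.val), j.val) = true ↔ Cov l i j := by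
  rw [cvB, Bool.and_eq_true, prB_iff, Cov, List.all_eq_true]
  refine and_congr_right fun _ => ⟨fun h k => ?_, fun h k hk => ?_⟩
  · have h1 := h k.val (List.mem_range.2 k.2)
    rw [Bool.not_eq_true', ← Bool.not_eq_true, Bool.and_eq_true, prB_iff, prB_iff] at h1
    exact h1
  · rw [List.mem_range] at hk
    have h1 := h ⟨k, hk⟩
    rw [← prB_iff, ← prB_iff] at h1
    rw [Bool.not_eq_true', ← Bool.not_eq_true, Bool.and_eq_true]
    exact h1

theorem qdB_iff (l : List (ℕ × ℕ)) (a b c d : Fin l.length) :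
    qdB ((((l, a.val), b.val), c.val), d.val) = true ↔
      (Cov l a b → Cov l c b → Cov l c d → Cov l a d) := by
  rw [qdB]
  simp only
  rw [Bool.or_eq_true, Bool.not_eq_true', ← Bool.not_eq_true, Bool.and_eq_true, Bool.and_eq_true,
    cvB_iff, cvB_iff, cvB_iff, cvB_iff]
  tauto

theorem nfB_iff (l : List (ℕ × ℕ)) : nfB l = true ↔ NFree l := by
  rw [nfB, Bool.and_eq_true, NFree, List.all_eq_true]
  refine and_congr (by simp) ⟨fun h a b c d => ?_, fun h => ?_⟩
  · rw [List.all_eq_true] at h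
    have h1 := h a.val (List.mem_range.2 a.2)
    rw [List.all_eq_true] at h1
    have h2 := h1 b.val (List.mem_range.2 b.2)
    rw [List.all_eq_true] at h2
    have h3 := h2 c.val (List.mem_range.2 c.2)
    rw [List.all_eq_true] at h3
    exact (qdB_iff l a b c d).1 (h3 d.val (List.mem_range.2 d.2))
  · rw [List.all_eq_true]
    intro a ha
    rw [List.all_eq_true]
    intro b hb
    rw [List.all_eq_true]
    intro c hc
    rw [List.all_eq_true]
    intro d hd
    rw [List.mem_range] at ha hb hc hd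
    exact (qdB_iff l ⟨a, ha⟩ ⟨b, hb⟩ ⟨c, hc⟩ ⟨d, hd⟩).2 (h _ _ _ _)

theorem prB_poly : Poly prB :=
  Poly.decide_lt
    (Poly.snd (Poly.getD (Poly.fst (Poly.fst Poly.id)) (Poly.snd (Poly.fst Poly.id))
      (Poly.const (0, 0))))
    (Poly.fst (Poly.getD (Poly.fst (Poly.fst Poly.id)) (Poly.snd Poly.id) (Poly.const (0, 0))))

theorem cvB_poly : Poly cvB := by
  refine Poly.and prB_poly ?_
  refine Poly.all (p := fun (x : (List (ℕ × ℕ) × ℕ) × ℕ) k =>
    !(prB ((x.1.1, x.1.2), k) && prB ((x.1.1, k), x.2)))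
    (Poly.range_length (Poly.fst (Poly.fst Poly.id))) ?_
  have hl : Poly (fun z : ((List (ℕ × ℕ) × ℕ) × ℕ) × ℕ => z.1.1.1) :=
    Poly.fst (Poly.fst (Poly.fst Poly.id))
  have hi : Poly (fun z : ((List (ℕ × ℕ) × ℕ) × ℕ) × ℕ => z.1.1.2) :=
    Poly.snd (Poly.fst (Poly.fst Poly.id))
  have hj : Poly (fun z : ((List (ℕ × ℕ) × ℕ) × ℕ) × ℕ => z.1.2) := Poly.snd (Poly.fst Poly.id)
  have hk : Poly (fun z : ((List (ℕ × ℕ) × ℕ) × ℕ) × ℕ => z.2) := Poly.snd Poly.id
  exact Poly.not (Poly.and (prB_poly.comp (Poly.pair (Poly.pair hl hi) hk))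
    (prB_poly.comp (Poly.pair (Poly.pair hl hk) hj)))

theorem qdB_poly : Poly qdB := by
  have hl : Poly (fun z : (((List (ℕ × ℕ) × ℕ) × ℕ) × ℕ) × ℕ => z.1.1.1.1) :=
    Poly.fst (Poly.fst (Poly.fst (Poly.fst Poly.id)))
  have ha : Poly (fun z : (((List (ℕ × ℕ) × ℕ) × ℕ) × ℕ) × ℕ => z.1.1.1.2) :=
    Poly.snd (Poly.fst (Poly.fst (Poly.fst Poly.id)))
  have hb : Poly (fun z : (((List (ℕ × ℕ) × ℕ) × ℕ) × ℕ) × ℕ => z.1.1.2) :=
    Poly.snd (Poly.fst (Poly.fst Poly.id))
  have hc : Poly (fun z : (((List (ℕ × ℕ) × ℕ) × ℕ) × ℕ) × ℕ => z.1.2) :=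
    Poly.snd (Poly.fst Poly.id)
  have hd : Poly (fun z : (((List (ℕ × ℕ) × ℕ) × ℕ) × ℕ) × ℕ => z.2) := Poly.snd Poly.id
  exact Poly.or (Poly.not (Poly.and (cvB_poly.comp (Poly.pair (Poly.pair hl ha) hb))
    (Poly.and (cvB_poly.comp (Poly.pair (Poly.pair hl hc) hb))
      (cvB_poly.comp (Poly.pair (Poly.pair hl hc) hd)))))
    (cvB_poly.comp (Poly.pair (Poly.pair hl ha) hd))

theorem nfB_poly : Poly nfB := by
  have h4 : Poly (fun z : ((List (ℕ × ℕ) × ℕ) × ℕ) × ℕ =>
      (List.range z.1.1.1.length).all (fun d => qdB (z, d))) :=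
    Poly.all (p := fun (z : ((List (ℕ × ℕ) × ℕ) × ℕ) × ℕ) d => qdB (z, d))
      (Poly.range_length (Poly.fst (Poly.fst (Poly.fst Poly.id)))) qdB_poly
  have h3 : Poly (fun z : (List (ℕ × ℕ) × ℕ) × ℕ => (List.range z.1.1.length).all (fun c =>
      (List.range z.1.1.length).all (fun d => qdB ((z, c), d)))) :=
    Poly.all (p := fun (z : (List (ℕ × ℕ) × ℕ) × ℕ) c =>
      (List.range z.1.1.length).all (fun d => qdB ((z, c), d)))
      (Poly.range_length (Poly.fst (Poly.fst Poly.id))) h4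
  have h2 : Poly (fun z : List (ℕ × ℕ) × ℕ => (List.range z.1.length).all (fun b =>
      (List.range z.1.length).all (fun c =>
      (List.range z.1.length).all (fun d => qdB (((z, b), c), d))))) :=
    Poly.all (p := fun (z : List (ℕ × ℕ) × ℕ) b => (List.range z.1.length).all (fun c =>
      (List.range z.1.length).all (fun d => qdB (((z, b), c), d))))
      (Poly.range_length (Poly.fst Poly.id)) h3
  have h1 : Poly (fun l : List (ℕ × ℕ) => (List.range l.length).all (fun a =>
      (List.range l.length).all (fun b => (List.range l.length).all (fun c =>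
      (List.range l.length).all (fun d => qdB ((((l, a), b), c), d)))))) :=
    Poly.all (p := fun (l : List (ℕ × ℕ)) a => (List.range l.length).all (fun b =>
      (List.range l.length).all (fun c =>
      (List.range l.length).all (fun d => qdB ((((l, a), b), c), d)))))
      (Poly.range_length Poly.id) h2
  refine Poly.and ?_ h1
  exact Poly.all (p := fun (_ : List (ℕ × ℕ)) p => decide (p.1 ≤ p.2)) Poly.id
    (Poly.decide_le (Poly.fst (Poly.snd Poly.id)) (Poly.snd (Poly.snd Poly.id)))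

theorem sharpP_linN : SharpP (strFn linExtN) := by
  have h := sharpP_typed (fun l c => nfB l && cert l c)
    (Poly.and (nfB_poly.comp (Poly.fst Poly.id)) cert_poly)
    (Polynomial.X * (Polynomial.C 4 * Polynomial.X + Polynomial.C 2) + Polynomial.C 1) ?_
  · have e : (fun l : List (ℕ × ℕ) => Nat.card {w : List ℕ // (nfB l && cert l w) = true}) =
        linExtN := by
      funext l
      by_cases hl : NFree l
      · rw [linExtN_eq l hl, ← card_cert]
        rw [(nfB_iff l).2 hl]
        simp only [Bool.true_and]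
      · have h1 : nfB l = false := by
          rw [Bool.eq_false_iff]
          exact fun h => hl ((nfB_iff l).1 h)
        rw [linExtN, if_neg hl, h1]
        simp
    rw [e] at h
    exact h
  · intro l w hc
    rw [Bool.and_eq_true] at hc
    obtain ⟨hlen, f, hf1, hf2⟩ := (cert_iff l w).1 hc.2
    have h1 : ∀ a ∈ w, sz a ≤ 4 * l.length + 1 := by
      intro a ha
      obtain ⟨i, hi, rfl⟩ := List.mem_iff_getElem.1 ha
      have h2 : w[i] < l.length := by
        rw [← hf1 ⟨i, by omega⟩]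
        exact (f _).2
      have h3 := sz_nat_le w[i]
      have h4 : (w[i]).size ≤ w[i] := Nat.size_le.2 Nat.lt_two_pow_self
      omega
    have h2 := sz_le_length_mul w _ h1
    have h3 := length_lt_sz l
    simp only [Polynomial.eval_add, Polynomial.eval_mul, Polynomial.eval_X, Polynomial.eval_C]
    have h4 : w.length * (4 * l.length + 1 + 1) ≤ sz l * (4 * sz l + 2) :=
      Nat.mul_le_mul (by omega) (by omega)
    omega

theorem fp_iff : FP (strFn F) ↔ ∃ g : List Bool → List Bool, PolyTime g ∧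
    ∀ l : List (ℕ × ℕ), NFree l → g (bits l) = (linExt l).bits := by
  constructor
  · intro h
    have h1 : ∀ f : List Bool → ℕ, SharpP f → FP f := fun f hf =>
      sharpP_le_of_nred nred_sat ⟨_, h, fun A _ => by rw [strFn_bits]⟩ f hf
    exact ⟨_, h1 _ sharpP_lin, fun l _ => by rw [strFn_bits]⟩
  · exact F_easy

end Pool.Agent.NPC.H549LE
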