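import Pool.Agent.H549R2.Convex3

/-!
# Permanents with a block of all-one columns as coefficients
-/

namespace Pool.Agent.H549R2.PM

open Finset MvPolynomial Pool.Agent.H549R2.Convex

variable {C : Type*} [Fintype C] [DecidableEq C]

theorem coeff_prod_sum {ι : Type*} [Fintype ι] [DecidableEq ι] (t : ι → Finset ℕ)
    (f : ℕ → ℕ →₀ ℕ) (m : ℕ →₀ ℕ) :
    coeff m (∏ c, ∑ k ∈ t c, (monomial (f k) 1 : MvPolynomial ℕ ℤ)) =
      ((Fintype.piFinset t).filter (fun p => ∑ c, f (p c) = m)).card := by
  rw [Finset.prod_univ_sum, coeff_sum, Finset.card_filter]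
  push_cast
  refine Finset.sum_congr rfl fun p _ => ?_
  have : ∏ c, (monomial (f (p c)) 1 : MvPolynomial ℕ ℤ) = monomial (∑ c, f (p c)) 1 := by
    have h := Convex.prod_monomial (univ : Finset ι) (fun c => f (p c)) (fun _ => (1 : ℤ))
    simpa using h
  rw [this, coeff_monomial]

/-- replacing the variable `X 0` by `1` -/
theorem dehom (t : C → Finset ℕ) (ht : ∀ c, 0 ∈ t c) (m : ℕ →₀ ℕ) (hm : m 0 = 0) (K : ℕ)
    (hK : m.degree + K = Fintype.card C) :
    coeff (m + Finsupp.single 0 K) (∏ c, ∑ k ∈ t c, (X k : MvPolynomial ℕ ℤ)) =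
      coeff m (∏ c, (1 + ∑ k ∈ (t c).erase 0, (X k : MvPolynomial ℕ ℤ))) := by
  classical
  have h1 : ∀ c, ∑ k ∈ t c, (X k : MvPolynomial ℕ ℤ) =
      ∑ k ∈ t c, (monomial (Finsupp.single k 1) 1 : MvPolynomial ℕ ℤ) := fun c => rfl
  have h2 : ∀ c, (1 + ∑ k ∈ (t c).erase 0, (X k : MvPolynomial ℕ ℤ)) =
      ∑ k ∈ t c, (monomial (if k = 0 then 0 else Finsupp.single k 1) 1 : MvPolynomial ℕ ℤ) := by
    intro c
    rw [← Finset.add_sum_erase _ _ (ht c)]
    congr 1
    refine Finset.sum_congr rfl fun k hk => ?_
    rw [if_neg (mem_erase.1 hk).1]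
    rfl
  simp_rw [h1, h2]
  rw [coeff_prod_sum t (fun k => Finsupp.single k 1),
    coeff_prod_sum t (fun k => if k = 0 then 0 else Finsupp.single k 1)]
  congr 2
  refine Finset.filter_congr fun p _ => ?_
  -- compare coordinates
  have ha : ∀ k : ℕ, (∑ c, Finsupp.single (p c) 1 : ℕ →₀ ℕ) k =
      (univ.filter (fun c => p c = k)).card := by
    intro k
    rw [Finsupp.finsetSum_apply, Finset.card_filter]
    refine Finset.sum_congr rfl fun c _ => ?_
    rw [Finsupp.single_apply]
  have hb : ∀ k : ℕ, (∑ c, (if p c = 0 then 0 else Finsupp.single (p c) 1) : ℕ →₀ ℕ) k =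
      if k = 0 then 0 else (univ.filter (fun c => p c = k)).card := by
    intro k
    rw [Finsupp.finsetSum_apply]
    by_cases hk : k = 0
    · rw [if_pos hk]
      refine Finset.sum_eq_zero fun c _ => ?_
      by_cases h : p c = 0
      · rw [if_pos h]; rfl
      · rw [if_neg h, Finsupp.single_apply, if_neg (by rw [hk]; exact h)]
    · rw [if_neg hk, Finset.card_filter]
      refine Finset.sum_congr rfl fun c _ => ?_
      by_cases h : p c = 0
      · rw [if_pos h, if_neg (by rw [h]; exact fun h' => hk h'.symm)]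
        rfl
      · rw [if_neg h, Finsupp.single_apply]
  constructor
  · intro h
    ext k
    rw [hb]
    have hk := DFunLike.congr_fun h k
    rw [ha, Finsupp.add_apply, Finsupp.single_apply] at hk
    by_cases hk0 : k = 0
    · rw [if_pos hk0, hk0, hm]
    · rw [if_neg hk0, hk, if_neg (fun h' => hk0 h'.symm), add_zero]
  · intro h
    have hdeg : (∑ c, (if p c = 0 then 0 else Finsupp.single (p c) 1) : ℕ →₀ ℕ).degree =
        (univ.filter (fun c => p c ≠ 0)).card := by
      rw [map_sum, Finset.card_filter]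
      refine Finset.sum_congr rfl fun c _ => ?_
      by_cases h : p c = 0
      · simp [h]
      · simp [h]
    have hzero : (univ.filter (fun c => p c = 0)).card + (univ.filter (fun c => p c ≠ 0)).card =
        Fintype.card C := by
      rw [Finset.card_filter_add_card_filter_not, card_univ]
    ext k
    rw [ha, Finsupp.add_apply, Finsupp.single_apply]
    have hk := DFunLike.congr_fun h k
    rw [hb] at hk
    by_cases hk0 : k = 0
    · subst hk0
      rw [if_pos rfl, hm, zero_add]
      rw [h] at hdeg
      omega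
    · rw [if_neg hk0] at hk
      rw [if_neg (fun h' => hk0 h'.symm), add_zero, hk]

/-- **Permanents with a block of all-one columns.** -/
theorem card_perm_block (S : C → Finset ℕ) (hS : ∀ c, 0 ∉ S c) (τ : C → ℕ)
    (hτ : ∀ c c', τ c = τ c' → τ c ≠ 0 → c = c') :
    ((univ.filter (fun e : Equiv.Perm C => ∀ c, τ (e c) = 0 ∨ τ (e c) ∈ S c)).card : ℤ) =
      ((univ.filter (fun c => τ c = 0)).card.factorial : ℤ) *
        coeff (∑ c ∈ univ.filter (fun c => τ c ≠ 0), Finsupp.single (τ c) 1)
          (∏ c, (1 + ∑ k ∈ S c, (X k : MvPolynomial ℕ ℤ))) := by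
  classical
  have h0 := card_perm_eq_coeff (fun c => insert 0 (S c)) τ
  have hlhs : (univ.filter (fun e : Equiv.Perm C => ∀ c, τ (e c) ∈ insert 0 (S c))) =
      univ.filter (fun e : Equiv.Perm C => ∀ c, τ (e c) = 0 ∨ τ (e c) ∈ S c) := by
    refine Finset.filter_congr fun e _ => ?_
    simp only [mem_insert]
  rw [hlhs] at h0
  rw [h0]
  congr 1
  · -- factorials
    by_cases hz : (univ.filter (fun c => τ c = 0)).Nonempty
    · obtain ⟨c0, hc0⟩ := hz
      rw [mem_filter] at hc0
      have hmem : (0 : ℕ) ∈ univ.image τ := by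
        rw [mem_image]
        exact ⟨c0, mem_univ _, hc0.2⟩
      rw [← Finset.mul_prod_erase _ _ hmem]
      have : ∏ k ∈ (univ.image τ).erase 0, ((Fintype.card {c // τ c = k}).factorial : ℤ) = 1 := by
        refine Finset.prod_eq_one fun k hk => ?_
        rw [mem_erase, mem_image] at hk
        obtain ⟨hk0, c, _, hc⟩ := hk
        have : Fintype.card {c' // τ c' = k} = 1 := by
          rw [Fintype.card_eq_one_iff]
          refine ⟨⟨c, hc⟩, ?_⟩
          rintro ⟨c', hc'⟩
          apply Subtype.ext
          exact (hτ c c' (hc.trans hc'.symm) (by rw [hc]; exact hk0)).symm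
        rw [this]
        simp
      rw [this, mul_one, Fintype.card_subtype]
    · rw [Finset.not_nonempty_iff_eq_empty] at hz
      rw [hz, card_empty]
      simp only [Nat.factorial_zero, Nat.cast_one]
      refine Finset.prod_eq_one fun k hk => ?_
      rw [mem_image] at hk
      obtain ⟨c, _, hc⟩ := hk
      have hk0 : k ≠ 0 := by
        rintro rfl
        have : c ∈ univ.filter (fun c => τ c = 0) := by
          rw [mem_filter]; exact ⟨mem_univ _, hc⟩
        rw [hz] at this
        exact absurd this (Finset.notMem_empty _)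
      have : Fintype.card {c' // τ c' = k} = 1 := by
        rw [Fintype.card_eq_one_iff]
        refine ⟨⟨c, hc⟩, ?_⟩
        rintro ⟨c', hc'⟩
        apply Subtype.ext
        exact (hτ c c' (hc.trans hc'.symm) (by rw [hc]; exact hk0)).symm
      rw [this]
      simp
  · have hsplit : (∑ c, Finsupp.single (τ c) 1 : ℕ →₀ ℕ) =
        ∑ c ∈ univ.filter (fun c => τ c ≠ 0), Finsupp.single (τ c) 1 +
          Finsupp.single 0 (univ.filter (fun c => τ c = 0)).card := by
      rw [← Finset.sum_filter_add_sum_filter_not univ (fun c => τ c ≠ 0)]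
      congr 1
      have : ∀ c ∈ univ.filter (fun c => ¬ τ c ≠ 0), (Finsupp.single (τ c) 1 : ℕ →₀ ℕ) =
          Finsupp.single 0 1 := by
        intro c hc
        rw [mem_filter, not_not] at hc
        rw [hc.2]
      rw [Finset.sum_congr rfl this, Finset.sum_const]
      simp only [not_not]
      rw [Finsupp.smul_single]
      simp
    rw [hsplit, dehom (fun c => insert 0 (S c)) (fun c => mem_insert_self _ _)]
    · congr 1
      refine Finset.prod_congr rfl fun c _ => ?_
      rw [Finset.erase_insert (hS c)]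
    · rw [Finsupp.finsetSum_apply]
      refine Finset.sum_eq_zero fun c hc => ?_
      rw [mem_filter] at hc
      rw [Finsupp.single_apply, if_neg hc.2]
    · rw [map_sum]
      simp only [Finsupp.degree_single, sum_const, smul_eq_mul, mul_one]
      rw [add_comm, Finset.card_filter_add_card_filter_not, card_univ]

end Pool.Agent.H549R2.PM
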