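import Pool.Agent.H549R2.PM9

/-!
# Counting perfect matchings of split interval graphs is `#P`-complete
-/

namespace Pool.Agent.NPC.H549PM

open Pool.Agent.H549R2.Convex Pool.Agent.H549R2.PM Pool.Agent.NPC.Cnt Pool.Agent.NPC.H549Convex

section Reduction

/-- the queries -/
def qs (φ : CNF ℕ) : List (List (ℕ × ℕ)) :=
  (List.range ((qF φ + 1) * (rF φ + 1))).map
    (fun i => qry (MF φ (tF (φ, i / (rF φ + 1)))) (i % (rF φ + 1)))

theorem qs_poly : Poly qs := by
  have hN : UPoly (fun φ : CNF ℕ => (qF φ + 1) * (rF φ + 1)) :=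
    UPoly.mul (UPoly.add qF_upoly (UPoly.const 1)) (UPoly.add rF_upoly (UPoly.const 1))
  refine Poly.map (F := fun (φ : CNF ℕ) i =>
    qry (MF φ (tF (φ, i / (rF φ + 1)))) (i % (rF φ + 1))) hN.range ?_
  have hR : Poly (fun p : CNF ℕ × ℕ => rF p.1 + 1) :=
    Poly.succ (rF_upoly.toPoly.comp (Poly.fst Poly.id))
  have h1 : Poly (fun p : CNF ℕ × ℕ => (p.1, p.2 / (rF p.1 + 1))) :=
    Poly.pair (Poly.fst Poly.id) (Poly.div (Poly.snd Poly.id) hR)
  have h2 : Poly (fun p : CNF ℕ × ℕ => MF p.1 (tF (p.1, p.2 / (rF p.1 + 1)))) :=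
    MF_poly.comp (f := fun p : CNF ℕ × ℕ => (p.1, p.2 / (rF p.1 + 1))) h1
  have h3 : Poly (fun p : CNF ℕ × ℕ => (MF p.1 (tF (p.1, p.2 / (rF p.1 + 1))),
      p.2 % (rF p.1 + 1))) := Poly.pair h2 (Poly.mod (Poly.snd Poly.id) hR)
  exact qry_poly.comp (f := fun p : CNF ℕ × ℕ => (MF p.1 (tF (p.1, p.2 / (rF p.1 + 1))),
      p.2 % (rF p.1 + 1))) h3

/-- the permanent of the matrix number `t` from the answers -/
def inner (p : (CNF ℕ × List ℕ) × ℕ) : ℕ :=
  alt (rF p.1.1) (fun u => p.1.2.getD (p.2 * (rF p.1.1 + 1) + u) 0 /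
    (cen (MF p.1.1 (tF (p.1.1, p.2)))).factorial) / (rF p.1.1).factorial

/-- the final computation -/
def post (p : CNF ℕ × List ℕ) : ℕ :=
  alt (qF p.1) (fun t => inner (p, t) / (kF p.1).factorial) /
    (2 ^ qF p.1 * (qF p.1).factorial)

theorem inner_poly : Poly inner := by
  have hφ : Poly (fun p : (CNF ℕ × List ℕ) × ℕ => p.1.1) := Poly.fst (Poly.fst Poly.id)
  have hR : UPoly (fun p : (CNF ℕ × List ℕ) × ℕ => rF p.1.1) := rF_upoly.comp hφ
  have hφ' : Poly (fun z : ((CNF ℕ × List ℕ) × ℕ) × ℕ => z.1.1.1) :=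
    Poly.fst (Poly.fst (Poly.fst Poly.id))
  have hR' : Poly (fun z : ((CNF ℕ × List ℕ) × ℕ) × ℕ => rF z.1.1.1 + 1) :=
    Poly.succ (rF_upoly.toPoly.comp hφ')
  have ht : Poly (fun z : ((CNF ℕ × List ℕ) × ℕ) × ℕ => z.1.2) := Poly.snd (Poly.fst Poly.id)
  have h1 : Poly (fun z : ((CNF ℕ × List ℕ) × ℕ) × ℕ =>
      z.1.1.2.getD (z.1.2 * (rF z.1.1.1 + 1) + z.2) 0) :=
    Poly.getD (Poly.snd (Poly.fst (Poly.fst Poly.id)))
      (Poly.add (Poly.mul ht hR') (Poly.snd Poly.id)) (Poly.const 0)
  have h2 : Poly (fun z : ((CNF ℕ × List ℕ) × ℕ) × ℕ => MF z.1.1.1 (tF (z.1.1.1, z.1.2))) :=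
    MF_poly.comp (f := fun z : ((CNF ℕ × List ℕ) × ℕ) × ℕ => (z.1.1.1, z.1.2))
      (Poly.pair hφ' ht)
  have h3 : UPoly (fun z : ((CNF ℕ × List ℕ) × ℕ) × ℕ =>
      cen (MF z.1.1.1 (tF (z.1.1.1, z.1.2)))) :=
    cen_upoly.comp (f := fun z : ((CNF ℕ × List ℕ) × ℕ) × ℕ => MF z.1.1.1 (tF (z.1.1.1, z.1.2))) h2
  have h4 : Poly (fun z : ((CNF ℕ × List ℕ) × ℕ) × ℕ =>
      z.1.1.2.getD (z.1.2 * (rF z.1.1.1 + 1) + z.2) 0 /
        (cen (MF z.1.1.1 (tF (z.1.1.1, z.1.2)))).factorial) := Poly.div h1 (upoly_fact h3)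
  exact Poly.div (alt_poly (g := fun (p : (CNF ℕ × List ℕ) × ℕ) u =>
    p.1.2.getD (p.2 * (rF p.1.1 + 1) + u) 0 /
      (cen (MF p.1.1 (tF (p.1.1, p.2)))).factorial) hR h4) (upoly_fact hR)

theorem post_poly : Poly post := by
  have hq : UPoly (fun p : CNF ℕ × List ℕ => qF p.1) := qF_upoly.comp (Poly.fst Poly.id)
  have h1 : Poly (fun z : (CNF ℕ × List ℕ) × ℕ => inner z / (kF z.1.1).factorial) :=
    Poly.div inner_poly (upoly_fact (kF_upoly.comp (Poly.fst (Poly.fst Poly.id))))
  exact Poly.div (alt_poly (g := fun (p : CNF ℕ × List ℕ) t =>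
    inner (p, t) / (kF p.1).factorial) hq h1) (Poly.mul (upoly_pow2 hq) (upoly_fact hq))

theorem qry_eq (A : LL) (u : ℕ) (hu : u ≤ A.length) :
    qry A u = withPts (ivL A u) (List.range (2 * A.length + cen A)) := by
  have h1 : uF (A, u) = u := Nat.min_eq_left hu
  rw [qry, h1]

theorem pm_qry (A : LL) (u : ℕ) (hu : u ≤ A.length) :
    pm (qry A u) = F (mat (ivL A u) (List.range (2 * A.length + cen A))) := by
  rw [qry_eq A u hu]
  apply pm_withPts
  · rw [ivL, List.length_map, abL_length A u hu, List.length_range]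
  · exact List.nodup_range

theorem split_qry (A : LL) (u : ℕ) : IsSplit (intervalGraph (qry A u)) := by
  rw [qry]
  apply isSplit_withPts _ _ List.nodup_range A.length
  intro r hr
  rw [ivL, List.mem_map] at hr
  obtain ⟨x, _, rfl⟩ := hr
  have : 1 ≤ cen A := by rw [cen]; omega
  simp only [iv]
  constructor <;> omega

/-- **Correctness of the reduction.** -/
theorem post_correct (φ : CNF ℕ) (g : List (ℕ × ℕ) → ℕ)
    (hg : ∀ l, IsSplit (intervalGraph l) → g l = pm l) : post (φ, (qs φ).map g) = satCount φ := by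
  have htF : ∀ t ≤ qF φ, tF (φ, t) = t := fun t ht => Nat.min_eq_left ht
  have hinner : ∀ t ≤ qF φ, inner ((φ, (qs φ).map g), t) = F (MF φ t) := by
    intro t ht
    have hlen : (MF φ t).length = rF φ := MF_length φ t ht
    rw [inner]
    simp only
    rw [htF t ht]
    have h1 : alt (rF φ) (fun u => ((qs φ).map g).getD (t * (rF φ + 1) + u) 0 /
        (cen (MF φ t)).factorial) = (rF φ).factorial * F (MF φ t) := by
      rw [alt_congr _ _ (fun u => F (mat (ivL (MF φ t) u)
        (List.range (2 * (MF φ t).length + cen (MF φ t)))) / (cen (MF φ t)).factorial)]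
      · apply alt_eq
        have h2 := perm_from_iv (MF φ t) (MF_square φ t ht)
        rw [hlen] at h2 ⊢
        push_cast
        push_cast at h2
        exact h2
      · intro u hu
        have hidx : t * (rF φ + 1) + u < (qF φ + 1) * (rF φ + 1) := by
          have := Nat.mul_le_mul_right (rF φ + 1) ht
          have e : (qF φ + 1) * (rF φ + 1) = qF φ * (rF φ + 1) + (rF φ + 1) := by ring
          omega
        have hlq : t * (rF φ + 1) + u < ((qs φ).map g).length := by
          simp only [qs, List.length_map, List.length_range]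
          exact hidx
        rw [List.getD_eq_getElem _ _ hlq, List.getElem_map]
        have h3 : (qs φ)[t * (rF φ + 1) + u]'(by simpa using hlq) = qry (MF φ t) u := by
          simp only [qs, List.getElem_map, List.getElem_range]
          have e1 : (t * (rF φ + 1) + u) / (rF φ + 1) = t := by
            rw [mul_comm, Nat.mul_add_div (by omega), Nat.div_eq_of_lt (by omega), add_zero]
          have e2 : (t * (rF φ + 1) + u) % (rF φ + 1) = u := by
            rw [mul_comm, Nat.mul_add_mod, Nat.mod_eq_of_lt (by omega)]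
          rw [e1, e2, htF t ht]
        rw [h3, hg _ (split_qry _ _), pm_qry _ _ (by omega)]
    rw [h1, Nat.mul_div_cancel_left _ (Nat.factorial_pos _)]
  have h1 : alt (qF φ) (fun t => inner ((φ, (qs φ).map g), t) / (kF φ).factorial) =
      2 ^ qF φ * (qF φ).factorial * satCount φ := by
    rw [alt_congr _ _ (fun t => F (MF φ t) / (kF φ).factorial)]
    · apply alt_eq
      have h2 := sat_eq φ
      push_cast
      push_cast at h2
      exact h2
    · intro t ht
      rw [hinner t ht]
  rw [post]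
  simp only
  rw [h1, Nat.mul_div_cancel_left _ (by positivity)]

end Reduction

section Membership

/-- test for intersecting intervals -/
def meetB (p q : ℕ × ℕ) : Bool := decide (max p.1 q.1 ≤ min p.2 q.2)

theorem meetB_iff (p q : ℕ × ℕ) : meetB p q = true ↔
    ∃ t : ℕ, (p.1 ≤ t ∧ t ≤ p.2) ∧ (q.1 ≤ t ∧ t ≤ q.2) := by
  rw [meetB, decide_eq_true_eq]
  constructor
  · intro h
    exact ⟨max p.1 q.1, by omega⟩
  · rintro ⟨t, h1, h2⟩
    omega

/-- test of one entry of a certificate -/
def cert1 (x : (List (ℕ × ℕ) × List ℕ) × ℕ) : Bool :=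
  decide (x.1.2.getD x.2 0 < x.1.1.length) && (decide (x.1.2.getD (x.1.2.getD x.2 0) 0 = x.2) &&
    (!decide (x.1.2.getD x.2 0 = x.2) &&
      meetB (x.1.1.getD x.2 (0, 0)) (x.1.1.getD (x.1.2.getD x.2 0) (0, 0))))

/-- test of a certificate: the list of the partners of all vertices -/
def cert (l : List (ℕ × ℕ)) (c : List ℕ) : Bool :=
  decide (c.length = l.length) && (List.range l.length).all (fun i => cert1 ((l, c), i))

theorem cert_poly : Poly (fun x : List (ℕ × ℕ) × List ℕ => cert x.1 x.2) := by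
  have h0 : Poly (fun x : List (ℕ × ℕ) × List ℕ => decide (x.2.length = x.1.length)) :=
    Poly.decide_eq (Poly.length (Poly.snd Poly.id)) (Poly.length (Poly.fst Poly.id))
  have hl : Poly (fun x : (List (ℕ × ℕ) × List ℕ) × ℕ => x.1.1) := Poly.fst (Poly.fst Poly.id)
  have hc : Poly (fun x : (List (ℕ × ℕ) × List ℕ) × ℕ => x.1.2) := Poly.snd (Poly.fst Poly.id)
  have hi : Poly (fun x : (List (ℕ × ℕ) × List ℕ) × ℕ => x.2) := Poly.snd Poly.id
  have h1 : Poly (fun x : (List (ℕ × ℕ) × List ℕ) × ℕ => x.1.2.getD x.2 0) :=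
    Poly.getD hc hi (Poly.const 0)
  have h2 : Poly (fun x : (List (ℕ × ℕ) × List ℕ) × ℕ => x.1.2.getD (x.1.2.getD x.2 0) 0) :=
    Poly.getD hc h1 (Poly.const 0)
  have h3 : Poly (fun x : (List (ℕ × ℕ) × List ℕ) × ℕ => x.1.1.getD x.2 (0, 0)) :=
    Poly.getD hl hi (Poly.const (0, 0))
  have h4 : Poly (fun x : (List (ℕ × ℕ) × List ℕ) × ℕ => x.1.1.getD (x.1.2.getD x.2 0) (0, 0)) :=
    Poly.getD hl h1 (Poly.const (0, 0))
  have h5 : Poly (fun x : (List (ℕ × ℕ) × List ℕ) × ℕ => meetB (x.1.1.getD x.2 (0, 0))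
      (x.1.1.getD (x.1.2.getD x.2 0) (0, 0))) :=
    Poly.decide_le (Poly.max (Poly.fst h3) (Poly.fst h4)) (Poly.min (Poly.snd h3) (Poly.snd h4))
  have h6 : Poly cert1 := Poly.and (Poly.decide_lt h1 (Poly.length hl))
    (Poly.and (Poly.decide_eq h2 hi) (Poly.and (Poly.not (Poly.decide_eq h1 hi)) h5))
  exact Poly.and h0 (Poly.all (p := fun (x : List (ℕ × ℕ) × List ℕ) i => cert1 (x, i))
    (Poly.range_length (Poly.fst Poly.id)) h6)

theorem cert_iff (l : List (ℕ × ℕ)) (w : List ℕ) : cert l w = true ↔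
    ∃ h : w.length = l.length, ∃ f : Fin l.length → Fin l.length,
      (∀ i : Fin l.length, (f i).val = w[i.val]) ∧ (∀ i, f (f i) = i) ∧
        ∀ i, (intervalGraph l).Adj i (f i) := by
  rw [cert, Bool.and_eq_true, decide_eq_true_eq, List.all_eq_true]
  constructor
  · rintro ⟨hlen, h⟩
    refine ⟨hlen, ?_⟩
    have hall : ∀ i : Fin l.length, w[i.val] < l.length ∧ w.getD w[i.val] 0 = i.val ∧
        w[i.val] ≠ i.val ∧ meetB l[i.val] (l.getD w[i.val] (0, 0)) = true := by
      intro i
      have h1 := h i.val (List.mem_range.2 i.2)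
      simp only [cert1, Bool.and_eq_true, decide_eq_true_eq, Bool.not_eq_true',
        decide_eq_false_iff_not] at h1
      rw [List.getD_eq_getElem w _ (by omega), List.getD_eq_getElem l _ i.2] at h1
      exact h1
    refine ⟨fun i => ⟨w[i.val], (hall i).1⟩, fun i => rfl, fun i => ?_, fun i => ?_⟩
    · apply Fin.ext
      simp only
      have h2 := (hall i).2.1
      rw [List.getD_eq_getElem w _ (by have := (hall i).1; omega)] at h2
      exact h2
    · refine ⟨fun h' => (hall i).2.2.1 (Fin.ext_iff.1 h').symm, ?_⟩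
      have h2 := (hall i).2.2.2
      rw [List.getD_eq_getElem l _ (hall i).1, meetB_iff] at h2
      exact h2
  · rintro ⟨hlen, f, hf1, hf2, hf3⟩
    refine ⟨hlen, fun i hi => ?_⟩
    rw [List.mem_range] at hi
    simp only [cert1, Bool.and_eq_true, decide_eq_true_eq, Bool.not_eq_true',
      decide_eq_false_iff_not]
    have h1 : w.getD i 0 = (f ⟨i, hi⟩).val := by
      rw [List.getD_eq_getElem w _ (by omega)]
      exact (hf1 ⟨i, hi⟩).symm
    rw [h1]
    refine ⟨(f ⟨i, hi⟩).2, ?_, ?_, ?_⟩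
    · rw [List.getD_eq_getElem w _ (by rw [hlen]; exact (f ⟨i, hi⟩).2), ← hf1 (f ⟨i, hi⟩), hf2]
    · intro h'
      exact (hf3 ⟨i, hi⟩).1 (Fin.ext h').symm
    · rw [List.getD_eq_getElem l _ hi, List.getD_eq_getElem l _ (f ⟨i, hi⟩).2, meetB_iff]
      exact (hf3 ⟨i, hi⟩).2

theorem card_cert (l : List (ℕ × ℕ)) : Nat.card {w : List ℕ // cert l w = true} = pm l := by
  rw [pm, card_pm]
  symm
  refine Nat.card_congr (Equiv.ofBijective
    (fun f => (⟨List.ofFn (fun i => (f.1 i).val), ?_⟩ : {w : List ℕ // cert l w = true})) ⟨?_, ?_⟩)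
  · rw [cert_iff]
    exact ⟨List.length_ofFn, f.1, fun i => by rw [List.getElem_ofFn], f.2⟩
  · intro f g h
    apply Subtype.ext
    have h1 := congrArg Subtype.val h
    simp only at h1
    have h2 := List.ofFn_injective h1
    funext i
    exact Fin.ext (congrFun h2 i)
  · rintro ⟨w, hc⟩
    obtain ⟨hlen, f, hf1, hf2⟩ := (cert_iff l w).1 hc
    refine ⟨⟨f, hf2⟩, ?_⟩
    apply Subtype.ext
    simp only
    apply List.ext_getElem
    · rw [List.length_ofFn, hlen]
    · intro i h1 h2
      rw [List.getElem_ofFn]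
      exact hf1 ⟨i, by omega⟩

theorem sharpP_pm : SharpP (strFn pm) := by
  have h := sharpP_typed cert cert_poly
    (Polynomial.X * (Polynomial.C 4 * Polynomial.X + Polynomial.C 2) + Polynomial.C 1) ?_
  · have e : (fun l : List (ℕ × ℕ) => Nat.card {w : List ℕ // cert l w = true}) = pm :=
      funext card_cert
    rw [e] at h
    exact h
  · intro l w hc
    obtain ⟨hlen, f, hf1, hf2⟩ := (cert_iff l w).1 hc
    have h1 : ∀ a ∈ w, sz a ≤ 4 * l.length + 1 := by
      intro a ha
      obtain ⟨i, hi, rfl⟩ := List.mem_iff_getElem.1 ha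
      have h2 : w[i] < l.length := by
        rw [← hf1 ⟨i, by omega⟩]
        exact (f _).2
      have h3 := sz_nat_le w[i]
      have h4 : (w[i]).size ≤ w[i] := Nat.size_le.2 Nat.lt_two_pow_self
      omega
    have h2 := sz_le_length_mul w _ h1
    have h3 := length_lt_sz l
    simp only [Polynomial.eval_add, Polynomial.eval_mul, Polynomial.eval_X, Polynomial.eval_C]
    have h4 : w.length * (4 * l.length + 1 + 1) ≤ sz l * (4 * sz l + 2) :=
      Nat.mul_le_mul (by omega) (by omega)
    omega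

theorem pm_size (l : List (ℕ × ℕ)) : (pm l).size ≤ l.length * l.length + 1 := by
  have h1 : pm l ≤ l.length ^ l.length := by
    rw [pm, card_pm]
    have h2 : Nat.card {f : Fin l.length → Fin l.length // (∀ i, f (f i) = i) ∧
        ∀ i, (intervalGraph l).Adj i (f i)} ≤ Nat.card (Fin l.length → Fin l.length) :=
      Nat.card_le_card_of_injective _ Subtype.val_injective
    rw [Nat.card_eq_fintype_card (α := Fin l.length → Fin l.length), Fintype.card_fun,
      Fintype.card_fin] at h2
    exact h2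
  have h3 : l.length ^ l.length ≤ (2 ^ l.length) ^ l.length :=
    Nat.pow_le_pow_left (Nat.lt_two_pow_self).le _
  rw [← pow_mul] at h3
  have h4 : 2 ^ (l.length * l.length) < 2 ^ (l.length * l.length + 1) :=
    Nat.pow_lt_pow_right (by norm_num) (by omega)
  rw [Nat.size_le]
  omega

end Membership

section Main

open Classical in
/-- The number of perfect matchings of an interval graph that is also a split graph; other
inputs have value `0`. -/
noncomputable def pmSplit (l : List (ℕ × ℕ)) : ℕ :=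
  if IsSplit (intervalGraph l) then pm l else 0

theorem size_bound (g : List (ℕ × ℕ) → ℕ) (hg : ∀ l, g l = pm l ∨ g l = 0) (l : List (ℕ × ℕ)) :
    (g l).size ≤ (Polynomial.X * Polynomial.X + Polynomial.C 1 : Polynomial ℕ).eval (sz l) := by
  have h1 : (g l).size ≤ l.length * l.length + 1 := by
    rcases hg l with h | h
    · rw [h]
      exact pm_size l
    · rw [h]
      simp
  have h2 := length_lt_sz l
  simp only [Polynomial.eval_add, Polynomial.eval_mul, Polynomial.eval_X, Polynomial.eval_C]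
  have := Nat.mul_le_mul h2.le h2.le
  omega

theorem hard_of (g : List (ℕ × ℕ) → ℕ) (hg : ∀ l, IsSplit (intervalGraph l) → g l = pm l)
    (hg' : ∀ l, g l = pm l ∨ g l = 0) : SharpPHard (strFn g) :=
  sharpPHard_of_satCount qs post qs_poly post_poly (fun φ => (post_correct φ g hg).symm) _
    (size_bound g hg')

theorem hard_pm : SharpPHard (strFn pm) := hard_of pm (fun _ _ => rfl) (fun _ => Or.inl rfl)

theorem hard_pmSplit : SharpPHard (strFn pmSplit) := by
  refine hard_of pmSplit (fun l hl => ?_) (fun l => ?_)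
  · rw [pmSplit, if_pos hl]
  · by_cases hl : IsSplit (intervalGraph l)
    · exact Or.inl (by rw [pmSplit, if_pos hl])
    · exact Or.inr (by rw [pmSplit, if_neg hl])

theorem fp_iff_split : (∀ f : List Bool → ℕ, SharpP f → FP f) ↔
    ∃ g : List Bool → List Bool, PolyTime g ∧
      ∀ l : List (ℕ × ℕ), IsSplit (intervalGraph l) → g (bits l) = (pm l).bits := by
  constructor
  · intro h
    exact ⟨_, h _ sharpP_pm, fun l _ => by rw [strFn_bits]⟩
  · rintro ⟨g, hg, hgF⟩ f hf
    have hid : PC (bits : List (ℕ × ℕ) → List Bool) (id : List Bool → List Bool)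
        (fun l => bits l) :=
      (PC.id : PC (bits : List (ℕ × ℕ) → List Bool) bits (fun l => l))
    have h1 : PC (bits : List (ℕ × ℕ) → List Bool) (id : List Bool → List Bool)
        (fun l => g (bits l)) :=
      PC.comp (Pool.Agent.H642R2.TMSim.polyTime_toPC hg) hid
    have h2 : PC (bits : List (ℕ × ℕ) → List Bool) (bits : List Bool → List Bool)
        (fun l => g (bits l)) :=
      PC.comp (g := fun x : List Bool => x) (f := fun l : List (ℕ × ℕ) => g (bits l)) PC.ofBits h1
    have h3 : Poly (fun l : List (ℕ × ℕ) => valB (g (bits l))) := Poly.valBits h2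
    set G : List (ℕ × ℕ) → ℕ := fun l => valB (g (bits l)) with hG
    have hGF : ∀ l, IsSplit (intervalGraph l) → G l = pm l := by
      intro l hl
      rw [hG]
      simp only
      rw [hgF l hl, valB_bits]
    have h4 : Poly (fun φ : CNF ℕ => post (φ, (qs φ).map G)) := by
      have h5 : Poly (fun φ : CNF ℕ => (qs φ).map G) :=
        Poly.map (F := fun (_ : CNF ℕ) B => G B) qs_poly (h3.comp (Poly.snd Poly.id))
      exact post_poly.comp (f := fun φ : CNF ℕ => (φ, (qs φ).map G)) (Poly.pair Poly.id h5)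
    have h5 : Poly (fun φ : CNF ℕ => satCount φ) := h4.congr fun φ => post_correct φ G hGF
    obtain ⟨V, p, hV, hf⟩ := hf
    obtain ⟨G', hG', hGf⟩ := parsimonious hV p
    have h6 : Poly G' := PC.comp hG' pc_raw
    have h7 : Poly (fun x : List Bool => satCount (G' x)) := h5.comp (f := G') h6
    have h8 : Poly f := h7.congr fun x => by rw [hf x, ← hGf x]
    exact fp_of_poly h8

end Main

end Pool.Agent.NPC.H549PM
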