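import Mathlib

/-!
# Powers of differences of products
-/

namespace Pool.Agent.H549R2.PM

open Finset MvPolynomial

section Order

variable {σ : Type*} {R : Type*} [CommRing R]

/-- all coefficients in degrees below `k` vanish -/
def Ord (k : ℕ) (f : MvPolynomial σ R) : Prop := ∀ m : σ →₀ ℕ, m.degree < k → coeff m f = 0

theorem Ord.zero (f : MvPolynomial σ R) : Ord 0 f := fun _ h => absurd h (Nat.not_lt_zero _)

theorem Ord.mono {k l : ℕ} {f : MvPolynomial σ R} (h : Ord l f) (hkl : k ≤ l) : Ord k f :=
  fun m hm => h m (lt_of_lt_of_le hm hkl)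

theorem Ord.add {k : ℕ} {f g : MvPolynomial σ R} (hf : Ord k f) (hg : Ord k g) : Ord k (f + g) := by
  intro m hm
  rw [coeff_add, hf m hm, hg m hm, add_zero]

theorem Ord.mul {k l : ℕ} {f g : MvPolynomial σ R} (hf : Ord k f) (hg : Ord l g) :
    Ord (k + l) (f * g) := by
  classical
  intro m hm
  rw [coeff_mul]
  refine Finset.sum_eq_zero fun p hp => ?_
  rw [HasAntidiagonal.mem_antidiagonal] at hp
  have hdeg : p.1.degree + p.2.degree = m.degree := by rw [← hp, map_add]
  by_cases h : p.1.degree < k
  · rw [hf _ h, zero_mul]
  · rw [hg _ (by omega), mul_zero]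

theorem Ord.one_of {f : MvPolynomial σ R} (h : constantCoeff f = 0) : Ord 1 f := by
  intro m hm
  have : m = 0 := by
    rw [Nat.lt_one_iff, Finsupp.degree_eq_zero_iff] at hm
    exact hm
  rw [this]
  exact h

theorem Ord.const {f : MvPolynomial σ R} {s : ℕ} (hs : 1 ≤ s) (h : Ord s f) :
    constantCoeff f = 0 := by
  have := h 0 (by rw [map_zero]; omega)
  exact this

theorem Ord.pow_sub {s q : ℕ} {f g : MvPolynomial σ R} (hf : Ord s f) (hg : Ord s g)
    (h : Ord (s + 1) (f - g)) : Ord (s * q + 1) (f ^ q - g ^ q) := by
  induction q with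
  | zero => 
    intro m _
    simp
  | succ q ih =>
    have hfq : Ord (s * q) (f ^ q) := by
      clear ih
      induction q with
      | zero => exact Ord.zero _
      | succ q ih =>
        rw [pow_succ, Nat.mul_succ]
        exact ih.mul hf
    have e : f ^ (q + 1) - g ^ (q + 1) = f ^ q * (f - g) + (f ^ q - g ^ q) * g := by ring
    rw [e]
    refine Ord.add ?_ ?_
    · refine (hfq.mul h).mono ?_
      rw [Nat.mul_succ]; omega
    · refine (ih.mul hg).mono ?_
      rw [Nat.mul_succ]; omega

/-- a product of perturbed factors -/
theorem prod_sub {ι : Type*} (s : ℕ) (hs : 1 ≤ s) (κ : R) (N M c : ι → MvPolynomial σ R)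
    (hN : ∀ i, constantCoeff (N i) = 1) (hc : ∀ i, constantCoeff (c i) = κ)
    (hM : ∀ i, Ord s (M i)) (l : List ι) :
    Ord (s + 1) ((l.map fun i => N i + M i * c i).prod - (l.map N).prod -
      C κ * (l.map M).sum) := by
  induction l with
  | nil =>
    intro m _
    simp
  | cons i l ih =>
    simp only [List.map_cons, List.prod_cons, List.sum_cons]
    set A := (l.map fun i => N i + M i * c i).prod with hA
    set B := (l.map N).prod with hB
    set Q := (l.map M).sum with hQ
    have hA0 : constantCoeff A = 1 := by
      rw [hA]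
      clear ih hA hB hQ A B Q
      induction l with
      | nil => simp
      | cons j l ih => 
        simp only [List.map_cons, List.prod_cons]
        rw [map_mul, ih, map_add, map_mul, hN, (hM j).const hs]
        ring
    have hQs : Ord s Q := by
      rw [hQ]
      clear ih hA0 hA hB hQ A B Q
      induction l with
      | nil => intro m _; simp
      | cons j l ih =>
        simp only [List.map_cons, List.sum_cons]
        exact (hM j).add ih
    have e : (N i + M i * c i) * A - N i * B - C κ * (M i + Q) =
        N i * (A - B - C κ * Q) + ((C κ * (N i - 1)) * Q + M i * (c i * A - C κ)) := by ring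
    rw [e]
    refine Ord.add ?_ (Ord.add ?_ ?_)
    · have := (Ord.zero (N i)).mul ih
      rwa [zero_add] at this
    · have h1 : Ord 1 (C κ * (N i - 1)) := by
        apply Ord.one_of
        rw [map_mul, map_sub, hN, map_one, sub_self, mul_zero]
      rw [add_comm s 1]
      exact h1.mul hQs
    · refine (hM i).mul (Ord.one_of ?_)
      rw [map_sub, map_mul, hc, hA0, constantCoeff_C, mul_one, sub_self]

/-- **Powers of differences of products.** -/
theorem coeff_diff_pow {ι : Type*} (s : ℕ) (hs : 1 ≤ s) (κ : R) (N M c : ι → MvPolynomial σ R)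
    (hN : ∀ i, constantCoeff (N i) = 1) (hc : ∀ i, constantCoeff (c i) = κ)
    (hM : ∀ i, Ord s (M i)) (l : List ι) (q : ℕ) (m : σ →₀ ℕ) (hm : m.degree = s * q) :
    coeff m (((l.map fun i => N i + M i * c i).prod - (l.map N).prod) ^ q) =
      κ ^ q * coeff m ((l.map M).sum ^ q) := by
  have h0 := prod_sub s hs κ N M c hN hc hM l
  have hQs : Ord s (l.map M).sum := by
    clear h0
    induction l with
    | nil => intro m _; simp
    | cons j l ih =>
      simp only [List.map_cons, List.sum_cons]
      exact (hM j).add ih
  have hg : Ord s (C κ * (l.map M).sum) := by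
    have := (Ord.zero (C κ : MvPolynomial σ R)).mul hQs
    rwa [zero_add] at this
  have hf : Ord s ((l.map fun i => N i + M i * c i).prod - (l.map N).prod) := by
    have : (l.map fun i => N i + M i * c i).prod - (l.map N).prod =
      ((l.map fun i => N i + M i * c i).prod - (l.map N).prod - C κ * (l.map M).sum) +
        C κ * (l.map M).sum := by ring
    rw [this]
    exact (h0.mono (Nat.le_succ _)).add hg
  have h1 := Ord.pow_sub (q := q) hf hg h0
  have h2 := h1 m (by omega)
  rw [coeff_sub, sub_eq_zero, mul_pow, ← C_pow, coeff_C_mul] at h2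
  exact h2

/-- the binomial formula for the power of a difference -/
theorem diff_pow {R' : Type*} [CommRing R'] (P N : R') (q : ℕ) :
    (P - N) ^ q = ∑ t ∈ range (q + 1), (-1) ^ (q - t) * (q.choose t : R') * (P ^ t * N ^ (q - t)) := by
  rw [sub_eq_add_neg, add_pow]
  refine Finset.sum_congr rfl fun t _ => ?_
  rw [neg_pow N]
  ring

end Order

section Nodes

/-- a polynomial not containing the variables in `F` -/
def Avoids {σ R : Type*} [CommRing R] (F : Set σ) (f : MvPolynomial σ R) : Prop :=
  ∀ m : σ →₀ ℕ, coeff m f ≠ 0 → ∀ a ∈ F, m a = 0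

theorem Avoids.mul {σ R : Type*} [CommRing R] {F : Set σ} {f g : MvPolynomial σ R}
    (hf : Avoids F f) (hg : Avoids F g) : Avoids F (f * g) := by
  classical
  intro m hm a ha
  rw [coeff_mul] at hm
  obtain ⟨p, hp, hne⟩ := Finset.exists_ne_zero_of_sum_ne_zero hm
  rw [HasAntidiagonal.mem_antidiagonal] at hp
  have h1 := hf p.1 (left_ne_zero_of_mul hne) a ha
  have h2 := hg p.2 (right_ne_zero_of_mul hne) a ha
  rw [← hp, Finsupp.add_apply, h1, h2]

theorem Avoids.one {σ R : Type*} [CommRing R] {F : Set σ} : Avoids F (1 : MvPolynomial σ R) := by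
  classical
  intro m hm a _
  rw [coeff_one] at hm
  have : (0 : σ →₀ ℕ) = m := by
    by_contra h
    rw [if_neg h] at hm
    exact hm rfl
  rw [← this]
  rfl

theorem Avoids.prod {σ R ι : Type*} [CommRing R] {F : Set σ} (s : Finset ι)
    (f : ι → MvPolynomial σ R) (h : ∀ i ∈ s, Avoids F (f i)) : Avoids F (∏ i ∈ s, f i) := by
  classical
  induction s using Finset.induction_on with
  | empty => rw [prod_empty]; exact Avoids.one
  | insert i s hi ih =>
    rw [prod_insert hi]
    exact (h i (mem_insert_self _ _)).mul (ih fun j hj => h j (mem_insert_of_mem hj))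

/-- extraction of the node variables from a power -/
theorem coeff_nodes {σ R ν : Type*} [CommRing R] [Fintype ν] [DecidableEq ν]
    (f : ν → σ) (hf : Function.Injective f) (O : ν → MvPolynomial σ R)
    (hO : ∀ i, Avoids (Set.range f) (O i)) (m' : σ →₀ ℕ) (hm' : ∀ i, m' (f i) = 0) :
    coeff ((∑ i, Finsupp.single (f i) 1) + m') ((∑ i, X (f i) * O i) ^ (Fintype.card ν)) =
      ((Fintype.card ν).factorial : R) * coeff m' (∏ i, O i) := by
  classical
  set q := Fintype.card ν with hq
  have hcard : Fintype.card (Fin q) = Fintype.card ν := by rw [Fintype.card_fin]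
  rw [Fintype.sum_pow, coeff_sum]
  have key : ∀ g : Fin q → ν, coeff ((∑ i, Finsupp.single (f i) 1) + m')
      (∏ k, (X (f (g k)) * O (g k))) = if Function.Bijective g then coeff m' (∏ i, O i) else 0 := by
    intro g
    rw [Finset.prod_mul_distrib]
    have h1 : ∏ k, (X (f (g k)) : MvPolynomial σ R) =
        monomial (∑ k, Finsupp.single (f (g k)) 1) 1 := by
      have : ∀ (s : Finset (Fin q)), ∏ k ∈ s, (X (f (g k)) : MvPolynomial σ R) =
          monomial (∑ k ∈ s, Finsupp.single (f (g k)) 1) 1 := by
        intro s
        induction s using Finset.induction_on with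
        | empty => simp
        | insert i s hi ih =>
          rw [prod_insert hi, sum_insert hi, ih, X, monomial_mul, one_mul]
      exact this univ
    rw [h1, coeff_monomial_mul']
    by_cases hg : Function.Bijective g
    · rw [if_pos hg]
      have hs : (∑ k, Finsupp.single (f (g k)) 1 : σ →₀ ℕ) = ∑ i, Finsupp.single (f i) 1 :=
        Function.Bijective.sum_comp hg (fun i => (Finsupp.single (f i) 1 : σ →₀ ℕ))
      have hp : ∏ k, O (g k) = ∏ i, O i := Function.Bijective.prod_comp hg O
      rw [hs, hp, if_pos le_self_add, one_mul, add_tsub_cancel_left]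
    · rw [if_neg hg]
      split_ifs with hle
      · rw [one_mul]
        by_contra hne
        apply hg
        have hav := Avoids.prod (F := Set.range f) univ (fun k => O (g k)) (fun k _ => hO (g k))
          _ hne
        -- every node is hit exactly once
        have hsurj : Function.Surjective g := by
          intro i
          by_contra hi
          push Not at hi
          have h2 := hav (f i) ⟨i, rfl⟩
          rw [Finsupp.tsub_apply, Finsupp.add_apply, hm' i, add_zero, Finsupp.finsetSum_apply,
            Finsupp.finsetSum_apply] at h2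
          have h3 : ∑ j, (Finsupp.single (f j) 1 : σ →₀ ℕ) (f i) = 1 := by
            rw [Finset.sum_eq_single i]
            · simp
            · intro j _ hj
              rw [Finsupp.single_apply, if_neg (fun h => hj (hf h))]
            · intro h; exact absurd (mem_univ _) h
          have h4 : ∑ k, (Finsupp.single (f (g k)) 1 : σ →₀ ℕ) (f i) = 0 := by
            refine Finset.sum_eq_zero fun k _ => ?_
            rw [Finsupp.single_apply, if_neg (fun h => hi k (hf h))]
          rw [h3, h4] at h2
          exact absurd h2 (by norm_num)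
        exact (Fintype.bijective_iff_surjective_and_card g).2 ⟨hsurj, hcard⟩
      · rfl
  simp_rw [key]
  rw [Finset.sum_ite, Finset.sum_const_zero, add_zero, Finset.sum_const, nsmul_eq_mul]
  congr 1
  have h5 : (univ.filter (fun g : Fin q → ν => Function.Bijective g)).card = q.factorial := by
    rw [← Fintype.card_subtype]
    have e : {g : Fin q → ν // Function.Bijective g} ≃ (Fin q ≃ ν) :=
      { toFun := fun g => Equiv.ofBijective g.1 g.2
        invFun := fun e => ⟨e, e.bijective⟩
        left_inv := fun g => by ext; rfl
        right_inv := fun e => by ext; rfl }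
    rw [Fintype.card_congr e, Fintype.card_equiv (Fintype.equivFinOfCardEq rfl).symm]
    rw [Fintype.card_fin]
  rw [h5]

end Nodes

end Pool.Agent.H549R2.PM
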