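import Pool.Agent.H549R2.PM1
import Pool.Agent.H549R2.PM2
import Pool.Agent.H549R2.Convex4

/-!
# The permanent of a 0-1 matrix from permanents of matrices whose rows are intervals with a common
point
-/

namespace Pool.Agent.H549R2.PM

open Finset MvPolynomial Pool.Agent.H549R2.Convex

section Block

/-- the interval of positions coded by the pair `(a, b)` -/
def iv (n C : ℕ) (r : ℕ × ℕ) : ℕ × ℕ := (n - r.1, n + C + r.2 - 1)

/-- the variable of row `i` -/
def lx (n : ℕ) (i : ℕ) : ℕ := n - i

/-- the variable of column `j` -/
def lz (n C : ℕ) (j : ℕ) : ℕ := n + C + j + 1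

/-- the linear form of the pair `(a, b)` -/
noncomputable def lin (n C : ℕ) (r : ℕ × ℕ) : MvPolynomial ℕ ℤ :=
  1 + (∑ i ∈ range r.1, X (lx n i) + ∑ j ∈ range r.2, X (lz n C j))

/-- the exponent vector -/
noncomputable def full (n C : ℕ) : ℕ →₀ ℕ :=
  ∑ i : Fin n, Finsupp.single (lx n i.val) 1 + ∑ j : Fin n, Finsupp.single (lz n C j.val) 1

theorem full_degree (n C : ℕ) : (full n C).degree = 2 * n := by
  rw [full, map_add, map_sum, map_sum]
  simp
  ring

theorem F_block (n C : ℕ) (hC : 1 ≤ C) (L : List (ℕ × ℕ)) (hL : L.length = 2 * n + C)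
    (hab : ∀ r ∈ L, r.1 ≤ n ∧ r.2 ≤ n) :
    (F (mat (L.map (iv n C)) (List.range (2 * n + C))) : ℤ) =
      (C.factorial : ℤ) * coeff (full n C) ((L.map (lin n C)).prod) := by
  classical
  set RS := L.map (iv n C) with hRS
  set CL := List.range (2 * n + C) with hCL
  have hRSl : RS.length = 2 * n + C := by rw [hRS, List.length_map, hL]
  have hCLl : CL.length = 2 * n + C := by rw [hCL, List.length_range]
  have hlen : (mat RS CL).length = 2 * n + C := by simp [mat, hRSl]
  have hsq : ∀ r ∈ mat RS CL, r.length = (mat RS CL).length := by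
    intro r hr
    rw [mat, List.mem_map] at hr
    obtain ⟨x, _, rfl⟩ := hr
    rw [hlen, List.length_map, hCLl]
  rw [F_eq_card' _ hsq _ hlen]
  set τ : Fin (2 * n + C) → ℕ := fun p => if n ≤ p.val ∧ p.val < n + C then 0 else p.val + 1 with hτ
  set S : Fin (2 * n + C) → Finset ℕ := fun c =>
    (range (L.getD c.val (0, 0)).1).image (lx n) ∪ (range (L.getD c.val (0, 0)).2).image (lz n C)
    with hS
  have hLab : ∀ c : Fin (2 * n + C), (L.getD c.val (0, 0)).1 ≤ n ∧ (L.getD c.val (0, 0)).2 ≤ n := by
    intro c
    rw [List.getD_eq_getElem L _ (by rw [hL]; exact c.2)]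
    exact hab _ (List.getElem_mem _)
  have hS0 : ∀ c, 0 ∉ S c := by
    intro c h
    rw [hS, mem_union, mem_image, mem_image] at h
    have := hLab c
    rcases h with ⟨i, hi, h⟩ | ⟨j, _, h⟩
    · rw [mem_range] at hi
      rw [lx] at h
      omega
    · rw [lz] at h; omega
  have hτinj : ∀ c c', τ c = τ c' → τ c ≠ 0 → c = c' := by
    intro c c' h h0
    simp only [hτ] at h h0
    apply Fin.ext
    split_ifs at h h0 with h1 h2 <;> omega
  have hblock := card_perm_block S hS0 τ hτinj
  have hsets : (univ.filter (fun σ : Equiv.Perm (Fin (2 * n + C)) =>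
      ∀ i, ent (mat RS CL) i.val (σ i).val = true)) =
      univ.filter (fun e : Equiv.Perm (Fin (2 * n + C)) =>
        ∀ c, τ (e c) = 0 ∨ τ (e c) ∈ S c) := by
    refine Finset.filter_congr fun σ _ => ?_
    refine forall_congr' fun c => ?_
    rw [ent_mat RS CL c.val (σ c).val (by rw [hRSl]; exact c.2) (by rw [hCLl]; exact (σ c).2)]
    have e1 : CL.getD (σ c).val 0 = (σ c).val := by
      rw [hCL, List.getD_eq_getElem _ _ (by rw [List.length_range]; exact (σ c).2),
        List.getElem_range]
    have e2 : RS.getD c.val (0, 0) = iv n C (L.getD c.val (0, 0)) := by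
      rw [hRS, List.getD_eq_getElem _ _ (by rw [List.length_map, hL]; exact c.2), List.getElem_map,
        List.getD_eq_getElem L _ (by rw [hL]; exact c.2)]
    rw [e1, e2, mem_Icc]
    obtain ⟨ha, hb⟩ := hLab c
    set a := (L.getD c.val (0, 0)).1 with hadef
    set b := (L.getD c.val (0, 0)).2 with hbdef
    have hp := (σ c).2
    set p := (σ c).val with hpdef
    have e3 : τ (σ c) = if n ≤ p ∧ p < n + C then 0 else p + 1 := rfl
    rw [e3, hS]
    simp only [iv, ← hadef, ← hbdef]
    rw [mem_union, mem_image, mem_image]
    constructor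
    · rintro ⟨h1, h2⟩
      split_ifs with h3
      · exact Or.inl rfl
      · right
        by_cases h4 : p < n
        · left
          exact ⟨n - (p + 1), by rw [mem_range]; omega, by rw [lx]; omega⟩
        · right
          exact ⟨p - n - C, by rw [mem_range]; omega, by rw [lz]; omega⟩
    · intro h
      split_ifs at h with h3
      · constructor
        · have := h3.1
          omega
        · have := h3.2
          omega
      · rcases h with h | h | h
        · exact h.elim
        · obtain ⟨i, hi, hi2⟩ := h
          rw [mem_range] at hi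
          rw [lx] at hi2
          constructor <;> omega
        · obtain ⟨i, hi, hi2⟩ := h
          rw [mem_range] at hi
          rw [lz] at hi2
          constructor <;> omega
  rw [hsets]
  refine Eq.trans (Eq.trans ?_ hblock) ?_
  · congr!
  have hcard : (univ.filter (fun c => τ c = 0)).card = C := by
    have : (univ.filter (fun c => τ c = 0)) = (univ : Finset (Fin C)).image
        (fun i => (⟨n + i.val, by omega⟩ : Fin (2 * n + C))) := by
      ext c
      rw [mem_filter, mem_image]
      constructor
      · rintro ⟨_, h⟩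
        simp only [hτ] at h
        split_ifs at h with h1
        exact ⟨⟨c.val - n, by omega⟩, mem_univ _, Fin.ext (by simp only; omega)⟩
      · rintro ⟨i, _, rfl⟩
        refine ⟨mem_univ _, ?_⟩
        simp only [hτ]
        rw [if_pos ⟨by omega, by omega⟩]
    rw [this, card_image_of_injective _ (fun i j h => by
      have := Fin.ext_iff.1 h
      simp only at this
      exact Fin.ext (by omega)), card_univ, Fintype.card_fin]
  have hexp : (∑ c ∈ univ.filter (fun c => τ c ≠ 0), Finsupp.single (τ c) 1 : ℕ →₀ ℕ) = full n C := by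
    have hfil : univ.filter (fun c => τ c ≠ 0) =
        (univ : Finset (Fin n)).image (fun i => (⟨n - 1 - i.val, by omega⟩ : Fin (2 * n + C))) ∪
        (univ : Finset (Fin n)).image (fun j => (⟨n + C + j.val, by omega⟩ : Fin (2 * n + C))) := by
      ext c
      rw [mem_filter, mem_union, mem_image, mem_image]
      have hc := c.2
      constructor
      · rintro ⟨_, h⟩
        simp only [hτ] at h
        split_ifs at h with h1
        · exact absurd rfl h
        · by_cases h4 : c.val < n
          · left
            exact ⟨⟨n - 1 - c.val, by omega⟩, mem_univ _, Fin.ext (by simp only; omega)⟩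
          · right
            exact ⟨⟨c.val - n - C, by omega⟩, mem_univ _, Fin.ext (by simp only; omega)⟩
      · rintro (⟨i, _, rfl⟩ | ⟨i, _, rfl⟩)
        · refine ⟨mem_univ _, ?_⟩
          simp only [hτ]
          have := i.2
          rw [if_neg (by omega)]
          omega
        · refine ⟨mem_univ _, ?_⟩
          simp only [hτ]
          have := i.2
          rw [if_neg (by omega)]
          omega
    rw [hfil, Finset.sum_union, Finset.sum_image, Finset.sum_image, full]
    · congr 1
      · refine Finset.sum_congr rfl fun i _ => ?_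
        congr 1
        simp only [hτ]
        have := i.2
        rw [if_neg (by omega), lx]
        omega
      · refine Finset.sum_congr rfl fun i _ => ?_
        congr 1
        simp only [hτ]
        rw [if_neg (by omega), lz]
    · intro i _ j _ h
      have := Fin.ext_iff.1 h
      simp only at this
      exact Fin.ext (by omega)
    · intro i _ j _ h
      have := Fin.ext_iff.1 h
      simp only at this
      exact Fin.ext (by omega)
    · rw [Finset.disjoint_left]
      intro c h1 h2
      rw [mem_image] at h1 h2
      obtain ⟨i, _, rfl⟩ := h1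
      obtain ⟨j, _, h⟩ := h2
      have := Fin.ext_iff.1 h
      simp only at this
      omega
  have hprod : (∏ c, (1 + ∑ k ∈ S c, (X k : MvPolynomial ℕ ℤ))) = (L.map (lin n C)).prod := by
    rw [← prod_getD L _ hL (lin n C) (0, 0)]
    refine Finset.prod_congr rfl fun c _ => ?_
    rw [lin]
    congr 1
    obtain ⟨ha, hb⟩ := hLab c
    rw [hS]
    simp only
    rw [Finset.sum_union, Finset.sum_image, Finset.sum_image]
    · intro i hi j hj h
      rw [Finset.mem_coe, mem_range] at hi hj
      simp only [lz] at h
      omega
    · intro i hi j hj h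
      rw [Finset.mem_coe, mem_range] at hi hj
      simp only [lx] at h
      omega
    · rw [Finset.disjoint_left]
      intro k h1 h2
      rw [mem_image] at h1 h2
      obtain ⟨i, hi, rfl⟩ := h1
      obtain ⟨j, hj, h⟩ := h2
      simp only [lx, lz] at h
      omega
  rw [hcard, hexp, hprod]

end Block

section Reduction

variable (A : List (List Bool))

/-- the list of the positions of the ones of a square matrix -/
def edg : List (ℕ × ℕ) := (List.range A.length).flatMap fun i =>
  ((List.range A.length).filter (fun j => ent A i j)).map (fun j => (i, j))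

/-- the four pairs belonging to a one -/
def pP (e : ℕ × ℕ) : List (ℕ × ℕ) := [(e.1 + 1, e.2 + 1), (e.1, e.2)]

/-- the four pairs belonging to a one -/
def pN (e : ℕ × ℕ) : List (ℕ × ℕ) := [(e.1, e.2 + 1), (e.1 + 1, e.2)]

/-- the pairs -/
def abL (t : ℕ) : List (ℕ × ℕ) :=
  ((edg A).flatMap fun e => (List.range t).flatMap (fun _ => pP e) ++
    (List.range (A.length - t)).flatMap (fun _ => pN e)) ++
    (List.range (2 * A.length + 1)).map (fun _ => (0, 0))

/-- the number of center columns -/
def cen : ℕ := 2 * (edg A).length * A.length + 1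

/-- the intervals -/
def ivL (t : ℕ) : List (ℕ × ℕ) := (abL A t).map (iv A.length (cen A))

theorem length_const {α β : Type*} (l : List α) (f : α → List β) (k : ℕ)
    (h : ∀ a ∈ l, (f a).length = k) : (l.flatMap f).length = l.length * k := by
  induction l with
  | nil => simp
  | cons a l ih =>
    rw [List.flatMap_cons, List.length_append, ih (fun b hb => h b (List.mem_cons_of_mem _ hb)),
      h a List.mem_cons_self, List.length_cons]
    ring

theorem abL_length (t : ℕ) (ht : t ≤ A.length) : (abL A t).length = 2 * A.length + cen A := by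
  rw [abL, List.length_append, List.length_map, List.length_range,
    length_const _ _ (2 * A.length)]
  · rw [cen]; ring
  · intro e _
    rw [List.length_append, length_const _ _ 2 (fun _ _ => rfl), length_const _ _ 2 (fun _ _ => rfl),
      List.length_range, List.length_range]
    omega

theorem mem_edg (e : ℕ × ℕ) : e ∈ edg A ↔ e.1 < A.length ∧ e.2 < A.length ∧ ent A e.1 e.2 = true := by
  rw [edg, List.mem_flatMap]
  constructor
  · rintro ⟨i, hi, h⟩
    rw [List.mem_map] at h
    obtain ⟨j, hj, rfl⟩ := h
    rw [List.mem_filter, List.mem_range] at hj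
    rw [List.mem_range] at hi
    exact ⟨hi, hj.1, hj.2⟩
  · rintro ⟨h1, h2, h3⟩
    refine ⟨e.1, List.mem_range.2 h1, ?_⟩
    rw [List.mem_map]
    exact ⟨e.2, by rw [List.mem_filter, List.mem_range]; exact ⟨h2, h3⟩, rfl⟩

theorem abL_le (t : ℕ) : ∀ r ∈ abL A t, r.1 ≤ A.length ∧ r.2 ≤ A.length := by
  intro r hr
  rw [abL, List.mem_append, List.mem_flatMap] at hr
  rcases hr with ⟨e, he, h⟩ | h
  · rw [mem_edg] at he
    rw [List.mem_append, List.mem_flatMap, List.mem_flatMap] at h
    rcases h with ⟨_, _, h⟩ | ⟨_, _, h⟩
    · simp only [pP, List.mem_cons, List.not_mem_nil, or_false] at h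
      rcases h with rfl | rfl <;> constructor <;> simp only <;> omega
    · simp only [pN, List.mem_cons, List.not_mem_nil, or_false] at h
      rcases h with rfl | rfl <;> constructor <;> simp only <;> omega
  · rw [List.mem_map] at h
    obtain ⟨_, _, rfl⟩ := h
    constructor <;> simp only <;> omega

/-- the product of a flatMap -/
theorem prod_flatMap {α β M : Type*} [CommMonoid M] (l : List α) (f : α → List β) (g : β → M) :
    ((l.flatMap f).map g).prod = (l.map (fun a => ((f a).map g).prod)).prod := by
  induction l with
  | nil => simp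
  | cons a l ih => rw [List.flatMap_cons, List.map_append, List.prod_append, ih, List.map_cons,
      List.prod_cons]

theorem prod_rep {β M : Type*} [CommMonoid M] (t : ℕ) (l : List β) (g : β → M) :
    (((List.range t).flatMap (fun _ => l)).map g).prod = ((l.map g).prod) ^ t := by
  rw [prod_flatMap]
  simp

theorem prod_map_pow' {β M : Type*} [CommMonoid M] (l : List β) (f : β → M) (t : ℕ) :
    (l.map (fun a => f a ^ t)).prod = (l.map f).prod ^ t := by
  induction l with
  | nil => simp
  | cons a l ih => rw [List.map_cons, List.prod_cons, ih, List.map_cons, List.prod_cons, mul_pow]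

theorem sum_filter_range' {M : Type*} [AddCommMonoid M] (p : ℕ → Bool) (g : ℕ → M) (n : ℕ) :
    (((List.range n).filter p).map g).sum = ∑ i ∈ range n, if p i = true then g i else 0 := by
  induction n with
  | zero => simp
  | succ n ih =>
    rw [List.range_succ, List.filter_append, List.map_append, List.sum_append, ih,
      Finset.sum_range_succ]
    congr 1
    by_cases h : p n = true <;> simp [h]

theorem abL_prod (t : ℕ) : ((abL A t).map (lin A.length (cen A))).prod =
    ((edg A).map (fun e => ((pP e).map (lin A.length (cen A))).prod)).prod ^ t *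
    ((edg A).map (fun e => ((pN e).map (lin A.length (cen A))).prod)).prod ^ (A.length - t) := by
  rw [abL, List.map_append, List.prod_append, prod_flatMap]
  have h1 : (((List.range (2 * A.length + 1)).map (fun _ => ((0 : ℕ), (0 : ℕ)))).map
      (lin A.length (cen A))).prod = 1 := by
    rw [List.map_map]
    apply List.prod_eq_one
    intro x hx
    rw [List.mem_map] at hx
    obtain ⟨_, _, rfl⟩ := hx
    simp [lin]
  rw [h1, mul_one]
  simp only [List.map_append, List.prod_append, prod_rep]
  rw [List.prod_map_mul]
  congr 1
  · exact prod_map_pow' (edg A) (fun e => ((pP e).map (lin A.length (cen A))).prod) t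
  · exact prod_map_pow' (edg A) (fun e => ((pN e).map (lin A.length (cen A))).prod) (A.length - t)

theorem pP_eq (n C : ℕ) (e : ℕ × ℕ) : ((pP e).map (lin n C)).prod =
    ((pN e).map (lin n C)).prod + (X (lx n e.1) * X (lz n C e.2)) * (-1) := by
  simp only [pP, pN, List.map_cons, List.map_nil, List.prod_cons, List.prod_nil, mul_one, lin,
    Finset.sum_range_succ]
  ring

theorem const_lin (n C : ℕ) (r : ℕ × ℕ) : constantCoeff (lin n C r) = 1 := by
  rw [lin, map_add, map_one, map_add, map_sum, map_sum]
  simp

theorem ord_XX (a b : ℕ) : Ord 2 (X a * X b : MvPolynomial ℕ ℤ) := by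
  have h : ∀ a : ℕ, Ord 1 (X a : MvPolynomial ℕ ℤ) := fun a => Ord.one_of (by simp)
  exact (h a).mul (h b)

theorem single_ne {a b : ℕ} (h : a ≠ b) : (Finsupp.single a 1 : ℕ →₀ ℕ) b = 0 := by
  rw [Finsupp.single_apply, if_neg h]

theorem avoids_X {F : Set ℕ} {a : ℕ} (ha : a ∉ F) : Avoids F (X a : MvPolynomial ℕ ℤ) := by
  classical
  intro m hm b hb
  rw [coeff_X] at hm
  have : Finsupp.single a 1 = m := by
    by_contra h
    rw [if_neg h] at hm
    exact hm rfl
  rw [← this]
  exact single_ne (fun h => ha (h ▸ hb))

theorem avoids_sum {ι : Type*} {F : Set ℕ} (s : Finset ι) (f : ι → MvPolynomial ℕ ℤ)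
    (h : ∀ i ∈ s, Avoids F (f i)) : Avoids F (∑ i ∈ s, f i) := by
  intro m hm a ha
  rw [coeff_sum] at hm
  obtain ⟨i, hi, hne⟩ := Finset.exists_ne_zero_of_sum_ne_zero hm
  exact h i hi m hne a ha

/-- the final coefficient -/
theorem coeff_edges (hsq : ∀ r ∈ A, r.length = A.length) (C : ℕ) :
    coeff (full A.length C) (((edg A).map
      (fun e => (X (lx A.length e.1) * X (lz A.length C e.2) : MvPolynomial ℕ ℤ))).sum ^ A.length) =
    (A.length.factorial : ℤ) * (F A : ℤ) := by
  classical
  set n := A.length with hn
  have h1 : ((edg A).map (fun e => (X (lx n e.1) * X (lz n C e.2) : MvPolynomial ℕ ℤ))).sum =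
      ∑ i : Fin n, X (lx n i.val) *
        (∑ j ∈ univ.filter (fun j : Fin n => ent A i.val j.val = true), X (lz n C j.val)) := by
    rw [edg, sum_flatMap_range]
    rw [Finset.sum_range]
    refine Finset.sum_congr rfl fun i _ => ?_
    rw [List.map_map]
    have h2 := sum_filter_range' (fun j => ent A i.val j)
      (fun j => (X (lx n i.val) * X (lz n C j) : MvPolynomial ℕ ℤ)) n
    rw [Finset.mul_sum, Finset.sum_filter]
    refine Eq.trans h2 ?_
    rw [Finset.sum_range]
  rw [h1]
  have hf : Function.Injective (fun i : Fin n => lx n i.val) := by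
    intro i j h
    simp only [lx] at h
    exact Fin.ext (by omega)
  have hnot : ∀ j : Fin n, lz n C j.val ∉ Set.range (fun i : Fin n => lx n i.val) := by
    rintro j ⟨i, hi⟩
    simp only [lx, lz] at hi
    omega
  have h3 := coeff_nodes (R := ℤ) (fun i : Fin n => lx n i.val) hf
    (fun i => ∑ j ∈ univ.filter (fun j : Fin n => ent A i.val j.val = true), X (lz n C j.val))
    (fun i => avoids_sum _ _ fun j _ => avoids_X (hnot j))
    (∑ j : Fin n, Finsupp.single (lz n C j.val) 1)
    (fun i => by
      rw [Finsupp.finsetSum_apply]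
      refine Finset.sum_eq_zero fun j _ => single_ne fun h => hnot j ⟨i, h.symm⟩)
  rw [Fintype.card_fin] at h3
  rw [full, h3]
  congr 1
  have h4 := card_perm_eq_coeff (C := Fin n)
    (fun i => (univ.filter (fun j : Fin n => ent A i.val j.val = true)).image (fun j => lz n C j.val))
    (fun j => lz n C j.val)
  have hinj : Function.Injective (fun j : Fin n => lz n C j.val) := by
    intro i j h
    simp only [lz] at h
    exact Fin.ext (by omega)
  have h5 : ∏ k ∈ univ.image (fun j : Fin n => lz n C j.val),
      ((Fintype.card {c : Fin n // lz n C c.val = k}).factorial : ℤ) = 1 := by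
    refine Finset.prod_eq_one fun k hk => ?_
    rw [mem_image] at hk
    obtain ⟨j, _, rfl⟩ := hk
    have : Fintype.card {c : Fin n // lz n C c.val = lz n C j.val} = 1 := by
      rw [Fintype.card_eq_one_iff]
      exact ⟨⟨j, rfl⟩, fun c => Subtype.ext (hinj c.2)⟩
    rw [this]
    simp
  rw [h5, one_mul] at h4
  rw [F_eq_card' A hsq n rfl]
  have h6 : (univ.filter (fun σ : Equiv.Perm (Fin n) => ∀ i, ent A i.val (σ i).val = true)) =
      univ.filter (fun e : Equiv.Perm (Fin n) => ∀ c, lz n C (e c).val ∈
        (univ.filter (fun j : Fin n => ent A c.val j.val = true)).image (fun j => lz n C j.val)) := by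
    refine Finset.filter_congr fun σ _ => ?_
    refine forall_congr' fun c => ?_
    rw [mem_image]
    constructor
    · intro h
      exact ⟨σ c, by rw [mem_filter]; exact ⟨mem_univ _, h⟩, rfl⟩
    · rintro ⟨j, hj, h⟩
      rw [mem_filter] at hj
      rw [← hinj h]
      exact hj.2
  rw [h6]
  have h8 : ∑ c : Fin n, (Finsupp.single (lz n C c.val) 1 : ℕ →₀ ℕ) =
      ∑ j : Fin n, Finsupp.single (lz n C j.val) 1 := rfl
  refine Eq.trans ?_ (Eq.trans h4.symm ?_)
  · congr 1
    refine Finset.prod_congr rfl fun i _ => ?_
    rw [Finset.sum_image (fun i _ j _ h => hinj h)]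
  · congr!

/-- **The permanent from permanents of intervals with a common point.** -/
theorem perm_from_iv (hsq : ∀ r ∈ A, r.length = A.length) :
    ∑ t ∈ range (A.length + 1), (-1 : ℤ) ^ t * (A.length.choose t) *
      ((F (mat (ivL A t) (List.range (2 * A.length + cen A))) / (cen A).factorial : ℕ) : ℤ) =
      (A.length.factorial : ℤ) * (F A : ℤ) := by
  have hC : 1 ≤ cen A := by rw [cen]; omega
  have h1 : ∀ t ∈ range (A.length + 1),
      ((F (mat (ivL A t) (List.range (2 * A.length + cen A))) / (cen A).factorial : ℕ) : ℤ) =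
      coeff (full A.length (cen A)) (((edg A).map
        (fun e => ((pP e).map (lin A.length (cen A))).prod)).prod ^ t *
      ((edg A).map (fun e => ((pN e).map (lin A.length (cen A))).prod)).prod ^ (A.length - t)) := by
    intro t ht
    rw [mem_range] at ht
    have h2 := F_block A.length (cen A) hC (abL A t) (abL_length A t (by omega)) (abL_le A t)
    rw [← abL_prod]
    have h3 : ((cen A).factorial : ℤ) ≠ 0 := by exact_mod_cast (Nat.factorial_ne_zero _)
    rw [Int.natCast_div, ivL, h2]
    exact Int.mul_ediv_cancel_left _ h3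
  have h4 : ∑ t ∈ range (A.length + 1), (-1 : ℤ) ^ t * (A.length.choose t) *
      ((F (mat (ivL A t) (List.range (2 * A.length + cen A))) / (cen A).factorial : ℕ) : ℤ) =
      (-1) ^ A.length * coeff (full A.length (cen A)) ((((edg A).map
        (fun e => ((pP e).map (lin A.length (cen A))).prod)).prod -
      ((edg A).map (fun e => ((pN e).map (lin A.length (cen A))).prod)).prod) ^ A.length) := by
    rw [diff_pow, coeff_sum, Finset.mul_sum]
    refine Finset.sum_congr rfl fun t ht => ?_
    rw [h1 t ht]
    rw [mem_range] at ht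
    have h5 : ((-1 : MvPolynomial ℕ ℤ) ^ (A.length - t) * ((A.length.choose t : ℕ) : MvPolynomial ℕ ℤ)) =
        C ((-1) ^ (A.length - t) * (A.length.choose t : ℤ)) := by
      simp
    rw [h5, coeff_C_mul]
    have h6 : (-1 : ℤ) ^ A.length * (-1) ^ (A.length - t) = (-1) ^ t := by
      rw [← pow_add, show A.length + (A.length - t) = 2 * (A.length - t) + t by omega, pow_add,
        pow_mul]
      norm_num
    rw [← h6]
    ring
  rw [h4]
  have h7 : (edg A).map (fun e => ((pP e).map (lin A.length (cen A))).prod) =
      (edg A).map (fun e => ((pN e).map (lin A.length (cen A))).prod +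
        (X (lx A.length e.1) * X (lz A.length (cen A) e.2)) * (-1)) :=
    List.map_congr_left fun e _ => pP_eq _ _ e
  rw [h7, coeff_diff_pow 2 (by norm_num) (-1 : ℤ)
    (fun e : ℕ × ℕ => ((pN e).map (lin A.length (cen A))).prod)
    (fun e => X (lx A.length e.1) * X (lz A.length (cen A) e.2)) (fun _ => -1)
    (fun e => by simp [pN, const_lin]) (fun e => by simp)
    (fun e => ord_XX _ _) (edg A) A.length _ (full_degree _ _), coeff_edges A hsq]
  have h8 : (-1 : ℤ) ^ A.length * (-1) ^ A.length = 1 := by
    rw [← pow_add, ← two_mul, pow_mul]; norm_num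
  rw [← mul_assoc, h8, one_mul]

end Reduction

end Pool.Agent.H549R2.PM
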