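import Pool.Agent.H549R2.PM3

/-!
# Satisfying assignments as covers by triples
-/

namespace Pool.Agent.H549R2.PM

open Finset MvPolynomial Pool.Agent.H549R2.Convex

/-- labels -/
abbrev Lb := ℕ × ℕ × ℕ

/-- the code of a label -/
def cd (x : Lb) : ℕ := Nat.pair x.1 (Nat.pair x.2.1 x.2.2) + 1

theorem cd_inj : Function.Injective cd := by
  rintro ⟨a, b, c⟩ ⟨a', b', c'⟩ h
  simp only [cd, Nat.add_right_cancel_iff, Nat.pair_eq_pair] at h
  obtain ⟨h1, h2, h3⟩ := h
  rw [h1, h2, h3]

theorem cd_ne (x : Lb) : cd x ≠ 0 := Nat.succ_ne_zero _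

theorem sum_single_eq_iff {ι : Type*} [Fintype ι] [DecidableEq ι] (u w : ι → ℕ)
    (hw : Function.Injective w) :
    (∑ a, Finsupp.single (u a) 1 : ℕ →₀ ℕ) = ∑ a, Finsupp.single (w a) 1 ↔
      Function.Injective u ∧ ∀ a, ∃ b, w b = u a := by
  classical
  have hev : ∀ (f : ι → ℕ) (k : ℕ), (∑ a, Finsupp.single (f a) 1 : ℕ →₀ ℕ) k =
      (univ.filter (fun a => f a = k)).card := by
    intro f k
    rw [Finsupp.finsetSum_apply, Finset.card_filter]
    exact Finset.sum_congr rfl fun a _ => Finsupp.single_apply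
  constructor
  · intro h
    constructor
    · intro a b hab
      by_contra hne
      have h1 := DFunLike.congr_fun h (u a)
      rw [hev, hev] at h1
      have h2 : (univ.filter (fun c => w c = u a)).card ≤ 1 := by
        rw [Finset.card_le_one]
        intro c hc d hd
        rw [mem_filter] at hc hd
        exact hw (hc.2.trans hd.2.symm)
      have h3 : 1 < (univ.filter (fun c => u c = u a)).card := by
        rw [Finset.one_lt_card]
        exact ⟨a, by rw [mem_filter]; exact ⟨mem_univ _, rfl⟩, b,
          by rw [mem_filter]; exact ⟨mem_univ _, hab.symm⟩, hne⟩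
      omega
    · intro a
      have h1 := DFunLike.congr_fun h (u a)
      rw [hev, hev] at h1
      have h3 : 0 < (univ.filter (fun c => u c = u a)).card := by
        rw [Finset.card_pos]
        exact ⟨a, by rw [mem_filter]; exact ⟨mem_univ _, rfl⟩⟩
      rw [h1, Finset.card_pos] at h3
      obtain ⟨b, hb⟩ := h3
      rw [mem_filter] at hb
      exact ⟨b, hb.2⟩
  · rintro ⟨h1, h2⟩
    choose σ hσ using h2
    have hinj : Function.Injective σ := by
      intro a b hab
      apply h1
      rw [← hσ a, ← hσ b, hab]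
    have hbij : Function.Bijective σ := Finite.injective_iff_bijective.1 hinj
    have : ∀ a, (Finsupp.single (u a) 1 : ℕ →₀ ℕ) = Finsupp.single (w (σ a)) 1 := by
      intro a
      rw [hσ a]
    rw [Finset.sum_congr rfl (fun a _ => this a)]
    exact Function.Bijective.sum_comp hbij (fun a => (Finsupp.single (w a) 1 : ℕ →₀ ℕ))

theorem coeff_prod_univ {C κ : Type*} [Fintype C] [DecidableEq C] [Fintype κ] [DecidableEq κ]
    (g : C → κ → ℕ →₀ ℕ) (m : ℕ →₀ ℕ) :
    coeff m (∏ c, ∑ k : κ, (monomial (g c k) 1 : MvPolynomial ℕ ℤ)) =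
      (univ.filter (fun p : C → κ => ∑ c, g c (p c) = m)).card := by
  classical
  rw [Finset.prod_univ_sum, coeff_sum, Finset.card_filter, Fintype.piFinset_univ]
  push_cast
  refine Finset.sum_congr rfl fun p _ => ?_
  have : ∏ c, (monomial (g c (p c)) 1 : MvPolynomial ℕ ℤ) = monomial (∑ c, g c (p c)) 1 := by
    have h := Convex.prod_monomial (univ : Finset C) (fun c => g c (p c)) (fun _ => (1 : ℤ))
    simpa using h
  rw [this, coeff_monomial]

section Cover

variable (n m : ℕ) (s : ℕ → ℕ → Bool → Bool)

/-- index pairs -/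
abbrev Ix := Fin (n + 1) × Fin (m + 1)

/-- the labels of a choice `(b, r, t)` at the index pair `c` -/
def ul (p : Ix n m → Bool × Bool × Bool) (a : Ix n m × Fin 4) : Lb :=
  match a.2 with
  | 0 => bif (p a.1).1 then (1, a.1.1.val, (a.1.2 + 1).val) else (1, a.1.1.val, a.1.2.val)
  | 1 => bif s a.1.1.val a.1.2.val (p a.1).1 then (2, a.1.1.val, a.1.2.val)
      else (3, a.1.1.val, a.1.2.val)
  | 2 => bif (p a.1).2.1 then (3, a.1.1.val, a.1.2.val) else (2, a.1.1.val, a.1.2.val)
  | 3 => bif (p a.1).2.2 then (5, a.1.1.val, a.1.2.val) else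
      (bif (p a.1).2.1 then (6, 0, a.1.2.val) else (5, a.1.1.val + 1, a.1.2.val))

/-- all labels except those of the nodes -/
def wl (a : Ix n m × Fin 4) : Lb :=
  match a.2 with
  | 0 => (1, a.1.1.val, a.1.2.val)
  | 1 => (2, a.1.1.val, a.1.2.val)
  | 2 => (3, a.1.1.val, a.1.2.val)
  | 3 => if a.1.1.val = 0 then (6, 0, a.1.2.val) else (5, a.1.1.val, a.1.2.val)

theorem wl_inj : Function.Injective (wl n m) := by
  rintro ⟨⟨v, j⟩, i⟩ ⟨⟨v', j'⟩, i'⟩ h
  fin_cases i <;> fin_cases i' <;> simp only [wl] at h <;> (try split_ifs at h) <;>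
    simp only [Prod.mk.injEq] at h <;>
    first
    | omega
    | (have h1 : v = v' := Fin.ext (by omega)
       have h2 : j = j' := Fin.ext (by omega)
       rw [h1, h2])

theorem ul0 (p : Ix n m → Bool × Bool × Bool) (v : Fin (n + 1)) (j : Fin (m + 1)) :
    ul n m s p ((v, j), 0) = (1, v.val, (if (p (v, j)).1 = true then j + 1 else j : Fin (m + 1)).val) := by
  simp only [ul]
  cases (p (v, j)).1 <;> simp

theorem ul1 (p : Ix n m → Bool × Bool × Bool) (v : Fin (n + 1)) (j : Fin (m + 1)) :
    ul n m s p ((v, j), 1) = (if s v.val j.val (p (v, j)).1 = true then 2 else 3, v.val, j.val) := by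
  simp only [ul]
  cases s v.val j.val (p (v, j)).1 <;> simp

theorem ul2 (p : Ix n m → Bool × Bool × Bool) (v : Fin (n + 1)) (j : Fin (m + 1)) :
    ul n m s p ((v, j), 2) = (if (p (v, j)).2.1 = true then 3 else 2, v.val, j.val) := by
  simp only [ul]
  cases (p (v, j)).2.1 <;> simp

theorem ul3 (p : Ix n m → Bool × Bool × Bool) (v : Fin (n + 1)) (j : Fin (m + 1)) :
    ul n m s p ((v, j), 3) = (if (p (v, j)).2.2 = true then 5 else
      if (p (v, j)).2.1 = true then 6 else 5, if (p (v, j)).2.2 = true then v.val else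
      if (p (v, j)).2.1 = true then 0 else v.val + 1, j.val) := by
  simp only [ul]
  cases (p (v, j)).2.2 <;> cases (p (v, j)).2.1 <;> simp

/-- the conditions on a choice -/
def Good (p : Ix n m → Bool × Bool × Bool) (β : Fin (n + 1) → Bool) : Prop :=
  (∀ v j, (p (v, j)).1 = β v) ∧ (∀ v j, (p (v, j)).2.1 = s v.val j.val (β v)) ∧
    (∀ v j, (p (v, j)).2.2 = decide (∃ v' : Fin (n + 1), v' < v ∧ s v'.val j.val (β v') = true))

theorem cover_of_good (p : Ix n m → Bool × Bool × Bool) (β : Fin (n + 1) → Bool)
    (h : Good n m s p β) (hβ : ∀ j : Fin (m + 1), ∃ v : Fin (n + 1), s v.val j.val (β v) = true) :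
    Function.Injective (ul n m s p) ∧ ∀ a, ∃ b, wl n m b = ul n m s p a := by
  obtain ⟨h1, h2, h3⟩ := h
  have key : ∀ v v' : Fin (n + 1), ∀ j, v < v' → (p (v, j)).2.1 = true → (p (v', j)).2.2 = true := by
    intro v v' j hv hr
    rw [h3, decide_eq_true_eq]
    exact ⟨v, hv, by rw [← h2]; exact hr⟩
  have key2 : ∀ v v' : Fin (n + 1), ∀ j, v'.val = v.val + 1 → ¬ (p (v, j)).2.1 = true →
      ¬ (p (v, j)).2.2 = true → ¬ (p (v', j)).2.2 = true := by
    intro v v' j hv hr ht
    rw [h3, decide_eq_true_eq] at ht ⊢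
    rintro ⟨w, hw, hw2⟩
    by_cases hwv : w < v
    · exact ht ⟨w, hwv, hw2⟩
    · have : w = v := by
        apply Fin.ext
        rw [Fin.lt_def] at hw hwv
        omega
      rw [this, ← h2 v j] at hw2
      exact hr hw2
  constructor
  · rintro ⟨⟨v, j⟩, i⟩ ⟨⟨v', j'⟩, i'⟩ h
    have hx : ∀ v j, s v.val j.val (p (v, j)).1 = (p (v, j)).2.1 := fun v j => by rw [h1, h2]
    have hi : i = 0 ∨ i = 1 ∨ i = 2 ∨ i = 3 := by fin_cases i <;> simp
    have hi' : i' = 0 ∨ i' = 1 ∨ i' = 2 ∨ i' = 3 := by fin_cases i' <;> simp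
    rcases hi with rfl | rfl | rfl | rfl <;> rcases hi' with rfl | rfl | rfl | rfl <;>
      simp only [ul0, ul1, ul2, ul3, hx, Prod.mk.injEq] at h
    · obtain ⟨_, h4, h5⟩ := h
      have hv : v = v' := Fin.ext h4
      subst hv
      have h6 := Fin.ext h5
      rw [h1, h1] at h6
      split_ifs at h6 with h7
      · rw [add_right_cancel h6]
      · rw [h6]
    · split_ifs at h <;> omega
    · split_ifs at h <;> omega
    · split_ifs at h <;> omega
    · split_ifs at h <;> omega
    · rw [Fin.ext h.2.1, Fin.ext h.2.2]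
    · exfalso
      obtain ⟨h4, h5, h6⟩ := h
      have hv : v = v' := Fin.ext h5
      have hj : j = j' := Fin.ext h6
      subst hv hj
      split_ifs at h4 <;> omega
    · split_ifs at h <;> omega
    · split_ifs at h <;> omega
    · exfalso
      obtain ⟨h4, h5, h6⟩ := h
      have hv : v = v' := Fin.ext h5
      have hj : j = j' := Fin.ext h6
      subst hv hj
      split_ifs at h4 <;> omega
    · rw [Fin.ext h.2.1, Fin.ext h.2.2]
    · split_ifs at h <;> omega
    · split_ifs at h <;> omega
    · split_ifs at h <;> omega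
    · split_ifs at h <;> omega
    · obtain ⟨h4, h5, h6⟩ := h
      have hj : j = j' := Fin.ext h6
      subst hj
      suffices hvv : v = v' by rw [hvv]
      rcases lt_trichotomy v v' with hlt | heq | hgt
      · exfalso
        have hlt' := Fin.lt_def.1 hlt
        by_cases a1 : (p (v, j)).2.2 = true
        · rw [if_pos a1] at h4 h5
          split_ifs at h4 h5 <;> omega
        · rw [if_neg a1] at h4 h5
          by_cases a2 : (p (v, j)).2.1 = true
          · rw [if_pos a2] at h4 h5
            rw [if_pos (key v v' j hlt a2)] at h4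
            omega
          · rw [if_neg a2] at h4 h5
            by_cases a3 : (p (v', j)).2.2 = true
            · rw [if_pos a3] at h5
              exact key2 v v' j (by omega) a2 a1 a3
            · rw [if_neg a3] at h4 h5
              split_ifs at h4 h5
              omega
      · exact heq
      · exfalso
        have hlt' := Fin.lt_def.1 hgt
        by_cases a1 : (p (v', j)).2.2 = true
        · rw [if_pos a1] at h4 h5
          split_ifs at h4 h5 <;> omega
        · rw [if_neg a1] at h4 h5
          by_cases a2 : (p (v', j)).2.1 = true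
          · rw [if_pos a2] at h4 h5
            rw [if_pos (key v' v j hgt a2)] at h4
            omega
          · rw [if_neg a2] at h4 h5
            by_cases a3 : (p (v, j)).2.2 = true
            · rw [if_pos a3] at h5
              exact key2 v' v j (by omega) a2 a1 a3
            · rw [if_neg a3] at h4 h5
              split_ifs at h4 h5
              omega
  · rintro ⟨⟨v, j⟩, i⟩
    have hi : i = 0 ∨ i = 1 ∨ i = 2 ∨ i = 3 := by fin_cases i <;> simp
    rcases hi with rfl | rfl | rfl | rfl
    · rw [ul0]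
      exact ⟨((v, if (p (v, j)).1 = true then j + 1 else j), 0), rfl⟩
    · rw [ul1]
      split_ifs
      · exact ⟨((v, j), 1), rfl⟩
      · exact ⟨((v, j), 2), rfl⟩
    · rw [ul2]
      split_ifs
      · exact ⟨((v, j), 2), rfl⟩
      · exact ⟨((v, j), 1), rfl⟩
    · rw [ul3]
      split_ifs with a1 a2
      · refine ⟨((v, j), 3), ?_⟩
        simp only [wl]
        rw [if_neg]
        intro hv
        rw [h3, decide_eq_true_eq] at a1
        obtain ⟨v', hv', _⟩ := a1
        rw [Fin.lt_def] at hv'
        omega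
      · exact ⟨((0, j), 3), rfl⟩
      · have hv : v.val < n := by
          by_contra hv
          have hvn : v.val = n := by have := v.2; omega
          obtain ⟨w, hw⟩ := hβ j
          by_cases hwv : w = v
          · subst hwv
            rw [h2] at a2
            exact a2 hw
          · apply a1
            apply key w v j ?_ (by rw [h2]; exact hw)
            rw [Fin.lt_def]
            have := w.2
            have : w.val ≠ v.val := fun h => hwv (Fin.ext h)
            omega
        refine ⟨((⟨v.val + 1, by omega⟩, j), 3), ?_⟩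
        simp only [wl]
        rw [if_neg (by omega)]

theorem good_of_cover (p : Ix n m → Bool × Bool × Bool)
    (hinj : Function.Injective (ul n m s p)) (hran : ∀ a, ∃ b, wl n m b = ul n m s p a) :
    Good n m s p (fun v => (p (v, 0)).1) ∧
      ∀ j : Fin (m + 1), ∃ v : Fin (n + 1), s v.val j.val (p (v, 0)).1 = true := by
  -- surjectivity
  have hsurj : ∀ b, ∃ a, ul n m s p a = wl n m b := by
    choose σ hσ using hran
    have hσi : Function.Injective σ := by
      intro a b hab
      apply hinj
      rw [← hσ a, ← hσ b, hab]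
    have hσb : Function.Bijective σ := Finite.injective_iff_bijective.1 hσi
    intro b
    obtain ⟨a, ha⟩ := hσb.2 b
    exact ⟨a, by rw [← hσ a, ha]⟩
  -- first components are constant
  have hstep : ∀ v j, (p (v, j)).1 = true → (p (v, j + 1)).1 = true := by
    intro v j h
    by_contra h'
    have h1 := ul0 n m s p v j
    have h2 := ul0 n m s p v (j + 1)
    rw [if_pos h] at h1
    rw [if_neg h'] at h2
    have h3 := hinj (h1.trans h2.symm)
    simp only [Prod.mk.injEq, true_and, and_true] at h3
    rw [← h3] at h'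
    exact h' h
  have hmany : ∀ (k : ℕ) (v : Fin (n + 1)) (j : Fin (m + 1)), (p (v, j)).1 = true →
      (p (v, j + k • (1 : Fin (m + 1)))).1 = true := by
    intro k v j h
    induction k with
    | zero => simpa using h
    | succ k ih =>
      have := hstep v _ ih
      rwa [add_assoc, ← succ_nsmul] at this
  have hone : ∀ j : Fin (m + 1), j.val • (1 : Fin (m + 1)) = j := by
    intro j
    obtain ⟨k, hk⟩ := j
    simp only
    induction k with
    | zero => rw [zero_nsmul]; rfl
    | succ k ih =>
      rw [succ_nsmul, ih (by omega)]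
      apply Fin.ext
      have h1 : (1 : Fin (m + 1)).val = 1 % (m + 1) := rfl
      rw [Fin.val_add, h1]
      simp only
      rw [Nat.mod_eq_of_lt (by omega : 1 < m + 1), Nat.mod_eq_of_lt hk]
  have hall : ∀ v j j', (p (v, j)).1 = true → (p (v, j')).1 = true := by
    intro v j j' h
    have := hmany (j' - j).val v j h
    rwa [hone, add_sub_cancel] at this
  have hconst : ∀ v j, (p (v, j)).1 = (p (v, 0)).1 := by
    intro v j
    rw [Bool.eq_iff_iff]
    exact ⟨hall v j 0, hall v 0 j⟩
  have hr : ∀ v j, (p (v, j)).2.1 = s v.val j.val (p (v, j)).1 := by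
    intro v j
    by_contra h
    have h1 := ul1 n m s p v j
    have h2 := ul2 n m s p v j
    have h3 : ul n m s p ((v, j), 1) = ul n m s p ((v, j), 2) := by
      rw [h1, h2]
      cases h4 : (p (v, j)).2.1 <;> cases h5 : s v.val j.val (p (v, j)).1 <;> simp_all
    have h4 := hinj h3
    simp at h4
  have hs0 : ∀ j, ¬ (p ((0 : Fin (n + 1)), j)).2.2 = true := by
    intro j h
    obtain ⟨⟨⟨v, j'⟩, i⟩, hb⟩ := hran ((0, j), 3)
    rw [ul3, if_pos h, if_pos h] at hb
    have hi : i = 0 ∨ i = 1 ∨ i = 2 ∨ i = 3 := by fin_cases i <;> simp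
    rcases hi with rfl | rfl | rfl | rfl <;> simp only [wl] at hb <;> (try split_ifs at hb) <;>
      simp only [Prod.mk.injEq, Fin.val_zero] at hb <;> omega
  have hup : ∀ (v v' : Fin (n + 1)) (j : Fin (m + 1)), v'.val = v.val + 1 →
      ((p (v', j)).2.2 = true ↔ ((p (v, j)).2.2 = true ∨ (p (v, j)).2.1 = true)) := by
    intro v v' j hv
    constructor
    · intro h
      by_contra hcon
      push Not at hcon
      have h1 := ul3 n m s p v j
      rw [if_neg hcon.1, if_neg hcon.2, if_neg hcon.1, if_neg hcon.2, ← hv] at h1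
      have h2 := ul3 n m s p v' j
      rw [if_pos h, if_pos h] at h2
      have h3 := hinj (h1.trans h2.symm)
      simp only [Prod.mk.injEq, and_true] at h3
      rw [h3] at hv
      omega
    · intro h
      by_contra hcon
      obtain ⟨⟨⟨w, j'⟩, i⟩, hb⟩ := hsurj ((v', j), 3)
      have hw : wl n m ((v', j), 3) = (5, v'.val, j.val) := by
        simp only [wl]
        rw [if_neg (by omega)]
      rw [hw] at hb
      have hi : i = 0 ∨ i = 1 ∨ i = 2 ∨ i = 3 := by fin_cases i <;> simp
      rcases hi with rfl | rfl | rfl | rfl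
      · rw [ul0] at hb
        simp only [Prod.mk.injEq] at hb
        omega
      · rw [ul1] at hb
        split_ifs at hb <;> simp only [Prod.mk.injEq] at hb <;> omega
      · rw [ul2] at hb
        split_ifs at hb <;> simp only [Prod.mk.injEq] at hb <;> omega
      · rw [ul3] at hb
        split_ifs at hb with a1 a2
        · simp only [Prod.mk.injEq] at hb
          have e1 : w = v' := Fin.ext hb.2.1
          have e2 : j' = j := Fin.ext hb.2.2
          rw [e1, e2] at a1
          exact hcon a1
        · simp only [Prod.mk.injEq] at hb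
          omega
        · simp only [Prod.mk.injEq] at hb
          have e1 : w = v := Fin.ext (by omega)
          have e2 : j' = j := Fin.ext hb.2.2
          rw [e1, e2] at a1 a2
          rcases h with h | h
          · exact a1 h
          · exact a2 h
  have hmain : ∀ (k : ℕ) (hk : k < n + 1) (j : Fin (m + 1)), (p (⟨k, hk⟩, j)).2.2 = true ↔
      ∃ v' : Fin (n + 1), v' < ⟨k, hk⟩ ∧ s v'.val j.val (p (v', 0)).1 = true := by
    intro k
    induction k with
    | zero =>
      intro hk j
      constructor
      · intro h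
        exact absurd h (hs0 j)
      · rintro ⟨v', hv', _⟩
        rw [Fin.lt_def] at hv'
        simp only at hv'
        omega
    | succ k ih =>
      intro hk j
      rw [hup ⟨k, by omega⟩ ⟨k + 1, hk⟩ j rfl, ih (by omega) j, hr]
      constructor
      · rintro (⟨v', h1, h2⟩ | h)
        · refine ⟨v', ?_, h2⟩
          rw [Fin.lt_def] at h1 ⊢
          simp only at h1 ⊢
          omega
        · refine ⟨⟨k, by omega⟩, ?_, ?_⟩
          · rw [Fin.lt_def]
            simp only
            omega
          · rw [← hconst _ j]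
            exact h
      · rintro ⟨v', h1, h2⟩
        by_cases hv : v'.val = k
        · right
          have e : v' = ⟨k, by omega⟩ := Fin.ext hv
          rw [e] at h2
          rw [hconst _ j]
          exact h2
        · left
          refine ⟨v', ?_, h2⟩
          rw [Fin.lt_def] at h1 ⊢
          simp only at h1 ⊢
          omega
  refine ⟨⟨fun v j => hconst v j, fun v j => by rw [hr, hconst], fun v j => ?_⟩, ?_⟩
  · rw [Bool.eq_iff_iff, decide_eq_true_eq]
    exact hmain v.val v.2 j
  · intro j
    by_contra hcon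
    push Not at hcon
    have hn : ¬ (p ((⟨n, by omega⟩ : Fin (n + 1)), j)).2.2 = true := by
      intro h
      rw [hmain n (by omega) j] at h
      obtain ⟨v', _, h2⟩ := h
      exact hcon v' h2
    have hn1 : ¬ (p ((⟨n, by omega⟩ : Fin (n + 1)), j)).2.1 = true := by
      intro h
      rw [hr, hconst] at h
      exact hcon _ h
    obtain ⟨⟨⟨v, j'⟩, i⟩, hb⟩ := hran ((⟨n, by omega⟩, j), 3)
    rw [ul3, if_neg hn, if_neg hn, if_neg hn1, if_neg hn1] at hb
    have hv := v.2
    have hi : i = 0 ∨ i = 1 ∨ i = 2 ∨ i = 3 := by fin_cases i <;> simp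
    rcases hi with rfl | rfl | rfl | rfl <;> simp only [wl] at hb <;> (try split_ifs at hb) <;>
      simp only [Prod.mk.injEq] at hb <;> omega

/-- the number of covers -/
theorem cover_card :
    (univ.filter (fun p : Ix n m → Bool × Bool × Bool =>
      (∑ a, Finsupp.single (cd (ul n m s p a)) 1 : ℕ →₀ ℕ) =
        ∑ a, Finsupp.single (cd (wl n m a)) 1)).card =
      (univ.filter (fun β : Fin (n + 1) → Bool => ∀ j : Fin (m + 1), ∃ v : Fin (n + 1),
        s v.val j.val (β v) = true)).card := by
  have hiff : ∀ p : Ix n m → Bool × Bool × Bool,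
      ((∑ a, Finsupp.single (cd (ul n m s p a)) 1 : ℕ →₀ ℕ) =
        ∑ a, Finsupp.single (cd (wl n m a)) 1) ↔
      (Function.Injective (ul n m s p) ∧ ∀ a, ∃ b, wl n m b = ul n m s p a) := by
    intro p
    rw [sum_single_eq_iff (fun a => cd (ul n m s p a)) (fun a => cd (wl n m a))
      (cd_inj.comp (wl_inj n m))]
    constructor
    · rintro ⟨h1, h2⟩
      refine ⟨fun a b h => h1 (congrArg cd h), fun a => ?_⟩
      obtain ⟨b, hb⟩ := h2 a
      exact ⟨b, cd_inj hb⟩
    · rintro ⟨h1, h2⟩
      refine ⟨cd_inj.comp h1, fun a => ?_⟩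
      obtain ⟨b, hb⟩ := h2 a
      exact ⟨b, congrArg cd hb⟩
  refine Finset.card_bij (fun p _ => fun v => (p (v, 0)).1) ?_ ?_ ?_
  · intro p hp
    rw [mem_filter, hiff] at hp
    rw [mem_filter]
    exact ⟨mem_univ _, (good_of_cover n m s p hp.2.1 hp.2.2).2⟩
  · intro p hp p' hp' h
    rw [mem_filter, hiff] at hp hp'
    obtain ⟨g1, g2, g3⟩ := (good_of_cover n m s p hp.2.1 hp.2.2).1
    obtain ⟨g1', g2', g3'⟩ := (good_of_cover n m s p' hp'.2.1 hp'.2.2).1
    have hv : ∀ v, (p (v, 0)).1 = (p' (v, 0)).1 := fun v => congrFun h v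
    funext ⟨v, j⟩
    refine Prod.ext ?_ (Prod.ext ?_ ?_)
    · rw [g1, g1']
      exact hv v
    · rw [g2, g2']
      simp only [hv]
    · rw [g3, g3']
      simp only [hv]
  · intro β hβ
    rw [mem_filter] at hβ
    refine ⟨fun c => (β c.1, s c.1.val c.2.val (β c.1),
      decide (∃ v' : Fin (n + 1), v' < c.1 ∧ s v'.val c.2.val (β v') = true)), ?_, rfl⟩
    rw [mem_filter, hiff]
    exact ⟨mem_univ _, cover_of_good n m s _ β ⟨fun _ _ => rfl, fun _ _ => rfl, fun _ _ => rfl⟩ hβ.2⟩

end Cover

end Pool.Agent.H549R2.PM
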