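import Pool.Agent.H549R2.PM4

/-!
# The number of satisfying assignments as a coefficient of a power of a cubic form
-/

namespace Pool.Agent.H549R2.PM

open Finset MvPolynomial Pool.Agent.H549R2.Convex

section Cubic

variable (n m : ℕ) (s : ℕ → ℕ → Bool → Bool)

/-- the triples -/
def tri : List (Lb × Lb × Lb) :=
  (List.range (n + 1)).flatMap fun v => (List.range (m + 1)).flatMap fun j =>
    [((0, v, j), (1, v, (j + 1) % (m + 1)), bif s v j true then (2, v, j) else (3, v, j)),
     ((0, v, j), (1, v, j), bif s v j false then (2, v, j) else (3, v, j)),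
     ((4, v, j), (2, v, j), (5, v + 1, j)),
     ((4, v, j), (3, v, j), (6, 0, j)),
     ((4, v, j), (5, v, j), (2, v, j)),
     ((4, v, j), (5, v, j), (3, v, j))]

/-- the list of all labels -/
def colV : List Lb :=
  (List.range (n + 1)).flatMap fun v => (List.range (m + 1)).flatMap fun j =>
    [(0, v, j), (4, v, j), (1, v, j), (2, v, j), (3, v, j),
      if v = 0 then (6, 0, j) else (5, v, j)]

/-- the monomial of a triple -/
noncomputable def mt (E : Lb × Lb × Lb) : MvPolynomial ℕ ℤ :=
  X (cd E.1) * (X (cd E.2.1) * X (cd E.2.2))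

/-- the exponent vector of all labels -/
noncomputable def fullV : ℕ →₀ ℕ := ((colV n m).map (fun x => (Finsupp.single (cd x) 1 : ℕ →₀ ℕ))).sum

/-- the node variables -/
def nd : Ix n m ⊕ Ix n m → ℕ
  | Sum.inl c => cd (0, c.1.val, c.2.val)
  | Sum.inr c => cd (4, c.1.val, c.2.val)

/-- the options of a node -/
noncomputable def Op : Ix n m ⊕ Ix n m → MvPolynomial ℕ ℤ
  | Sum.inl c => X (cd (1, c.1.val, (c.2 + 1).val)) *
        X (cd (bif s c.1.val c.2.val true then (2, c.1.val, c.2.val) else (3, c.1.val, c.2.val))) +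
      X (cd (1, c.1.val, c.2.val)) *
        X (cd (bif s c.1.val c.2.val false then (2, c.1.val, c.2.val) else (3, c.1.val, c.2.val)))
  | Sum.inr c => X (cd (2, c.1.val, c.2.val)) * X (cd (5, c.1.val + 1, c.2.val)) +
      X (cd (3, c.1.val, c.2.val)) * X (cd (6, 0, c.2.val)) +
      X (cd (5, c.1.val, c.2.val)) * X (cd (2, c.1.val, c.2.val)) +
      X (cd (5, c.1.val, c.2.val)) * X (cd (3, c.1.val, c.2.val))

theorem nd_inj : Function.Injective (nd n m) := by
  rintro (⟨v, j⟩ | ⟨v, j⟩) (⟨v', j'⟩ | ⟨v', j'⟩) h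
  · have h := cd_inj h
    simp only [Prod.mk.injEq] at h
    rw [Fin.ext h.2.1, Fin.ext h.2.2]
  · have h := cd_inj h
    simp only [Prod.mk.injEq] at h
    omega
  · have h := cd_inj h
    simp only [Prod.mk.injEq] at h
    omega
  · have h := cd_inj h
    simp only [Prod.mk.injEq] at h
    rw [Fin.ext h.2.1, Fin.ext h.2.2]

theorem sum_tri : ((tri n m s).map mt).sum = ∑ i, X (nd n m i) * Op n m s i := by
  rw [tri, sum_flatMap_range, Finset.sum_range, Fintype.sum_sum_type, Fintype.sum_prod_type,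
    Fintype.sum_prod_type, ← Finset.sum_add_distrib]
  refine Finset.sum_congr rfl fun v _ => ?_
  rw [sum_flatMap_range, Finset.sum_range, ← Finset.sum_add_distrib]
  refine Finset.sum_congr rfl fun j _ => ?_
  have hj : (j + 1 : Fin (m + 1)).val = (j.val + 1) % (m + 1) := by
    rw [Fin.val_add]
    have h1 : (1 : Fin (m + 1)).val = 1 % (m + 1) := rfl
    rw [h1, Nat.add_mod_mod]
  simp only [List.map_cons, List.map_nil, List.sum_cons, List.sum_nil, mt, nd, Op, hj]
  ring

theorem avoids_X' {F : Set ℕ} {a : ℕ} (ha : a ∉ F) : Avoids F (X a : MvPolynomial ℕ ℤ) :=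
  avoids_X ha

theorem avoids_add {F : Set ℕ} {f g : MvPolynomial ℕ ℤ} (hf : Avoids F f) (hg : Avoids F g) :
    Avoids F (f + g) := by
  intro m hm a ha
  rw [coeff_add] at hm
  by_cases h : coeff m f = 0
  · rw [h, zero_add] at hm
    exact hg m hm a ha
  · exact hf m h a ha

theorem not_nd (x : Lb) (h0 : x.1 ≠ 0) (h4 : x.1 ≠ 4) : cd x ∉ Set.range (nd n m) := by
  rintro ⟨(⟨v, j⟩ | ⟨v, j⟩), h⟩
  · have h := cd_inj h
    rw [← h] at h0
    exact h0 rfl
  · have h := cd_inj h
    rw [← h] at h4
    exact h4 rfl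

theorem avoids_Op (i : Ix n m ⊕ Ix n m) : Avoids (Set.range (nd n m)) (Op n m s i) := by
  have hX : ∀ (k : ℕ) {a b : ℕ}, k ≠ 0 → k ≠ 4 →
      Avoids (Set.range (nd n m)) (X (cd (k, a, b)) : MvPolynomial ℕ ℤ) :=
    fun k a b h0 h4 => avoids_X (not_nd n m (k, a, b) h0 h4)
  rcases i with ⟨v, j⟩ | ⟨v, j⟩
  · refine avoids_add (Avoids.mul (hX 1 (by decide) (by decide)) ?_)
      (Avoids.mul (hX 1 (by decide) (by decide)) ?_)
    · cases s v.val j.val true
      · exact hX 3 (by decide) (by decide)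
      · exact hX 2 (by decide) (by decide)
    · cases s v.val j.val false
      · exact hX 3 (by decide) (by decide)
      · exact hX 2 (by decide) (by decide)
  · exact avoids_add (avoids_add (avoids_add
      (Avoids.mul (hX 2 (by decide) (by decide)) (hX 5 (by decide) (by decide)))
      (Avoids.mul (hX 3 (by decide) (by decide)) (hX 6 (by decide) (by decide))))
      (Avoids.mul (hX 5 (by decide) (by decide)) (hX 2 (by decide) (by decide))))
      (Avoids.mul (hX 5 (by decide) (by decide)) (hX 3 (by decide) (by decide)))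

theorem mono4 (a b c d : ℕ) : (monomial (Finsupp.single a 1 + Finsupp.single b 1 +
    Finsupp.single c 1 + Finsupp.single d 1) 1 : MvPolynomial ℕ ℤ) =
    X a * X b * (X c * X d) := by
  simp only [X, monomial_mul, mul_one, add_assoc]

theorem prod_Op : ∏ i, Op n m s i = ∏ c : Ix n m, ∑ k : Bool × Bool × Bool,
    (monomial (∑ i : Fin 4, Finsupp.single (cd (ul n m s (fun _ => k) (c, i))) 1) 1 :
      MvPolynomial ℕ ℤ) := by
  rw [Fintype.prod_sum_type, ← Finset.prod_mul_distrib]
  refine Finset.prod_congr rfl fun c _ => ?_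
  simp only [Fintype.sum_prod_type, Fintype.sum_bool, Fin.sum_univ_four, mono4, Op, ul, cond_true,
    cond_false]
  ring

theorem wl_not_nd (a : Ix n m × Fin 4) (i : Ix n m ⊕ Ix n m) : cd (wl n m a) ≠ nd n m i := by
  obtain ⟨⟨v, j⟩, k⟩ := a
  intro h
  have h1 : cd (wl n m ((v, j), k)) ∉ Set.range (nd n m) := by
    apply not_nd
    · have hk : k = 0 ∨ k = 1 ∨ k = 2 ∨ k = 3 := by fin_cases k <;> simp
      rcases hk with rfl | rfl | rfl | rfl <;> simp only [wl] <;> (try split_ifs) <;> simp
    · have hk : k = 0 ∨ k = 1 ∨ k = 2 ∨ k = 3 := by fin_cases k <;> simp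
      rcases hk with rfl | rfl | rfl | rfl <;> simp only [wl] <;> (try split_ifs) <;> simp
  exact h1 ⟨i, h.symm⟩

theorem fullV_eq : fullV n m = (∑ i, Finsupp.single (nd n m i) 1) +
    ∑ a, Finsupp.single (cd (wl n m a)) 1 := by
  rw [fullV, colV, sum_flatMap_range, Finset.sum_range, Fintype.sum_sum_type,
    Fintype.sum_prod_type, Fintype.sum_prod_type, Fintype.sum_prod_type, Fintype.sum_prod_type,
    ← Finset.sum_add_distrib, ← Finset.sum_add_distrib]
  refine Finset.sum_congr rfl fun v _ => ?_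
  rw [sum_flatMap_range, Finset.sum_range, ← Finset.sum_add_distrib, ← Finset.sum_add_distrib]
  refine Finset.sum_congr rfl fun j _ => ?_
  simp only [List.map_cons, List.map_nil, List.sum_cons, List.sum_nil, nd, wl,
    Fin.sum_univ_four, add_zero, add_assoc]

/-- the number of nodes -/
def nq : ℕ := 2 * ((n + 1) * (m + 1))

theorem coeff_tri : coeff (fullV n m) (((tri n m s).map mt).sum ^ nq n m) =
    ((nq n m).factorial : ℤ) * ((univ.filter (fun β : Fin (n + 1) → Bool =>
      ∀ j : Fin (m + 1), ∃ v : Fin (n + 1), s v.val j.val (β v) = true)).card : ℤ) := by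
  have hq : nq n m = Fintype.card (Ix n m ⊕ Ix n m) := by
    rw [Fintype.card_sum, Fintype.card_prod, Fintype.card_fin, Fintype.card_fin, nq]
    ring
  rw [sum_tri, fullV_eq, hq, coeff_nodes (R := ℤ) (nd n m) (nd_inj n m) (Op n m s)
    (avoids_Op n m s) _ (fun i => by
      rw [Finsupp.finsetSum_apply]
      exact Finset.sum_eq_zero fun a _ => single_ne (wl_not_nd n m a i)),
    prod_Op, coeff_prod_univ, ← cover_card]
  congr 3
  refine Finset.filter_congr fun p _ => ?_
  have h : (∑ a, Finsupp.single (cd (ul n m s p a)) 1 : ℕ →₀ ℕ) =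
      ∑ c, ∑ i, Finsupp.single (cd (ul n m s p (c, i))) 1 := Fintype.sum_prod_type _
  rw [h]
  rfl

theorem fullV_degree : (fullV n m).degree = 3 * nq n m := by
  rw [fullV_eq, map_add, map_sum, map_sum]
  simp only [Finsupp.degree_single, sum_const, smul_eq_mul, mul_one, card_univ]
  rw [Fintype.card_sum, Fintype.card_prod, Fintype.card_prod, Fintype.card_prod, Fintype.card_fin,
    Fintype.card_fin, Fintype.card_fin, nq]
  ring

end Cubic

end Pool.Agent.H549R2.PM
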