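import Pool.Agent.H549R2.PM5

/-!
# The number of satisfying assignments from 0-1 permanents
-/

namespace Pool.Agent.H549R2.PM

open Finset MvPolynomial Pool.Agent.H549R2.Convex

/-- the 0-1 matrix with rows given by sets of labels, one column for each label in `V` and `K`
columns of ones -/
def matL (RS : List (List Lb)) (V : List Lb) (K : ℕ) : List (List Bool) :=
  RS.map (fun r => V.map (fun x => decide (x ∈ r)) ++ (List.range K).map (fun _ => true))

/-- the linear form of a row -/
noncomputable def lr (r : List Lb) : MvPolynomial ℕ ℤ := 1 + (r.map (fun x => X (cd x))).sum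

theorem F_lab (RS : List (List Lb)) (V : List Lb) (K : ℕ) (hlen : RS.length = V.length + K)
    (hV : V.Nodup) (hRS : ∀ r ∈ RS, r.Nodup) :
    (F (matL RS V K) : ℤ) = (K.factorial : ℤ) *
      coeff ((V.map (fun x => (Finsupp.single (cd x) 1 : ℕ →₀ ℕ))).sum) ((RS.map lr).prod) := by
  classical
  set N := V.length + K with hN
  have hml : (matL RS V K).length = N := by rw [matL, List.length_map, hlen]
  have hsq : ∀ r ∈ matL RS V K, r.length = (matL RS V K).length := by
    intro r hr
    rw [matL, List.mem_map] at hr
    obtain ⟨x, _, rfl⟩ := hr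
    rw [hml, List.length_append, List.length_map, List.length_map, List.length_range]
  rw [F_eq_card' _ hsq _ hml]
  set L : List ℕ := V.map cd ++ List.replicate K 0 with hL
  have hLl : L.length = N := by
    rw [hL, List.length_append, List.length_map, List.length_replicate]
  set τ : Fin N → ℕ := fun c => L.getD c.val 0 with hτ
  set S : Fin N → Finset ℕ := fun c => ((RS.getD c.val []).map cd).toFinset with hS
  have hτ1 : ∀ c : Fin N, ∀ h : c.val < V.length, τ c = cd V[c.val] := by
    intro c h
    simp only [hτ, hL]
    rw [List.getD_append _ _ _ _ (by rw [List.length_map]; exact h), List.getD_eq_getElem _ _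
      (by rw [List.length_map]; exact h), List.getElem_map]
  have hτ2 : ∀ c : Fin N, V.length ≤ c.val → τ c = 0 := by
    intro c h
    simp only [hτ, hL]
    rw [List.getD_append_right _ _ _ _ (by rw [List.length_map]; exact h), List.length_map]
    have hc := c.2
    rw [List.getD_eq_getElem _ _ (by rw [List.length_replicate]; omega), List.getElem_replicate]
  have hS0 : ∀ c, 0 ∉ S c := by
    intro c h
    simp only [hS, List.mem_toFinset, List.mem_map] at h
    obtain ⟨x, _, hx⟩ := h
    exact cd_ne x hx
  have hτinj : ∀ c c', τ c = τ c' → τ c ≠ 0 → c = c' := by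
    intro c c' h h0
    have h1 : c.val < V.length := by
      by_contra h1
      exact h0 (hτ2 c (by omega))
    have h2 : c'.val < V.length := by
      by_contra h2
      exact h0 (h.trans (hτ2 c' (by omega)))
    rw [hτ1 c h1, hτ1 c' h2] at h
    exact Fin.ext ((List.Nodup.getElem_inj_iff hV).1 (cd_inj h))
  have hblock := card_perm_block S hS0 τ hτinj
  have hsets : (univ.filter (fun σ : Equiv.Perm (Fin N) =>
      ∀ i, ent (matL RS V K) i.val (σ i).val = true)) =
      univ.filter (fun e : Equiv.Perm (Fin N) => ∀ c, τ (e c) = 0 ∨ τ (e c) ∈ S c) := by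
    refine Finset.filter_congr fun σ _ => ?_
    refine forall_congr' fun c => ?_
    have hc : c.val < RS.length := by rw [hlen]; exact c.2
    have h1 : (matL RS V K).getD c.val [] = V.map (fun x => decide (x ∈ RS.getD c.val [])) ++
        (List.range K).map (fun _ => true) := by
      rw [matL, List.getD_eq_getElem _ _ (by rw [List.length_map]; exact hc), List.getElem_map,
        List.getD_eq_getElem _ _ hc]
    rw [ent, h1]
    by_cases h2 : (σ c).val < V.length
    · rw [List.getD_append _ _ _ _ (by rw [List.length_map]; exact h2), List.getD_eq_getElem _ _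
        (by rw [List.length_map]; exact h2), List.getElem_map, decide_eq_true_eq, hτ1 _ h2]
      simp only [hS, List.mem_toFinset, List.mem_map]
      constructor
      · intro h
        exact Or.inr ⟨_, h, rfl⟩
      · rintro (h | ⟨x, hx, h⟩)
        · exact absurd h (cd_ne _)
        · rw [← cd_inj h]
          exact hx
    · have h3 : V.length ≤ (σ c).val := by omega
      rw [List.getD_append_right _ _ _ _ (by rw [List.length_map]; exact h3), List.length_map]
      have hc' := (σ c).2
      rw [List.getD_eq_getElem _ _ (by rw [List.length_map, List.length_range]; omega),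
        List.getElem_map, hτ2 _ h3]
      simp
  rw [hsets]
  refine Eq.trans (Eq.trans ?_ hblock) ?_
  · congr!
  have hcard : (univ.filter (fun c => τ c = 0)).card = K := by
    have h1 : (univ.filter (fun c => τ c = 0)).card = L.count 0 := by
      rw [← card_getD L N hLl 0, Fintype.card_subtype]
    rw [h1, hL, List.count_append, List.count_replicate_self, List.count_eq_zero_of_not_mem,
      zero_add]
    rw [List.mem_map]
    rintro ⟨x, _, hx⟩
    exact cd_ne x hx
  have hexp : (∑ c ∈ univ.filter (fun c => τ c ≠ 0), Finsupp.single (τ c) 1 : ℕ →₀ ℕ) =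
      (V.map (fun x => (Finsupp.single (cd x) 1 : ℕ →₀ ℕ))).sum := by
    rw [Finset.sum_filter]
    have h1 := sum_getD L N hLl (fun k => if k ≠ 0 then (Finsupp.single k 1 : ℕ →₀ ℕ) else 0) 0
    refine Eq.trans h1 ?_
    rw [hL, List.map_append, List.sum_append, List.map_map, List.map_replicate,
      List.sum_replicate]
    simp only [ne_eq, not_true_eq_false, if_false, smul_zero, add_zero]
    congr 1
  have hprod : (∏ c, (1 + ∑ k ∈ S c, (X k : MvPolynomial ℕ ℤ))) = (RS.map lr).prod := by
    rw [← prod_getD RS _ hlen lr []]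
    refine Finset.prod_congr rfl fun c _ => ?_
    rw [lr]
    congr 1
    simp only [hS]
    have hc : c.val < RS.length := by rw [hlen]; exact c.2
    have h1 : (RS.getD c.val []).Nodup := by
      rw [List.getD_eq_getElem _ _ hc]
      exact hRS _ (List.getElem_mem _)
    rw [List.sum_toFinset _ (h1.map cd_inj), List.map_map]
    rfl
  rw [hcard, hexp, hprod]

section Rows

/-- the rows of a triple -/
def rP (E : Lb × Lb × Lb) : List (List Lb) := [[E.1, E.2.1, E.2.2], [E.1], [E.2.1], [E.2.2]]

/-- the rows of a triple -/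
def rN (E : Lb × Lb × Lb) : List (List Lb) := [[E.1, E.2.1], [E.1, E.2.2], [E.2.1, E.2.2], []]

/-- all rows -/
def rowsT (H : List (Lb × Lb × Lb)) (q t N : ℕ) : List (List Lb) :=
  (H.flatMap fun E => (List.range t).flatMap (fun _ => rP E) ++
    (List.range (q - t)).flatMap (fun _ => rN E)) ++ (List.range N).map (fun _ => [])

theorem rowsT_length (H : List (Lb × Lb × Lb)) (q t N : ℕ) (ht : t ≤ q) :
    (rowsT H q t N).length = N + H.length * (4 * q) := by
  rw [rowsT, List.length_append, List.length_map, List.length_range,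
    length_const _ _ (4 * q)]
  · ring
  · intro e _
    rw [List.length_append, length_const _ _ 4 (fun _ _ => rfl), length_const _ _ 4 (fun _ _ => rfl),
      List.length_range, List.length_range]
    omega

theorem rowsT_nodup (H : List (Lb × Lb × Lb)) (q t N : ℕ)
    (hH : ∀ E ∈ H, E.1 ≠ E.2.1 ∧ E.1 ≠ E.2.2 ∧ E.2.1 ≠ E.2.2) :
    ∀ r ∈ rowsT H q t N, r.Nodup := by
  intro r hr
  rw [rowsT, List.mem_append, List.mem_flatMap] at hr
  rcases hr with ⟨E, hE, h⟩ | h
  · obtain ⟨h1, h2, h3⟩ := hH E hE
    rw [List.mem_append, List.mem_flatMap, List.mem_flatMap] at h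
    rcases h with ⟨_, _, h⟩ | ⟨_, _, h⟩
    · simp only [rP, List.mem_cons, List.not_mem_nil, or_false] at h
      rcases h with rfl | rfl | rfl | rfl <;> simp [h1, h2, h3]
    · simp only [rN, List.mem_cons, List.not_mem_nil, or_false] at h
      rcases h with rfl | rfl | rfl | rfl <;> simp [h1, h2, h3]
  · rw [List.mem_map] at h
    obtain ⟨_, _, rfl⟩ := h
    exact List.nodup_nil

theorem rowsT_prod (H : List (Lb × Lb × Lb)) (q t N : ℕ) : ((rowsT H q t N).map lr).prod =
    (H.map (fun e => ((rP e).map lr).prod)).prod ^ t *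
    (H.map (fun e => ((rN e).map lr).prod)).prod ^ (q - t) := by
  rw [rowsT, List.map_append, List.prod_append, prod_flatMap]
  have h1 : (((List.range N).map (fun _ => ([] : List Lb))).map lr).prod = 1 := by
    rw [List.map_map]
    apply List.prod_eq_one
    intro x hx
    rw [List.mem_map] at hx
    obtain ⟨_, _, rfl⟩ := hx
    simp [lr]
  rw [h1, mul_one]
  simp only [List.map_append, List.prod_append, prod_rep]
  rw [List.prod_map_mul, prod_map_pow' H (fun e => ((rP e).map lr).prod) t,
    prod_map_pow' H (fun e => ((rN e).map lr).prod) (q - t)]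

theorem rP_eq (E : Lb × Lb × Lb) : ((rP E).map lr).prod = ((rN E).map lr).prod +
    mt E * (2 + (X (cd E.1) + (X (cd E.2.1) + X (cd E.2.2)))) := by
  simp only [rP, rN, List.map_cons, List.map_nil, List.prod_cons, List.prod_nil, lr, mt,
    List.sum_cons, List.sum_nil]
  ring

theorem ord_mt (E : Lb × Lb × Lb) : Ord 3 (mt E) := by
  have h : ∀ a : ℕ, Ord 1 (X a : MvPolynomial ℕ ℤ) := fun a => Ord.one_of (by simp)
  exact (h _).mul ((h _).mul (h _))

variable (n m : ℕ) (s : ℕ → ℕ → Bool → Bool)

theorem tri_distinct : ∀ E ∈ tri n m s, E.1 ≠ E.2.1 ∧ E.1 ≠ E.2.2 ∧ E.2.1 ≠ E.2.2 := by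
  intro E hE
  rw [tri, List.mem_flatMap] at hE
  obtain ⟨v, _, hE⟩ := hE
  rw [List.mem_flatMap] at hE
  obtain ⟨j, _, hE⟩ := hE
  simp only [List.mem_cons, List.not_mem_nil, or_false] at hE
  rcases hE with rfl | rfl | rfl | rfl | rfl | rfl
  · cases s v j true <;> simp
  · cases s v j false <;> simp
  · simp
  · simp
  · simp
  · simp

theorem tri_length : (tri n m s).length = 3 * nq n m := by
  rw [tri, length_const _ _ ((m + 1) * 6), List.length_range, nq]
  · ring
  · intro v _
    rw [length_const _ _ 6 (fun _ _ => rfl), List.length_range]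

theorem colV_length : (colV n m).length = 3 * nq n m := by
  rw [colV, length_const _ _ ((m + 1) * 6), List.length_range, nq]
  · ring
  · intro v _
    rw [length_const _ _ 6 (fun _ _ => rfl), List.length_range]

theorem colV_nodup : (colV n m).Nodup := by
  rw [colV, List.nodup_flatMap]
  constructor
  · intro v _
    rw [List.nodup_flatMap]
    constructor
    · intro j _
      by_cases hv : v = 0 <;> simp [hv]
    · refine List.nodup_range.imp ?_
      intro j j' hj
      simp only [Function.onFun]
      intro x hx hx'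
      simp only [List.mem_cons, List.not_mem_nil, or_false] at hx hx'
      have h1 : x.2.2 = j := by
        rcases hx with rfl | rfl | rfl | rfl | rfl | rfl <;> (try split_ifs) <;> rfl
      have h2 : x.2.2 = j' := by
        rcases hx' with rfl | rfl | rfl | rfl | rfl | rfl <;> (try split_ifs) <;> rfl
      exact hj (h1.symm.trans h2)
  · refine List.nodup_range.imp ?_
    intro v v' hv
    simp only [Function.onFun]
    intro x hx hx'
    rw [List.mem_flatMap] at hx hx'
    obtain ⟨j, _, hx⟩ := hx
    obtain ⟨j', _, hx'⟩ := hx'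
    simp only [List.mem_cons, List.not_mem_nil, or_false] at hx hx'
    have h1 : x.2.1 = v := by
      rcases hx with rfl | rfl | rfl | rfl | rfl | rfl
      · rfl
      · rfl
      · rfl
      · rfl
      · rfl
      · split_ifs with h
        · exact h.symm
        · rfl
    have h2 : x.2.1 = v' := by
      rcases hx' with rfl | rfl | rfl | rfl | rfl | rfl
      · rfl
      · rfl
      · rfl
      · rfl
      · rfl
      · split_ifs with h
        · exact h.symm
        · rfl
    exact hv (h1.symm.trans h2)

/-- the number of columns of ones -/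
def nK : ℕ := 3 * nq n m * (4 * nq n m)

/-- the matrices -/
def MT (t : ℕ) : List (List Bool) :=
  matL (rowsT (tri n m s) (nq n m) t (3 * nq n m)) (colV n m) (nK n m)

theorem MT_length (t : ℕ) (ht : t ≤ nq n m) : (MT n m s t).length = 3 * nq n m + nK n m := by
  rw [MT, matL, List.length_map, rowsT_length _ _ _ _ ht, tri_length, nK]

theorem MT_square (t : ℕ) (ht : t ≤ nq n m) : ∀ r ∈ MT n m s t, r.length = (MT n m s t).length := by
  intro r hr
  rw [MT_length n m s t ht]
  rw [MT, matL, List.mem_map] at hr
  obtain ⟨x, _, rfl⟩ := hr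
  rw [List.length_append, List.length_map, List.length_map, List.length_range, colV_length]

/-- **Satisfying assignments from 0-1 permanents.** -/
theorem sat_from_perm :
    ∑ t ∈ range (nq n m + 1), (-1 : ℤ) ^ t * ((nq n m).choose t) *
      ((F (MT n m s t) / (nK n m).factorial : ℕ) : ℤ) =
      ((2 ^ nq n m * (nq n m).factorial : ℕ) : ℤ) *
      ((univ.filter (fun β : Fin (n + 1) → Bool =>
        ∀ j : Fin (m + 1), ∃ v : Fin (n + 1), s v.val j.val (β v) = true)).card : ℤ) := by
  have h1 : ∀ t ∈ range (nq n m + 1),
      ((F (MT n m s t) / (nK n m).factorial : ℕ) : ℤ) =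
      coeff (fullV n m) (((tri n m s).map (fun e => ((rP e).map lr).prod)).prod ^ t *
      ((tri n m s).map (fun e => ((rN e).map lr).prod)).prod ^ (nq n m - t)) := by
    intro t ht
    rw [mem_range] at ht
    have h2 := F_lab (rowsT (tri n m s) (nq n m) t (3 * nq n m)) (colV n m) (nK n m)
      (by rw [rowsT_length _ _ _ _ (by omega), tri_length, colV_length, nK]) (colV_nodup n m)
      (rowsT_nodup _ _ _ _ (tri_distinct n m s))
    rw [rowsT_prod] at h2
    have h3 : ((nK n m).factorial : ℤ) ≠ 0 := by exact_mod_cast (Nat.factorial_ne_zero _)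
    rw [Int.natCast_div, MT, h2]
    exact Int.mul_ediv_cancel_left _ h3
  have heven : ∀ t, t ≤ nq n m → (-1 : ℤ) ^ (nq n m - t) = (-1) ^ t := by
    intro t ht
    have h6 : (-1 : ℤ) ^ (nq n m - t) * (-1) ^ (2 * t) = (-1) ^ t := by
      rw [← pow_add, show nq n m - t + 2 * t = 2 * ((n + 1) * (m + 1)) + t by
        rw [nq] at ht ⊢; omega, pow_add, pow_mul]
      norm_num
    rw [pow_mul] at h6
    simpa using h6
  have h4 : ∑ t ∈ range (nq n m + 1), (-1 : ℤ) ^ t * ((nq n m).choose t) *
      ((F (MT n m s t) / (nK n m).factorial : ℕ) : ℤ) =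
      coeff (fullV n m) ((((tri n m s).map (fun e => ((rP e).map lr).prod)).prod -
        ((tri n m s).map (fun e => ((rN e).map lr).prod)).prod) ^ nq n m) := by
    rw [diff_pow, coeff_sum]
    refine Finset.sum_congr rfl fun t ht => ?_
    rw [h1 t ht]
    rw [mem_range] at ht
    have h5 : ((-1 : MvPolynomial ℕ ℤ) ^ (nq n m - t) *
        (((nq n m).choose t : ℕ) : MvPolynomial ℕ ℤ)) =
        C ((-1) ^ (nq n m - t) * ((nq n m).choose t : ℤ)) := by
      simp
    rw [h5, coeff_C_mul, heven t (by omega)]
  rw [h4]
  have h7 : (tri n m s).map (fun e => ((rP e).map lr).prod) =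
      (tri n m s).map (fun e => ((rN e).map lr).prod +
        mt e * (2 + (X (cd e.1) + (X (cd e.2.1) + X (cd e.2.2))))) :=
    List.map_congr_left fun e _ => rP_eq e
  have hlr : ∀ r, constantCoeff (lr r) = 1 := by
    intro r
    rw [lr, map_add, map_one, map_list_sum, List.map_map]
    have : (r.map (⇑(constantCoeff (R := ℤ) (σ := ℕ)) ∘ fun x => X (cd x))).sum = 0 := by
      apply List.sum_eq_zero
      intro x hx
      rw [List.mem_map] at hx
      obtain ⟨y, _, rfl⟩ := hx
      simp
    rw [this, add_zero]
  rw [h7, coeff_diff_pow 3 (by norm_num) (2 : ℤ)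
    (fun e : Lb × Lb × Lb => ((rN e).map lr).prod)
    mt (fun e => 2 + (X (cd e.1) + (X (cd e.2.1) + X (cd e.2.2))))
    (fun e => by simp [rN, hlr]) (fun e => by rw [map_add, map_ofNat]; simp) ord_mt (tri n m s) (nq n m) _
    (fullV_degree n m), coeff_tri]
  push_cast
  ring

end Rows

end Pool.Agent.H549R2.PM
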