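import Mathlib

/-!
# Permanents of Hessenberg matrices and an embedding of linear forms
-/

namespace Pool.Agent.H549R2.TS

open Finset

section Laplace

theorem permanent_succ_column_zero {n : ℕ} (A : Matrix (Fin (n + 1)) (Fin (n + 1)) ℕ) :
    A.permanent = ∑ i : Fin (n + 1), A i 0 * (A.submatrix i.succAbove Fin.succ).permanent := by
  classical
  -- permutations of `Fin (n+1)` are pairs (image of `0`, permutation of the rest)
  have key : ∀ i : Fin (n + 1), ∑ σ ∈ univ.filter (fun σ : Equiv.Perm (Fin (n + 1)) => σ 0 = i),
      ∏ j, A (σ j) j = A i 0 * (A.submatrix i.succAbove Fin.succ).permanent := by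
    intro i
    rw [Matrix.permanent, Finset.mul_sum]
    symm
    refine Finset.sum_bij (fun (τ : Equiv.Perm (Fin n)) _ => ?_) ?_ ?_ ?_ ?_
    · exact (finSuccEquiv' 0).trans ((Equiv.optionCongr τ).trans (finSuccEquiv' i).symm)
    · intro τ _
      rw [mem_filter]
      refine ⟨mem_univ _, ?_⟩
      simp
    · intro τ _ τ' _ h
      ext j
      have h2 := congrArg (fun g : Equiv.Perm (Fin (n + 1)) => g (Fin.succ j)) h
      simp only [Equiv.trans_apply] at h2
      have h3 : finSuccEquiv' (0 : Fin (n + 1)) j.succ = some j := by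
        have := finSuccEquiv'_succAbove (0 : Fin (n + 1)) j
        rwa [Fin.succAbove_zero] at this
      rw [h3] at h2
      exact congrArg Fin.val (by simpa using h2)
    · intro σ hσ
      rw [mem_filter] at hσ
      have hσ0 : σ 0 = i := hσ.2
      refine ⟨Equiv.removeNone ((finSuccEquiv' 0).symm.trans (σ.trans (finSuccEquiv' i))), mem_univ _, ?_⟩
      have hnone : ((finSuccEquiv' (0 : Fin (n + 1))).symm.trans (σ.trans (finSuccEquiv' i))) none =
          none := by
        simp [hσ0]
      have h4 : Equiv.optionCongr (Equiv.removeNone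
          ((finSuccEquiv' (0 : Fin (n + 1))).symm.trans (σ.trans (finSuccEquiv' i)))) =
          (finSuccEquiv' (0 : Fin (n + 1))).symm.trans (σ.trans (finSuccEquiv' i)) := by
        ext x
        cases x with
        | none => simp [hσ0]
        | some x =>
          rw [Equiv.optionCongr_apply, Option.map_some]
          have : ∃ y, ((finSuccEquiv' (0 : Fin (n + 1))).symm.trans (σ.trans (finSuccEquiv' i)))
              (some x) = some y := by
            rw [← Option.ne_none_iff_exists']
            intro h
            have h5 := h.trans hnone.symm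
            exact absurd (Equiv.injective _ h5) (by simp)
          rw [Equiv.removeNone_some _ this]
      rw [h4]
      ext x
      simp
    · intro τ _
      rw [Fin.prod_univ_succ]
      congr 1
  rw [Matrix.permanent, ← Finset.sum_fiberwise univ (fun σ : Equiv.Perm (Fin (n + 1)) => σ 0)]
  exact Finset.sum_congr rfl fun i _ => key i

end Laplace

section Hessenberg

variable (B : ℕ → ℕ → ℕ)

/-- Hessenberg matrix starting at index `k`, with first row `r` -/
def hess (m k : ℕ) (r : ℕ → ℕ) : Matrix (Fin (m + 1)) (Fin (m + 1)) ℕ :=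
  Matrix.of fun i j => if i = 0 then r (k + j.val) else B (k + i.val) (k + j.val)

theorem hess_rec (h1 : ∀ j, B (j + 1) j = 1) (h0 : ∀ i j, j + 1 < i → B i j = 0) (m k : ℕ)
    (r : ℕ → ℕ) : (hess B (m + 1) k r).permanent =
      r k * (hess B m (k + 1) (B (k + 1))).permanent + (hess B m (k + 1) r).permanent := by
  rw [permanent_succ_column_zero, Fin.sum_univ_succ, Fin.sum_univ_succ]
  have hz : ∑ i : Fin m, (hess B (m + 1) k r) i.succ.succ 0 *
      ((hess B (m + 1) k r).submatrix i.succ.succ.succAbove Fin.succ).permanent = 0 := by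
    refine Finset.sum_eq_zero fun i _ => ?_
    have : (hess B (m + 1) k r) i.succ.succ 0 = 0 := by
      rw [hess, Matrix.of_apply, if_neg (Fin.succ_ne_zero _)]
      apply h0
      simp only [Fin.val_succ, Fin.val_zero]
      omega
    rw [this, zero_mul]
  rw [hz, add_zero]
  congr 1
  · congr 1
    · congr 1
      ext i j
      simp only [hess, Matrix.submatrix_apply, Matrix.of_apply, Fin.succAbove_zero]
      rw [if_neg (Fin.succ_ne_zero _)]
      by_cases hi : i = 0
      · subst hi
        rw [if_pos rfl]
        simp only [Fin.val_succ, Fin.val_zero]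
        congr 1 <;> ring
      · rw [if_neg hi]
        simp only [Fin.val_succ]
        congr 1 <;> ring
  · have e1 : (hess B (m + 1) k r) (Fin.succ 0) 0 = 1 := by
      rw [hess, Matrix.of_apply, if_neg (Fin.succ_ne_zero _)]
      simpa using h1 k
    rw [e1, one_mul]
    congr 1
    ext i j
    simp only [hess, Matrix.submatrix_apply, Matrix.of_apply]
    by_cases hi : i = 0
    · subst hi
      have : (Fin.succ (0 : Fin (m + 1))).succAbove 0 = 0 := by simp
      rw [this, if_pos rfl, if_pos rfl]
      simp only [Fin.val_succ]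
      congr 1; ring
    · obtain ⟨i', rfl⟩ := Fin.exists_succ_eq.2 hi
      have : (Fin.succ (0 : Fin (m + 1))).succAbove i'.succ = i'.succ.succ := by
        rw [Fin.succAbove_of_le_castSucc]
        rw [Fin.le_def]
        simp
      rw [this, if_neg (Fin.succ_ne_zero _), if_neg (Fin.succ_ne_zero _)]
      simp only [Fin.val_succ]
      congr 1 <;> ring

/-- path counting -/
theorem hess_perm (h1 : ∀ j, B (j + 1) j = 1) (h0 : ∀ i j, j + 1 < i → B i j = 0) (n : ℕ)
    (φ : ℕ → ℕ) (hn : φ n = 1)
    (hφ : ∀ v, 1 ≤ v → v < n → φ v = ∑ j ∈ Ico v n, B v j * φ (j + 1)) :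
    ∀ (m k : ℕ) (r : ℕ → ℕ), k + m + 1 = n →
      (hess B m k r).permanent = ∑ j ∈ Ico k n, r j * φ (j + 1) := by
  intro m
  induction m with
  | zero =>
    intro k r hk
    have h2 : Ico k n = {k} := by
      ext x; simp only [mem_Ico, mem_singleton]; omega
    rw [h2, sum_singleton, show k + 1 = n by omega, hn, mul_one]
    simp [hess, Matrix.permanent]
  | succ m ih =>
    intro k r hk
    rw [hess_rec B h1 h0, ih (k + 1) _ (by omega), ih (k + 1) _ (by omega),
      ← hφ (k + 1) (by omega) (by omega),
      Finset.sum_eq_sum_Ico_succ_bot (show k < n by omega) (fun j => r j * φ (j + 1))]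

end Hessenberg

end Pool.Agent.H549R2.TS
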