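import Pool.Agent.H549R2.TS1

/-!
# Linear forms with prescribed weights as permanents
-/

namespace Pool.Agent.H549R2.TS

open Finset

section Embedding

variable (K N n : ℕ) (U x : ℕ → ℕ → Bool)

/-- 0-1 value -/
def bv (b : Bool) : ℕ := if b = true then 1 else 0

/-- adjacency of the layered graph, shifted by one column -/
def adj (k j : ℕ) : Bool :=
  if j + 1 = k then true
  else if j + 1 < k then false
  else if k = 0 then decide (j < K)
  else if k ≤ K then (if j < K then true else if j < K + N then U (j - K) (k - 1) else false)
  else if k ≤ K + N then (if K + N ≤ j ∧ j < K + 2 * N then x (k - K - 1) (j - K - N) else false)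
  else if k ≤ K + 2 * N then decide (j + 1 = n)
  else false

/-- row sums -/
def rs (i : ℕ) : ℕ := ∑ j ∈ range N, bv (x i j)

/-- digit sums -/
def gs (q : ℕ) : ℕ := ∑ i ∈ range N, bv (U i q) * rs N x i

/-- tail sums -/
def Ss (q : ℕ) : ℕ := ∑ p ∈ Ico q K, 2 ^ (p - q) * gs N U x p

theorem Ss_rec (q : ℕ) (hq : q < K) : Ss K N U x q = gs N U x q + 2 * Ss K N U x (q + 1) := by
  rw [Ss, Finset.sum_eq_sum_Ico_succ_bot hq, Nat.sub_self, pow_zero, one_mul, Ss, Finset.mul_sum]
  congr 1
  refine Finset.sum_congr rfl fun p hp => ?_
  rw [mem_Ico] at hp
  rw [← mul_assoc, ← pow_succ']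
  congr 2
  omega

theorem sum_tail : ∀ d q : ℕ, q + d = K →
    ∑ j ∈ Ico q K, (gs N U x j + Ss K N U x (j + 1)) = Ss K N U x q := by
  intro d
  induction d with
  | zero =>
    intro q hq
    have : q = K := by omega
    subst this
    simp [Ss]
  | succ d ih =>
    intro q hq
    rw [Finset.sum_eq_sum_Ico_succ_bot (show q < K by omega), ih (q + 1) (by omega),
      Ss_rec K N U x q (by omega)]
    ring

/-- number of paths to the end -/
def ph (v : ℕ) : ℕ :=
  if v ≤ K then gs N U x (v - 1) + Ss K N U x v
  else if v ≤ K + N then rs N x (v - K - 1)
  else if v ≤ K + 2 * N then 1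
  else if v = n then 1 else 0

theorem adj_perm (m : ℕ) (hm : K + 2 * N ≤ m) :
    (Matrix.of fun i j : Fin (m + 1) => bv (adj K N (m + 1) U x i.val j.val)).permanent =
      ∑ p ∈ range K, 2 ^ p * gs N U x p := by
  set B : ℕ → ℕ → ℕ := fun i j => bv (adj K N (m + 1) U x i j) with hB
  have h1 : ∀ j, B (j + 1) j = 1 := by
    intro j
    simp [hB, adj, bv]
  have h0 : ∀ i j, j + 1 < i → B i j = 0 := by
    intro i j h
    simp only [hB, adj]
    rw [if_neg (by omega), if_pos h]
    rfl
  have hmat : (Matrix.of fun i j : Fin (m + 1) => bv (adj K N (m + 1) U x i.val j.val)) =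
      hess B m 0 (B 0) := by
    ext i j
    simp only [hess, Matrix.of_apply, zero_add]
    by_cases hi : i = 0
    · subst hi; simp [hB]
    · rw [if_neg hi]
  have hn : ph K N (m + 1) U x (m + 1) = 1 := by
    rw [ph, if_neg (by omega), if_neg (by omega), if_neg (by omega), if_pos rfl]
  have hr : ∀ j ∈ Ico K (K + N), ph K N (m + 1) U x (j + 1) = rs N x (j - K) := by
    intro j hj
    rw [mem_Ico] at hj
    rw [ph, if_neg (by omega), if_pos (by omega)]
    congr 1
    omega
  have hφ : ∀ v, 1 ≤ v → v < m + 1 → ph K N (m + 1) U x v =
      ∑ j ∈ Ico v (m + 1), B v j * ph K N (m + 1) U x (j + 1) := by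
    intro v hv1 hv2
    by_cases c1 : v ≤ K
    · rw [← Finset.sum_Ico_consecutive _ c1 (show K ≤ m + 1 by omega),
        ← Finset.sum_Ico_consecutive _ (show K ≤ K + N by omega) (show K + N ≤ m + 1 by omega)]
      have e1 : ∑ j ∈ Ico v K, B v j * ph K N (m + 1) U x (j + 1) = Ss K N U x v := by
        rw [← sum_tail K N U x (K - v) v (by omega)]
        refine Finset.sum_congr rfl fun j hj => ?_
        rw [mem_Ico] at hj
        have : B v j = 1 := by
          simp only [hB, adj]
          rw [if_neg (by omega), if_neg (by omega), if_neg (by omega), if_pos c1, if_pos hj.2]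
          rfl
        rw [this, one_mul, ph, if_pos (by omega)]
        rfl
      have e2 : ∑ j ∈ Ico K (K + N), B v j * ph K N (m + 1) U x (j + 1) = gs N U x (v - 1) := by
        rw [gs, Finset.sum_Ico_eq_sum_range, show K + N - K = N by omega]
        refine Finset.sum_congr rfl fun i hi => ?_
        rw [mem_range] at hi
        rw [hr (K + i) (by rw [mem_Ico]; omega)]
        have : B v (K + i) = bv (U i (v - 1)) := by
          simp only [hB, adj]
          rw [if_neg (by omega), if_neg (by omega), if_neg (by omega), if_pos c1, if_neg (by omega),
            if_pos (by omega), show K + i - K = i by omega]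
        rw [this, show K + i - K = i by omega]
      have e3 : ∑ j ∈ Ico (K + N) (m + 1), B v j * ph K N (m + 1) U x (j + 1) = 0 := by
        refine Finset.sum_eq_zero fun j hj => ?_
        rw [mem_Ico] at hj
        have : B v j = 0 := by
          simp only [hB, adj]
          rw [if_neg (by omega), if_neg (by omega), if_neg (by omega), if_pos c1, if_neg (by omega),
            if_neg (by omega)]
          rfl
        rw [this, zero_mul]
      rw [e1, e2, e3, ph, if_pos c1]
      ring
    · by_cases c2 : v ≤ K + N
      · rw [← Finset.sum_Ico_consecutive _ (show v ≤ K + N by omega) (show K + N ≤ m + 1 by omega),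
          ← Finset.sum_Ico_consecutive _ (show K + N ≤ K + 2 * N by omega)
            (show K + 2 * N ≤ m + 1 by omega)]
        have e1 : ∑ j ∈ Ico v (K + N), B v j * ph K N (m + 1) U x (j + 1) = 0 := by
          refine Finset.sum_eq_zero fun j hj => ?_
          rw [mem_Ico] at hj
          have : B v j = 0 := by
            simp only [hB, adj]
            rw [if_neg (by omega), if_neg (by omega), if_neg (by omega), if_neg c1, if_pos c2,
              if_neg (by omega)]
            rfl
          rw [this, zero_mul]
        have e2 : ∑ j ∈ Ico (K + N) (K + 2 * N), B v j * ph K N (m + 1) U x (j + 1) =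
            rs N x (v - K - 1) := by
          rw [rs, Finset.sum_Ico_eq_sum_range, show K + 2 * N - (K + N) = N by omega]
          refine Finset.sum_congr rfl fun i hi => ?_
          rw [mem_range] at hi
          have h2 : B v (K + N + i) = bv (x (v - K - 1) i) := by
            simp only [hB, adj]
            rw [if_neg (by omega), if_neg (by omega), if_neg (by omega), if_neg c1, if_pos c2,
              if_pos (by omega), show K + N + i - K - N = i by omega]
          have h3 : ph K N (m + 1) U x (K + N + i + 1) = 1 := by
            rw [ph, if_neg (by omega), if_neg (by omega), if_pos (by omega)]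
          rw [h2, h3, mul_one]
        have e3 : ∑ j ∈ Ico (K + 2 * N) (m + 1), B v j * ph K N (m + 1) U x (j + 1) = 0 := by
          refine Finset.sum_eq_zero fun j hj => ?_
          rw [mem_Ico] at hj
          have : B v j = 0 := by
            simp only [hB, adj]
            rw [if_neg (by omega), if_neg (by omega), if_neg (by omega), if_neg c1, if_pos c2,
              if_neg (by omega)]
            rfl
          rw [this, zero_mul]
        rw [e1, e2, e3, ph, if_neg c1, if_pos c2]
        ring
      · by_cases c3 : v ≤ K + 2 * N
        · rw [ph, if_neg c1, if_neg c2, if_pos c3, Finset.sum_eq_single m]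
          · rw [hn, mul_one]
            simp only [hB, adj]
            rw [if_neg (by omega), if_neg (by omega), if_neg (by omega), if_neg c1, if_neg c2,
              if_pos c3]
            simp [bv]
          · intro j hj hjm
            rw [mem_Ico] at hj
            have : B v j = 0 := by
              simp only [hB, adj]
              rw [if_neg (by omega), if_neg (by omega), if_neg (by omega), if_neg c1, if_neg c2,
                if_pos c3]
              have : ¬ (j + 1 = m + 1) := by omega
              simp [bv, this]
              omega
            rw [this, zero_mul]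
          · intro h
            exfalso
            apply h
            rw [mem_Ico]
            omega
        · rw [ph, if_neg c1, if_neg c2, if_neg c3, if_neg (by omega)]
          symm
          refine Finset.sum_eq_zero fun j hj => ?_
          rw [mem_Ico] at hj
          have : B v j = 0 := by
            simp only [hB, adj]
            rw [if_neg (by omega), if_neg (by omega), if_neg (by omega), if_neg c1, if_neg c2,
              if_neg c3]
            rfl
          rw [this, zero_mul]
  rw [hmat, hess_perm B h1 h0 (m + 1) (ph K N (m + 1) U x) hn hφ m 0 _ (by omega),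
    ← Finset.sum_Ico_consecutive _ (show 0 ≤ K by omega) (show K ≤ m + 1 by omega)]
  have e1 : ∑ j ∈ Ico 0 K, B 0 j * ph K N (m + 1) U x (j + 1) = Ss K N U x 0 := by
    rw [← sum_tail K N U x K 0 (by omega)]
    refine Finset.sum_congr rfl fun j hj => ?_
    rw [mem_Ico] at hj
    have : B 0 j = 1 := by
      simp only [hB, adj]
      rw [if_neg (by omega), if_neg (by omega), if_true]
      simp [bv, hj.2]
    rw [this, one_mul, ph, if_pos (by omega)]
    rfl
  have e2 : ∑ j ∈ Ico K (m + 1), B 0 j * ph K N (m + 1) U x (j + 1) = 0 := by
    refine Finset.sum_eq_zero fun j hj => ?_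
    rw [mem_Ico] at hj
    have : B 0 j = 0 := by
      simp only [hB, adj]
      rw [if_neg (by omega), if_neg (by omega), if_true]
      simp [bv, hj.1]
    rw [this, zero_mul]
  rw [e1, e2, add_zero, Ss, Finset.range_eq_Ico]
  rfl

end Embedding

end Pool.Agent.H549R2.TS
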