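import Mathlib

/-!
# Few solutions of random linear equations modulo `2^K` in cubes with few fixed coordinates
-/

namespace Pool.Agent.H549R2.TS

open Finset

noncomputable section

/-- the standard character of `ZMod (2^K)` -/
abbrev chi (K : ℕ) : AddChar (ZMod (2 ^ K)) ℂ := ZMod.stdAddChar (N := 2 ^ K)

theorem norm_chi (K : ℕ) (a : ZMod (2 ^ K)) : ‖chi K a‖ = 1 := by
  rw [ZMod.stdAddChar_apply]
  exact Circle.norm_coe _

theorem chi_sum {ι : Type*} (K : ℕ) (s : Finset ι) (g : ι → ZMod (2 ^ K)) :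
    chi K (∑ i ∈ s, g i) = ∏ i ∈ s, chi K (g i) := by
  classical
  induction s using Finset.induction_on with
  | empty => simp
  | insert i s hi ih => rw [sum_insert hi, prod_insert hi, AddChar.map_add_eq_mul, ih]

theorem exists_neg_one (K : ℕ) (a : ZMod (2 ^ K)) (ha : a ≠ 0) :
    ∃ c : ZMod (2 ^ K), chi K (a * c) = -1 := by
  classical
  have hex : ∃ s : ℕ, a * (2 : ZMod (2 ^ K)) ^ s = 0 := by
    refine ⟨K, ?_⟩
    have : (2 : ZMod (2 ^ K)) ^ K = 0 := by
      have := ZMod.natCast_self (2 ^ K)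
      push_cast at this
      exact this
    rw [this, mul_zero]
  have hs := Nat.find_spec hex
  have hpos : Nat.find hex ≠ 0 := by
    intro h
    rw [h, pow_zero, mul_one] at hs
    exact ha hs
  obtain ⟨s, hs'⟩ := Nat.exists_eq_succ_of_ne_zero hpos
  have hmin : a * (2 : ZMod (2 ^ K)) ^ s ≠ 0 := Nat.find_min hex (by omega)
  rw [hs'] at hs
  refine ⟨2 ^ s, ?_⟩
  have h1 : chi K (a * 2 ^ s) * chi K (a * 2 ^ s) = 1 := by
    rw [← AddChar.map_add_eq_mul, ← AddChar.map_zero_eq_one (chi K)]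
    congr 1
    rw [← hs, Nat.succ_eq_add_one, pow_succ]
    ring
  have h2 : chi K (a * 2 ^ s) ≠ 1 := by
    rw [← AddChar.map_zero_eq_one (chi K)]
    exact fun h => hmin (ZMod.injective_stdAddChar h)
  rcases mul_self_eq_one_iff.1 h1 with h | h
  · exact absurd h h2
  · exact h

/-- good multipliers -/
def goodSet (K : ℕ) (a : ZMod (2 ^ K)) : Finset (ZMod (2 ^ K)) :=
  univ.filter fun w => (chi K (a * w)).re ≤ 0

theorem card_goodSet (K : ℕ) (a : ZMod (2 ^ K)) (ha : a ≠ 0) : 2 ^ K ≤ 2 * (goodSet K a).card := by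
  classical
  obtain ⟨c, hc⟩ := exists_neg_one K a ha
  have hcov : (univ : Finset (ZMod (2 ^ K))) ⊆
      goodSet K a ∪ (goodSet K a).image (fun w => w - c) := by
    intro w _
    rw [mem_union]
    by_cases h : (chi K (a * w)).re ≤ 0
    · left
      rw [goodSet, mem_filter]
      exact ⟨mem_univ _, h⟩
    · right
      rw [mem_image]
      refine ⟨w + c, ?_, by ring⟩
      rw [goodSet, mem_filter]
      refine ⟨mem_univ _, ?_⟩
      rw [mul_add, AddChar.map_add_eq_mul, hc]
      simp only [mul_neg, mul_one, Complex.neg_re]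
      linarith
  have h1 := card_le_card hcov
  rw [card_univ, ZMod.card] at h1
  have h2 := card_union_le (goodSet K a) ((goodSet K a).image (fun w => w - c))
  have h3 := card_image_le (s := goodSet K a) (f := fun w => w - c)
  omega

theorem norm_one_add_le_two (K : ℕ) (a : ZMod (2 ^ K)) : ‖1 + chi K a‖ ≤ 2 := by
  calc ‖1 + chi K a‖ ≤ ‖(1 : ℂ)‖ + ‖chi K a‖ := norm_add_le _ _
    _ = 2 := by rw [norm_one, norm_chi]; norm_num

theorem norm_one_add_sq (K : ℕ) (a : ZMod (2 ^ K)) (h : (chi K a).re ≤ 0) :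
    ‖1 + chi K a‖ ^ 2 ≤ 2 := by
  have h1 := norm_chi K a
  have h2 : ‖chi K a‖ ^ 2 = 1 := by rw [h1]; norm_num
  rw [← Complex.normSq_eq_norm_sq, Complex.normSq_apply] at h2
  rw [← Complex.normSq_eq_norm_sq, Complex.normSq_apply]
  simp only [Complex.add_re, Complex.add_im, Complex.one_re, Complex.one_im]
  nlinarith

section Choice

variable (m : ℕ)

/-- number of good coordinates -/
def gnum (u : Fin (8 * m) → ZMod (2 ^ (2 * m))) (a : ZMod (2 ^ (2 * m))) : ℕ :=
  (univ.filter fun i => u i ∈ goodSet (2 * m) a).card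

theorem exists_good : ∃ u : Fin (8 * m) → ZMod (2 ^ (2 * m)),
    ∀ a : ZMod (2 ^ (2 * m)), a ≠ 0 → m < gnum m u a := by
  classical
  by_contra hcon
  push Not at hcon
  set R : ℕ := 2 ^ (2 * m) with hR
  set f : ZMod R → ZMod R → ℝ := fun a w => if w ∈ goodSet (2 * m) a then 1 / 8 else 1 with hf
  have hf0 : ∀ a w, 0 ≤ f a w := by
    intro a w
    simp only [hf]
    split_ifs <;> norm_num
  have hprod : ∀ (u : Fin (8 * m) → ZMod R) (a : ZMod R),
      ∏ i, f a (u i) = (1 / 8 : ℝ) ^ gnum m u a := by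
    intro u a
    simp only [hf, gnum]
    rw [Finset.prod_ite]
    simp
  have hcard : Fintype.card (ZMod R) = R := ZMod.card R
  have hsum : ∀ a : ZMod R, a ≠ 0 → ∑ w, f a w ≤ 9 / 16 * (R : ℝ) := by
    intro a ha
    have h1 := card_goodSet (2 * m) a ha
    have h2 : (2 : ℝ) ^ (2 * m) ≤ 2 * ((goodSet (2 * m) a).card : ℝ) := by exact_mod_cast h1
    have h3 : ∑ w, f a w = (R : ℝ) - 7 / 8 * ((goodSet (2 * m) a).card : ℝ) := by
      have : ∀ w, f a w = 1 - 7 / 8 * (if w ∈ goodSet (2 * m) a then 1 else 0) := by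
        intro w
        simp only [hf]
        split_ifs <;> norm_num
      simp_rw [this]
      rw [Finset.sum_sub_distrib, ← Finset.mul_sum]
      simp [hcard]
    have h4 : (R : ℝ) = 2 ^ (2 * m) := by rw [hR]; push_cast; rfl
    rw [h3, h4]
    linarith
  have hlow : ∀ u : Fin (8 * m) → ZMod R,
      (1 : ℝ) ≤ ∑ a ∈ univ.erase (0 : ZMod R), 8 ^ m * ∏ i, f a (u i) := by
    intro u
    obtain ⟨a, ha, hle⟩ := hcon u
    have hnn : ∀ a' ∈ univ.erase (0 : ZMod R), (0 : ℝ) ≤ 8 ^ m * ∏ i, f a' (u i) := by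
      intro a' _
      exact mul_nonneg (by positivity) (Finset.prod_nonneg fun i _ => hf0 _ _)
    refine le_trans ?_ (Finset.single_le_sum hnn (mem_erase.2 ⟨ha, mem_univ _⟩))
    rw [hprod]
    have : (1 / 8 : ℝ) ^ m ≤ (1 / 8 : ℝ) ^ gnum m u a :=
      pow_le_pow_of_le_one (by norm_num) (by norm_num) hle
    calc (1 : ℝ) = 8 ^ m * (1 / 8) ^ m := by rw [← mul_pow]; norm_num
      _ ≤ _ := mul_le_mul_of_nonneg_left this (by positivity)
  have hupp : ∑ u : Fin (8 * m) → ZMod R, ∑ a ∈ univ.erase (0 : ZMod R),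
      (8 ^ m * ∏ i, f a (u i) : ℝ) ≤ ((R : ℝ) - 1) * (8 ^ m * (9 / 16 * (R : ℝ)) ^ (8 * m)) := by
    rw [Finset.sum_comm]
    have : ∀ a ∈ univ.erase (0 : ZMod R), ∑ u : Fin (8 * m) → ZMod R,
        (8 ^ m * ∏ i, f a (u i) : ℝ) ≤ 8 ^ m * (9 / 16 * (R : ℝ)) ^ (8 * m) := by
      intro a ha
      rw [← Finset.mul_sum, ← Fintype.sum_pow]
      refine mul_le_mul_of_nonneg_left ?_ (by positivity)
      exact pow_le_pow_left₀ (Finset.sum_nonneg fun w _ => hf0 _ _)
        (hsum a (mem_erase.1 ha).1) _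
    refine (Finset.sum_le_sum this).trans ?_
    rw [Finset.sum_const, card_erase_of_mem (mem_univ _), card_univ, hcard, nsmul_eq_mul]
    have hR1 : 1 ≤ R := Nat.one_le_two_pow
    rw [Nat.cast_sub hR1, Nat.cast_one]
  have htot : ((R : ℝ)) ^ (8 * m) ≤ ((R : ℝ) - 1) * (8 ^ m * (9 / 16 * (R : ℝ)) ^ (8 * m)) := by
    refine le_trans ?_ hupp
    have := Finset.sum_le_sum (fun u (_ : u ∈ (univ : Finset (Fin (8 * m) → ZMod R))) => hlow u)
    refine le_trans (le_of_eq ?_) this
    rw [Finset.sum_const, card_univ, Fintype.card_fun, hcard, Fintype.card_fin]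
    simp
  have hRpos : (0 : ℝ) < R := by
    have : 0 < R := Nat.two_pow_pos _
    exact_mod_cast this
  have hRn : (0 : ℝ) < (R : ℝ) ^ (8 * m) := by positivity
  rw [mul_pow] at htot
  have h5 : (R : ℝ) * (8 ^ m * (9 / 16) ^ (8 * m)) ≤ 1 := by
    have : (R : ℝ) = 4 ^ m := by
      rw [hR]; push_cast
      rw [pow_mul]; norm_num
    rw [this, pow_mul, ← mul_pow, ← mul_pow]
    exact pow_le_one₀ (by positivity) (by norm_num)
  have h6 : (8 ^ m * (9 / 16) ^ (8 * m) : ℝ) > 0 := by positivity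
  have h7 : ((R : ℝ) - 1) * (8 ^ m * (9 / 16) ^ (8 * m)) < 1 := by nlinarith
  have h8 : ((R : ℝ) - 1) * (8 ^ m * ((9 / 16) ^ (8 * m) * (R : ℝ) ^ (8 * m))) =
      (((R : ℝ) - 1) * (8 ^ m * (9 / 16) ^ (8 * m))) * (R : ℝ) ^ (8 * m) := by ring
  rw [h8] at htot
  nlinarith

end Choice

section Count

variable {ι : Type*} [Fintype ι] [DecidableEq ι]

/-- the cube of all inputs agreeing with `X` on `D` -/
def cube (D : Finset ι) (X : ι → Bool) : Finset (ι → Bool) :=
  Fintype.piFinset fun i => if i ∈ D then {X i} else univ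

theorem mem_cube (D : Finset ι) (X y : ι → Bool) : y ∈ cube D X ↔ ∀ i ∈ D, y i = X i := by
  rw [cube, Fintype.mem_piFinset]
  constructor
  · intro h i hi
    have := h i
    rw [if_pos hi, mem_singleton] at this
    exact this
  · intro h i
    split_ifs with hi
    · rw [mem_singleton]; exact h i hi
    · exact mem_univ _

theorem card_cube (D : Finset ι) (X : ι → Bool) : (cube D X).card = 2 ^ (univ \ D).card := by
  rw [cube, Fintype.card_piFinset]
  have : ∀ i : ι, (if i ∈ D then ({X i} : Finset Bool) else univ).card = if i ∈ D then 1 else 2 := by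
    intro i
    split_ifs <;> simp
  simp_rw [this]
  rw [Finset.prod_ite]
  simp only [prod_const_one, prod_const, one_mul]
  congr 2
  ext i
  simp

/-- the linear form -/
def lin {K : ℕ} (w : ι → ZMod (2 ^ K)) (y : ι → Bool) : ZMod (2 ^ K) :=
  ∑ i, if y i = true then w i else 0

theorem fourier_count {K : ℕ} (w : ι → ZMod (2 ^ K)) (D : Finset ι) (X : ι → Bool)
    (t : ZMod (2 ^ K)) :
    (2 ^ K : ℝ) * (((cube D X).filter fun y => lin w y = t).card : ℝ) ≤
      ∑ a : ZMod (2 ^ K), ∏ i ∈ univ \ D, ‖1 + chi K (a * w i)‖ := by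
  have h1 : ((2 ^ K : ℝ) : ℂ) * ((((cube D X).filter fun y => lin w y = t).card : ℝ) : ℂ) =
      ∑ a : ZMod (2 ^ K), ∑ y ∈ cube D X, chi K (a * (lin w y - t)) := by
    rw [Finset.sum_comm]
    have : ∀ y ∈ cube D X, ∑ a : ZMod (2 ^ K), chi K (a * (lin w y - t)) =
        if lin w y = t then (2 ^ K : ℂ) else 0 := by
      intro y _
      rw [AddChar.sum_mulShift _ (ZMod.isPrimitive_stdAddChar (2 ^ K)), ZMod.card]
      simp only [sub_eq_zero]
      push_cast
      rfl
    rw [Finset.sum_congr rfl this, ← Finset.sum_filter, Finset.sum_const, nsmul_eq_mul]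
    push_cast
    ring
  have h2 : ∀ a : ZMod (2 ^ K), ‖∑ y ∈ cube D X, chi K (a * (lin w y - t))‖ ≤
      ∏ i ∈ univ \ D, ‖1 + chi K (a * w i)‖ := by
    intro a
    have e1 : ∀ y : ι → Bool, chi K (a * (lin w y - t)) =
        chi K (-(a * t)) * ∏ i, (if y i = true then chi K (a * w i) else 1) := by
      intro y
      rw [mul_sub, sub_eq_neg_add, AddChar.map_add_eq_mul]
      congr 1
      rw [lin, Finset.mul_sum, chi_sum]
      refine Finset.prod_congr rfl fun i _ => ?_
      split_ifs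
      · rfl
      · rw [mul_zero, AddChar.map_zero_eq_one]
    simp_rw [e1]
    rw [← Finset.mul_sum, norm_mul, norm_chi, one_mul, cube,
      ← Finset.prod_univ_sum (fun i => if i ∈ D then ({X i} : Finset Bool) else univ)
        (fun i b => if b = true then chi K (a * w i) else 1), norm_prod,
      ← Finset.prod_sdiff (Finset.subset_univ D)]
    have e2 : ∏ i ∈ D, ‖∑ b ∈ (if i ∈ D then ({X i} : Finset Bool) else univ),
        (if b = true then chi K (a * w i) else 1)‖ = 1 := by
      refine Finset.prod_eq_one fun i hi => ?_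
      rw [if_pos hi, sum_singleton]
      split_ifs
      · exact norm_chi _ _
      · exact norm_one
    rw [e2, mul_one]
    refine le_of_eq (Finset.prod_congr rfl fun i hi => ?_)
    rw [mem_sdiff] at hi
    rw [if_neg hi.2]
    simp [add_comm]
  have h3 : (2 ^ K : ℝ) * (((cube D X).filter fun y => lin w y = t).card : ℝ) =
      ‖((2 ^ K : ℝ) : ℂ) * ((((cube D X).filter fun y => lin w y = t).card : ℝ) : ℂ)‖ := by
    rw [← Complex.ofReal_mul, Complex.norm_real, Real.norm_of_nonneg (by positivity)]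
  rw [h3, h1]
  exact (norm_sum_le _ _).trans (Finset.sum_le_sum fun a _ => h2 a)

end Count

end

end Pool.Agent.H549R2.TS
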