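import Pool.Agent.H549R2.TS3

/-!
# Prescribed bits in cubes, partition into cubes, segments of computations
-/

namespace Pool.Agent.H549R2.TS

open Finset

noncomputable section

section Bits

variable (m : ℕ)

/-- the weights -/
def wt {m : ℕ} (u : Fin (8 * m) → ZMod (2 ^ (2 * m))) : Fin (8 * m) × Fin (8 * m) → ZMod (2 ^ (2 * m)) :=
  fun p => u p.1

theorem cube_lin_count (u : Fin (8 * m) → ZMod (2 ^ (2 * m)))
    (hu : ∀ a : ZMod (2 ^ (2 * m)), a ≠ 0 → m < gnum m u a)
    (D : Finset (Fin (8 * m) × Fin (8 * m))) (hD : D.card ≤ 8 * m ^ 2)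
    (X : Fin (8 * m) × Fin (8 * m) → Bool) (t : ZMod (2 ^ (2 * m))) :
    2 ^ (2 * m) * ((cube D X).filter fun y => lin (wt u) y = t).card ≤ 2 * (cube D X).card := by
  classical
  have h1 := fourier_count (wt u) D X t
  rw [card_cube]
  set J := (univ \ D).card with hJ
  have hfac : ∀ a : ZMod (2 ^ (2 * m)), a ≠ 0 →
      ∏ i ∈ univ \ D, ‖1 + chi (2 * m) (a * wt u i)‖ ≤ 2 ^ J / 2 ^ (4 * m) := by
    intro a ha
    set G : Finset (Fin (8 * m) × Fin (8 * m)) := univ.filter fun p => u p.1 ∈ goodSet (2 * m) a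
      with hG
    have hGcard : G.card = gnum m u a * (8 * m) := by
      have : G = (univ.filter fun i => u i ∈ goodSet (2 * m) a) ×ˢ (univ : Finset (Fin (8 * m))) := by
        ext p
        simp [hG]
      rw [this, card_product, card_univ, Fintype.card_fin]
      rfl
    have hGD : 8 * m ≤ (G \ D).card := by
      have e1 : G.card - D.card ≤ (G \ D).card := le_card_sdiff D G
      have e2 : (m + 1) * (8 * m) ≤ G.card := by
        rw [hGcard]
        exact Nat.mul_le_mul_right _ (hu a ha)
      have e3 : (m + 1) * (8 * m) = 8 * m ^ 2 + 8 * m := by ring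
      omega
    have hsq : (∏ i ∈ univ \ D, ‖1 + chi (2 * m) (a * wt u i)‖) ^ 2 ≤ (2 ^ J / 2 ^ (4 * m)) ^ 2 := by
      rw [← Finset.prod_pow]
      calc ∏ i ∈ univ \ D, ‖1 + chi (2 * m) (a * wt u i)‖ ^ 2
          ≤ ∏ i ∈ univ \ D, (if i ∈ G then (2 : ℝ) else 4) := by
            refine Finset.prod_le_prod (fun i _ => by positivity) fun i _ => ?_
            split_ifs with hi
            · rw [hG, mem_filter, goodSet, mem_filter] at hi
              exact norm_one_add_sq _ _ hi.2.2
            · have := norm_one_add_le_two (2 * m) (a * wt u i)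
              have h0 := norm_nonneg (1 + chi (2 * m) (a * wt u i))
              nlinarith
        _ = ∏ i ∈ univ \ D, (4 * (if i ∈ G then (1 / 2 : ℝ) else 1)) := by
            refine Finset.prod_congr rfl fun i _ => ?_
            split_ifs <;> norm_num
        _ = 4 ^ J * (1 / 2) ^ (G \ D).card := by
            rw [Finset.prod_mul_distrib, prod_const, Finset.prod_ite, prod_const, prod_const_one,
              mul_one]
            congr 3
            ext i
            simp only [mem_filter, mem_sdiff, mem_univ, true_and]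
            tauto
        _ ≤ 4 ^ J * (1 / 2) ^ (8 * m) := by
            refine mul_le_mul_of_nonneg_left ?_ (by positivity)
            exact pow_le_pow_of_le_one (by norm_num) (by norm_num) hGD
        _ = (2 ^ J / 2 ^ (4 * m)) ^ 2 := by
            have e4 : (2 ^ J / 2 ^ (4 * m) : ℝ) ^ 2 = (2 ^ J) ^ 2 / (2 ^ (4 * m)) ^ 2 := div_pow _ _ _
            have e5 : ((2 : ℝ) ^ J) ^ 2 = 4 ^ J := by
              rw [← pow_mul, mul_comm J 2, pow_mul]; norm_num
            have e6 : ((2 : ℝ) ^ (4 * m)) ^ 2 = 2 ^ (8 * m) := by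
              rw [← pow_mul]; congr 1; ring
            rw [e4, e5, e6, one_div, inv_pow, div_eq_mul_inv]
    exact (pow_le_pow_iff_left₀ (Finset.prod_nonneg fun _ _ => norm_nonneg _) (by positivity)
      (by norm_num)).1 hsq
  have hzero : ∏ i ∈ univ \ D, ‖1 + chi (2 * m) (0 * wt u i)‖ ≤ 2 ^ J := by
    rw [hJ, ← prod_const]
    exact Finset.prod_le_prod (fun _ _ => norm_nonneg _) fun i _ => norm_one_add_le_two _ _
  have h2 : ∑ a : ZMod (2 ^ (2 * m)), ∏ i ∈ univ \ D, ‖1 + chi (2 * m) (a * wt u i)‖ ≤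
      2 ^ J + 2 ^ J := by
    rw [← Finset.add_sum_erase _ _ (mem_univ (0 : ZMod (2 ^ (2 * m))))]
    refine add_le_add hzero ?_
    refine (Finset.sum_le_sum fun a ha => hfac a (mem_erase.1 ha).1).trans ?_
    rw [sum_const, card_erase_of_mem (mem_univ _), card_univ, ZMod.card, nsmul_eq_mul]
    have e1 : ((2 ^ (2 * m) - 1 : ℕ) : ℝ) ≤ 2 ^ (4 * m) := by
      have : 2 ^ (2 * m) - 1 ≤ 2 ^ (4 * m) :=
        (Nat.sub_le _ _).trans (Nat.pow_le_pow_right (by norm_num) (by omega))
      exact_mod_cast this
    calc ((2 ^ (2 * m) - 1 : ℕ) : ℝ) * (2 ^ J / 2 ^ (4 * m))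
        ≤ 2 ^ (4 * m) * (2 ^ J / 2 ^ (4 * m)) := by
          exact mul_le_mul_of_nonneg_right e1 (by positivity)
      _ = 2 ^ J := by field_simp
  have h3 := h1.trans h2
  have h4 : ((2 ^ (2 * m) * ((cube D X).filter fun y => lin (wt u) y = t).card : ℕ) : ℝ) ≤
      ((2 * 2 ^ J : ℕ) : ℝ) := by
    push_cast
    linarith
  exact_mod_cast h4

theorem card_prescribed (K : ℕ) (B : Finset ℕ) (hB : ∀ b ∈ B, b < K) (v : ℕ → Bool) :
    (univ.filter fun t : ZMod (2 ^ K) => ∀ b ∈ B, t.val.testBit b = v b).card * 2 ^ B.card ≤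
      2 ^ K := by
  classical
  have h1 : (univ.filter fun t : ZMod (2 ^ K) => ∀ b ∈ B, t.val.testBit b = v b).card ≤
      (cube (B.attachFin hB) (fun b : Fin K => v b)).card := by
    refine Finset.card_le_card_of_injOn (fun t (b : Fin K) => t.val.testBit b) ?_ ?_
    · intro t ht
      rw [Finset.mem_coe, mem_filter] at ht
      rw [Finset.mem_coe, mem_cube]
      intro b hb
      rw [mem_attachFin] at hb
      exact ht.2 _ hb
    · intro t _ t' _ h
      apply ZMod.val_injective
      apply Nat.eq_of_testBit_eq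
      intro b
      by_cases hb : b < K
      · exact congrFun h ⟨b, hb⟩
      · have e : ∀ s : ZMod (2 ^ K), s.val.testBit b = false := fun s =>
          Nat.testBit_lt_two_pow (lt_of_lt_of_le (ZMod.val_lt s)
            (Nat.pow_le_pow_right (by norm_num) (by omega)))
        rw [e, e]
  rw [card_cube, card_sdiff_of_subset (subset_univ _), card_univ, Fintype.card_fin,
    card_attachFin] at h1
  have hBK : B.card ≤ K := by
    have : B ⊆ range K := fun b hb => mem_range.2 (hB b hb)
    simpa using card_le_card this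
  calc _ ≤ 2 ^ (K - B.card) * 2 ^ B.card := Nat.mul_le_mul_right _ h1
    _ = 2 ^ K := by rw [← pow_add, Nat.sub_add_cancel hBK]

theorem bits_count (u : Fin (8 * m) → ZMod (2 ^ (2 * m)))
    (hu : ∀ a : ZMod (2 ^ (2 * m)), a ≠ 0 → m < gnum m u a)
    (D : Finset (Fin (8 * m) × Fin (8 * m))) (hD : D.card ≤ 8 * m ^ 2)
    (X : Fin (8 * m) × Fin (8 * m) → Bool) (B : Finset ℕ) (hB : ∀ b ∈ B, b < 2 * m)
    (v : ℕ → Bool) :
    2 ^ B.card * ((cube D X).filter fun y => ∀ b ∈ B, (lin (wt u) y).val.testBit b = v b).card ≤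
      2 * (cube D X).card := by
  classical
  set S := (cube D X).filter fun y => ∀ b ∈ B, (lin (wt u) y).val.testBit b = v b with hS
  set Tt := univ.filter fun t : ZMod (2 ^ (2 * m)) => ∀ b ∈ B, t.val.testBit b = v b with hT
  have h1 : S.card = ∑ t ∈ Tt, (S.filter fun y => lin (wt u) y = t).card := by
    refine card_eq_sum_card_fiberwise ?_
    intro y hy
    rw [Finset.mem_coe, hS, mem_filter] at hy
    rw [Finset.mem_coe, hT, mem_filter]
    exact ⟨mem_univ _, hy.2⟩
  have h2 : 2 ^ (2 * m) * S.card ≤ Tt.card * (2 * (cube D X).card) := by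
    rw [h1, Finset.mul_sum, ← smul_eq_mul (Tt.card), ← sum_const]
    refine Finset.sum_le_sum fun t _ => ?_
    refine le_trans (Nat.mul_le_mul_left _ (card_le_card ?_)) (cube_lin_count m u hu D hD X t)
    intro y hy
    rw [mem_filter, hS, mem_filter] at hy
    rw [mem_filter]
    exact ⟨hy.1.1, hy.2⟩
  have h3 := card_prescribed (2 * m) B hB v
  have h4 : 2 ^ (2 * m) * (2 ^ B.card * S.card) ≤ 2 ^ (2 * m) * (2 * (cube D X).card) := by
    calc 2 ^ (2 * m) * (2 ^ B.card * S.card) = 2 ^ B.card * (2 ^ (2 * m) * S.card) := by ring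
      _ ≤ 2 ^ B.card * (Tt.card * (2 * (cube D X).card)) := Nat.mul_le_mul_left _ h2
      _ = (Tt.card * 2 ^ B.card) * (2 * (cube D X).card) := by ring
      _ ≤ 2 ^ (2 * m) * (2 * (cube D X).card) := Nat.mul_le_mul_right _ h3
  exact Nat.le_of_mul_le_mul_left h4 (Nat.two_pow_pos _)

end Bits

section Partition

theorem partition_bound {α : Type*} [Fintype α] [DecidableEq α] (C : α → Finset α)
    (hrefl : ∀ y, y ∈ C y) (hC : ∀ y y', y' ∈ C y → C y' = C y) (S : Finset α) (c d : ℕ)
    (h : ∀ y, c * (S.filter fun y' => y' ∈ C y).card ≤ d * (C y).card) :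
    c * S.card ≤ d * Fintype.card α := by
  have hcls : ∀ y y', C y' = C y ↔ y' ∈ C y := by
    intro y y'
    constructor
    · intro h
      rw [← h]
      exact hrefl _
    · exact hC y y'
  have h1 : S.card = ∑ b ∈ univ.image C, (S.filter fun y => C y = b).card :=
    card_eq_sum_card_fiberwise fun y _ => by simp
  have h2 : Fintype.card α = ∑ b ∈ univ.image C, ((univ : Finset α).filter fun y => C y = b).card := by
    rw [← card_univ]
    exact card_eq_sum_card_fiberwise fun y _ => by simp
  rw [h1, h2, Finset.mul_sum, Finset.mul_sum]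
  refine Finset.sum_le_sum fun b hb => ?_
  rw [mem_image] at hb
  obtain ⟨y, _, rfl⟩ := hb
  simp_rw [hcls]
  have : (univ.filter fun y' => y' ∈ C y) = C y := by
    ext z; simp
  rw [this]
  exact h y

end Partition

section Segment

variable {ι Q : Type*} [Fintype ι] [DecidableEq ι] (next : Q → Bool → Q)
  (read : Q → (ι → Bool) → Bool) (cell : Q → ι) (out : Q → Set (ℕ × Bool))

/-- the state after `t` steps from `q` on input `y` -/
def run (y : ι → Bool) (q : Q) : ℕ → Q
  | 0 => q
  | t + 1 => next (run y q t) (read (run y q t) y)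

omit [Fintype ι] [DecidableEq ι] in
theorem run_add (y : ι → Bool) (q : Q) (s t : ℕ) :
    run next read y q (s + t) = run next read y (run next read y q s) t := by
  induction t with
  | zero => rfl
  | succ t ih => rw [← add_assoc, run, ih, run]

/-- the visited cells -/
def visited (ℓ : ℕ) (q : Q) (y : ι → Bool) : Finset ι :=
  (range ℓ).image fun t => cell (run next read y q t)

omit [Fintype ι] in
theorem card_visited (ℓ : ℕ) (q : Q) (y : ι → Bool) :
    (visited next read cell ℓ q y).card ≤ ℓ := by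
  refine card_image_le.trans ?_
  rw [card_range]

theorem run_eq (hcell : ∀ q y y', y (cell q) = y' (cell q) → read q y = read q y') (ℓ : ℕ) (q : Q)
    (y y' : ι → Bool) (h : y' ∈ cube (visited next read cell ℓ q y) y) :
    ∀ t ≤ ℓ, run next read y' q t = run next read y q t := by
  rw [mem_cube] at h
  intro t
  induction t with
  | zero => intro _; rfl
  | succ t ih =>
    intro ht
    rw [run, run, ih (by omega)]
    congr 1
    apply hcell
    apply h
    rw [visited, mem_image]
    exact ⟨t, mem_range.2 (by omega), rfl⟩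

theorem visited_eq (hcell : ∀ q y y', y (cell q) = y' (cell q) → read q y = read q y') (ℓ : ℕ)
    (q : Q) (y y' : ι → Bool) (h : y' ∈ cube (visited next read cell ℓ q y) y) :
    visited next read cell ℓ q y' = visited next read cell ℓ q y := by
  rw [visited, visited]
  refine image_congr ?_
  intro t ht
  rw [Finset.mem_coe, mem_range] at ht
  exact congrArg cell (run_eq next read cell hcell ℓ q y y' h t (by omega))

theorem cube_eq (D : Finset ι) (y y' : ι → Bool) (h : y' ∈ cube D y) : cube D y' = cube D y := by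
  ext z
  rw [mem_cube, mem_cube]
  rw [mem_cube] at h
  constructor
  · intro hz i hi
    rw [hz i hi, h i hi]
  · intro hz i hi
    rw [hz i hi, h i hi]

/-- on input `y` the segment of length `ℓ` from `q` outputs at least `k` of the first `K` bits of
`val y`, and no wrong value for them -/
def Good (val : (ι → Bool) → ℕ) (K k ℓ : ℕ) (q : Q) (y : ι → Bool) : Prop :=
  (∃ B : Finset ℕ, B.card = k ∧ ∀ b ∈ B, b < K ∧ ∃ t < ℓ, ∃ v, (b, v) ∈ out (run next read y q t)) ∧
    ∀ b < K, ∀ t < ℓ, ∀ v, (b, v) ∈ out (run next read y q t) → v = (val y).testBit b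

open Classical in
theorem good_count {m : ℕ} (next : Q → Bool → Q)
    (read : Q → (Fin (8 * m) × Fin (8 * m) → Bool) → Bool) (cell : Q → Fin (8 * m) × Fin (8 * m))
    (out : Q → Set (ℕ × Bool))
    (hcell : ∀ q y y', y (cell q) = y' (cell q) → read q y = read q y')
    (u : Fin (8 * m) → ZMod (2 ^ (2 * m)))
    (hu : ∀ a : ZMod (2 ^ (2 * m)), a ≠ 0 → m < gnum m u a) (k ℓ : ℕ) (hℓ : ℓ ≤ 8 * m ^ 2) (q : Q) :
    2 ^ k * (univ.filter fun y => Good next read out (fun y => (lin (wt u) y).val) (2 * m) k ℓ q y).card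
      ≤ 2 * Fintype.card (Fin (8 * m) × Fin (8 * m) → Bool) := by
  refine partition_bound (fun y => cube (visited next read cell ℓ q y) y) ?_ ?_ _ _ _ ?_
  · intro y
    rw [mem_cube]
    exact fun _ _ => rfl
  · intro y y' h
    rw [visited_eq next read cell hcell ℓ q y y' h]
    exact cube_eq _ _ _ h
  · intro y0
    rw [filter_filter]
    set D := visited next read cell ℓ q y0 with hD
    have hDc : D.card ≤ 8 * m ^ 2 := (card_visited next read cell ℓ q y0).trans hℓ
    rcases Finset.eq_empty_or_nonempty (univ.filter fun y =>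
      Good next read out (fun y => (lin (wt u) y).val) (2 * m) k ℓ q y ∧ y ∈ cube D y0) with h | h
    · rw [h, card_empty, mul_zero]
      exact Nat.zero_le _
    · obtain ⟨y1, hy1⟩ := h
      rw [mem_filter] at hy1
      obtain ⟨_, ⟨⟨B, hBk, hB⟩, hc1⟩, hmem1⟩ := hy1
      have hex : ∀ b : ℕ, ∃ v : Bool, b ∈ B → ∃ t < ℓ, (b, v) ∈ out (run next read y0 q t) := by
        intro b
        by_cases hb : b ∈ B
        · obtain ⟨_, t, ht, v, hv⟩ := hB b hb
          refine ⟨v, fun _ => ⟨t, ht, ?_⟩⟩
          rwa [run_eq next read cell hcell ℓ q y0 y1 hmem1 t (by omega)] at hv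
        · exact ⟨true, fun h => absurd h hb⟩
      choose v hv using hex
      have hsub : (univ.filter fun y =>
          Good next read out (fun y => (lin (wt u) y).val) (2 * m) k ℓ q y ∧ y ∈ cube D y0) ⊆
          (cube D y0).filter fun y => ∀ b ∈ B, (lin (wt u) y).val.testBit b = v b := by
        intro y hy
        rw [mem_filter] at hy
        obtain ⟨_, ⟨_, hc⟩, hmem⟩ := hy
        rw [mem_filter]
        refine ⟨hmem, fun b hb => ?_⟩
        obtain ⟨t, ht, hvt⟩ := hv b hb
        symm
        apply hc b (hB b hb).1 t ht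
        rwa [run_eq next read cell hcell ℓ q y0 y hmem t (by omega)]
      have h5 := bits_count m u hu D hDc y0 B (fun b hb => (hB b hb).1) v
      rw [hBk] at h5
      exact (Nat.mul_le_mul_left _ (card_le_card hsub)).trans h5

end Segment

end

end Pool.Agent.H549R2.TS
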