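import Pool.Agent.H549R2.TS2
import Pool.Agent.H549R2.TS4

/-!
# Time-space tradeoff for the low bits of the 0-1 permanent: assembly
-/

namespace Pool.Agent.H549R2.TS

open Finset

noncomputable section

/-- permanent of a Boolean matrix -/
def pm {n : ℕ} (A : Matrix (Fin n) (Fin n) Bool) : ℕ :=
  (Matrix.of fun i j => if A i j = true then 1 else 0).permanent

section Embed

variable {m : ℕ}

/-- bits of the weights -/
def Ub (u : Fin (8 * m) → ZMod (2 ^ (2 * m))) (i p : ℕ) : Bool :=
  if h : i < 8 * m then (u ⟨i, h⟩).val.testBit p else false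

/-- the input as a function of natural numbers -/
def xb (y : Fin (8 * m) × Fin (8 * m) → Bool) (i j : ℕ) : Bool :=
  if h : i < 8 * m ∧ j < 8 * m then y (⟨i, h.1⟩, ⟨j, h.2⟩) else false

/-- the matrix encoding `y` -/
def Am (n : ℕ) (u : Fin (8 * m) → ZMod (2 ^ (2 * m))) (y : Fin (8 * m) × Fin (8 * m) → Bool) :
    Matrix (Fin n) (Fin n) Bool :=
  fun i j => adj (2 * m) (8 * m) n (Ub u) (xb y) i.val j.val

theorem sum_bits (K t : ℕ) : ∑ p ∈ range K, 2 ^ p * bv (t.testBit p) = t % 2 ^ K := by
  induction K with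
  | zero => simp [Nat.mod_one]
  | succ K ih =>
    rw [sum_range_succ, ih, Nat.mod_pow_succ]
    congr 1
    congr 1
    rw [bv, Nat.testBit_eq_decide_div_mod_eq]
    have := Nat.mod_two_eq_zero_or_one (t / 2 ^ K)
    rcases this with h | h <;> simp [h]

theorem pm_Am (n : ℕ) (hn : 18 * m + 1 ≤ n) (u : Fin (8 * m) → ZMod (2 ^ (2 * m)))
    (y : Fin (8 * m) × Fin (8 * m) → Bool) :
    pm (Am n u y) % 2 ^ (2 * m) = (lin (wt u) y).val := by
  obtain ⟨n', rfl⟩ := Nat.exists_eq_add_of_lt (show 0 < n by omega)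
  rw [zero_add] at hn ⊢
  have h1 : pm (Am (n' + 1) u y) = ∑ p ∈ range (2 * m), 2 ^ p * gs (8 * m) (Ub u) (xb y) p :=
    adj_perm (2 * m) (8 * m) (Ub u) (xb y) n' (by omega)
  have h2 : pm (Am (n' + 1) u y) = ∑ i : Fin (8 * m), (u i).val * rs (8 * m) (xb y) i.val := by
    rw [h1]
    simp_rw [gs, Finset.mul_sum]
    rw [Finset.sum_comm, Finset.sum_range]
    refine Finset.sum_congr rfl fun i _ => ?_
    have : ∀ p, 2 ^ p * (bv (Ub u i.val p) * rs (8 * m) (xb y) i.val) =
        (2 ^ p * bv ((u i).val.testBit p)) * rs (8 * m) (xb y) i.val := by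
      intro p
      rw [Ub, dif_pos i.isLt]
      ring
    simp_rw [this]
    rw [← Finset.sum_mul, sum_bits, Nat.mod_eq_of_lt (ZMod.val_lt _)]
  rw [← ZMod.val_natCast]
  congr 1
  rw [h2, lin, Fintype.sum_prod_type]
  push_cast
  refine Finset.sum_congr rfl fun i _ => ?_
  rw [ZMod.natCast_zmod_val, rs, Finset.sum_range]
  push_cast
  rw [Finset.mul_sum]
  refine Finset.sum_congr rfl fun j _ => ?_
  have : xb y i.val j.val = y (i, j) := by
    rw [xb, dif_pos ⟨i.isLt, j.isLt⟩]
  rw [this, bv, wt]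
  split_ifs <;> simp

theorem testBit_pm (n : ℕ) (hn : 18 * m + 1 ≤ n) (u : Fin (8 * m) → ZMod (2 ^ (2 * m)))
    (y : Fin (8 * m) × Fin (8 * m) → Bool) (b : ℕ) (hb : b < 2 * m) :
    (pm (Am n u y)).testBit b = ((lin (wt u) y).val).testBit b := by
  rw [← pm_Am n hn u y, Nat.testBit_mod_two_pow]
  simp [hb]

/-- the cell read by a query -/
def cellOf (hm : 0 < 8 * m) {n : ℕ} (p : Fin n × Fin n) : Fin (8 * m) × Fin (8 * m) :=
  if h : (p.1.val - 2 * m - 1 < 8 * m ∧ p.2.val - 2 * m - 8 * m < 8 * m) then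
    (⟨_, h.1⟩, ⟨_, h.2⟩) else (⟨0, hm⟩, ⟨0, hm⟩)

theorem cellOf_spec (hm : 0 < 8 * m) {n : ℕ} (u : Fin (8 * m) → ZMod (2 ^ (2 * m)))
    (p : Fin n × Fin n) (y y' : Fin (8 * m) × Fin (8 * m) → Bool)
    (h : y (cellOf hm p) = y' (cellOf hm p)) : Am n u y p.1 p.2 = Am n u y' p.1 p.2 := by
  rw [Am, Am, adj, adj]
  have : xb y (p.1.val - 2 * m - 1) (p.2.val - 2 * m - 8 * m) =
      xb y' (p.1.val - 2 * m - 1) (p.2.val - 2 * m - 8 * m) := by
    rw [xb, xb]
    split_ifs with h1
    · rw [cellOf, dif_pos h1] at h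
      exact h
    · rfl
  rw [this]

end Embed

section Main

variable {n : ℕ} {Q : Type*} [Fintype Q]

theorem main (hn : 1 ≤ n) (start : Q) (query : Q → Fin n × Fin n) (next : Q → Bool → Q)
    (out : Q → Set (ℕ × Bool)) (st : Matrix (Fin n) (Fin n) Bool → ℕ → Q)
    (hst0 : ∀ A, st A 0 = start)
    (hst : ∀ A t, st A (t + 1) = next (st A t) (A (query (st A t)).1 (query (st A t)).2)) (T : ℕ)
    (hout : ∀ A, ∀ b < n, ∀ t < T, ∀ v, (b, v) ∈ out (st A t) → v = (pm A).testBit b)
    (hall : ∀ A, ∀ b < n, ∃ t < T, ∃ v, (b, v) ∈ out (st A t)) :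
    (n : ℝ) ^ 3 ≤ 17496 * (T * Real.logb 2 (Fintype.card Q)) := by
  classical
  have hT : 1 ≤ T := by
    obtain ⟨t, ht, _⟩ := hall (fun _ _ => false) 0 (by omega)
    omega
  have hQ : 2 ≤ Fintype.card Q := by
    by_contra hcon
    have hss : Subsingleton Q := Fintype.card_le_one_iff_subsingleton.1 (by omega)
    obtain ⟨t, ht, v, hv⟩ := hall (fun _ _ => false) 0 (by omega)
    have h1 := hout (fun _ _ => false) 0 (by omega) t ht v hv
    have h2 : (0, v) ∈ out (st (fun i j => decide (i = j)) t) := by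
      rwa [Subsingleton.elim (st (fun i j => decide (i = j)) t) (st (fun _ _ => false) t)]
    have h3 := hout (fun i j => decide (i = j)) 0 (by omega) t ht v h2
    have : Nonempty (Fin n) := ⟨⟨0, by omega⟩⟩
    have e1 : pm (fun _ _ => false : Matrix (Fin n) (Fin n) Bool) = 0 := by
      have : (Matrix.of fun i j : Fin n => if (fun _ _ => false : Matrix (Fin n) (Fin n) Bool) i j = true
          then 1 else 0) = (0 : Matrix (Fin n) (Fin n) ℕ) := by
        ext i j; simp
      exact (congrArg Matrix.permanent this).trans Matrix.permanent_zero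
    have e2 : pm (fun i j => decide (i = j) : Matrix (Fin n) (Fin n) Bool) = 1 := by
      have : (Matrix.of fun i j : Fin n => if (fun i j => decide (i = j) : Matrix (Fin n) (Fin n) Bool) i j
          = true then 1 else 0) = (1 : Matrix (Fin n) (Fin n) ℕ) := by
        ext i j
        simp [Matrix.one_apply]
      exact (congrArg Matrix.permanent this).trans Matrix.permanent_one
    rw [e1] at h1
    rw [e2] at h3
    rw [h1] at h3
    simp at h3
  have hQ' : (1 : ℝ) ≤ Real.logb 2 (Fintype.card Q) := by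
    rw [Real.le_logb_iff_rpow_le (by norm_num) (by positivity), Real.rpow_one]
    exact_mod_cast hQ
  have hT' : (1 : ℝ) ≤ T := by exact_mod_cast hT
  have hTL : (1 : ℝ) ≤ T * Real.logb 2 (Fintype.card Q) := by nlinarith
  obtain ⟨m, hm⟩ : ∃ m, m = (n - 1) / 18 := ⟨_, rfl⟩
  rcases Nat.eq_zero_or_pos m with hm0 | hm0
  · have : n ≤ 18 := by omega
    have h1 : (n : ℝ) ≤ 18 := by exact_mod_cast this
    have h2 : (n : ℝ) ^ 3 ≤ 18 ^ 3 := pow_le_pow_left₀ (by positivity) h1 3
    linarith
  have hnm : 18 * m + 1 ≤ n := by omega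
  have hnm2 : n ≤ 36 * m := by omega
  obtain ⟨u, hu⟩ := exists_good m
  set read : Q → (Fin (8 * m) × Fin (8 * m) → Bool) → Bool :=
    fun q y => Am n u y (query q).1 (query q).2 with hread
  set cell : Q → Fin (8 * m) × Fin (8 * m) := fun q => cellOf (by omega) (query q) with hcelld
  have hcell : ∀ q y y', y (cell q) = y' (cell q) → read q y = read q y' := by
    intro q y y' h
    exact cellOf_spec (by omega) u (query q) y y' h
  have hrun : ∀ y t, st (Am n u y) t = run next read y start t := by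
    intro y t
    induction t with
    | zero => rw [hst0, run]
    | succ t ih => rw [hst, run, ih]
  -- segments
  set h : ℕ := 8 * m ^ 2 with hh
  have hhpos : 0 < h := by positivity
  set S : ℕ := (T + h - 1) / h with hS
  have hSpos : 0 < S := Nat.div_pos (by omega) hhpos
  have hS1 : (S - 1) * h < T := by
    have h1 : S * h ≤ T + h - 1 := Nat.div_mul_le_self _ _
    have h2 : (S - 1) * h = S * h - h := by rw [Nat.sub_mul, one_mul]
    omega
  have hS2 : T ≤ S * h := by
    have h1 := Nat.div_add_mod (T + h - 1) h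
    have h2 := Nat.mod_lt (T + h - 1) hhpos
    rw [← hS, mul_comm] at h1
    omega
  set k : ℕ := (2 * m - 1) / S + 1 with hk
  have hkS : 2 * m ≤ k * S := by
    have h1 := Nat.div_add_mod (2 * m - 1) S
    have h2 := Nat.mod_lt (2 * m - 1) hSpos
    have h3 : k * S = S * ((2 * m - 1) / S) + S := by rw [hk]; ring
    omega
  set ℓ' : ℕ := T - (S - 1) * h with hℓ'
  have hℓ'h : ℓ' ≤ h := by
    have : (S - 1 + 1) * h = (S - 1) * h + h := by ring
    rw [Nat.sub_add_cancel hSpos] at this
    omega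
  -- every input has a good segment
  have hgood : ∀ y : Fin (8 * m) × Fin (8 * m) → Bool, ∃ s < S,
      Good next read out (fun y => (lin (wt u) y).val) (2 * m) k (if s + 1 < S then h else ℓ')
        (run next read y start (s * h)) y := by
    intro y
    have h1 : ∀ b : ℕ, ∃ t, b < n → t < T ∧ ∃ v, (b, v) ∈ out (st (Am n u y) t) := by
      intro b
      by_cases hb : b < n
      · obtain ⟨t, ht, hv⟩ := hall (Am n u y) b hb
        exact ⟨t, fun _ => ⟨ht, hv⟩⟩
      · exact ⟨0, fun h => absurd h hb⟩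
    choose τ hτ using h1
    have hmaps : ∀ b ∈ range (2 * m), τ b / h ∈ range S := by
      intro b hb
      rw [mem_range] at hb
      have := (hτ b (by omega)).1
      rw [mem_range, Nat.div_lt_iff_lt_mul hhpos]
      omega
    have hlt : (range S).card * ((2 * m - 1) / S) < (range (2 * m)).card := by
      rw [card_range, card_range]
      have := Nat.mul_div_le (2 * m - 1) S
      omega
    obtain ⟨s, hs, hcard⟩ := exists_lt_card_fiber_of_mul_lt_card_of_maps_to hmaps hlt
    rw [mem_range] at hs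
    obtain ⟨B, hBsub, hBk⟩ := Finset.exists_subset_card_eq (show k ≤ _ from hcard)
    refine ⟨s, hs, ⟨B, hBk, ?_⟩, ?_⟩
    · intro b hb
      have hb' := hBsub hb
      rw [mem_filter, mem_range] at hb'
      obtain ⟨hbK, hbs⟩ := hb'
      refine ⟨hbK, τ b - s * h, ?_, ?_⟩
      · have h1 := (hτ b (by omega)).1
        have h2 := Nat.lt_div_mul_add hhpos (a := τ b)
        rw [hbs] at h2
        split_ifs with hc
        · omega
        · have : s = S - 1 := by omega
          rw [hℓ', this]
          have h3 : (S - 1) * h ≤ τ b := by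
            rw [← this, ← hbs]; exact Nat.div_mul_le_self _ _
          omega
      · obtain ⟨v, hv⟩ := (hτ b (by omega)).2
        refine ⟨v, ?_⟩
        have h3 : s * h ≤ τ b := by rw [← hbs]; exact Nat.div_mul_le_self _ _
        rw [← run_add, show s * h + (τ b - s * h) = τ b by omega, ← hrun]
        exact hv
    · intro b hb t ht v hv
      rw [← testBit_pm n hnm u y b hb]
      rw [← run_add, ← hrun] at hv
      refine hout _ b (by omega) _ ?_ v hv
      split_ifs at ht with hc
      · have : (s + 1) * h ≤ (S - 1) * h := Nat.mul_le_mul_right _ (by omega)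
        rw [add_mul, one_mul] at this
        omega
      · have : s = S - 1 := by omega
        rw [this]
        omega
  have hcount := fun ℓ (hℓ : ℓ ≤ 8 * m ^ 2) q =>
    good_count next read cell out hcell u hu k ℓ hℓ q
  set NN : ℕ := Fintype.card (Fin (8 * m) × Fin (8 * m) → Bool) with hNN
  have hNNpos : 0 < NN := Fintype.card_pos
  -- long time
  have hTh : h < T := by
    by_contra hcon
    have hS' : S = 1 := by
      have h1 : (S - 1) * h < h := lt_of_lt_of_le hS1 (by omega)
      have h2 : S - 1 < 1 := by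
        by_contra h3
        have : 1 * h ≤ (S - 1) * h := Nat.mul_le_mul_right _ (by omega)
        omega
      omega
    have hcov : (univ : Finset (Fin (8 * m) × Fin (8 * m) → Bool)) ⊆ univ.filter fun y =>
        Good next read out (fun y => (lin (wt u) y).val) (2 * m) k ℓ' start y := by
      intro y _
      rw [mem_filter]
      refine ⟨mem_univ _, ?_⟩
      obtain ⟨s, hs, hg⟩ := hgood y
      rw [if_neg (by omega)] at hg
      have : s = 0 := by omega
      subst this
      rwa [zero_mul, run] at hg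
    have h1 := card_le_card hcov
    rw [card_univ, ← hNN] at h1
    have h2 := hcount ℓ' hℓ'h start
    have h3 : 2 ^ k * NN ≤ 2 * NN := (Nat.mul_le_mul_left _ h1).trans h2
    have h4 : 2 ^ k ≤ 2 := Nat.le_of_mul_le_mul_right h3 hNNpos
    have h5 : k = 2 * m := by rw [hk, hS', Nat.div_one]; omega
    have h6 : 2 ^ 2 ≤ 2 ^ k := Nat.pow_le_pow_right (by norm_num) (by omega)
    omega
  have hcov : (univ : Finset (Fin (8 * m) × Fin (8 * m) → Bool)) ⊆
      (univ : Finset Q).biUnion fun q =>
        (univ.filter fun y => Good next read out (fun y => (lin (wt u) y).val) (2 * m) k h q y) ∪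
        (univ.filter fun y => Good next read out (fun y => (lin (wt u) y).val) (2 * m) k ℓ' q y) := by
    intro y _
    obtain ⟨s, hs, hg⟩ := hgood y
    rw [mem_biUnion]
    refine ⟨_, mem_univ (run next read y start (s * h)), ?_⟩
    rw [mem_union, mem_filter, mem_filter]
    split_ifs at hg
    · exact Or.inl ⟨mem_univ _, hg⟩
    · exact Or.inr ⟨mem_univ _, hg⟩
  have h2k : 2 ^ k ≤ 4 * Fintype.card Q := by
    have h1 := (card_le_card hcov).trans card_biUnion_le
    rw [card_univ, ← hNN] at h1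
    have h2 : 2 ^ k * NN ≤ ∑ q : Q, (4 * NN) := by
      refine (Nat.mul_le_mul_left _ h1).trans ?_
      rw [Finset.mul_sum]
      refine Finset.sum_le_sum fun q _ => ?_
      refine (Nat.mul_le_mul_left _ (card_union_le _ _)).trans ?_
      rw [mul_add]
      have e1 := hcount h le_rfl q
      have e2 := hcount ℓ' hℓ'h q
      omega
    rw [sum_const, card_univ, smul_eq_mul] at h2
    have h3 : 2 ^ k * NN ≤ (4 * Fintype.card Q) * NN := by
      calc 2 ^ k * NN ≤ Fintype.card Q * (4 * NN) := h2
        _ = (4 * Fintype.card Q) * NN := by ring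
    exact Nat.le_of_mul_le_mul_right h3 hNNpos
  -- real arithmetic
  have hkL : (k : ℝ) ≤ 3 * Real.logb 2 (Fintype.card Q) := by
    have hcQ : (0 : ℝ) < Fintype.card Q := by
      have : 0 < Fintype.card Q := by omega
      exact_mod_cast this
    have h1 : (k : ℝ) ≤ Real.logb 2 (4 * Fintype.card Q) := by
      rw [Real.le_logb_iff_rpow_le (by norm_num) (by positivity), Real.rpow_natCast]
      exact_mod_cast h2k
    have h2 : Real.logb 2 (4 * Fintype.card Q) = 2 + Real.logb 2 (Fintype.card Q) := by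
      rw [Real.logb_mul (by norm_num) hcQ.ne']
      congr 1
      rw [show (4 : ℝ) = 2 ^ (2 : ℝ) by norm_num, Real.logb_rpow (by norm_num) (by norm_num)]
    rw [h2] at h1
    linarith
  have hmain : 8 * m ^ 3 ≤ k * T := by
    have h1 : S * h ≤ T + h - 1 := Nat.div_mul_le_self _ _
    have h2 : S * h ≤ 2 * T := by omega
    have h3 : 2 * m * h ≤ k * (2 * T) := by
      calc 2 * m * h ≤ (k * S) * h := Nat.mul_le_mul_right _ hkS
        _ = k * (S * h) := by ring
        _ ≤ k * (2 * T) := Nat.mul_le_mul_left _ h2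
    have h4 : 2 * m * h = 2 * (8 * m ^ 3) := by rw [hh]; ring
    have h5 : k * (2 * T) = 2 * (k * T) := by ring
    omega
  have hmain' : (8 : ℝ) * (m : ℝ) ^ 3 ≤ k * T := by exact_mod_cast hmain
  have hn3 : (n : ℝ) ^ 3 ≤ 46656 * (m : ℝ) ^ 3 := by
    have h1 : (n : ℝ) ≤ 36 * m := by exact_mod_cast hnm2
    calc (n : ℝ) ^ 3 ≤ (36 * m) ^ 3 := pow_le_pow_left₀ (by positivity) h1 3
      _ = 46656 * (m : ℝ) ^ 3 := by ring
  have h6 : (k : ℝ) * T ≤ 3 * (T * Real.logb 2 (Fintype.card Q)) := by
    calc (k : ℝ) * T ≤ (3 * Real.logb 2 (Fintype.card Q)) * T :=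
          mul_le_mul_of_nonneg_right hkL (by positivity)
      _ = 3 * (T * Real.logb 2 (Fintype.card Q)) := by ring
  linarith

end Main

end

end Pool.Agent.H549R2.TS
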